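import Pool.Agent.H949.DX.Rec

/-!
# The branching property

Definitions (`NR`, `Om`, `Lives`, `birth`, `ndLaw`, `bpLaw`) are in `DX/Defs.lean`, elementary
facts (`NR_le_one`, `measurable_NR`, `NR_anti`, `NR_mono_g`, `NR_neg`) in `DX/Rec.lean`.

Paper proof of `bp_no_line`. Put, for a law `ρ0` of the root and `g`, `s ≥ 0`,
`A ρ0 g s := bpLaw ρ0 ρ μ {ω | ∀ u, u.length = g → Lives ω u → s < birth ω u}`. Claim:
`A ρ0 g s = ∫⁻ k, (NR ρ μ g s)^k ∂ρ0` for all `ρ0` with `ρ0 {0} = 0`. (If `ρ0 {0} = 0` and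
`ρ {0} = 0`; for `g = 0` the only `u` is `[]`, it lives and has birth time `0`, so with `0 ≤ s` the
event is empty, and `∫⁻ k, 0 ^ k ∂ρ0 = ρ0 {0} = 0`.)
Induction on `g`, for all `ρ0` and `s` together. Every `u` of length `g + 1` is `i :: u'` with
`u'.length = g`, and with `shift i ω := fun w => ω (i :: w)`:
`Lives ω (i :: u') ↔ i < (ω []).1 ∧ Lives (shift i ω) u'`,
`birth ω (i :: u') = (shift i ω []).2 + birth (shift i ω) u'`.
So the event for `g + 1` is `{ω | ∀ i < (ω []).1, shift i ω ∈ E}` with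
`E := {ω' | ∀ u', u'.length = g → Lives ω' u' → s < (ω' []).2 + birth ω' u'}`.
Under `bpLaw ρ0 ρ μ = Measure.infinitePi (ndLaw ρ0 ρ μ)`, the root value `ω []` has law `ρ0.prod μ`,
and the `shift i ω`, `i : ℕ`, are independent of it and of each other, each with law
`bpLaw ρ ρ μ` (uniqueness of the infinite product: `Measure.eq_infinitePi`, or
`iIndepFun_infinitePi` + `Measure.map_infinitePi_infinitePi_of_inj`, or
`infinitePi_map_curry`/`infinitePi_map_piCurry` after the equivalence
`List ℕ ≃ Unit ⊕ (ℕ × List ℕ)`). Hence the probability is `∫⁻ k, (bpLaw ρ ρ μ E)^k ∂ρ0`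
(for given `k` it is the probability that the `k` independent `shift i ω`, `i < k`, lie in `E`).
Now `bpLaw ρ ρ μ E`: neither `Lives ω' u'` nor `birth ω' u'` depends on `(ω' []).2` (the length at
the root is never used: `birth` of `i :: w` uses `(ω' [i]).2` and deeper ones). So, replacing
`(ω' []).2` by an independent copy `x` of law `μ` (under `bpLaw ρ ρ μ` the pair
`((ω' []).1, (ω' []).2)` is a product), and using Fubini,
`bpLaw ρ ρ μ E = ∫⁻ x, bpLaw ρ ρ μ {ω' | ∀ u', u'.length = g → Lives ω' u' → s - x < birth ω' u'} ∂μ`.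
For `x > s` the inner event is everything almost surely (birth times are `≥ 0` a.s. because
`μ (Iio 0) = 0`; for `g = 0` use `birth ω' [] = 0`), so its probability is `1`; for `x ≤ s` it is
`A ρ g (s - x) = ∫⁻ k, (NR ρ μ g (s - x))^k ∂ρ` by the induction hypothesis. So
`bpLaw ρ ρ μ E = NR ρ μ (g + 1) s`, which is the claim.
Measurability: `List ℕ` is countable, all maps `ω ↦ birth ω u` are measurable and all sets
`{ω | Lives ω u}` are measurable (induction on `u`), so all events are countable intersections of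
measurable sets.
-/

set_option linter.unusedSectionVars false

open MeasureTheory Filter Topology
open scoped ENNReal

namespace Pool.Agent.H949.DX

theorem measurable_birth (u : List ℕ) : Measurable (fun ω : Om => birth ω u) := by
  induction u with
  | nil => exact measurable_const
  | cons i u ih =>
    have h1 : Measurable (fun ω : Om => (fun w => ω (i :: w) : Om)) :=
      measurable_pi_iff.2 fun w => measurable_pi_apply (i :: w)
    have h2 : Measurable (fun ω : Om => (ω [i]).2) := measurable_snd.comp (measurable_pi_apply [i])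
    exact h2.add (ih.comp h1)

theorem measurableSet_lives (u : List ℕ) : MeasurableSet {ω : Om | Lives ω u} := by
  induction u with
  | nil => exact MeasurableSet.univ
  | cons i u ih =>
    have h1 : Measurable (fun ω : Om => (fun w => ω (i :: w) : Om)) :=
      measurable_pi_iff.2 fun w => measurable_pi_apply (i :: w)
    have h2 : Measurable (fun ω : Om => (ω []).1) := measurable_fst.comp (measurable_pi_apply [])
    exact (measurableSet_lt measurable_const h2).inter (h1 ih)

/-- Birth times are nonnegative along every line. -/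
theorem birth_nonneg_ae (ρ0 ρ : Measure ℕ) (μ : Measure ℝ) [IsProbabilityMeasure ρ0]
    [IsProbabilityMeasure ρ] [IsProbabilityMeasure μ] (hμ : μ (Set.Iio 0) = 0) :
    ∀ᵐ ω ∂(bpLaw ρ0 ρ μ), ∀ u : List ℕ, 0 ≤ (ω u).2 := by
  rw [ae_all_iff]
  intro u
  have hm : MeasurableSet {p : ℕ × ℝ | p.2 < 0} :=
    measurableSet_lt measurable_snd measurable_const
  rw [ae_iff]
  have e : {ω : Om | ¬ 0 ≤ (ω u).2} = (fun ω : Om => ω u) ⁻¹' {p : ℕ × ℝ | p.2 < 0} := by
    ext ω; simp
  rw [e, ← Measure.map_apply (measurable_pi_apply u) hm]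
  unfold bpLaw
  rw [Measure.infinitePi_map_eval]
  have key : ∀ ν : Measure ℕ, IsProbabilityMeasure ν → (ν.prod μ) {p : ℕ × ℝ | p.2 < 0} = 0 := by
    intro ν hν
    have e2 : {p : ℕ × ℝ | p.2 < 0} = Set.univ ×ˢ Set.Iio 0 := by
      ext p; simp
    rw [e2, Measure.prod_prod, hμ, mul_zero]
  cases u
  · exact key ρ0 inferInstance
  · exact key ρ inferInstance

namespace BP1

/-- glue the root and the subtrees -/
def Psi (p : (ℕ × ℝ) × (ℕ → Om)) : Om
  | [] => p.1
  | i :: w => p.2 i w

theorem measurable_Psi : Measurable Psi := by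
  refine measurable_pi_iff.2 fun u => ?_
  cases u with
  | nil => exact measurable_fst
  | cons i w =>
    exact (measurable_pi_apply w).comp ((measurable_pi_apply i).comp measurable_snd)

/-- glue the root and the rest -/
def Psi' (p : (ℕ × ℝ) × (ℕ × List ℕ → ℕ × ℝ)) : Om
  | [] => p.1
  | i :: w => p.2 (i, w)

theorem measurable_Psi' : Measurable Psi' := by
  refine measurable_pi_iff.2 fun u => ?_
  cases u with
  | nil => exact measurable_fst
  | cons i w => exact (measurable_pi_apply (i, w)).comp measurable_snd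

theorem bpLaw_eq' (ρ0 ρ : Measure ℕ) (μ : Measure ℝ) [IsProbabilityMeasure ρ0]
    [IsProbabilityMeasure ρ] [IsProbabilityMeasure μ] :
    ((ρ0.prod μ).prod (Measure.infinitePi fun _ : ℕ × List ℕ => ρ.prod μ)).map Psi' =
      bpLaw ρ0 ρ μ := by
  classical
  unfold bpLaw
  refine Measure.eq_infinitePi _ fun s t ht => ?_
  rw [Measure.map_apply measurable_Psi' (.pi s.countable_toSet fun _ _ => ht _)]
  let c : ℕ × List ℕ → List ℕ := fun p => p.1 :: p.2
  have hc : Function.Injective c := by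
    rintro ⟨a, b⟩ ⟨a', b'⟩ h
    simp only [c, List.cons.injEq] at h
    exact Prod.ext h.1 h.2
  let s' : Finset (ℕ × List ℕ) := s.preimage c hc.injOn
  have e : Psi' ⁻¹' (Set.pi s t) = (if [] ∈ s then t [] else Set.univ) ×ˢ
      (Set.pi s' fun p => t (c p)) := by
    ext ⟨a, h⟩
    simp only [Set.mem_preimage, Set.mem_pi, Finset.mem_coe, Set.mem_prod, s',
      Finset.mem_preimage]
    constructor
    · intro H
      refine ⟨?_, fun p hp => H _ hp⟩
      split_ifs with h0
      · exact H [] h0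
      · trivial
    · rintro ⟨H1, H2⟩ u hu
      cases u with
      | nil =>
        rw [if_pos hu] at H1
        exact H1
      | cons i w => exact H2 (i, w) hu
  rw [e, Measure.prod_prod, Measure.infinitePi_pi _ (fun p _ => ht _)]
  have hs : s.filter (fun u => u ≠ []) = s'.image c := by
    ext u
    simp only [Finset.mem_filter, Finset.mem_image, s', Finset.mem_preimage]
    constructor
    · rintro ⟨h1, h2⟩
      cases u with
      | nil => exact absurd rfl h2
      | cons i w => exact ⟨(i, w), h1, rfl⟩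
    · rintro ⟨p, hp, rfl⟩
      exact ⟨hp, List.cons_ne_nil _ _⟩
  rw [← Finset.prod_filter_mul_prod_filter_not s (fun u => u ≠ []), hs,
    Finset.prod_image (fun a _ b _ h => hc h), mul_comm]
  congr 1
  by_cases h0 : [] ∈ s
  · have : s.filter (fun u => ¬ u ≠ []) = {[]} := by
      ext u
      simp only [Finset.mem_filter, Finset.mem_singleton, not_not]
      constructor
      · rintro ⟨_, h⟩; exact h
      · rintro rfl; exact ⟨h0, rfl⟩
    rw [this, Finset.prod_singleton, if_pos h0]
    rfl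
  · have : s.filter (fun u => ¬ u ≠ []) = ∅ := by
      ext u
      simp only [Finset.mem_filter, not_not, Finset.notMem_empty, iff_false]
      rintro ⟨h1, rfl⟩; exact h0 h1
    rw [this, Finset.prod_empty, if_neg h0, measure_univ]

theorem bpLaw_rr (ρ : Measure ℕ) (μ : Measure ℝ)
    [IsProbabilityMeasure ρ] [IsProbabilityMeasure μ] :
    bpLaw ρ ρ μ = Measure.infinitePi fun _ : List ℕ => ρ.prod μ := by
  unfold bpLaw
  have : ndLaw ρ ρ μ = fun _ : List ℕ => ρ.prod μ := by
    funext u
    cases u <;> rfl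
  congr

theorem bpLaw_eq (ρ0 ρ : Measure ℕ) (μ : Measure ℝ) [IsProbabilityMeasure ρ0]
    [IsProbabilityMeasure ρ] [IsProbabilityMeasure μ] :
    bpLaw ρ0 ρ μ =
      ((ρ0.prod μ).prod (Measure.infinitePi fun _ : ℕ => bpLaw ρ ρ μ)).map Psi := by
  rw [← bpLaw_eq', bpLaw_rr]
  have h := Measure.infinitePi_map_curry_symm (fun (_ : ℕ) (_ : List ℕ) => ρ.prod μ)
  have hm : Measurable (MeasurableEquiv.curry ℕ (List ℕ) (ℕ × ℝ)).symm :=
    (MeasurableEquiv.curry ℕ (List ℕ) (ℕ × ℝ)).symm.measurable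
  rw [← h]
  have h2 := Measure.map_prod_map (ρ0.prod μ)
    (Measure.infinitePi fun _ : ℕ => Measure.infinitePi fun _ : List ℕ => ρ.prod μ)
    (measurable_id) hm
  rw [Measure.map_id] at h2
  rw [h2, Measure.map_map measurable_Psi' (measurable_id.prodMap hm)]
  have hP : Psi = Psi' ∘ Prod.map id (MeasurableEquiv.curry ℕ (List ℕ) (ℕ × ℝ)).symm := by
    funext p
    funext u
    cases u <;> rfl
  rw [hP]

end BP1

namespace BP1

theorem prob_bpLaw (ρ0 ρ : Measure ℕ) (μ : Measure ℝ) [IsProbabilityMeasure ρ0]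
    [IsProbabilityMeasure ρ] [IsProbabilityMeasure μ] : IsProbabilityMeasure (bpLaw ρ0 ρ μ) := by
  unfold bpLaw; infer_instance

/-- the event -/
def Ev (g : ℕ) (s : ℝ) : Set Om := {ω | ∀ u : List ℕ, u.length = g → Lives ω u → s < birth ω u}

/-- the event with the length of the root -/
def Er (g : ℕ) (s : ℝ) : Set Om :=
  {ω | ∀ u : List ℕ, u.length = g → Lives ω u → s < (ω []).2 + birth ω u}

theorem measurableSet_Er (g : ℕ) (s : ℝ) : MeasurableSet (Er g s) := by
  have e : Er g s = ⋂ (u : List ℕ) (_ : u.length = g),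
      ({ω : Om | Lives ω u}ᶜ ∪ {ω : Om | s < (ω []).2 + birth ω u}) := by
    ext ω
    simp only [Er, Set.mem_ofPred_eq, Set.mem_iInter, Set.mem_union, Set.mem_compl_iff]
    exact forall_congr' fun u => forall_congr' fun _ => by tauto
  rw [e]
  refine MeasurableSet.iInter fun u => MeasurableSet.iInter fun _ => ?_
  refine (measurableSet_lives u).compl.union (measurableSet_lt measurable_const ?_)
  exact (measurable_snd.comp (measurable_pi_apply [])).add (measurable_birth u)

theorem measurableSet_Ev (g : ℕ) (s : ℝ) : MeasurableSet (Ev g s) := by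
  have e : Ev g s = ⋂ (u : List ℕ) (_ : u.length = g),
      ({ω : Om | Lives ω u}ᶜ ∪ {ω : Om | s < birth ω u}) := by
    ext ω
    simp only [Ev, Set.mem_ofPred_eq, Set.mem_iInter, Set.mem_union, Set.mem_compl_iff]
    exact forall_congr' fun u => forall_congr' fun _ => by tauto
  rw [e]
  refine MeasurableSet.iInter fun u => MeasurableSet.iInter fun _ => ?_
  exact (measurableSet_lives u).compl.union (measurableSet_lt measurable_const (measurable_birth u))

theorem lives_Psi (a a' : ℕ × ℝ) (h : a.1 = a'.1) (f : ℕ → Om) (u : List ℕ) :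
    Lives (Psi (a, f)) u ↔ Lives (Psi (a', f)) u := by
  cases u with
  | nil => exact Iff.rfl
  | cons i w =>
    show (i < a.1 ∧ Lives (f i) w) ↔ (i < a'.1 ∧ Lives (f i) w)
    rw [h]

theorem birth_Psi (a a' : ℕ × ℝ) (f : ℕ → Om) (u : List ℕ) :
    birth (Psi (a, f)) u = birth (Psi (a', f)) u := by
  cases u with
  | nil => rfl
  | cons i w => rfl

theorem Psi_mem_Ev_succ (a : ℕ × ℝ) (f : ℕ → Om) (g : ℕ) (s : ℝ) :
    Psi (a, f) ∈ Ev (g + 1) s ↔ ∀ i < a.1, f i ∈ Er g s := by
  constructor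
  · intro h i hi u hu hL
    exact h (i :: u) (by simp [hu]) ⟨hi, hL⟩
  · intro h u hu hL
    cases u with
    | nil => simp at hu
    | cons i w => exact h i hL.1 w (by simpa using hu) hL.2

theorem step1 (ρ0 ρ : Measure ℕ) (μ : Measure ℝ) [IsProbabilityMeasure ρ0]
    [IsProbabilityMeasure ρ] [IsProbabilityMeasure μ] (g : ℕ) (s : ℝ) :
    bpLaw ρ0 ρ μ (Ev (g + 1) s) = ∫⁻ k, (bpLaw ρ ρ μ (Er g s)) ^ k ∂ρ0 := by
  have := prob_bpLaw ρ ρ μ
  have hE := measurableSet_Ev (g + 1) s
  rw [bpLaw_eq ρ0 ρ μ, Measure.map_apply measurable_Psi hE,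
    Measure.prod_apply (measurable_Psi hE)]
  have e : ∀ a : ℕ × ℝ, (Measure.infinitePi fun _ : ℕ => bpLaw ρ ρ μ)
      (Prod.mk a ⁻¹' (Psi ⁻¹' (Ev (g + 1) s))) = (bpLaw ρ ρ μ (Er g s)) ^ a.1 := by
    intro a
    have e1 : Prod.mk a ⁻¹' (Psi ⁻¹' (Ev (g + 1) s)) =
        Set.pi (Finset.range a.1) fun _ => Er g s := by
      ext f
      simp only [Set.mem_preimage, Psi_mem_Ev_succ, Set.mem_pi, Finset.coe_range, Set.mem_Iio]
    rw [e1, Measure.infinitePi_pi _ (fun _ _ => measurableSet_Er g s), Finset.prod_const,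
      Finset.card_range]
  rw [lintegral_congr e, lintegral_prod]
  · refine lintegral_congr fun k => ?_
    show ∫⁻ _y, (bpLaw ρ ρ μ (Er g s)) ^ k ∂μ = _
    rw [lintegral_const, measure_univ, mul_one]
  · exact ((measurable_of_countable fun k : ℕ => (bpLaw ρ ρ μ (Er g s)) ^ k).comp
      measurable_fst).aemeasurable

theorem step2 (ρ : Measure ℕ) (μ : Measure ℝ)
    [IsProbabilityMeasure ρ] [IsProbabilityMeasure μ] (g : ℕ) (s : ℝ) :
    bpLaw ρ ρ μ (Er g s) = ∫⁻ x, bpLaw ρ ρ μ (Ev g (s - x)) ∂μ := by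
  have := prob_bpLaw ρ ρ μ
  set I : Measure (ℕ → Om) := Measure.infinitePi fun _ : ℕ => bpLaw ρ ρ μ with hI
  have hE := measurableSet_Er g s
  -- the set in the space of (k, x, f)
  have e1 : bpLaw ρ ρ μ (Er g s) = ∫⁻ x, ∫⁻ k, I {f | Psi ((k, x), f) ∈ Er g s} ∂ρ ∂μ := by
    rw [bpLaw_eq ρ ρ μ, Measure.map_apply measurable_Psi hE,
      Measure.prod_apply (measurable_Psi hE), lintegral_prod_symm]
    · rfl
    · exact (measurable_measure_prodMk_left (measurable_Psi hE)).aemeasurable
  rw [e1]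
  refine lintegral_congr fun x => ?_
  have hE' := measurableSet_Ev g (s - x)
  rw [bpLaw_eq ρ ρ μ, Measure.map_apply measurable_Psi hE',
      Measure.prod_apply (measurable_Psi hE'), lintegral_prod]
  · refine lintegral_congr fun k => ?_
    have e2 : ∀ y : ℝ, I (Prod.mk (k, y) ⁻¹' (Psi ⁻¹' (Ev g (s - x)))) =
        I {f | Psi ((k, x), f) ∈ Er g s} := by
      intro y
      congr 1
      ext f
      simp only [Set.mem_preimage, Ev, Er, Set.mem_ofPred_eq]
      refine forall_congr' fun u => forall_congr' fun _ => ?_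
      rw [lives_Psi (k, y) (k, x) rfl f u, birth_Psi (k, y) (k, x) f u]
      refine forall_congr' fun _ => ?_
      show s - x < birth (Psi ((k, x), f)) u ↔ s < x + birth (Psi ((k, x), f)) u
      constructor <;> intro h <;> linarith
    rw [lintegral_congr e2, lintegral_const, measure_univ, mul_one]
  · exact (measurable_measure_prodMk_left (measurable_Psi hE')).aemeasurable

theorem birth_nonneg {ω : Om} (h : ∀ u : List ℕ, 0 ≤ (ω u).2) (u : List ℕ) : 0 ≤ birth ω u := by
  induction u generalizing ω with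
  | nil => exact le_refl _
  | cons i u ih => exact add_nonneg (h [i]) (ih fun w => h (i :: w))

theorem step3 (ρ0 ρ : Measure ℕ) (μ : Measure ℝ) [IsProbabilityMeasure ρ0]
    [IsProbabilityMeasure ρ] [IsProbabilityMeasure μ] (hμ : μ (Set.Iio 0) = 0) (g : ℕ) (s : ℝ)
    (hs : s < 0) : bpLaw ρ0 ρ μ (Ev g s) = 1 := by
  have : IsProbabilityMeasure (bpLaw ρ0 ρ μ) := by unfold bpLaw; infer_instance
  rw [← measure_univ (μ := bpLaw ρ0 ρ μ)]
  refine measure_congr ?_
  filter_upwards [birth_nonneg_ae ρ0 ρ μ hμ] with ω hω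
  refine propext ⟨fun _ => trivial, fun _ u _ _ => ?_⟩
  exact lt_of_lt_of_le hs (birth_nonneg hω u)

end BP1

theorem bp_no_line (ρ0 ρ : Measure ℕ) (μ : Measure ℝ) [IsProbabilityMeasure ρ0]
    [IsProbabilityMeasure ρ] [IsProbabilityMeasure μ] (hμ : μ (Set.Iio 0) = 0)
    (hρ0 : ρ0 {0} = 0) (hρ : ρ {0} = 0) (g : ℕ) (s : ℝ) (hs : 0 ≤ s) :
    bpLaw ρ0 ρ μ {ω | ∀ u : List ℕ, u.length = g → Lives ω u → s < birth ω u} =
      ∫⁻ k, (NR ρ μ g s) ^ k ∂ρ0 := by
  show bpLaw ρ0 ρ μ (BP1.Ev g s) = _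
  induction g generalizing ρ0 s with
  | zero =>
    have e1 : BP1.Ev 0 s = ∅ := by
      ext ω
      simp only [BP1.Ev, Set.mem_ofPred_eq, Set.mem_empty_iff_false, iff_false]
      intro h
      have h1 : s < 0 := h [] rfl trivial
      linarith
    rw [e1, measure_empty]
    have e2 : ∀ k : ℕ, (NR ρ μ 0 s) ^ k = ({0} : Set ℕ).indicator (fun _ => (1 : ℝ≥0∞)) k := by
      intro k
      rcases Nat.eq_zero_or_pos k with rfl | hk
      · simp
      · rw [Set.indicator_of_notMem (by simpa using hk.ne')]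
        exact zero_pow hk.ne'
    rw [lintegral_congr e2, lintegral_indicator (measurableSet_singleton 0), lintegral_const,
      one_mul, Measure.restrict_apply_univ, hρ0]
  | succ g ih =>
    rw [BP1.step1, BP1.step2]
    have e : ∫⁻ x, bpLaw ρ ρ μ (BP1.Ev g (s - x)) ∂μ = NR ρ μ (g + 1) s := by
      simp only [NR]
      refine lintegral_congr fun x => ?_
      split_ifs with h
      · exact BP1.step3 ρ ρ μ hμ g _ (by linarith)
      · exact ih ρ hρ _ (by linarith)
    rw [e]

end Pool.Agent.H949.DX
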