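import Pool.Agent.H949.DX.BP1

/-!
# Explosion in terms of the recursion

Definitions (`NR`, `Om`, `Lives`, `birth`, `ndLaw`, `bpLaw`, `Explosive`) are in `DX/Defs.lean`,
elementary facts (`NR_le_one`, `NR_anti`, `NR_mono_g`, `NR_neg`) in `DX/Rec.lean`.

Paper proof. Let `T g t := {ω | ∀ u, u.length = g → Lives ω u → t < birth ω u}` (no line of `g`
edges has length at most `t`) and `I t := {ω | {u | Lives ω u ∧ birth ω u ≤ t}.Infinite}`.

(1) For every `ω` with all `(ω u).2 ≥ 0` (this holds a.s. by `birth_nonneg_ae`): if `u` lives then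
every prefix of `u` lives and is born no later (`Lives ω (u ++ v) → Lives ω u` and
`birth ω u ≤ birth ω (u ++ v)`, by induction on `u`, generalizing `ω`).
For every `g` the set of living `u` with `u.length < g` is finite (induction on `g`: children
numbers are finite; `u = i :: u'` with `i < (ω []).1`). Hence for such `ω`:
`ω ∈ I t` implies for each `g` that some living `u` with `u.length ≥ g` has `birth ω u ≤ t`, so its
prefix of length `g` shows `ω ∉ T g t`. Conversely if `ω ∉ T g t` for all `g` then there are living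
`u` of every length born by `t`, so `ω ∈ I t`. And `T g t ⊆ T (g + 1) t` for such `ω`.

(2) `NR_of_explosive`: let `t` with `p := bpLaw (I t) > 0`. If `t < 0` then a.s. every birth time is
`≥ 0 > t`, so `I t` is null, a contradiction; so `t ≥ 0`. By (1) `I t ⊆ (T g t)ᶜ` up to a null set,
so `∫⁻ k, (NR ρ μ g t)^k ∂ρ0 = bpLaw (T g t) ≤ 1 - p` for every `g` (`bp_no_line`; `T g t` is
measurable). Let `c := ⨆ g, NR ρ μ g t` (monotone in `g` by `NR_mono_g`). If `c = 1`, monotone
convergence gives `∫⁻ k, (NR ρ μ g t)^k ∂ρ0 → ∫⁻ k, 1 ∂ρ0 = 1` (for each fixed `k` the powers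
increase to `c ^ k = 1`), contradicting `≤ 1 - p < 1`. So `c < 1` (`c ≤ 1` by `NR_le_one`).

(3) `NR_of_not_explosive`: for `s < 0` use `NR_neg` (the sequence is eventually `1`). Let `s ≥ 0` and
`c := ⨆ g, NR ρ μ g s ≤ 1`. Suppose `c < 1`. As `ρ0 {0} = 0`, `∫⁻ k, (NR ρ μ g s)^k ∂ρ0 ≤ c` for
all `g` (`x ^ k ≤ x ≤ c` for `k ≥ 1`, `x ≤ 1`). So `bpLaw ((T g s)ᶜ) ≥ 1 - c > 0` for all `g`. The
sets `(T g s)ᶜ` are a.s. decreasing in `g`, so (continuity from above, on the measurable sets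
`⋂ g' ≤ g, (T g' s)ᶜ`, a.s. equal to `(T g s)ᶜ`) `bpLaw (⋂ g, (T g s)ᶜ) ≥ 1 - c > 0`, and by (1) this
intersection is a.s. contained in `I s`, so the process is explosive, a contradiction. Hence `c = 1`
and `NR ρ μ g s` tends to its supremum `1` (`tendsto_atTop_iSup`).
-/

set_option linter.unusedSectionVars false

open MeasureTheory Filter Topology
open scoped ENNReal

namespace Pool.Agent.H949.DX



/-! ### auxiliary facts -/

theorem lives_append : ∀ (u v : List ℕ) (ω : Om), Lives ω (u ++ v) → Lives ω u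
  | [], _, _, _ => trivial
  | _ :: u, v, _, h => ⟨h.1, lives_append u v _ h.2⟩

theorem birth_nonneg : ∀ (v : List ℕ) (ω : Om), (∀ u : List ℕ, 0 ≤ (ω u).2) → 0 ≤ birth ω v
  | [], _, _ => le_refl _
  | i :: v, ω, h => add_nonneg (h [i]) (birth_nonneg v _ (fun u => h (i :: u)))

theorem birth_le_append : ∀ (u v : List ℕ) (ω : Om), (∀ w : List ℕ, 0 ≤ (ω w).2) →
    birth ω u ≤ birth ω (u ++ v)
  | [], v, ω, h => birth_nonneg v ω h
  | i :: u, v, ω, h => by
    show (ω [i]).2 + birth (fun w => ω (i :: w)) u ≤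
      (ω [i]).2 + birth (fun w => ω (i :: w)) (u ++ v)
    have := birth_le_append u v (fun w => ω (i :: w)) (fun w => h (i :: w))
    linarith

theorem finite_lives (g : ℕ) : ∀ ω : Om, {u : List ℕ | Lives ω u ∧ u.length < g}.Finite := by
  induction g with
  | zero =>
    intro ω
    refine Set.Finite.subset Set.finite_empty ?_
    rintro u ⟨_, h⟩
    exact absurd h (Nat.not_lt_zero _)
  | succ g ih =>
    intro ω
    have hf : (({[]} : Set (List ℕ)) ∪ ⋃ i ∈ Finset.range (ω []).1,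
        (fun u => i :: u) '' {u : List ℕ | Lives (fun w => ω (i :: w)) u ∧ u.length < g}).Finite := by
      refine (Set.finite_singleton _).union ?_
      refine Set.Finite.biUnion (Finset.finite_toSet _) ?_
      intro i _
      exact (ih _).image _
    refine hf.subset ?_
    rintro u ⟨hu, hl⟩
    cases u with
    | nil => exact Or.inl rfl
    | cons i u =>
      refine Or.inr ?_
      rw [Set.mem_iUnion₂]
      refine ⟨i, Finset.mem_range.2 hu.1, u, ⟨hu.2, ?_⟩, rfl⟩
      simpa using hl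

/-- no line of `g` edges of length at most `t` -/
def TT (g : ℕ) (t : ℝ) : Set Om := {ω | ∀ u : List ℕ, u.length = g → Lives ω u → t < birth ω u}

/-- infinitely many births before `t` -/
def II (t : ℝ) : Set Om := {ω | {u | Lives ω u ∧ birth ω u ≤ t}.Infinite}

theorem measurableSet_TT (g : ℕ) (t : ℝ) : MeasurableSet (TT g t) := by
  have e : TT g t = ⋂ u : List ℕ, ⋂ _ : u.length = g, ({ω : Om | Lives ω u}ᶜ ∪
      {ω : Om | t < birth ω u}) := by
    ext ω
    constructor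
    · intro h
      refine Set.mem_iInter₂.2 fun u hu => ?_
      by_cases hl : Lives ω u
      · exact Or.inr (h u hu hl)
      · exact Or.inl hl
    · intro h u hu hl
      have := Set.mem_iInter₂.1 h u hu
      rcases this with h1 | h1
      · exact absurd hl h1
      · exact h1
  rw [e]
  refine MeasurableSet.iInter fun u => MeasurableSet.iInter fun _ => ?_
  exact (measurableSet_lives u).compl.union (measurableSet_lt measurable_const (measurable_birth u))

theorem mem_II_iff {ω : Om} (hω : ∀ u : List ℕ, 0 ≤ (ω u).2) (t : ℝ) :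
    ω ∈ II t ↔ ∀ g, ω ∉ TT g t := by
  constructor
  · intro h g hT
    have h' : ({u | Lives ω u ∧ birth ω u ≤ t} \ {u : List ℕ | Lives ω u ∧ u.length < g}).Infinite :=
      Set.Infinite.sdiff h (finite_lives g ω)
    obtain ⟨u, ⟨hu1, hu2⟩, hu3⟩ := h'.nonempty
    have hlen : g ≤ u.length := by
      by_contra hc
      exact hu3 ⟨hu1, not_le.1 hc⟩
    have e : u.take g ++ u.drop g = u := List.take_append_drop g u
    have l1 : Lives ω (u.take g) := lives_append _ (u.drop g) ω (by rw [e]; exact hu1)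
    have b1 : birth ω (u.take g) ≤ birth ω u := by
      have := birth_le_append (u.take g) (u.drop g) ω hω
      rwa [e] at this
    have := hT (u.take g) (by rw [List.length_take]; omega) l1
    linarith
  · intro h
    have h' : ∀ g, ∃ u : List ℕ, u.length = g ∧ Lives ω u ∧ birth ω u ≤ t := by
      intro g
      have := h g
      by_contra hc
      refine this fun u hu hl => ?_
      by_contra hb
      exact hc ⟨u, hu, hl, not_lt.1 hb⟩
    choose f hf1 hf2 using h'
    refine Set.infinite_of_injective_forall_mem (f := f) ?_ (fun g => hf2 g)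
    intro a b hab
    rw [← hf1 a, ← hf1 b, hab]

theorem TT_succ {ω : Om} (hω : ∀ u : List ℕ, 0 ≤ (ω u).2) (t : ℝ) {g g' : ℕ} (hg : g ≤ g')
    (h : ω ∉ TT g' t) : ω ∉ TT g t := by
  intro hT
  refine h fun u hu hl => ?_
  have e : u.take g ++ u.drop g = u := List.take_append_drop g u
  have l1 : Lives ω (u.take g) := lives_append _ (u.drop g) ω (by rw [e]; exact hl)
  have b1 : birth ω (u.take g) ≤ birth ω u := by
    have := birth_le_append (u.take g) (u.drop g) ω hω
    rwa [e] at this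
  have := hT (u.take g) (by rw [List.length_take]; omega) l1
  linarith

theorem NR_of_explosive (ρ0 ρ : Measure ℕ) (μ : Measure ℝ) [IsProbabilityMeasure ρ0]
    [IsProbabilityMeasure ρ] [IsProbabilityMeasure μ] (hμ : μ (Set.Iio 0) = 0)
    (hρ0 : ρ0 {0} = 0) (hρ : ρ {0} = 0) (h : Explosive ρ0 ρ μ) :
    ∃ s : ℝ, 0 ≤ s ∧ ∃ c : ℝ≥0∞, c < 1 ∧ ∀ g, NR ρ μ g s ≤ c := by
  obtain ⟨t, ht⟩ := h
  have hgood := birth_nonneg_ae ρ0 ρ μ hμ
  haveI : IsProbabilityMeasure (bpLaw ρ0 ρ μ) := by unfold bpLaw; infer_instance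
  change 0 < bpLaw ρ0 ρ μ (II t) at ht
  have ht0 : 0 ≤ t := by
    by_contra hneg
    push Not at hneg
    have : bpLaw ρ0 ρ μ (II t) = 0 := by
      rw [measure_eq_zero_iff_ae_notMem]
      filter_upwards [hgood] with ω hω hI
      obtain ⟨u, hu⟩ := Set.Infinite.nonempty hI
      have := birth_nonneg u ω hω
      have := hu.2
      linarith
    rw [this] at ht
    exact lt_irrefl _ ht
  refine ⟨t, ht0, ⨆ g, NR ρ μ g t, ?_, fun g => le_iSup (fun g => NR ρ μ g t) g⟩
  have hc1 : (⨆ g, NR ρ μ g t) ≤ 1 := iSup_le fun g => NR_le_one g t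
  by_contra hcc
  have hc : (⨆ g, NR ρ μ g t) = 1 := le_antisymm hc1 (not_lt.1 hcc)
  have hT : ∀ g, ∫⁻ k, (NR ρ μ g t) ^ k ∂ρ0 ≤ 1 - bpLaw ρ0 ρ μ (II t) := by
    intro g
    have e := bp_no_line ρ0 ρ μ hμ hρ0 hρ g t ht0
    rw [← e]
    change bpLaw ρ0 ρ μ (TT g t) ≤ _
    have h1 : bpLaw ρ0 ρ μ (II t) ≤ bpLaw ρ0 ρ μ (TT g t)ᶜ := by
      apply measure_mono_ae
      filter_upwards [hgood] with ω hω hI
      exact (mem_II_iff hω t).1 hI g
    rw [prob_compl_eq_one_sub (measurableSet_TT g t)] at h1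
    have h2 : bpLaw ρ0 ρ μ (TT g t) ≤ 1 := prob_le_one
    calc bpLaw ρ0 ρ μ (TT g t) = 1 - (1 - bpLaw ρ0 ρ μ (TT g t)) :=
          (ENNReal.sub_sub_cancel ENNReal.one_ne_top h2).symm
      _ ≤ 1 - bpLaw ρ0 ρ μ (II t) := tsub_le_tsub_left h1 1
  have hlim : Tendsto (fun g => ∫⁻ k, (NR ρ μ g t) ^ k ∂ρ0) atTop (𝓝 (∫⁻ _k, 1 ∂ρ0)) := by
    apply lintegral_tendsto_of_tendsto_of_monotone
    · intro g
      exact Measurable.aemeasurable (measurable_of_countable _)
    · refine Filter.Eventually.of_forall fun k => ?_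
      intro g g' hgg
      exact pow_le_pow_left' (NR_mono_g t hgg) k
    · refine Filter.Eventually.of_forall fun k => ?_
      have h1 : Tendsto (fun g => NR ρ μ g t) atTop (𝓝 1) := by
        have := tendsto_atTop_iSup (NR_mono_g (ρ := ρ) (μ := μ) t)
        rwa [hc] at this
      have := ENNReal.Tendsto.pow (n := k) h1
      simpa using this
  rw [lintegral_const, measure_univ, mul_one] at hlim
  have := le_of_tendsto' hlim hT
  have hp1 : bpLaw ρ0 ρ μ (II t) ≤ 1 := prob_le_one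
  have : (1 : ℝ≥0∞) - bpLaw ρ0 ρ μ (II t) < 1 :=
    ENNReal.sub_lt_self ENNReal.one_ne_top one_ne_zero ht.ne'
  exact absurd (lt_of_le_of_lt ‹_› this) (lt_irrefl _)

theorem NR_of_not_explosive (ρ0 ρ : Measure ℕ) (μ : Measure ℝ) [IsProbabilityMeasure ρ0]
    [IsProbabilityMeasure ρ] [IsProbabilityMeasure μ] (hμ : μ (Set.Iio 0) = 0)
    (hρ0 : ρ0 {0} = 0) (hρ : ρ {0} = 0) (h : ¬ Explosive ρ0 ρ μ) (s : ℝ) :
    Tendsto (fun g => NR ρ μ g s) atTop (𝓝 1) := by
  rcases lt_or_ge s 0 with hs | hs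
  · refine tendsto_const_nhds.congr' ?_
    filter_upwards [eventually_ge_atTop 1] with g hg
    obtain ⟨g, rfl⟩ := Nat.exists_eq_add_of_le' hg
    exact (NR_neg hμ g hs).symm
  have hgood := birth_nonneg_ae ρ0 ρ μ hμ
  haveI : IsProbabilityMeasure (bpLaw ρ0 ρ μ) := by unfold bpLaw; infer_instance
  have hlim := tendsto_atTop_iSup (NR_mono_g (ρ := ρ) (μ := μ) s)
  have hc1 : (⨆ g, NR ρ μ g s) ≤ 1 := iSup_le fun g => NR_le_one g s
  suffices hc : (⨆ g, NR ρ μ g s) = 1 by rwa [hc] at hlim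
  by_contra hne
  have hlt : (⨆ g, NR ρ μ g s) < 1 := lt_of_le_of_ne hc1 hne
  set c := ⨆ g, NR ρ μ g s with hcdef
  apply h
  refine ⟨s, ?_⟩
  change 0 < bpLaw ρ0 ρ μ (II s)
  have hle : ∀ g, bpLaw ρ0 ρ μ (TT g s) ≤ c := by
    intro g
    have e := bp_no_line ρ0 ρ μ hμ hρ0 hρ g s hs
    change bpLaw ρ0 ρ μ (TT g s) = _ at e
    rw [e]
    have hae : ∀ᵐ k ∂ρ0, (NR ρ μ g s) ^ k ≤ c := by
      rw [ae_iff]
      refine measure_mono_null ?_ hρ0
      intro k hk
      by_contra hk0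
      refine hk ?_
      have hk1 : k ≠ 0 := hk0
      calc (NR ρ μ g s) ^ k ≤ (NR ρ μ g s) ^ 1 :=
            pow_le_pow_right_of_le_one' (NR_le_one g s) (Nat.one_le_iff_ne_zero.2 hk1)
        _ = NR ρ μ g s := pow_one _
        _ ≤ c := le_iSup (fun g => NR ρ μ g s) g
    calc ∫⁻ k, (NR ρ μ g s) ^ k ∂ρ0 ≤ ∫⁻ _k, c ∂ρ0 := lintegral_mono_ae hae
      _ = c := by rw [lintegral_const, measure_univ, mul_one]
  have hD : ∀ g, 1 - c ≤ bpLaw ρ0 ρ μ (⋂ g' ∈ Set.Iic g, (TT g' s)ᶜ) := by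
    intro g
    calc 1 - c ≤ 1 - bpLaw ρ0 ρ μ (TT g s) := tsub_le_tsub_left (hle g) 1
      _ = bpLaw ρ0 ρ μ (TT g s)ᶜ := (prob_compl_eq_one_sub (measurableSet_TT g s)).symm
      _ ≤ bpLaw ρ0 ρ μ (⋂ g' ∈ Set.Iic g, (TT g' s)ᶜ) := by
          apply measure_mono_ae
          filter_upwards [hgood] with ω hω hI
          refine Set.mem_iInter₂.2 fun g' hg' => ?_
          exact TT_succ hω s hg' hI
  have hanti : Antitone (fun g : ℕ => ⋂ g' ∈ Set.Iic g, (TT g' s)ᶜ) := by
    intro a b hab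
    exact Set.biInter_subset_biInter_left (Set.Iic_subset_Iic.2 hab)
  have hmeas : ∀ g : ℕ, NullMeasurableSet (⋂ g' ∈ Set.Iic g, (TT g' s)ᶜ) (bpLaw ρ0 ρ μ) := by
    intro g
    refine MeasurableSet.nullMeasurableSet ?_
    refine MeasurableSet.iInter fun g' => MeasurableSet.iInter fun _ => ?_
    exact (measurableSet_TT g' s).compl
  have htend := tendsto_measure_iInter_atTop hmeas hanti ⟨0, measure_ne_top _ _⟩
  have h1 : 1 - c ≤ bpLaw ρ0 ρ μ (⋂ g : ℕ, ⋂ g' ∈ Set.Iic g, (TT g' s)ᶜ) :=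
    ge_of_tendsto' htend hD
  have h2 : bpLaw ρ0 ρ μ (⋂ g : ℕ, ⋂ g' ∈ Set.Iic g, (TT g' s)ᶜ) ≤ bpLaw ρ0 ρ μ (II s) := by
    apply measure_mono_ae
    filter_upwards [hgood] with ω hω hI
    refine (mem_II_iff hω s).2 fun g => ?_
    have := Set.mem_iInter.1 hI g
    exact Set.mem_iInter₂.1 this g (le_refl g)
  have h3 : 0 < 1 - c := tsub_pos_of_lt hlt
  exact lt_of_lt_of_le h3 (h1.trans h2)

end Pool.Agent.H949.DX
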