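import Pool.Agent.H949.DX.Walk
import Pool.Agent.H949.CM.NearInst

/-!
# Climbing with edge conditions that depend on the level

Definitions: `ClG`, `St` in `DX/Walk.lean`; `nG`, `Tr`, `card_Tr_ge` in `CM/Near.lean`; `ng_prob` in
`CM/NG.lean`; `step_sum`, `ind` etc. as used in `CM/Near.lean`; `zl`, `zl_ge`, `zl_le`, `zl_succ_le` in
`CM/NearInst.lean`; `EE`, `glue`, `Ed`, `glue_of_notMem` in `CX/WMeas.lean`.

`clg_bound` is `climb_bound` of `CM/Near.lean` with `G j`, `q j` in place of `G`, `q`: the proof there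
carries over word for word (`ng_prob` is applied with `G j`, `q j` at level `j`).

`clg_EE`: for `σ ∈ Al l` and every `ω`:
(a) `ClG .. σ ω' r j U x → ClG .. σ ω' r j U' x` if `U' ⊆ U` (induction on `r`, `insert` is monotone).
(b) if every vertex of `dom l` is in `U` then `ClG .. σ (glue l τ ω) r j U x ↔ ClG .. σ ω r j U x`
(induction on `r`: the half-edge `h` used has `vert (σ h) ∉ U`, so `σ h ∉ dom l`, so (`dom_closed`, as
`σ ∈ Al l`) `s(h, σ h) ∉ Ed l` - `Ed l` consists of pairs of elements of `dom l` - and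
`glue_of_notMem` applies).
So the function in `clg_EE` is at most the indicator of `{ω | ¬ ClG .. σ ω J 0 U x}` (with `{x} ⊆ U`),
whose mean is bounded by `clg_bound` with `j = 0`, `r = J`:
`EE = (∑ σ ∈ Al l, ∫⁻ ω, ..) / (Al l).card ≤ ofReal (Φ 0)`. The condition of `clg_bound` on
`(dom l).filter (fun h => vert h = x)` is a hypothesis. (If `Al l` is empty, `EE = 0`.)
The events are measurable if the `G j` are (`measurableSet_ClG`), but outer measure is enough:
`∫⁻ ω, (if p ω then 0 else 1) ∂μ ≤ μ {ω | ¬ p ω}` holds for every set (`lintegral_indicator_one_le`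
or `lintegral_mono` with a measurable hull); with `measurableSet_ClG` it is an equality.

`climb_inst`: this is the first half of the proof of `near_inst` in `CM/NearInst.lean`, with `M + 1`
replaced by `R`, and `p` replaced by `p j := κ.real (G j) ≥ (z j)^(-δ)` for `j < J`, where
`z j := zl K0 κ' X j = K0 ^ (κ' ^ j)` for `j < J`. With `kn j = ⌊z j⌋₊`,
`sn j = ⌊c3/4 * (N * (z (j+1))^(-α))⌋₊`, `Umax = R + J`, `Φ j = if j < J then (z j)^(-B') else 0`,
`q j = 1 - p j`, the exponent is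
`p j * (sn j / |H|) * ((kn j - 1)/2) ≥ (z j)^(-δ) * (c3/(8 K1) (z j)^(-α κ')) * (z j / 4)
= c3/(32 K1) * (z j)^(1 - α κ' - δ)`, so `hlev` gives `hΦ`. Then `clg_EE` (with `U.card + J ≤ R + J`)
gives the bound `Φ 0 ≤ K0^(-B')` (`z 0 = K0` as `K0 ≤ X`), and `kn 0 = ⌊K0⌋₊`.
-/

set_option linter.unusedSectionVars false

open MeasureTheory Finset
open scoped ENNReal

namespace Pool.Agent.H949.DX

open Pool.Agent.H949.CM Pool.Agent.H949.CX

variable {V H : Type} [Fintype V] [DecidableEq V] [Fintype H] [DecidableEq H]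

theorem measurableSet_ClG {vert : H → V} {idx : H → ℕ} {kn : ℕ → ℕ} {G : ℕ → Set (ℝ × ℝ)}
    (hG : ∀ j, MeasurableSet (G j)) (σ : Mt H) (r j : ℕ) (U : Finset V) (x : V) :
    MeasurableSet {ω : Wt H | ClG vert idx kn G σ ω r j U x} := by
  induction r generalizing j U x with
  | zero =>
    have : {ω : Wt H | ClG vert idx kn G σ ω 0 j U x} = Set.univ := by
      ext ω; simp [ClG]
    rw [this]; exact MeasurableSet.univ
  | succ r ih =>
    have : {ω : Wt H | ClG vert idx kn G σ ω (r + 1) j U x} = ⋃ h : H,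
        ({_ω : Wt H | vert h = x ∧ idx h < kn j ∧ vert (σ h) ∉ U ∧ idx (σ h) < kn (j + 1) ∧
          kn (j + 1) ≤ deg vert (vert (σ h))} ∩ ((fun ω : Wt H => ω s(h, σ h)) ⁻¹' G j ∩
          {ω : Wt H | ClG vert idx kn G σ ω r (j + 1) (insert (vert (σ h)) U) (vert (σ h))})) := by
      ext ω
      simp only [ClG, Set.mem_ofPred_eq, Set.mem_iUnion, Set.mem_inter_iff, Set.mem_preimage]
      constructor
      · rintro ⟨h, h1, h2, h3, h4, h5, h6, h7⟩
        exact ⟨h, ⟨h1, h2, h3, h4, h5⟩, h6, h7⟩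
      · rintro ⟨h, ⟨h1, h2, h3, h4, h5⟩, h6, h7⟩
        exact ⟨h, h1, h2, h3, h4, h5, h6, h7⟩
    rw [this]
    refine MeasurableSet.iUnion fun h => ?_
    have hme : Measurable (fun ω : Wt H => ω s(h, σ h)) := measurable_pi_apply _
    exact (MeasurableSet.const _).inter ((hme (hG j)).inter (ih _ _ _))

theorem clg_bound (vert : H → V) (idx : H → ℕ)
    (hidx : ∀ v k, k ≤ deg vert v → (univ.filter (fun h => vert h = v ∧ idx h < k)).card = k)
    (κ : Measure (ℝ × ℝ)) [IsProbabilityMeasure κ] (G : ℕ → Set (ℝ × ℝ)) (q : ℕ → ℝ)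
    (hq0 : ∀ j, 0 ≤ q j) (hq1 : ∀ j, q j ≤ 1) (kn : ℕ → ℕ) (sn : ℕ → ℕ) (J Umax : ℕ)
    (hq : ∀ j < J, κ.real (G j)ᶜ ≤ q j) (Φ : ℕ → ℝ) (hΦ0 : ∀ j, 0 ≤ Φ j)
    (hs : ∀ j < J, sn j + kn j + kn (j + 1) * Umax ≤ kn (j + 1) * nG vert (kn (j + 1)))
    (hΦ : ∀ j < J, Real.exp (-((1 - q j) * (sn j / Fintype.card H) * ((kn j - 1) / 2 : ℕ))) +
      kn j * Φ (j + 1) ≤ Φ j) :
    ∀ (r j : ℕ) (l : List (H × H)) (U : Finset V) (x : V), j + r = J → U.card + r ≤ Umax →
      x ∈ U → (∀ h ∈ dom l, vert h ∈ U) → ((dom l).filter (fun h => vert h = x)).card ≤ 1 →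
      kn j ≤ deg vert x →
      ∑ σ ∈ Al l, (Measure.pi fun _ : Sym2 H => κ).real
          {ω | ¬ ClG vert idx kn G σ ω r j U x} ≤ (Al l).card * Φ j := by
  classical
  intro r
  induction r with
  | zero =>
    intro j l U x _ _ _ _ _ _
    have h1 : ∀ σ ∈ Al l, (Measure.pi fun _ : Sym2 H => κ).real
        {ω | ¬ ClG vert idx kn G σ ω 0 j U x} = 0 := by
      intro σ _
      have : {ω : Wt H | ¬ ClG vert idx kn G σ ω 0 j U x} = ∅ := by
        ext ω; simp [ClG]
      rw [this]; simp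
    rw [Finset.sum_eq_zero h1]
    exact mul_nonneg (Nat.cast_nonneg _) (hΦ0 j)
  | succ r ih =>
    intro j l U x hjr hUr hxU hlU hlx hkx
    set μ : Measure (Sym2 H → ℝ × ℝ) := Measure.pi fun _ : Sym2 H => κ with hμ
    set R : Finset H := (univ.filter (fun h => vert h = x ∧ idx h < kn j)) \ dom l with hR
    set S : Finset H := Tr vert idx (kn (j + 1)) U with hS
    have hjJ : j < J := by omega
    have hRS : Disjoint R S := by
      rw [Finset.disjoint_left]
      intro h h1 h2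
      rw [hR, mem_sdiff, mem_filter] at h1
      simp only [hS, Tr, mem_filter, mem_univ, true_and] at h2
      exact h2.1 (h1.1.2.1 ▸ hxU)
    have hRl : Disjoint R (dom l) := Finset.sdiff_disjoint
    have hSl : Disjoint S (dom l) := by
      rw [Finset.disjoint_left]
      intro h h1 h2
      simp only [hS, Tr, mem_filter, mem_univ, true_and] at h1
      exact h1.1 (hlU h h2)
    have hRc1 : R.card ≤ kn j := by
      rw [← hidx x (kn j) hkx]
      exact card_le_card sdiff_subset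
    have hRc2 : kn j ≤ R.card + 1 := by
      have h1 := Finset.card_le_card_sdiff_add_card (t := (dom l).filter (fun h => vert h = x))
        (s := univ.filter (fun h => vert h = x ∧ idx h < kn j))
      rw [hidx x (kn j) hkx] at h1
      have h2 : (univ.filter (fun h => vert h = x ∧ idx h < kn j)) \
          ((dom l).filter (fun h => vert h = x)) = R := by
        rw [hR]
        ext h
        simp only [mem_sdiff, mem_filter, mem_univ, true_and]
        tauto
      rw [h2] at h1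
      omega
    have hSc : sn j + R.card ≤ S.card := by
      have h1 := card_Tr_ge vert idx hidx (kn (j + 1)) U
      have h2 := hs j hjJ
      have h3 : kn (j + 1) * U.card ≤ kn (j + 1) * Umax := Nat.mul_le_mul_left _ (by omega)
      rw [← hS] at h1
      omega
    -- the decomposition of the failure event
    have hdec : ∀ σ ∈ Al l, μ.real {ω | ¬ ClG vert idx kn G σ ω (r + 1) j U x} ≤
        μ.real {ω | ∀ h ∈ R, σ h ∈ S → ω s(h, σ h) ∉ G j} +
          ∑ h ∈ R, (ind (σ h ∈ S) * μ.real {ω | ¬ ClG vert idx kn G σ ω r (j + 1)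
            (insert (vert (σ h)) U) (vert (σ h))}) := by
      intro σ _
      have hsub : {ω : Wt H | ¬ ClG vert idx kn G σ ω (r + 1) j U x} ⊆
          {ω | ∀ h ∈ R, σ h ∈ S → ω s(h, σ h) ∉ G j} ∪
            ⋃ h ∈ R.filter (fun h => σ h ∈ S), {ω | ¬ ClG vert idx kn G σ ω r (j + 1)
            (insert (vert (σ h)) U) (vert (σ h))} := by
        intro ω hω
        by_cases hng : ∀ h ∈ R, σ h ∈ S → ω s(h, σ h) ∉ G j
        · exact Or.inl hng
        · right
          push Not at hng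
          obtain ⟨h, hhR, hhS, hhG⟩ := hng
          rw [Set.mem_iUnion₂]
          refine ⟨h, mem_filter.2 ⟨hhR, hhS⟩, ?_⟩
          intro hcl
          apply hω
          rw [hR, mem_sdiff, mem_filter] at hhR
          simp only [hS, Tr, mem_filter, mem_univ, true_and] at hhS
          exact ⟨h, hhR.1.2.1, hhR.1.2.2, hhS.1, hhS.2.2, hhS.2.1, hhG, hcl⟩
      refine le_trans (measureReal_mono hsub) ?_
      refine le_trans (measureReal_union_le _ _) ?_
      gcongr
      refine le_trans (measureReal_biUnion_finset_le _ _) ?_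
      rw [Finset.sum_filter]
      apply Finset.sum_le_sum
      intro h _
      by_cases hc : σ h ∈ S
      · rw [if_pos hc, ind_of hc, one_mul]
      · rw [if_neg hc, ind_not hc, zero_mul]
    have hsum1 := ng_prob κ (G j) (q j) (hq0 j) (hq1 j) (hq j hjJ) (sn j) ((kn j - 1) / 2) l R S hRS hRl hSl
      (by omega) hSc
    have hsum2 := step_sum (l := l) R hRl (fun σ => ∑ h ∈ R, (ind (σ h ∈ S) *
        μ.real {ω | ¬ ClG vert idx kn G σ ω r (j + 1) (insert (vert (σ h)) U) (vert (σ h))}))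
      (fun _ y σ => ind (y ∈ S) * μ.real {ω | ¬ ClG vert idx kn G σ ω r (j + 1)
        (insert (vert y) U) (vert y)}) (fun _ _ => Φ (j + 1)) (Φ (j + 1))
      (fun σ _ => le_refl _)
      (by
        intro h hh y hy
        by_cases hyS : y ∈ S
        · simp only [ind_of hyS, one_mul]
          have hxh : vert h = x := by
            rw [hR, mem_sdiff, mem_filter] at hh
            exact hh.1.2.1
          have hyS' := hyS
          simp only [hS, Tr, mem_filter, mem_univ, true_and] at hyS'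
          apply ih (j + 1) ((h, y) :: l) (insert (vert y) U) (vert y) (by omega)
          · have := Finset.card_insert_le (vert y) U
            omega
          · exact mem_insert_self _ _
          · intro g hg
            rw [dom_cons, mem_insert, mem_insert] at hg
            rcases hg with rfl | rfl | hg
            · rw [hxh]; exact mem_insert_of_mem hxU
            · exact mem_insert_self _ _
            · exact mem_insert_of_mem (hlU g hg)
          · have : (dom ((h, y) :: l)).filter (fun g => vert g = vert y) ⊆ {y} := by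
              intro g hg
              rw [mem_filter, dom_cons, mem_insert, mem_insert] at hg
              rw [mem_singleton]
              obtain ⟨h1 | h1 | h1, h2⟩ := hg
              · exfalso
                rw [h1, hxh] at h2
                exact hyS'.1 (h2 ▸ hxU)
              · exact h1
              · exfalso
                exact hyS'.1 (h2 ▸ hlU g h1)
            calc _ ≤ ({y} : Finset H).card := card_le_card this
              _ = 1 := card_singleton y
          · exact hyS'.2.1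
        · simp only [ind_not hyS, zero_mul, Finset.sum_const_zero]
          exact mul_nonneg (Nat.cast_nonneg _) (hΦ0 _))
      (by
        intro h _
        rw [Finset.sum_const, nsmul_eq_mul]
        rcases Nat.eq_zero_or_pos (fr l h).card with h0 | h0
        · rw [h0]; simp [hΦ0]
        · have : (0 : ℝ) < (fr l h).card := by exact_mod_cast h0
          rw [mul_div_assoc, mul_div_cancel₀]
          exact this.ne')
    calc ∑ σ ∈ Al l, μ.real {ω | ¬ ClG vert idx kn G σ ω (r + 1) j U x}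
        ≤ ∑ σ ∈ Al l, (μ.real {ω | ∀ h ∈ R, σ h ∈ S → ω s(h, σ h) ∉ G j} +
          ∑ h ∈ R, (ind (σ h ∈ S) * μ.real {ω | ¬ ClG vert idx kn G σ ω r (j + 1)
            (insert (vert (σ h)) U) (vert (σ h))})) := Finset.sum_le_sum hdec
      _ ≤ (Al l).card * Real.exp (-((1 - q j) * (sn j / Fintype.card H) * ((kn j - 1) / 2 : ℕ))) +
          (Al l).card * (R.card * Φ (j + 1)) := by
          rw [Finset.sum_add_distrib]
          exact add_le_add hsum1 hsum2
      _ ≤ (Al l).card * (Real.exp (-((1 - q j) * (sn j / Fintype.card H) *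
            ((kn j - 1) / 2 : ℕ))) + kn j * Φ (j + 1)) := by
          rw [← mul_add]
          apply mul_le_mul_of_nonneg_left _ (Nat.cast_nonneg _)
          gcongr
          exact hΦ0 _
      _ ≤ (Al l).card * Φ j := mul_le_mul_of_nonneg_left (hΦ j hjJ) (Nat.cast_nonneg _)

theorem clg_mono {vert : H → V} {idx : H → ℕ} {kn : ℕ → ℕ} {G : ℕ → Set (ℝ × ℝ)} {σ : Mt H}
    {ω : Wt H} (r : ℕ) : ∀ (j : ℕ) (U U' : Finset V) (x : V), U' ⊆ U →
      ClG vert idx kn G σ ω r j U x → ClG vert idx kn G σ ω r j U' x := by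
  induction r with
  | zero => intro j U U' x _ _; trivial
  | succ r ih =>
    rintro j U U' x hU ⟨h, h1, h2, h3, h4, h5, h6, h7⟩
    exact ⟨h, h1, h2, fun hc => h3 (hU hc), h4, h5, h6,
      ih _ _ _ _ (insert_subset_insert _ hU) h7⟩

theorem clg_glue {vert : H → V} {idx : H → ℕ} {kn : ℕ → ℕ} {G : ℕ → Set (ℝ × ℝ)} {σ : Mt H}
    {l : List (H × H)} {τ ω : Wt H} (r : ℕ) : ∀ (j : ℕ) (U : Finset V) (x : V),
      (∀ h ∈ dom l, vert h ∈ U) →
      (ClG vert idx kn G σ (glue l τ ω) r j U x ↔ ClG vert idx kn G σ ω r j U x) := by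
  induction r with
  | zero => intro j U x _; exact Iff.rfl
  | succ r ih =>
    intro j U x hlU
    have hE : ∀ h, vert (σ h) ∉ U → glue l τ ω s(h, σ h) = ω s(h, σ h) := by
      intro h h3
      apply glue_of_notMem
      rw [Sym2.eq_swap]
      exact notMem_Ed fun hc => h3 (hlU _ hc)
    have hI : ∀ h, ClG vert idx kn G σ (glue l τ ω) r (j + 1) (insert (vert (σ h)) U)
        (vert (σ h)) ↔ ClG vert idx kn G σ ω r (j + 1) (insert (vert (σ h)) U) (vert (σ h)) :=
      fun h => ih _ _ _ fun g hg => mem_insert_of_mem (hlU g hg)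
    constructor
    · rintro ⟨h, h1, h2, h3, h4, h5, h6, h7⟩
      exact ⟨h, h1, h2, h3, h4, h5, by rwa [hE h h3] at h6, (hI h).1 h7⟩
    · rintro ⟨h, h1, h2, h3, h4, h5, h6, h7⟩
      exact ⟨h, h1, h2, h3, h4, h5, by rwa [hE h h3], (hI h).2 h7⟩

open Classical in
theorem clg_EE (vert : H → V) (idx : H → ℕ)
    (hidx : ∀ v k, k ≤ deg vert v → (univ.filter (fun h => vert h = v ∧ idx h < k)).card = k)
    (κ : Measure (ℝ × ℝ)) [IsProbabilityMeasure κ] (G : ℕ → Set (ℝ × ℝ))
    (hGm : ∀ j, MeasurableSet (G j)) (q : ℕ → ℝ)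
    (hq0 : ∀ j, 0 ≤ q j) (hq1 : ∀ j, q j ≤ 1) (kn : ℕ → ℕ) (sn : ℕ → ℕ) (J Umax : ℕ)
    (hq : ∀ j < J, κ.real (G j)ᶜ ≤ q j) (Φ : ℕ → ℝ) (hΦ0 : ∀ j, 0 ≤ Φ j)
    (hs : ∀ j < J, sn j + kn j + kn (j + 1) * Umax ≤ kn (j + 1) * nG vert (kn (j + 1)))
    (hΦ : ∀ j < J, Real.exp (-((1 - q j) * (sn j / Fintype.card H) * ((kn j - 1) / 2 : ℕ))) +
      kn j * Φ (j + 1) ≤ Φ j)
    (l : List (H × H)) (U : Finset V) (x : V) (τ : Wt H) (hU : U.card + J ≤ Umax)
    (hxU : x ∈ U) (hlU : ∀ h ∈ dom l, vert h ∈ U)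
    (hlx : ((dom l).filter (fun h => vert h = x)).card ≤ 1) (hkx : kn 0 ≤ deg vert x) :
    EE κ l τ (fun σ ω => if ClG vert idx kn G σ ω J 0 {x} x then 0 else 1) ≤
      ENNReal.ofReal (Φ 0) := by
  have hb := clg_bound vert idx hidx κ G q hq0 hq1 kn sn J Umax hq Φ hΦ0 hs hΦ J 0 l U x
    (by omega) hU hxU hlU hlx hkx
  have hone : ∀ σ ∈ Al l, ∫⁻ ω, (if ClG vert idx kn G σ (glue l τ ω) J 0 {x} x then 0 else 1 :
      ℝ≥0∞) ∂(lawW H κ) ≤ ENNReal.ofReal ((Measure.pi fun _ : Sym2 H => κ).real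
        {ω | ¬ ClG vert idx kn G σ ω J 0 U x}) := by
    intro σ _
    have hm : MeasurableSet {ω : Wt H | ¬ ClG vert idx kn G σ ω J 0 U x} :=
      (measurableSet_ClG (vert := vert) (idx := idx) (kn := kn) hGm σ J 0 U x).compl
    rw [ofReal_measureReal]
    have h1 : ∫⁻ ω, (if ClG vert idx kn G σ (glue l τ ω) J 0 {x} x then 0 else 1 :
        ℝ≥0∞) ∂(lawW H κ) ≤ ∫⁻ ω, ({ω : Wt H | ¬ ClG vert idx kn G σ ω J 0 U x}).indicator
          (fun _ => (1 : ℝ≥0∞)) ω ∂(lawW H κ) := by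
      apply lintegral_mono
      intro ω
      by_cases hc : ClG vert idx kn G σ (glue l τ ω) J 0 {x} x
      · simp only [if_pos hc]; exact zero_le
      · have hc2 : ω ∈ {ω : Wt H | ¬ ClG vert idx kn G σ ω J 0 U x} := by
          intro hc3
          apply hc
          exact clg_mono J 0 U {x} x (singleton_subset_iff.2 hxU)
            ((clg_glue J 0 U x hlU).2 hc3)
        simp only [if_neg hc, Set.indicator_of_mem hc2]
        exact le_refl _
    refine h1.trans ?_
    rw [lintegral_indicator hm, lintegral_const, Measure.restrict_apply_univ, one_mul]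
  rcases Finset.eq_empty_or_nonempty (Al l) with h0 | h0
  · unfold EE
    rw [h0]; simp
  · have hpos : 0 < (Al l).card := Finset.card_pos.2 h0
    unfold EE
    rw [ENNReal.div_le_iff (by exact_mod_cast hpos.ne') (ENNReal.natCast_ne_top _)]
    refine (Finset.sum_le_sum hone).trans ?_
    rw [← ENNReal.ofReal_sum_of_nonneg (fun _ _ => measureReal_nonneg)]
    refine (ENNReal.ofReal_le_ofReal hb).trans ?_
    rw [mul_comm, ENNReal.ofReal_mul (hΦ0 0), ENNReal.ofReal_natCast]

open Classical in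
theorem climb_inst (vert : H → V) (idx : H → ℕ)
    (hidx : ∀ v k, k ≤ deg vert v → (univ.filter (fun h => vert h = v ∧ idx h < k)).card = k)
    (κ : Measure (ℝ × ℝ)) [IsProbabilityMeasure κ] (G : ℕ → Set (ℝ × ℝ))
    (hGm : ∀ j, MeasurableSet (G j))
    {α δ K1 c3 κ' B' K0 N X : ℝ} (hα0 : 0 < α) (hα1 : α < 1) (hδ : 0 ≤ δ) (hK1 : 1 ≤ K1)
    (hc3 : 0 < c3) (hc3' : c3 ≤ 1) (hκ' : 1 < κ') (hακ : α * κ' + δ < 1) (hB' : 0 < B')
    (hK0 : 8 ≤ K0)
    (hlev : ∀ z, K0 ≤ z → Real.exp (-(c3 / (32 * K1) * z ^ (1 - α * κ' - δ))) +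
      z * (z ^ κ') ^ (-B') ≤ z ^ (-B'))
    (hG : ∀ j : ℕ, (K0 ^ (κ' ^ j)) ^ (-δ) ≤ κ.real (G j))
    (hN : 1 ≤ N) (hK0X : K0 ≤ X) (J R : ℕ) (hJ2 : ∀ j < J, K0 ^ (κ' ^ j) < X)
    (hN1 : X ≤ c3 / 8 * (N * X ^ (-α))) (hN3 : 2 ≤ c3 / 4 * (N * X ^ (-α)))
    (hN2 : (R + J : ℝ) ≤ c3 / 4 * (N * X ^ (-(1 + α))))
    (hm1 : N ≤ Fintype.card H) (hm2 : (Fintype.card H : ℝ) ≤ K1 * N)
    (hnG : ∀ j ≤ J, c3 * (N * (zl K0 κ' X j) ^ (-(1 + α))) ≤ nG vert ⌊zl K0 κ' X j⌋₊) :
    ∀ (l : List (H × H)) (U : Finset V) (v : V) (τ : Wt H), St vert l U → U.card ≤ R →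
      v ∈ U → ((dom l).filter (fun h => vert h = v)).card ≤ 1 → ⌊K0⌋₊ ≤ deg vert v →
      EE κ l τ (fun σ ω =>
        if ClG vert idx (fun j => ⌊zl K0 κ' X j⌋₊) G σ ω J 0 {v} v then 0 else 1) ≤
        ENNReal.ofReal (K0 ^ (-B')) := by
  intro l U v τ hSt hUR hvU hlx hkv
  set z : ℕ → ℝ := zl K0 κ' X with hz
  have hK0' : 1 ≤ K0 := by linarith
  have hzK : ∀ j, K0 ≤ z j := fun j => zl_ge hK0' hκ'.le hK0X j
  have hzX : ∀ j, z j ≤ X := fun j => zl_le j
  have hz8 : ∀ j, 8 ≤ z j := fun j => le_trans hK0 (hzK j)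
  have hzpos : ∀ j, 0 < z j := fun j => by linarith [hz8 j]
  have hX0 : 0 < X := by linarith
  set kn : ℕ → ℕ := fun j => ⌊z j⌋₊ with hkn
  have hkn1 : ∀ j, (kn j : ℝ) ≤ z j := fun j => Nat.floor_le (hzpos j).le
  have hkn2 : ∀ j, z j - 1 ≤ kn j := fun j => by
    have := Nat.lt_floor_add_one (z j)
    linarith
  have hkn3 : ∀ j, z j / 2 ≤ kn j := fun j => by linarith [hkn2 j, hz8 j]
  have hm0 : (0 : ℝ) < Fintype.card H := by linarith
  -- comparison of powers
  have hT : ∀ j, N * X ^ (-α) ≤ N * (z j) ^ (-α) := fun j =>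
    mul_le_mul_of_nonneg_left
      (Real.rpow_le_rpow_of_nonpos (hzpos j) (hzX j) (by linarith)) (by linarith)
  have hT2 : ∀ j, N * X ^ (-(1 + α)) ≤ N * (z j) ^ (-(1 + α)) := fun j =>
    mul_le_mul_of_nonneg_left
      (Real.rpow_le_rpow_of_nonpos (hzpos j) (hzX j) (by linarith)) (by linarith)
  have hzz : ∀ j, z j * (z j) ^ (-(1 + α)) = (z j) ^ (-α) := by
    intro j
    nth_rewrite 1 [← Real.rpow_one (z j)]
    rw [← Real.rpow_add (hzpos j)]
    congr 1; ring
  set sn : ℕ → ℕ := fun j => ⌊c3 / 4 * (N * (z (j + 1)) ^ (-α))⌋₊ with hsn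
  have hsn1 : ∀ j, (sn j : ℝ) ≤ c3 / 4 * (N * (z (j + 1)) ^ (-α)) := fun j =>
    Nat.floor_le (by have := hzpos (j + 1); positivity)
  have hsn2 : ∀ j, c3 / 8 * (N * (z (j + 1)) ^ (-α)) ≤ sn j := fun j => by
    have h3 := Nat.lt_floor_add_one (c3 / 4 * (N * (z (j + 1)) ^ (-α)))
    have h4 : c3 / 4 * (N * X ^ (-α)) ≤ c3 / 4 * (N * (z (j + 1)) ^ (-α)) :=
      mul_le_mul_of_nonneg_left (hT (j + 1)) (by positivity)
    have h5 : ((⌊c3 / 4 * (N * (z (j + 1)) ^ (-α))⌋₊ : ℕ) : ℝ) = sn j := rfl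
    rw [h5] at h3
    linarith
  have hnG' : ∀ j ≤ J, c3 * (N * (z j) ^ (-(1 + α))) ≤ nG vert (kn j) := hnG
  have hkG : ∀ j ≤ J, c3 / 2 * (N * (z j) ^ (-α)) ≤ kn j * nG vert (kn j) := by
    intro j hj
    calc c3 / 2 * (N * (z j) ^ (-α)) = (z j / 2) * (c3 * (N * (z j) ^ (-(1 + α)))) := by
          rw [← hzz j]; ring
      _ ≤ kn j * nG vert (kn j) :=
          mul_le_mul (hkn3 j) (hnG' j hj) (by have := hzpos j; positivity) (Nat.cast_nonneg _)
  set Φ : ℕ → ℝ := fun j => if j < J then (z j) ^ (-B') else 0 with hΦdef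
  have hΦ0 : ∀ j, 0 ≤ Φ j := by
    intro j
    simp only [hΦdef]
    split_ifs
    · exact Real.rpow_nonneg (hzpos j).le _
    · exact le_refl _
  have hs : ∀ j < J, sn j + kn j + kn (j + 1) * (R + J) ≤
      kn (j + 1) * nG vert (kn (j + 1)) := by
    intro j hj
    have hjJ : j + 1 ≤ J := hj
    have a1 := hsn1 j
    have a2 := hkG (j + 1) hjJ
    have a3 : (kn j : ℝ) ≤ c3 / 8 * (N * (z (j + 1)) ^ (-α)) := by
      calc (kn j : ℝ) ≤ X := le_trans (hkn1 j) (hzX j)
        _ ≤ c3 / 8 * (N * X ^ (-α)) := hN1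
        _ ≤ c3 / 8 * (N * (z (j + 1)) ^ (-α)) :=
            mul_le_mul_of_nonneg_left (hT (j + 1)) (by positivity)
    have a4 : (R + J : ℝ) ≤ nG vert (kn (j + 1)) / 4 := by
      calc (R + J : ℝ) ≤ c3 / 4 * (N * X ^ (-(1 + α))) := hN2
        _ ≤ c3 / 4 * (N * (z (j + 1)) ^ (-(1 + α))) :=
            mul_le_mul_of_nonneg_left (hT2 (j + 1)) (by positivity)
        _ = (c3 * (N * (z (j + 1)) ^ (-(1 + α)))) / 4 := by ring
        _ ≤ nG vert (kn (j + 1)) / 4 := by
            apply div_le_div_of_nonneg_right (hnG' (j + 1) hjJ) (by norm_num)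
    have a5 : (kn (j + 1) : ℝ) * (R + J) ≤ kn (j + 1) * nG vert (kn (j + 1)) / 4 := by
      have := mul_le_mul_of_nonneg_left a4 (Nat.cast_nonneg (α := ℝ) (kn (j + 1)))
      linarith
    have a6 : ((sn j + kn j + kn (j + 1) * (R + J) : ℕ) : ℝ) ≤
        ((kn (j + 1) * nG vert (kn (j + 1)) : ℕ) : ℝ) := by
      push_cast
      linarith
    exact_mod_cast a6
  have hp1 : ∀ j, κ.real (G j) ≤ 1 := fun j => measureReal_le_one
  have hΦ : ∀ j < J, Real.exp (-((1 - (1 - κ.real (G j))) * (sn j / Fintype.card H) *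
      ((kn j - 1) / 2 : ℕ))) + kn j * Φ (j + 1) ≤ Φ j := by
    intro j hj
    have hlevj := hlev (z j) (hzK j)
    have hzj0 : z j = K0 ^ (κ' ^ j) := min_eq_left (hJ2 j hj).le
    have hpz : (z j) ^ (-δ) ≤ κ.real (G j) := by
      rw [hzj0]; exact hG j
    have hpz0 : 0 ≤ (z j) ^ (-δ) := Real.rpow_nonneg (hzpos j).le _
    have b1 : (z j) / 4 ≤ (((kn j - 1) / 2 : ℕ) : ℝ) := by
      have c1 : kn j ≤ 2 * ((kn j - 1) / 2) + 2 := by omega
      have c2 : (kn j : ℝ) ≤ 2 * (((kn j - 1) / 2 : ℕ) : ℝ) + 2 := by exact_mod_cast c1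
      have := hkn2 j
      have := hz8 j
      linarith
    have b2 : c3 / (8 * K1) * (z (j + 1)) ^ (-α) ≤ sn j / Fintype.card H := by
      rw [le_div_iff₀ hm0]
      have hpos : 0 < (z (j + 1)) ^ (-α) := Real.rpow_pos_of_pos (hzpos (j + 1)) _
      calc c3 / (8 * K1) * (z (j + 1)) ^ (-α) * Fintype.card H
          ≤ c3 / (8 * K1) * (z (j + 1)) ^ (-α) * (K1 * N) :=
            mul_le_mul_of_nonneg_left hm2 (by positivity)
        _ = c3 / 8 * (N * (z (j + 1)) ^ (-α)) := by
            have : K1 ≠ 0 := by linarith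
            field_simp
        _ ≤ sn j := hsn2 j
    have b3 : (z j) ^ (-(α * κ')) ≤ (z (j + 1)) ^ (-α) := by
      have c1 := zl_succ_le (K0 := K0) (κ' := κ') (X := X) (by linarith) (hJ2 j hj)
      calc (z j) ^ (-(α * κ')) = ((z j) ^ κ') ^ (-α) := by
            rw [← Real.rpow_mul (hzpos j).le]; congr 1; ring
        _ ≤ (z (j + 1)) ^ (-α) :=
            Real.rpow_le_rpow_of_nonpos (hzpos (j + 1)) c1 (by linarith)
    have b4 : c3 / (32 * K1) * (z j) ^ (1 - α * κ' - δ) ≤
        (1 - (1 - κ.real (G j))) * (sn j / Fintype.card H) * ((kn j - 1) / 2 : ℕ) := by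
      have c1 : (z j) ^ (1 - α * κ' - δ) = (z j) ^ (-δ) * (z j * (z j) ^ (-(α * κ'))) := by
        nth_rewrite 3 [← Real.rpow_one (z j)]
        rw [← Real.rpow_add (hzpos j), ← Real.rpow_add (hzpos j)]
        congr 1; ring
      rw [c1]
      have hpos1 : 0 ≤ (z j) ^ (-(α * κ')) := Real.rpow_nonneg (hzpos j).le _
      have hpos2 : 0 ≤ (z (j + 1)) ^ (-α) := Real.rpow_nonneg (hzpos (j + 1)).le _
      have hzj := hzpos j
      calc c3 / (32 * K1) * ((z j) ^ (-δ) * (z j * (z j) ^ (-(α * κ'))))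
          = (z j) ^ (-δ) * (c3 / (8 * K1) * (z j) ^ (-(α * κ'))) * (z j / 4) := by
            have : K1 ≠ 0 := by linarith
            field_simp
            ring
        _ ≤ κ.real (G j) * (c3 / (8 * K1) * (z (j + 1)) ^ (-α)) * (z j / 4) := by
            apply mul_le_mul_of_nonneg_right _ (by positivity)
            apply mul_le_mul hpz _ (by positivity) (hpz0.trans hpz)
            exact mul_le_mul_of_nonneg_left b3 (by positivity)
        _ ≤ κ.real (G j) * (sn j / Fintype.card H) * (((kn j - 1) / 2 : ℕ) : ℝ) := by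
            apply mul_le_mul _ b1 (by positivity)
              (mul_nonneg (hpz0.trans hpz) (by positivity))
            exact mul_le_mul_of_nonneg_left b2 (hpz0.trans hpz)
        _ = _ := by ring
    have b5 : Real.exp (-((1 - (1 - κ.real (G j))) * (sn j / Fintype.card H) *
        ((kn j - 1) / 2 : ℕ))) ≤
        Real.exp (-(c3 / (32 * K1) * (z j) ^ (1 - α * κ' - δ))) :=
      Real.exp_le_exp.2 (by linarith)
    have b6 : kn j * Φ (j + 1) ≤ z j * ((z j) ^ κ') ^ (-B') := by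
      by_cases hj1 : j + 1 < J
      · have d1 : Φ (j + 1) = (z (j + 1)) ^ (-B') := by simp only [hΦdef, if_pos hj1]
        have d2 : z (j + 1) = (z j) ^ κ' := by
          have e1 : z (j + 1) = K0 ^ (κ' ^ (j + 1)) := min_eq_left (hJ2 (j + 1) hj1).le
          have e2 : z j = K0 ^ (κ' ^ j) := min_eq_left (hJ2 j hj).le
          rw [e1, e2, ← Real.rpow_mul (by linarith), ← pow_succ]
        rw [d1, d2]
        apply mul_le_mul_of_nonneg_right (hkn1 j)
        exact Real.rpow_nonneg (Real.rpow_nonneg (hzpos j).le _) _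
      · have d1 : Φ (j + 1) = 0 := by simp only [hΦdef, if_neg hj1]
        rw [d1, mul_zero]
        exact mul_nonneg (hzpos j).le (Real.rpow_nonneg (Real.rpow_nonneg (hzpos j).le _) _)
    have b7 : Φ j = (z j) ^ (-B') := by simp only [hΦdef, if_pos hj]
    rw [b7]
    linarith
  have hz0 : z 0 = K0 := by
    have : z 0 = min (K0 ^ (κ' ^ 0)) X := rfl
    rw [this, pow_zero, Real.rpow_one]
    exact min_eq_left hK0X
  have hΦ00 : Φ 0 ≤ K0 ^ (-B') := by
    simp only [hΦdef]
    split_ifs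
    · rw [hz0]
    · positivity
  have hfin := clg_EE vert idx hidx κ G hGm (fun j => 1 - κ.real (G j))
    (fun j => by linarith [hp1 j])
    (fun j => by
      have : 0 ≤ κ.real (G j) := measureReal_nonneg
      linarith) kn sn J (R + J)
    (fun j _ => by
      rw [probReal_compl_eq_one_sub (hGm j)])
    Φ hΦ0 hs hΦ l U v τ (by omega) hvU hSt.1 hlx (by
      have : kn 0 = ⌊K0⌋₊ := by
        show ⌊z 0⌋₊ = _
        rw [hz0]
      rw [this]; exact hkv)
  exact hfin.trans (ENNReal.ofReal_le_ofReal hΦ00)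

end Pool.Agent.H949.DX
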