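import Pool.Agent.H949.DX.Walk
import Pool.Agent.H949.CM.NearInst
import Pool.Agent.H949.CM.MainA

/-!
# Joining the top vertices, and the requirements on `n`

`top_EE`: union bound over pairs `(x, z)` of distinct vertices of degree at least `k`, and
`top_bound` of `CM/Near2.lean` with `E = ℝ × ℝ`, `G = {w | w.1 ≤ 1}`, `q = 1 - p`,
`wt true σ ω h = (ω s(h, σ h)).1`. `EE κ [] τ F = (∑ σ, ∫⁻ ω, F σ ω) / |Mt H|` since
`glue [] τ ω = ω` (`glue_nil`) and `Al [] = univ`. (If `Mt H` is empty, `EE = 0`.)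

`ev_climb`: as in `near_ev` of `CM/MainA.lean` (the same parts `a1`, `a2`, `a4`, `a6` and
`levels_bound`, `ev_log_le_rpow`, `ev_sq_mul_exp_neg` of `CM/Ana.lean`); the number of levels `J` with
`K0 ^ (κ' ^ j) < N ^ ρ0` for `j < J` is at most `log (log N) / log κ' + 1`, and `J ≥ J0` as soon as
`N ^ ρ0 > K0 ^ (κ' ^ J0)` when `N ^ ρ0 ≤ K0 ^ (κ' ^ J)`: if `J < J0` then
`K0 ^ (κ' ^ J) ≤ K0 ^ (κ' ^ J0) < N ^ ρ0`, a contradiction.
-/

set_option linter.unusedSectionVars false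

open MeasureTheory Finset Filter Topology
open scoped ENNReal

namespace Pool.Agent.H949.DX

open Pool.Agent.H949.CM Pool.Agent.H949.CX

variable {V H : Type} [Fintype V] [DecidableEq V] [Fintype H] [DecidableEq H]

open Classical in
theorem top_EE (vert : H → V) (idx : H → ℕ)
    (hidx : ∀ v k, k ≤ deg vert v → (univ.filter (fun h => vert h = v ∧ idx h < k)).card = k)
    (κ : Measure (ℝ × ℝ)) [IsProbabilityMeasure κ] {p : ℝ} (hp0 : 0 ≤ p) (hp1 : p ≤ 1)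
    (hp : p ≤ κ.real {w | w.1 ≤ 1}) (k e : ℕ) (hk : 4 * e ≤ k) (τ : Wt H) :
    EE κ [] τ (fun σ ω => if ∃ x z, x ≠ z ∧ k ≤ deg vert x ∧ k ≤ deg vert z ∧
      ¬ ∃ h, vert h = x ∧ vert (σ h) = z ∧ wt true σ ω h ≤ 1 then 1 else 0) ≤
      ENNReal.ofReal ((Fintype.card V : ℝ) ^ 2 *
        Real.exp (-(p * ((2 * e : ℕ) / Fintype.card H) * e))) := by
  have hmG : MeasurableSet {w : ℝ × ℝ | w.1 ≤ 1} :=
    measurableSet_le measurable_fst measurable_const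
  have hGc : κ.real {w : ℝ × ℝ | w.1 ≤ 1}ᶜ ≤ 1 - p := by
    rw [measureReal_compl hmG, probReal_univ]
    linarith
  set B : ℝ := Real.exp (-(p * ((2 * e : ℕ) / Fintype.card H) * e)) with hB
  have hB0 : 0 ≤ B := (Real.exp_pos _).le
  let A : Mt H → V × V → Set (Wt H) := fun σ q =>
    {ω | ¬ ∃ h, vert h = q.1 ∧ vert (σ h) = q.2 ∧ ω s(h, σ h) ∈ {w : ℝ × ℝ | w.1 ≤ 1}}
  let S : Finset (V × V) :=
    univ.filter (fun q : V × V => q.1 ≠ q.2 ∧ k ≤ deg vert q.1 ∧ k ≤ deg vert q.2)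
  have hpair : ∀ q ∈ S, ∑ σ : Mt H, (lawW H κ) (A σ q) ≤
      ENNReal.ofReal (Fintype.card (Mt H) * B) := by
    intro q hq
    have hq' := (mem_filter.1 hq).2
    have h1 := top_bound vert idx hidx κ {w : ℝ × ℝ | w.1 ≤ 1} (1 - p) (by linarith) (by linarith)
      hGc k e hk q.1 q.2 hq'.1 hq'.2.1 hq'.2.2
    rw [sub_sub_cancel] at h1
    calc ∑ σ : Mt H, (lawW H κ) (A σ q)
        = ∑ σ : Mt H, ENNReal.ofReal ((lawW H κ).real (A σ q)) := by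
          refine Finset.sum_congr rfl fun σ _ => ?_
          rw [ofReal_measureReal (measure_ne_top _ _)]
      _ = ENNReal.ofReal (∑ σ : Mt H, (lawW H κ).real (A σ q)) := by
          rw [ENNReal.ofReal_sum_of_nonneg]
          intro σ _
          exact measureReal_nonneg
      _ ≤ ENNReal.ofReal (Fintype.card (Mt H) * B) := ENNReal.ofReal_le_ofReal h1
  unfold EE
  rw [Al_nil]
  apply ENNReal.div_le_of_le_mul
  have hσ : ∀ σ : Mt H, ∫⁻ ω, (if ∃ x z, x ≠ z ∧ k ≤ deg vert x ∧ k ≤ deg vert z ∧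
      ¬ ∃ h, vert h = x ∧ vert (σ h) = z ∧ wt true σ (glue [] τ ω) h ≤ 1 then (1 : ℝ≥0∞) else 0)
      ∂(lawW H κ) ≤ ∑ q ∈ S, (lawW H κ) (A σ q) := by
    intro σ
    refine le_trans ?_ (measure_biUnion_finset_le S (A σ))
    refine le_trans (lintegral_mono ?_) (lintegral_indicator_one_le (⋃ q ∈ S, A σ q))
    intro ω
    by_cases hω : ∃ x z, x ≠ z ∧ k ≤ deg vert x ∧ k ≤ deg vert z ∧
      ¬ ∃ h, vert h = x ∧ vert (σ h) = z ∧ wt true σ (glue [] τ ω) h ≤ 1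
    · have hmem : ω ∈ ⋃ q ∈ S, A σ q := by
        obtain ⟨x, z, hxz, hx, hz, hh⟩ := hω
        rw [glue_nil] at hh
        rw [Set.mem_iUnion₂]
        exact ⟨(x, z), mem_filter.2 ⟨mem_univ _, hxz, hx, hz⟩, hh⟩
      rw [Set.indicator_of_mem hmem]
      exact le_trans (le_of_eq (if_pos hω)) le_rfl
    · exact le_trans (le_of_eq (if_neg hω)) bot_le
  calc ∑ σ : Mt H, ∫⁻ ω, (if ∃ x z, x ≠ z ∧ k ≤ deg vert x ∧ k ≤ deg vert z ∧
      ¬ ∃ h, vert h = x ∧ vert (σ h) = z ∧ wt true σ (glue [] τ ω) h ≤ 1 then (1 : ℝ≥0∞) else 0)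
      ∂(lawW H κ) ≤ ∑ σ : Mt H, ∑ q ∈ S, (lawW H κ) (A σ q) :=
        Finset.sum_le_sum fun σ _ => hσ σ
    _ = ∑ q ∈ S, ∑ σ : Mt H, (lawW H κ) (A σ q) := Finset.sum_comm
    _ ≤ ∑ _q ∈ S, ENNReal.ofReal (Fintype.card (Mt H) * B) := Finset.sum_le_sum hpair
    _ = (S.card : ℝ≥0∞) * ENNReal.ofReal (Fintype.card (Mt H) * B) := by
        rw [Finset.sum_const, nsmul_eq_mul]
    _ ≤ ((Fintype.card V ^ 2 : ℕ) : ℝ≥0∞) * ENNReal.ofReal (Fintype.card (Mt H) * B) := by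
        gcongr
        refine le_trans (Finset.card_filter_le _ _) (le_of_eq ?_)
        rw [Finset.card_univ, Fintype.card_prod, sq]
    _ = ENNReal.ofReal ((Fintype.card V : ℝ) ^ 2 * B) * ((univ : Finset (Mt H)).card : ℝ≥0∞) := by
        rw [Finset.card_univ, ENNReal.ofReal_mul (Nat.cast_nonneg _),
          ENNReal.ofReal_mul (by positivity), ENNReal.ofReal_natCast,
          ENNReal.ofReal_pow (Nat.cast_nonneg _), ENNReal.ofReal_natCast]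
        push_cast
        ring

theorem ev_climb {α ρ0 κ' K0 K1 c3 p δ : ℝ} (hα0 : 0 < α) (hα1 : α < 1) (hρ1 : 1 / 2 < ρ0)
    (hρ2 : ρ0 * (1 + α) < 1) (hκ' : 1 < κ') (hK0 : 8 ≤ K0) (hK1 : 1 ≤ K1) (hc3 : 0 < c3)
    (hp : 0 < p) (hδ : 0 < δ) (R J0 : ℕ) :
    ∀ᶠ N : ℝ in atTop, ∀ J : ℕ, (∀ j < J, K0 ^ (κ' ^ j) < N ^ ρ0) →
      N ^ ρ0 ≤ K0 ^ (κ' ^ J) →
      1 ≤ N ∧ K0 ≤ N ^ ρ0 ∧ N ^ ρ0 ≤ c3 / 8 * (N * (N ^ ρ0) ^ (-α)) ∧
      2 ≤ c3 / 4 * (N * (N ^ ρ0) ^ (-α)) ∧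
      (R + J : ℝ) ≤ c3 / 4 * (N * (N ^ ρ0) ^ (-(1 + α))) ∧
      N ^ 2 * Real.exp (-(p / (32 * K1) * ((N ^ ρ0) ^ 2 / N))) ≤ δ ∧ J0 ≤ J ∧
      (J + 1) * Real.exp (-(c3 * (N * (N ^ ρ0) ^ (-(1 + α))))) ≤ δ ∧ (R : ℝ) ≤ δ * N := by
  have hρ0 : 0 < ρ0 := by linarith
  have hr1 : 0 < 1 - ρ0 * (1 + α) := by linarith
  have hlκ' : 0 < Real.log κ' := Real.log_pos hκ'
  have hlogt : Tendsto Real.log atTop atTop := Real.tendsto_log_atTop
  have a1 : ∀ᶠ N : ℝ in atTop, K0 ≤ N ^ ρ0 := (tendsto_rpow_atTop hρ0).eventually_ge_atTop _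
  have a2 : ∀ᶠ N : ℝ in atTop, 8 / c3 ≤ N ^ (1 - ρ0 * (1 + α)) :=
    (tendsto_rpow_atTop hr1).eventually_ge_atTop _
  have a3 : ∀ᶠ N : ℝ in atTop, K0 ^ (κ' ^ J0) < N ^ ρ0 :=
    (tendsto_rpow_atTop hρ0).eventually_gt_atTop _
  have a4 := ev_log_le_rpow (1 / Real.log κ') (1 + R) (c := c3 / 4)
    (r := 1 - ρ0 * (1 + α)) (by positivity) hr1
  have a5 := ev_log_le_rpow (1 / Real.log κ') 2 (c := 1) (r := 1) one_pos one_pos
  have a6 := ev_sq_mul_exp_neg (c := p / (32 * K1)) (r := 2 * ρ0 - 1) (by positivity)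
    (by linarith) hδ
  have a7 := ev_sq_mul_exp_neg (c := c3) (r := 1 - ρ0 * (1 + α)) hc3 hr1 hδ
  have a9 : ∀ᶠ N : ℝ in atTop, 1 ≤ Real.log N := hlogt.eventually_ge_atTop _
  filter_upwards [a1, a2, a3, a4, a5, a6, a7, a9, eventually_ge_atTop (1 : ℝ),
    eventually_ge_atTop ((R : ℝ) / δ)]
    with N b1 b2 b3 b4 b5 b6 b7 b9 b12 b13
  intro J hJ hJX
  have hN0 : 0 < N := by linarith
  have hX0 : 0 < N ^ ρ0 := Real.rpow_pos_of_pos hN0 _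
  have hlogN0 : 0 < Real.log N := by linarith
  have hloglog : Real.log (Real.log N) ≤ Real.log N := by
    have := Real.log_le_sub_one_of_pos hlogN0
    linarith
  -- the number of levels
  have hlev := levels_bound (K0 := K0) (κ' := κ') (X := N ^ ρ0) (y := Real.log N)
    (by have := Real.exp_one_lt_d9; linarith) hκ' hX0
    (by
      rw [Real.log_rpow hN0]
      have : ρ0 ≤ 1 := by nlinarith
      nlinarith) b9 J hJ
  have hJlog : (J : ℝ) ≤ 1 / Real.log κ' * Real.log N + 1 := by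
    have : Real.log (Real.log N) / Real.log κ' ≤ 1 / Real.log κ' * Real.log N := by
      rw [div_mul_eq_mul_div, one_mul]
      exact div_le_div_of_nonneg_right hloglog hlκ'.le
    linarith
  have e1 : N * (N ^ ρ0) ^ (-α) = N ^ (1 - ρ0 * (1 + α)) * N ^ ρ0 := by
    rw [← Real.rpow_mul hN0.le, ← Real.rpow_add hN0]
    nth_rewrite 1 [← Real.rpow_one N]
    rw [← Real.rpow_add hN0]
    congr 1; ring
  have e2 : N * (N ^ ρ0) ^ (-(1 + α)) = N ^ (1 - ρ0 * (1 + α)) := by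
    rw [← Real.rpow_mul hN0.le]
    nth_rewrite 1 [← Real.rpow_one N]
    rw [← Real.rpow_add hN0]
    congr 1; ring
  have e3 : (N ^ ρ0) ^ 2 / N = N ^ (2 * ρ0 - 1) := by
    rw [← Real.rpow_natCast (N ^ ρ0) 2, ← Real.rpow_mul hN0.le, Real.rpow_sub hN0, Real.rpow_one]
    congr 2
    push_cast; ring
  have f2 : N ^ ρ0 ≤ c3 / 8 * (N * (N ^ ρ0) ^ (-α)) := by
    rw [e1]
    have : 1 ≤ c3 / 8 * N ^ (1 - ρ0 * (1 + α)) := by
      rw [div_le_iff₀ hc3] at b2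
      linarith
    calc N ^ ρ0 = 1 * N ^ ρ0 := (one_mul _).symm
      _ ≤ (c3 / 8 * N ^ (1 - ρ0 * (1 + α))) * N ^ ρ0 := mul_le_mul_of_nonneg_right this hX0.le
      _ = _ := by ring
  refine ⟨b12, b1, f2, by linarith, ?_, ?_, ?_, ?_, ?_⟩
  · rw [e2]; linarith
  · rw [e3]; exact b6
  · by_contra hcon
    rw [not_le] at hcon
    have h1 : K0 ^ (κ' ^ J) ≤ K0 ^ (κ' ^ J0) :=
      Real.rpow_le_rpow_of_exponent_le (by linarith) (pow_le_pow_right₀ hκ'.le hcon.le)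
    linarith
  · rw [e2]
    rw [Real.rpow_one] at b5
    have h1 : (J : ℝ) + 1 ≤ N ^ 2 := by nlinarith
    exact le_trans (mul_le_mul_of_nonneg_right h1 (Real.exp_pos _).le) b7
  · rw [div_le_iff₀ hδ] at b13
    linarith

/-- The top bound for `k = ⌊X⌋₊`, `e = k / 4`. -/
theorem top_exp {X N K1 p M : ℝ} (hX : 8 ≤ X) (hp : 0 ≤ p) (hK1 : 1 ≤ K1) (hN : 1 ≤ N)
    (hM0 : 0 < M) (hM : M ≤ K1 * N) :
    Real.exp (-(p * (((2 * (⌊X⌋₊ / 4) : ℕ) : ℝ) / M) * ((⌊X⌋₊ / 4 : ℕ) : ℝ))) ≤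
      Real.exp (-(p / (32 * K1) * (X ^ 2 / N))) := by
  apply Real.exp_le_exp.2
  apply neg_le_neg
  have e1 : X / 8 ≤ ((⌊X⌋₊ / 4 : ℕ) : ℝ) := by
    have c1 : ⌊X⌋₊ ≤ 4 * (⌊X⌋₊ / 4) + 3 := by omega
    have c2 : (⌊X⌋₊ : ℝ) ≤ 4 * ((⌊X⌋₊ / 4 : ℕ) : ℝ) + 3 := by exact_mod_cast c1
    have c3 := Nat.lt_floor_add_one X
    linarith
  have e2 : 0 ≤ X / 8 := by positivity
  rw [Nat.cast_mul]
  have e3 : (X / 8) ^ 2 ≤ (((⌊X⌋₊ / 4 : ℕ) : ℝ)) ^ 2 := pow_le_pow_left₀ e2 e1 2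
  calc p / (32 * K1) * (X ^ 2 / N) = p * (2 * (X / 8) ^ 2) / (K1 * N) := by
        have : K1 ≠ 0 := by linarith
        have : N ≠ 0 := by linarith
        field_simp
        ring
    _ ≤ p * (2 * (((⌊X⌋₊ / 4 : ℕ) : ℝ)) ^ 2) / (K1 * N) := by
        apply div_le_div_of_nonneg_right _ (by positivity)
        exact mul_le_mul_of_nonneg_left (by linarith) hp
    _ ≤ p * (2 * (((⌊X⌋₊ / 4 : ℕ) : ℝ)) ^ 2) / M := by
        apply div_le_div_of_nonneg_left (by positivity) hM0 hM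
    _ = _ := by push_cast; ring

end Pool.Agent.H949.DX
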