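import Pool.Agent.H949.DX.Walk

/-!
# Walks without immediate returns are unique if there are no short cycles

Definitions (`ed`, `NB`, `Rv`, `nxt`) are in `DX/Walk.lean` and `CX/PS.lean`
(`mem_nxt : g ∈ nxt vert y ↔ vert g = vert y ∧ g ≠ y`). A walk is the list of the half-edges by which
it leaves its vertices, LAST ONE FIRST. `Mt.invol : σ (σ h) = h`.

Paper proof.
`nb_tail`: by cases.
`rv_mono`: `Rv` is monotone in the set and in the number of steps (induction on `r`).
`nb_ends`: Let `xs` be a walk (`NB`) with `xs ≠ []`, `xs.length ≤ L`, and no `h` at `b` has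
`Rv vert m σ L {b} h`. Claim: `ed b xs` is different from `b` and from `ed b ys` for every proper
suffix `ys` of `xs`. Proof: consider the walk from its beginning; let `h0` be its first half-edge
(the last entry of the list), `vert h0 = b`. Show by induction along the walk (for the walk
`zs ++ h :: ys`, `ys` the part already walked) that if the end vertex of the whole walk lies in
`{b} ∪ {ed of all nonempty suffixes of ys}` then `Rv vert m σ (zs.length + 1) (that set) h`: if `zs = []`
then `vert (σ h)` is the end vertex, in the set: `Rv` by its first alternative. If `zs` is nonempty let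
`h1` be the half-edge after `h` (`zs = zs' ++ [h1]`): then `NB` gives `h1 ∈ nxt vert (σ h)` and
`deg vert (vert (σ h)) < m`, and the induction hypothesis for the larger set
`insert (vert (σ h)) (set)` gives the second alternative. If the end vertex equals `ed b ys` for a
proper nonempty suffix `ys = g :: ys'` then apply this with the set of all earlier vertices up to and
including `ed b ys`. (It may be easiest to prove first the general statement: for a list `zs` of
half-edges walked after `h`, `w` the end vertex, `w ∈ U'` where `U'` is the union of `U` and the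
vertices met strictly before the end, implies `Rv vert m σ (zs.length+1) U h`.)
`nb_unique`: let `xs, ys` be two walks with the same end `z`, `xs.length + ys.length ≤ L`,
`deg vert z < m` unless both are `[]`... Induction on `xs.length + ys.length`. If `xs = []` then
`z = b`, and `ys ≠ []` would contradict `nb_ends`. Likewise if `ys = []`. Let `xs = h :: xs'`,
`ys = g :: ys'`, `vert (σ h) = vert (σ g) = z`. If `h = g`, then `xs'`, `ys'` have the same end
`vert h`; if `xs'` is nonempty then `deg vert (vert h) < m` by `NB` (same for `ys'`), so by induction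
`xs' = ys'`. If `h ≠ g`, then `σ g ∈ nxt vert (σ h)` (`σ g ≠ σ h` as `σ` is injective), so
`σ g :: h :: xs'` is `NB` (`deg vert z < m`), and going on back along `ys`
(`σ g' ∈ nxt vert (σ (σ g)) = nxt vert g` for the next entry `g'` of `ys'`: `vert g = vert (σ g')`,
`g ≠ σ g'` by `NB` of `ys`, degrees `< m` by `NB` of `ys`) we get an `NB` walk of length
`xs.length + ys.length ≤ L` that ends at `b`, contradicting `nb_ends`.
-/

set_option linter.unusedSectionVars false

open MeasureTheory Finset
open scoped ENNReal

namespace Pool.Agent.H949.DX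

open Pool.Agent.H949.CM Pool.Agent.H949.CX

variable {V H : Type} [Fintype V] [DecidableEq V] [Fintype H] [DecidableEq H]

theorem rv_mono {vert : H → V} {m : ℕ} {σ : Mt H} {r r' : ℕ} (hr : r ≤ r') {U U' : Finset V}
    (hU : U ⊆ U') {h : H} (hv : Rv vert m σ r U h) : Rv vert m σ r' U' h := by
  induction r generalizing r' U U' h with
  | zero => exact absurd hv id
  | succ r ih =>
    obtain ⟨r'', rfl⟩ : ∃ r'', r' = r'' + 1 := ⟨r' - 1, by omega⟩
    rcases hv with h1 | ⟨h1, f, hf, h2⟩
    · exact Or.inl (hU h1)
    · exact Or.inr ⟨h1, f, hf, ih (by omega) (insert_subset_insert _ hU) h2⟩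

theorem nb_tail {vert : H → V} {m : ℕ} {σ : Mt H} {b : V} {h : H} {xs : List H}
    (hx : NB vert m σ b (h :: xs)) : NB vert m σ b xs ∧ vert h = ed vert σ b xs := by
  cases xs with
  | nil => exact ⟨trivial, hx⟩
  | cons g xs => exact ⟨hx.2.2, (mem_nxt.1 hx.1).1⟩

theorem nb_suffix {vert : H → V} {m : ℕ} {σ : Mt H} {b : V} {xs ys : List H}
    (hx : NB vert m σ b xs) (hs : ys <:+ xs) : NB vert m σ b ys := by
  induction xs with
  | nil =>
    rw [List.suffix_nil] at hs
    rw [hs]
    exact hx
  | cons h xs ih =>
    rcases List.suffix_cons_iff.1 hs with h1 | h1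
    · rw [h1]
      exact hx
    · exact ih (nb_tail hx).1 h1

/-- The main step: a walk that runs into `U` or into itself. -/
theorem nb_hit {vert : H → V} {m : ℕ} {σ : Mt H} {b : V} (n : ℕ) :
    ∀ (zs ys : List H) (h : H) (U : Finset V), zs.length = n → NB vert m σ b (zs ++ h :: ys) →
      (ed vert σ b (zs ++ h :: ys) ∈ U ∨ ∃ ts, (h :: ys) <:+ ts ∧ ts <:+ (zs ++ h :: ys) ∧
        ts ≠ zs ++ h :: ys ∧ ed vert σ b ts = ed vert σ b (zs ++ h :: ys)) →
      Rv vert m σ (zs.length + 1) U h := by
  induction n with
  | zero =>
    intro zs ys h U hn hNB hhit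
    obtain rfl := List.length_eq_zero_iff.1 hn
    rw [List.nil_append] at hhit
    rcases hhit with h1 | ⟨ts, h1, h2, h3, -⟩
    · exact Or.inl h1
    · exact absurd (h2.eq_of_length_le h1.length_le) h3
  | succ n ih =>
    intro zs ys h U hn hNB hhit
    obtain ⟨zs', h1, rfl⟩ : ∃ zs' h1, zs = zs' ++ [h1] := by
      rcases List.eq_nil_or_concat zs with h0 | ⟨zs', h1, h0⟩
      · rw [h0] at hn
        exact absurd hn (by simp)
      · exact ⟨zs', h1, by rw [h0, List.concat_eq_append]⟩
    have e : zs' ++ [h1] ++ h :: ys = zs' ++ h1 :: (h :: ys) := by simp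
    rw [e] at hNB hhit
    have h2 : NB vert m σ b (h1 :: h :: ys) := nb_suffix hNB (List.suffix_append _ _)
    have hn' : zs'.length = n := by simpa using hn
    have h3 := ih zs' (h :: ys) h1 (insert (vert (σ h)) U) hn' hNB (by
      rcases hhit with h4 | ⟨ts, h4, h5, h6, h7⟩
      · exact Or.inl (mem_insert_of_mem h4)
      · by_cases h8 : ts = h :: ys
        · left
          rw [← h7, h8]
          exact mem_insert_self _ _
        · right
          refine ⟨ts, ?_, h5, h6, h7⟩
          rcases List.suffix_or_suffix_of_suffix h5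
            (List.suffix_append zs' (h1 :: h :: ys)) with h9 | h9
          · rcases List.suffix_cons_iff.1 h9 with h10 | h10
            · rw [h10]
            · exact absurd (h10.eq_of_length_le h4.length_le) h8
          · exact h9)
    rw [List.length_append, List.length_singleton]
    exact Or.inr ⟨h2.2.1, h1, h2.1, h3⟩

/-- Without short cycles, the end of a walk is a new vertex. -/
theorem nb_ends {vert : H → V} {m L : ℕ} {σ : Mt H} {b : V}
    (hL : ∀ h, vert h = b → ¬ Rv vert m σ L {b} h) {xs : List H} (hx : NB vert m σ b xs)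
    (hne : xs ≠ []) (hxl : xs.length ≤ L) :
    ed vert σ b xs ≠ b ∧ ∀ ys, ys <:+ xs → ys ≠ xs → ed vert σ b ys ≠ ed vert σ b xs := by
  obtain ⟨zs, h0, rfl⟩ : ∃ zs h0, xs = zs ++ [h0] := by
    rcases List.eq_nil_or_concat xs with h1 | ⟨zs, h0, h1⟩
    · exact absurd h1 hne
    · exact ⟨zs, h0, by rw [h1, List.concat_eq_append]⟩
  have hv : vert h0 = b := nb_suffix hx (List.suffix_append zs [h0])
  rw [List.length_append, List.length_singleton] at hxl
  have key : ¬ (ed vert σ b (zs ++ [h0]) ∈ ({b} : Finset V) ∨ ∃ ts, [h0] <:+ ts ∧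
      ts <:+ (zs ++ [h0]) ∧ ts ≠ zs ++ [h0] ∧ ed vert σ b ts = ed vert σ b (zs ++ [h0])) := by
    intro hh
    exact hL h0 hv (rv_mono hxl (subset_refl _) (nb_hit zs.length zs [] h0 {b} rfl hx hh))
  push Not at key
  refine ⟨fun h => key.1 (mem_singleton.2 h), fun ys hs hn he => ?_⟩
  rcases List.suffix_or_suffix_of_suffix hs (List.suffix_append zs [h0]) with h1 | h1
  · rcases List.suffix_cons_iff.1 h1 with h2 | h2
    · exact key.2 ys (by rw [h2]) hs hn he
    · rw [List.suffix_nil] at h2
      rw [h2] at he
      exact key.1 (mem_singleton.2 he.symm)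
  · exact key.2 ys h1 hs hn he

/-- Going back along a second walk with the same end. -/
theorem nb_back {vert : H → V} {m : ℕ} {σ : Mt H} {b : V} (ys : List H) :
    ∀ (xs : List H) (h : H), NB vert m σ b (h :: xs) → NB vert m σ b ys →
      ed vert σ b (h :: xs) = ed vert σ b ys →
      (ys ≠ [] → deg vert (ed vert σ b (h :: xs)) < m) → (∀ g ys', ys = g :: ys' → h ≠ g) →
      ∃ ws, NB vert m σ b ws ∧ ws ≠ [] ∧ ed vert σ b ws = b ∧
        ws.length = (h :: xs).length + ys.length := by
  induction ys with
  | nil =>
    intro xs h hx _ he _ _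
    exact ⟨h :: xs, hx, List.cons_ne_nil _ _, he, rfl⟩
  | cons g ys ih =>
    intro xs h hx hy he hd hhg
    have hne : h ≠ g := hhg g ys rfl
    have hev : vert (σ h) = vert (σ g) := he
    have hy' := nb_tail hy
    obtain ⟨ws, h1, h2, h3, h4⟩ := ih (h :: xs) (σ g)
      ⟨mem_nxt.2 ⟨hev.symm, fun h5 => hne (by
        have h6 := congrArg σ.1 h5
        change σ (σ g) = σ (σ h) at h6
        rw [Mt.invol, Mt.invol] at h6
        exact h6.symm)⟩, hd (List.cons_ne_nil _ _), hx⟩ hy'.1
      (by
        change vert (σ (σ g)) = _
        rw [Mt.invol]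
        exact hy'.2)
      (by
        intro h5
        change deg vert (vert (σ (σ g))) < m
        rw [Mt.invol, hy'.2]
        cases ys with
        | nil => exact absurd rfl h5
        | cons g' ys => exact hy.2.1)
      (by
        rintro g' ys' rfl h5
        have h6 := (mem_nxt.1 hy.1).2
        apply h6
        rw [← h5, Mt.invol])
    refine ⟨ws, h1, h2, h3, ?_⟩
    rw [h4]
    simp only [List.length_cons]
    omega

/-- Without short cycles, a walk is determined by its end. -/
theorem nb_unique {vert : H → V} {m L : ℕ} {σ : Mt H} {b : V}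
    (hL : ∀ h, vert h = b → ¬ Rv vert m σ L {b} h) {xs ys : List H} (hx : NB vert m σ b xs)
    (hy : NB vert m σ b ys) (hxl : xs.length + ys.length ≤ L)
    (he : ed vert σ b xs = ed vert σ b ys) (hd : xs ≠ [] → deg vert (ed vert σ b xs) < m) :
    xs = ys := by
  induction xs generalizing ys with
  | nil =>
    by_contra hne
    have h1 : ys ≠ [] := fun h => hne h.symm
    exact (nb_ends hL hy h1 (by simpa using hxl)).1 he.symm
  | cons h xs ih =>
    cases ys with
    | nil => exact absurd he (nb_ends hL hx (List.cons_ne_nil _ _) (by simpa using hxl)).1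
    | cons g ys =>
      simp only [List.length_cons] at hxl
      have hx' := nb_tail hx
      have hy' := nb_tail hy
      by_cases hhg : h = g
      · subst hhg
        have h2 := ih hx'.1 hy'.1 (by omega) (hx'.2.symm.trans hy'.2) (by
          intro h3
          cases xs with
          | nil => exact absurd rfl h3
          | cons h' xs => exact hx.2.1)
        rw [h2]
      · obtain ⟨ws, h1, h2, h3, h4⟩ := nb_back (g :: ys) xs h hx hy he
          (fun _ => hd (List.cons_ne_nil _ _)) (by
            rintro g' ys' h5
            obtain ⟨rfl, -⟩ := List.cons.inj h5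
            exact hhg)
        refine absurd h3 (nb_ends hL h1 h2 ?_).1
        rw [h4]
        simp only [List.length_cons]
        omega

end Pool.Agent.H949.DX
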