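import Pool.Agent.H949.DX.Walk
import Pool.Agent.H949.CM.Exist

/-!
# Blue chains, existence of outcomes, counting by walks
-/

set_option linter.unusedSectionVars false

open MeasureTheory Finset
open scoped ENNReal

namespace Pool.Agent.H949.DX

open Pool.Agent.H949.CM Pool.Agent.H949.CX

variable {V H : Type} [Fintype V] [DecidableEq V] [Fintype H] [DecidableEq H]

/-- one step of the construction, with its data -/
theorem inv_step2 (vert : H → V) (σ : Mt H) (T : Bool → Sym2 H → ℝ≥0∞) (a b : V)
    (S : Finset V) (t : V → ℝ≥0∞) (col : V → Option Bool) (hI : Inv vert σ T a b S t col)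
    (hex : ∃ v, v ∉ S ∧ marr vert σ T t col v ≠ ⊤) :
    ∃ (v : V) (c : Bool), v ∉ S ∧ arr vert σ T t col c v ≠ ⊤ ∧
      Inv vert σ T a b (insert v S) (Function.update t v (arr vert σ T t col c v))
        (Function.update col v (some c)) := by
  classical
  obtain ⟨v0, hv0, hv0t⟩ := hex
  obtain ⟨v, hvS, hmin⟩ := Finset.exists_min_image (Sᶜ) (marr vert σ T t col)
    ⟨v0, by simpa using hv0⟩
  have hvS' : v ∉ S := by simpa using hvS
  obtain ⟨c, hc0⟩ := exists_marr vert σ T t col v
  refine ⟨v, c, hvS', ?_, ?_⟩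
  · rw [hc0]
    exact ne_top_of_le_ne_top hv0t (hmin v0 (by simpa using hv0))
  rw [hc0]
  set τ := marr vert σ T t col v with hτ
  have hτt : τ ≠ ⊤ := ne_top_of_le_ne_top hv0t (hmin v0 (by simpa using hv0))
  have hc := hc0
  have hcolv := (hI.out v hvS').1
  have hva : v ≠ a := fun e => hvS' (e ▸ hI.aS)
  have hvb : v ≠ b := fun e => hvS' (e ▸ hI.bS)
  set t' := Function.update t v τ with ht'
  set col' := Function.update col v (some c) with hcol'
  have ht'v : t' v = τ := by simp [ht']
  have ht'w : ∀ w, w ≠ v → t' w = t w := fun w hw => by simp [ht', hw]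
  have hc'v : col' v = some c := by simp [hcol']
  have hc'w : ∀ w, w ≠ v → col' w = col w := fun w hw => by simp [hcol', hw]
  have hle : ∀ c' w, arr vert σ T t' col' c' w ≤ arr vert σ T t col c' w := by
    intro c' w
    refine le_iInf₂ (fun h hh => ?_)
    have hne : vert h ≠ v := by
      intro e
      have := hh.1
      rw [e, hcolv] at this
      simp at this
    rw [← ht'w _ hne]
    exact arr_le (by rw [hc'w _ hne]; exact hh.1) hh.2
  have hge : ∀ c' w, min (arr vert σ T t col c' w) τ ≤ arr vert σ T t' col' c' w := by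
    intro c' w
    refine le_iInf₂ (fun h hh => ?_)
    by_cases e : vert h = v
    · rw [e, ht'v]
      exact le_trans (min_le_right _ _) le_self_add
    · rw [ht'w _ e]
      refine le_trans (min_le_left _ _) (arr_le ?_ hh.2)
      rw [← hc'w _ e]; exact hh.1
  have hmle : ∀ w, marr vert σ T t' col' w ≤ marr vert σ T t col w := fun w =>
    min_le_min (hle true w) (hle false w)
  have hmge : ∀ w, min (marr vert σ T t col w) τ ≤ marr vert σ T t' col' w := by
    intro w
    refine le_min ?_ ?_
    · exact le_trans (min_le_min (min_le_left _ _) le_rfl) (hge true w)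
    · exact le_trans (min_le_min (min_le_right _ _) le_rfl) (hge false w)
  have htS : ∀ u ∈ S, t u ≤ τ := fun u hu => hI.front v hvS' u hu
  refine ⟨mem_insert_of_mem hI.aS, mem_insert_of_mem hI.bS, ?_, ?_, ?_, ?_, ?_, ?_, ?_, ?_, ?_⟩
  · intro w hw
    rw [mem_insert, not_or] at hw
    rw [hc'w w hw.1, ht'w w hw.1]
    exact hI.out w hw.2
  · intro w hw
    rw [mem_insert] at hw
    rcases hw with rfl | hw
    · rw [hc'v, ht'v]; exact ⟨by simp, hτt⟩
    · have hne : w ≠ v := fun e => hvS' (e ▸ hw)
      rw [hc'w w hne, ht'w w hne]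
      exact hI.ins w hw
  · rw [ht'w a hva.symm]; exact hI.time_a
  · rw [ht'w b hvb.symm]; exact hI.time_b
  · intro hab; rw [hc'w a hva.symm]; exact hI.col_a hab
  · intro hab; rw [hc'w b hvb.symm]; exact hI.col_b hab
  · intro w hw hwa hwb
    rw [mem_insert] at hw
    rcases hw with rfl | hw
    · rw [ht'v]
      apply le_antisymm
      · have := hmge w
        rwa [← hτ, min_self] at this
      · exact hmle w
    · have hne : w ≠ v := fun e => hvS' (e ▸ hw)
      rw [ht'w w hne]
      have h1 := hI.time w hw hwa hwb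
      apply le_antisymm
      · refine le_trans ?_ (hmge w)
        rw [← h1]
        exact le_min le_rfl (htS w hw)
      · rw [h1]; exact hmle w
  · intro w hw hwa hwb c' hcw
    rw [mem_insert] at hw
    rcases hw with rfl | hw
    · rw [hc'v] at hcw
      have hcc : c = c' := by simpa using hcw
      subst hcc
      rw [ht'v]
      apply le_antisymm
      · calc arr vert σ T t' col' c w ≤ arr vert σ T t col c w := hle c w
          _ = τ := hc
      · have := hge c w
        rwa [hc, min_self] at this
    · have hne : w ≠ v := fun e => hvS' (e ▸ hw)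
      rw [hc'w w hne] at hcw
      have h1 := hI.colour w hw hwa hwb c' hcw
      rw [ht'w w hne]
      apply le_antisymm
      · rw [← h1]; exact hle c' w
      · refine le_trans ?_ (hge c' w)
        rw [h1]
        exact le_min le_rfl (htS w hw)
  · intro w hw u hu
    rw [mem_insert, not_or] at hw
    have hτw : τ ≤ marr vert σ T t' col' w := by
      refine le_trans ?_ (hmge w)
      exact le_min (hmin w (by simpa using hw.2)) le_rfl
    rw [mem_insert] at hu
    rcases hu with rfl | hu
    · rw [ht'v]; exact hτw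
    · have hne : u ≠ v := fun e => hvS' (e ▸ hu)
      rw [ht'w u hne]
      exact le_trans (htS u hu) hτw

/-- the ranks of the vertices of `S` -/
def RkI (vert : H → V) (σ : Mt H) (T : Bool → Sym2 H → ℝ≥0∞) (a b : V)
    (S : Finset V) (t : V → ℝ≥0∞) (col : V → Option Bool) : Prop :=
  ∃ r : V → ℕ, ∀ v ∈ S, v ≠ a → v ≠ b → ∀ c, col v = some c →
    ∃ h, vert h ∈ S ∧ col (vert h) = some c ∧ vert (σ h) = v ∧
      t (vert h) + T c s(h, σ h) = t v ∧ r (vert h) < r v

theorem rk_step {vert : H → V} {σ : Mt H} {T : Bool → Sym2 H → ℝ≥0∞} {a b : V}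
    {S : Finset V} {t : V → ℝ≥0∞} {col : V → Option Bool} (hI : Inv vert σ T a b S t col)
    (hR : RkI vert σ T a b S t col) {v : V} {c : Bool} (hv : v ∉ S)
    (ht : arr vert σ T t col c v ≠ ⊤) :
    RkI vert σ T a b (insert v S) (Function.update t v (arr vert σ T t col c v))
        (Function.update col v (some c)) := by
  classical
  obtain ⟨r, hr⟩ := hR
  obtain ⟨h, h1, h2, h3⟩ := arr_attained (lt_of_le_of_ne le_top ht)
  have hS : vert h ∈ S := by
    by_contra hc
    have := (hI.out _ hc).1
    rw [this] at h1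
    simp at h1
  refine ⟨Function.update r v (1 + ∑ u ∈ S, r u), ?_⟩
  have hne : ∀ u ∈ S, u ≠ v := fun u hu e => hv (e ▸ hu)
  intro w hw hwa hwb c' hcw
  rw [mem_insert] at hw
  rcases hw with rfl | hw
  · rw [Function.update_self] at hcw
    have hcc : c = c' := by simpa using hcw
    subst hcc
    refine ⟨h, mem_insert_of_mem hS, ?_, h2, ?_, ?_⟩
    · rw [Function.update_of_ne (hne _ hS)]
      exact h1
    · rw [Function.update_of_ne (hne _ hS), Function.update_self]
      exact h3
    · rw [Function.update_of_ne (hne _ hS), Function.update_self]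
      have := Finset.single_le_sum (f := r) (fun _ _ => Nat.zero_le _) hS
      omega
  · rw [Function.update_of_ne (hne _ hw)] at hcw
    obtain ⟨g, g1, g2, g3, g4, g5⟩ := hr w hw hwa hwb c' hcw
    refine ⟨g, mem_insert_of_mem g1, ?_, g3, ?_, ?_⟩
    · rw [Function.update_of_ne (hne _ g1)]
      exact g2
    · rw [Function.update_of_ne (hne _ g1), Function.update_of_ne (hne _ hw)]
      exact g4
    · rw [Function.update_of_ne (hne _ g1), Function.update_of_ne (hne _ hw)]
      exact g5

/-- An outcome whose colours come from the sources exists for every graph, all edge lengths and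
all sources. -/
theorem exists_causal (vert : H → V) (σ : Mt H) (T : Bool → Sym2 H → ℝ≥0∞) (a b : V) :
    ∃ (t : V → ℝ≥0∞) (col : V → Option Bool), Causal vert σ T a b t col := by
  classical
  have key : ∀ k : ℕ, ∀ (S : Finset V) (t : V → ℝ≥0∞) (col : V → Option Bool),
      Inv vert σ T a b S t col → RkI vert σ T a b S t col → Fintype.card V - S.card = k →
      ∃ (S' : Finset V) (t' : V → ℝ≥0∞) (col' : V → Option Bool),
        Inv vert σ T a b S' t' col' ∧ RkI vert σ T a b S' t' col' ∧
          ∀ v, v ∉ S' → marr vert σ T t' col' v = ⊤ := by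
    intro k
    induction k using Nat.strong_induction_on with
    | _ k ih =>
      intro S t col hI hR hk
      by_cases hex : ∃ v, v ∉ S ∧ marr vert σ T t col v ≠ ⊤
      · obtain ⟨v, c, hv, hτ, hI'⟩ := inv_step2 vert σ T a b S t col hI hex
        have hcard : (insert v S).card = S.card + 1 := card_insert_of_notMem hv
        have h1 : (insert v S).card ≤ Fintype.card V := card_le_univ _
        exact ih (Fintype.card V - (insert v S).card) (by omega) _ _ _ hI'
          (rk_step hI hR hv hτ) rfl
      · push Not at hex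
        exact ⟨S, t, col, hI, hR, hex⟩
  have hR0 : RkI vert σ T a b {a, b} (fun v => if v = a ∨ v = b then 0 else ⊤)
      (fun v => if v = a then some true else if v = b then some false else none) := by
    refine ⟨fun _ => 0, fun v hv hva hvb => ?_⟩
    simp only [mem_insert, mem_singleton] at hv
    rcases hv with h | h
    · exact absurd h hva
    · exact absurd h hvb
  obtain ⟨S, t, col, hI, ⟨r, hr⟩, hdone⟩ := key _ _ _ _ (inv_start vert σ T a b) hR0 rfl
  refine ⟨t, col, ⟨hI.time_a, hI.time_b, hI.col_a, hI.col_b, fun _ => (hI.ins a hI.aS).1, ?_, ?_,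
    ?_⟩, r, ?_⟩
  · intro v hva hvb
    by_cases hv : v ∈ S
    · exact hI.time v hv hva hvb
    · rw [(hI.out v hv).2]
      exact (hdone v hv).symm
  · intro v hva hvb c hc
    by_cases hv : v ∈ S
    · exact hI.colour v hv hva hvb c hc
    · rw [(hI.out v hv).1] at hc
      simp at hc
  · intro v
    by_cases hv : v ∈ S
    · have := hI.ins v hv
      constructor
      · intro h; exact absurd h this.1
      · intro h; exact absurd h this.2
    · have := hI.out v hv
      exact ⟨fun _ => this.2, fun _ => this.1⟩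
  · intro v hva hvb c hc
    have hv : v ∈ S := by
      by_contra hv
      rw [(hI.out v hv).1] at hc
      simp at hc
    obtain ⟨h, -, h2, h3, h4, h5⟩ := hr v hv hva hvb c hc
    exact ⟨h, h2, h3, h4, h5⟩

section

variable {vert : H → V} {σ : Mt H} {ω : Wt H} {a b : V} {t : V → ℝ≥0∞}
  {col : V → Option Bool} {r : V → ℕ}

theorem chain_exists {T : Bool → Sym2 H → ℝ≥0∞} (hab : a ≠ b)
    (hO : IsOutcome vert σ T a b t col)
    (hr : ∀ v, v ≠ a → v ≠ b → ∀ c, col v = some c →
      ∃ h, col (vert h) = some c ∧ vert (σ h) = v ∧ t (vert h) + T c s(h, σ h) = t v ∧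
        r (vert h) < r v) {v : V} (hv : col v = some false) :
    ∃ xs, BCh vert σ T b t col r xs ∧ ed vert σ b xs = v := by
  obtain ⟨n, hn⟩ : ∃ n, n = r v := ⟨_, rfl⟩
  induction n using Nat.strong_induction_on generalizing v with
  | _ n ih =>
    by_cases hb : v = b
    · exact ⟨[], trivial, hb.symm⟩
    have ha : v ≠ a := by
      rintro rfl
      rw [hO.col_a hab] at hv
      simp at hv
    obtain ⟨h, h1, h2, h3, h4⟩ := hr v ha hb false hv
    obtain ⟨xs, hxs, hex⟩ := ih (r (vert h)) (by omega) h1 rfl
    refine ⟨h :: xs, ⟨hex.symm, ?_, ?_, ?_, ?_, hxs⟩, h2⟩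
    · rw [h2]; exact hv
    · rw [h2]; exact hb
    · rw [h2]; exact h3
    · rw [h2]; exact h4

theorem chain_suffix {T : Bool → Sym2 H → ℝ≥0∞} {xs ys : List H}
    (hx : BCh vert σ T b t col r xs) (hs : ys <:+ xs) : BCh vert σ T b t col r ys := by
  induction xs with
  | nil =>
    rw [List.suffix_nil] at hs
    rw [hs]
    exact hx
  | cons h xs ih =>
    rw [List.suffix_cons_iff] at hs
    rcases hs with rfl | hs
    · exact hx
    · exact ih hx.2.2.2.2.2 hs

theorem chain_time {T : Bool → Sym2 H → ℝ≥0∞} {xs ys : List H}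
    (hx : BCh vert σ T b t col r xs) (hs : ys <:+ xs) :
    t (ed vert σ b ys) ≤ t (ed vert σ b xs) := by
  induction xs with
  | nil =>
    rw [List.suffix_nil] at hs
    rw [hs]
  | cons h xs ih =>
    rw [List.suffix_cons_iff] at hs
    rcases hs with rfl | hs
    · exact le_rfl
    · refine (ih hx.2.2.2.2.2 hs).trans ?_
      rw [← hx.1]
      show t (vert h) ≤ t (vert (σ h))
      rw [← hx.2.2.2.1]
      exact le_self_add

theorem chain_col {T : Bool → Sym2 H → ℝ≥0∞} (hb : col b = some false) {xs : List H}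
    (hx : BCh vert σ T b t col r xs) : col (ed vert σ b xs) = some false := by
  cases xs with
  | nil => exact hb
  | cons h xs => exact hx.2.1

theorem chain_rank {T : Bool → Sym2 H → ℝ≥0∞} {h g : H} {xs : List H}
    (hx : BCh vert σ T b t col r (h :: g :: xs)) : h ∈ nxt vert (σ g) := by
  rw [mem_nxt]
  have h1 : vert h = vert (σ g) := hx.1
  refine ⟨h1, fun e => ?_⟩
  have h2 : σ h = g := by rw [e, Mt.invol]
  have h3 := hx.2.2.2.2.1
  have h4 := hx.2.2.2.2.2.2.2.2.2.1
  rw [h2] at h3
  rw [h1] at h3
  omega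

theorem chain_nb {T : Bool → Sym2 H → ℝ≥0∞} {m : ℕ} {xs : List H}
    (hx : BCh vert σ T b t col r xs)
    (hd : ∀ ys, ys <:+ xs → ys ≠ [] → ys ≠ xs → deg vert (ed vert σ b ys) < m) :
    NB vert m σ b xs := by
  induction xs with
  | nil => trivial
  | cons h xs ih =>
    cases xs with
    | nil => exact hx.1
    | cons g xs =>
      refine ⟨chain_rank hx, ?_, ih hx.2.2.2.2.2 ?_⟩
      · exact hd (g :: xs) (List.suffix_cons _ _) (by simp) (fun e => by
          have := congrArg List.length e
          simp at this)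
      · intro ys hs hne _
        refine hd ys (hs.trans (List.suffix_cons _ _)) hne (fun e => ?_)
        have h1 := hs.length_le
        rw [e] at h1
        simp at h1

theorem time_cons {h : H} {xs : List H}
    (hx : BCh vert σ (len ω) b t col r (h :: xs)) :
    t (ed vert σ b (h :: xs)) = t (ed vert σ b xs) + ENNReal.ofReal (wt false σ ω h) := by
  rw [← hx.1]
  show t (vert (σ h)) = _
  rw [← hx.2.2.2.1]
  rfl

theorem time_le {h : H} {xs : List H} {t2 : ℝ} (ht2 : 0 ≤ t2) (hpos : ∀ h, 0 ≤ wt false σ ω h)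
    (hx : BCh vert σ (len ω) b t col r (h :: xs))
    (ht : t (ed vert σ b (h :: xs)) ≤ ENNReal.ofReal t2) :
    t (ed vert σ b xs) ≤ ENNReal.ofReal t2 ∧
    (t (ed vert σ b (h :: xs))).toReal = (t (ed vert σ b xs)).toReal + wt false σ ω h ∧
    (t (ed vert σ b xs)).toReal + wt false σ ω h ≤ t2 := by
  have h1 := time_cons hx
  have h2 : t (ed vert σ b xs) ≤ ENNReal.ofReal t2 := by
    refine le_trans ?_ ht
    rw [h1]
    exact le_self_add
  have h3 : t (ed vert σ b xs) ≠ ⊤ := ne_top_of_le_ne_top ENNReal.ofReal_ne_top h2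
  have h4 : (t (ed vert σ b (h :: xs))).toReal =
      (t (ed vert σ b xs)).toReal + wt false σ ω h := by
    rw [h1, ENNReal.toReal_add h3 ENNReal.ofReal_ne_top, ENNReal.toReal_ofReal (hpos h)]
  refine ⟨h2, h4, ?_⟩
  rw [← h4]
  have := ENNReal.toReal_mono ENNReal.ofReal_ne_top ht
  rwa [ENNReal.toReal_ofReal ht2] at this

/-- the half-edges of a chain are good -/
theorem chain_gd {m2 gb : ℕ} {t2 : ℝ} (ht2 : 0 ≤ t2) (hpos : ∀ h, 0 ≤ wt false σ ω h)
    (htb : t b = 0)
    (hG : ∀ h, vert h = b → Gd vert false m2 gb t2 h σ ω) {xs : List H} : ∀ {h : H},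
    BCh vert σ (len ω) b t col r (h :: xs) →
    t (ed vert σ b xs) ≤ ENNReal.ofReal t2 →
    Gd vert false m2 (gb - xs.length) (t2 - (t (ed vert σ b xs)).toReal) h σ ω := by
  induction xs with
  | nil =>
    intro h hx _
    have h1 := hG h hx.1
    show Gd vert false m2 gb (t2 - (t b).toReal) h σ ω
    rw [htb, ENNReal.toReal_zero, sub_zero]
    exact h1
  | cons g ys ih =>
    intro h hx ht
    have hx' := hx.2.2.2.2.2
    obtain ⟨h1, h2, h3⟩ := time_le ht2 hpos hx' ht
    have h4 := ih hx' h1
    obtain ⟨n, hn⟩ : ∃ n, n = gb - ys.length := ⟨_, rfl⟩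
    rw [← hn] at h4
    cases n with
    | zero => exact absurd h4 (by simp [Gd])
    | succ n =>
      have h5 : gb - (g :: ys).length = n := by
        rw [List.length_cons]
        omega
      rw [h5, h2]
      rcases h4 with h4 | ⟨-, h4⟩
      · exfalso
        linarith
      · have h6 := h4 h (chain_rank hx)
        have h7 : t2 - ((t (ed vert σ b ys)).toReal + wt false σ ω g) =
          t2 - (t (ed vert σ b ys)).toReal - wt false σ ω g := by ring
        rw [h7]
        exact h6

/-- the last step of an early chain -/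
theorem chain_last {m2 gb : ℕ} {t2 : ℝ} (ht2 : 0 ≤ t2) (hpos : ∀ h, 0 ≤ wt false σ ω h)
    (htb : t b = 0)
    (hG : ∀ h, vert h = b → Gd vert false m2 gb t2 h σ ω) {xs : List H} {h : H}
    (hx : BCh vert σ (len ω) b t col r (h :: xs))
    (ht : t (ed vert σ b (h :: xs)) ≤ ENNReal.ofReal t2) :
    deg vert (vert (σ h)) < m2 ∧ xs.length + 1 ≤ gb ∧
      ((nxt vert (σ h)).Nonempty → xs.length + 1 < gb) := by
  obtain ⟨h1, h2, h3⟩ := time_le ht2 hpos hx ht
  have h4 := chain_gd ht2 hpos htb hG hx h1
  obtain ⟨n, hn⟩ : ∃ n, n = gb - xs.length := ⟨_, rfl⟩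
  rw [← hn] at h4
  cases n with
  | zero => exact absurd h4 (by simp [Gd])
  | succ n =>
    rcases h4 with h4 | ⟨h5, h4⟩
    · exfalso
      linarith
    · refine ⟨h5, by omega, ?_⟩
      rintro ⟨f, hf⟩
      have h6 := h4 f hf
      cases n with
      | zero => exact absurd h6 (by simp [Gd])
      | succ n => omega

/-- The blue vertices coloured before `t2`. -/
theorem chain_early {m2 gb : ℕ} {t2 : ℝ} (ht2 : 0 ≤ t2) (hpos : ∀ h, 0 ≤ wt false σ ω h)
    (hne : ∀ y : H, (nxt vert y).Nonempty)
    (htb : t b = 0) (hgb : 1 ≤ gb)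
    (hG : ∀ h, vert h = b → Gd vert false m2 gb t2 h σ ω) {xs : List H}
    (hx : BCh vert σ (len ω) b t col r xs)
    (ht : t (ed vert σ b xs) ≤ ENNReal.ofReal t2) :
    xs.length < gb ∧ ∀ ys, ys <:+ xs → ys ≠ [] → deg vert (ed vert σ b ys) < m2 := by
  constructor
  · cases xs with
    | nil => exact hgb
    | cons h xs => exact (chain_last ht2 hpos htb hG hx ht).2.2 (hne _)
  · intro ys hs hy
    cases ys with
    | nil => exact absurd rfl hy
    | cons h ys =>
      exact (chain_last ht2 hpos htb hG (chain_suffix hx hs) ((chain_time hx hs).trans ht)).1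

/-- The blue vertices coloured before `t2`, version that allows vertices of degree one. -/
theorem chain_early_le {m2 gb : ℕ} {t2 : ℝ} (ht2 : 0 ≤ t2) (hpos : ∀ h, 0 ≤ wt false σ ω h)
    (htb : t b = 0)
    (hG : ∀ h, vert h = b → Gd vert false m2 gb t2 h σ ω) {xs : List H}
    (hx : BCh vert σ (len ω) b t col r xs)
    (ht : t (ed vert σ b xs) ≤ ENNReal.ofReal t2) :
    xs.length ≤ gb ∧ ∀ ys, ys <:+ xs → ys ≠ [] → deg vert (ed vert σ b ys) < m2 := by
  constructor
  · cases xs with
    | nil => exact Nat.zero_le _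
    | cons h xs => exact (chain_last ht2 hpos htb hG hx ht).2.1
  · intro ys hs hy
    cases ys with
    | nil => exact absurd rfl hy
    | cons h ys =>
      exact (chain_last ht2 hpos htb hG (chain_suffix hx hs) ((chain_time hx hs).trans ht)).1

theorem nxt_nonempty {y : H} (hd : 2 ≤ deg vert (vert y)) : (nxt vert y).Nonempty := by
  rw [← Finset.card_pos, card_nxt]
  omega

open Classical in
theorem card_lw1 {M : ℕ} (k : ℕ) : ∀ x : V,
    (univ.filter (fun y => LW vert M σ k x y)).card ≤ M ^ k := by
  induction k with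
  | zero =>
    intro x
    have h1 : univ.filter (fun y => LW vert M σ 0 x y) = {x} := by
      ext y
      simp only [mem_filter, mem_univ, true_and, mem_singleton]
      exact ⟨fun h => h.symm, fun h => h.symm⟩
    rw [h1, card_singleton, pow_zero]
  | succ k ih =>
    intro x
    by_cases hx : deg vert x < M
    · have hsub : univ.filter (fun y => LW vert M σ (k + 1) x y) ⊆
          (univ.filter (fun h : H => vert h = x)).biUnion
            (fun h => univ.filter (fun y => LW vert M σ k (vert (σ h)) y)) := by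
        intro y hy
        rw [mem_filter] at hy
        obtain ⟨-, -, h, h1, h2⟩ := hy
        rw [mem_biUnion]
        exact ⟨h, by simp [h1], by simp [h2]⟩
      refine (card_le_card hsub).trans (card_biUnion_le.trans ?_)
      refine (Finset.sum_le_card_nsmul _ _ (M ^ k) fun h _ => ih _).trans ?_
      rw [smul_eq_mul, pow_succ, mul_comm (M ^ k) M]
      exact Nat.mul_le_mul_right _ hx.le
    · have h1 : univ.filter (fun y => LW vert M σ (k + 1) x y) = ∅ := by
        rw [filter_eq_empty_iff]
        intro y _ hy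
        exact hx hy.1
      rw [h1, card_empty]
      exact Nat.zero_le _

theorem card_lw {M : ℕ} (K : ℕ) (x : V) [DecidablePred (fun y => ∃ k ≤ K, LW vert M σ k x y)] :
    (univ.filter (fun y => ∃ k ≤ K, LW vert M σ k x y)).card ≤
      ∑ k ∈ range (K + 1), M ^ k := by
  classical
  have hsub : univ.filter (fun y => ∃ k ≤ K, LW vert M σ k x y) ⊆
      (range (K + 1)).biUnion (fun k => univ.filter (fun y => LW vert M σ k x y)) := by
    intro y hy
    rw [mem_filter] at hy
    obtain ⟨-, k, hk, h1⟩ := hy
    rw [mem_biUnion]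
    exact ⟨k, mem_range.2 (by omega), by simp [h1]⟩
  refine (card_le_card hsub).trans (card_biUnion_le.trans ?_)
  exact Finset.sum_le_sum fun k _ => card_lw1 k x

theorem LW.append {M : ℕ} {i j : ℕ} : ∀ {x y z : V}, LW vert M σ i x y → LW vert M σ j y z →
    LW vert M σ (i + j) x z := by
  induction i with
  | zero =>
    intro x y z h1 h2
    have : x = y := h1
    rw [this, zero_add]
    exact h2
  | succ i ih =>
    intro x y z h1 h2
    obtain ⟨hd, h, h3, h4⟩ := h1
    have e : i + 1 + j = (i + j) + 1 := by ring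
    rw [e]
    exact ⟨hd, h, h3, ih h4 h2⟩

theorem lw_of_chain {T : Bool → Sym2 H → ℝ≥0∞} {M : ℕ} {xs : List H}
    (hx : BCh vert σ T b t col r xs)
    (hd : ∀ ys, ys <:+ xs → ys ≠ xs → deg vert (ed vert σ b ys) < M) :
    LW vert M σ xs.length b (ed vert σ b xs) := by
  induction xs with
  | nil => exact (rfl : b = b)
  | cons h xs ih =>
    have hne : xs ≠ h :: xs := fun e => by
      have := congrArg List.length e
      simp at this
    have h1 := ih hx.2.2.2.2.2 (fun ys hs _ => hd ys (hs.trans (List.suffix_cons _ _)) (fun e => by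
      have h2 := hs.length_le
      rw [e] at h2
      simp at h2))
    have h2 : LW vert M σ 1 (ed vert σ b xs) (vert (σ h)) :=
      ⟨hd xs (List.suffix_cons _ _) hne, h, hx.1, rfl⟩
    exact LW.append h1 h2

end

end Pool.Agent.H949.DX
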