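import Pool.Agent.H949.DX.Walk

/-!
# Red walks that avoid the early blue vertices

Definitions (`SW`, `ClG`, `Fl`, `LW`) are in `DX/Walk.lean`; `IsOutcome`, `arr`, `arr_le` in
`CM/Dyn.lean`; `wt`, `nxt` in `CX/PS.lean`; `len` in `CM/Model.lean`
(`len ω true s(h, σ h) = ENNReal.ofReal (wt true σ ω h)`). Compare `XW.mono`, `XW.trans`, `XW.symm`,
`red_along` in `CM/Dyn.lean`.

Paper proof.
`sw_mono`, `sw_trans`, `sw_symm`, `sw_nonneg`: as for `XW` (induction; the weight of an edge is the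
same in both directions because `s(σ h, σ (σ h)) = s(h, σ h)`).
`sw_red`: `A v` says: `v` is not a blue vertex coloured before `t2`. Induction on `k`. `x` red at time
`≤ ofReal τ0`. For the next vertex `z = vert (σ h)` of the walk: if `z = a` it is red at time `0`;
`z = b` is impossible by `A` (`b` is blue at time `0 ≤ t2`); otherwise `t z ≤ arr true z ≤ t x +
ofReal (wt h) ≤ ofReal (τ0 + wt h) ≤ ofReal t2` (the walk after `z` has nonnegative length, so
`τ0 + wt h ≤ τ0 + C ≤ t2`), so `z` is coloured (`never`), and not blue by `A`, so red.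
`cl_red`: induction on `r`. Climbing from `x` (red at time `≤ ofReal τ0`), `x ∈ U`: the next vertex `z` is
not in `U`, `m ≤ kn (j+1) ≤ deg z`, so `A z`, red at time `≤ ofReal (τ0 + q j)` as before; take
`T := insert z T'` where `T'` is the set for `r - 1` from `z` with `insert z U`.
`cl_sw`: same induction without colours. `A` holds at all vertices of degree `≥ m`.
-/

set_option linter.unusedSectionVars false

open MeasureTheory Finset
open scoped ENNReal

namespace Pool.Agent.H949.DX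

open Pool.Agent.H949.CM Pool.Agent.H949.CX

variable {V H : Type} [Fintype V] [DecidableEq V] [Fintype H] [DecidableEq H]

section

variable {vert : H → V} {σ : Mt H} {ω : Wt H} {A : V → Prop}

theorem sw_mono {k : ℕ} {C C' : ℝ} {x y : V} (h : SW vert σ ω A k C x y) (hC : C ≤ C') :
    SW vert σ ω A k C' x y := by
  induction k generalizing C C' x with
  | zero => exact ⟨h.1, le_trans h.2.1 hC, h.2.2⟩
  | succ k ih =>
    obtain ⟨hA, g, h1, h2⟩ := h
    exact ⟨hA, g, h1, ih h2 (by linarith)⟩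

theorem sw_trans {j k : ℕ} {C C' : ℝ} {x y z : V} (h : SW vert σ ω A j C x y)
    (h' : SW vert σ ω A k C' y z) : SW vert σ ω A (j + k) (C + C') x z := by
  induction j generalizing C x with
  | zero =>
    obtain ⟨rfl, h3, _⟩ := h
    rw [zero_add]
    exact sw_mono h' (by linarith)
  | succ j ih =>
    obtain ⟨hA, g, h3, h4⟩ := h
    have e : j + 1 + k = (j + k) + 1 := by ring
    rw [e]
    exact ⟨hA, g, h3, sw_mono (ih h4) (by linarith)⟩

theorem sw_endl {k : ℕ} {C : ℝ} {x y : V} (h : SW vert σ ω A k C x y) : A x := by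
  cases k with
  | zero => exact h.2.2
  | succ k => exact h.1

theorem sw_symm {k : ℕ} {C : ℝ} {x y : V} (h : SW vert σ ω A k C x y) :
    SW vert σ ω A k C y x := by
  induction k generalizing C x with
  | zero =>
    obtain ⟨rfl, h1, h2⟩ := h
    exact ⟨rfl, h1, h2⟩
  | succ k ih =>
    obtain ⟨hA, g, h1, h2⟩ := h
    have h3 : SW vert σ ω A 1 (wt true σ ω g) (vert (σ g)) x := by
      refine ⟨sw_endl h2, σ g, rfl, ?_⟩
      have e1 : wt true σ ω (σ g) = wt true σ ω g := by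
        unfold wt
        rw [Mt.invol, show s(σ g, g) = s(g, σ g) from Sym2.eq_swap]
      rw [Mt.invol, h1, e1, sub_self]
      exact ⟨rfl, le_rfl, hA⟩
    exact sw_mono (sw_trans (ih h2) h3) (by linarith)

theorem sw_nonneg (hpos : ∀ h, 0 ≤ wt true σ ω h) {k : ℕ} {C : ℝ} {x y : V}
    (h : SW vert σ ω A k C x y) : 0 ≤ C := by
  induction k generalizing C x with
  | zero => exact h.2.1
  | succ k ih =>
    obtain ⟨_, g, _, h2⟩ := h
    have h3 := ih h2
    have h4 := hpos g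
    linarith

theorem sw_ends {k : ℕ} {C : ℝ} {x y : V} (h : SW vert σ ω A k C x y) : A x ∧ A y :=
  ⟨sw_endl h, sw_endl (sw_symm h)⟩

theorem wt_le {G : ℕ → Set (ℝ × ℝ)} {q : ℕ → ℝ} (hG : ∀ i, ∀ p ∈ G i, p.1 ≤ q i) {j : ℕ} {h : H}
    (hh : ω s(h, σ h) ∈ G j) : wt true σ ω h ≤ q j := by
  have := hG j _ hh
  exact this

theorem sum_shift (q : ℕ → ℝ) (r j : ℕ) :
    ∑ i ∈ range (r + 1), q (j + i) = (∑ i ∈ range r, q (j + 1 + i)) + q j := by
  rw [Finset.sum_range_succ']
  congr 1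
  exact Finset.sum_congr rfl (fun i _ => by congr 1; ring)

/-- Climbing gives a walk. -/
theorem cl_sw {m : ℕ} {idx : H → ℕ} {kn : ℕ → ℕ} {G : ℕ → Set (ℝ × ℝ)} {q : ℕ → ℝ}
    (hG : ∀ i, ∀ p ∈ G i, p.1 ≤ q i) (hkn : ∀ i, m ≤ kn i) (hA : ∀ v, m ≤ deg vert v → A v)
    {r j : ℕ} {U : Finset V} {x : V} (hx : m ≤ deg vert x) (hkx : kn j ≤ deg vert x)
    (h : ClG vert idx kn G σ ω r j U x) :
    ∃ z, kn (j + r) ≤ deg vert z ∧ SW vert σ ω A r (∑ i ∈ range r, q (j + i)) x z := by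
  induction r generalizing j U x with
  | zero => exact ⟨x, hkx, rfl, by simp, hA x hx⟩
  | succ r ih =>
    obtain ⟨g, h1, _, _, _, h5, h6, h7⟩ := h
    obtain ⟨z, hz1, hz2⟩ := ih (j := j + 1) (le_trans (hkn (j + 1)) h5) h5 h7
    refine ⟨z, ?_, hA x hx, g, h1, ?_⟩
    · have e : j + (r + 1) = j + 1 + r := by ring
      rw [e]; exact hz1
    · refine sw_mono hz2 ?_
      rw [sum_shift]
      have := wt_le hG h6
      linarith

variable {a b : V} {t : V → ℝ≥0∞} {col : V → Option Bool}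

theorem red_step {t2 : ℝ} (hab : a ≠ b) (hO : IsOutcome vert σ (len ω) a b t col)
    (hpos : ∀ h, 0 ≤ wt true σ ω h) (ht2 : 0 ≤ t2)
    (hA : ∀ v, A v → ¬ (col v = some false ∧ t v ≤ ENNReal.ofReal t2)) {τ0 : ℝ} {h : H}
    (hx : col (vert h) = some true) (hτ0 : 0 ≤ τ0) (htx : t (vert h) ≤ ENNReal.ofReal τ0)
    (hC : τ0 + wt true σ ω h ≤ t2) (hz : A (vert (σ h))) :
    col (vert (σ h)) = some true ∧ t (vert (σ h)) ≤ ENNReal.ofReal (τ0 + wt true σ ω h) := by
  set z := vert (σ h) with hzdef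
  have hAz := hA z hz
  have hzb : z ≠ b := by
    intro e
    apply hAz
    rw [e]
    refine ⟨hO.col_b hab, ?_⟩
    rw [hO.time_b]; exact bot_le
  by_cases hza : z = a
  · rw [hza]
    refine ⟨hO.col_a hab, ?_⟩
    rw [hO.time_a]; exact bot_le
  have hlen : len ω true s(h, σ h) = ENNReal.ofReal (wt true σ ω h) := by
    simp [len, wt, pr]
  have ht : t z ≤ ENNReal.ofReal (τ0 + wt true σ ω h) := by
    rw [hO.time z hza hzb]
    refine le_trans (min_le_left _ _) (le_trans (arr_le (h := h) hx rfl) ?_)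
    rw [hlen, ENNReal.ofReal_add hτ0 (hpos h)]
    exact add_le_add htx le_rfl
  refine ⟨?_, ht⟩
  cases hcz : col z with
  | none =>
    exfalso
    have := (hO.never z).1 hcz
    rw [this] at ht
    exact absurd (lt_of_le_of_lt ht ENNReal.ofReal_lt_top) (lt_irrefl _)
  | some c =>
    cases c with
    | true => rfl
    | false => exact absurd ⟨hcz, le_trans ht (ENNReal.ofReal_le_ofReal hC)⟩ hAz

/-- A red walk that avoids the early blue vertices is red. -/
theorem sw_red {t2 : ℝ} (hab : a ≠ b) (hO : IsOutcome vert σ (len ω) a b t col)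
    (hpos : ∀ h, 0 ≤ wt true σ ω h) (ht2 : 0 ≤ t2)
    (hA : ∀ v, A v → ¬ (col v = some false ∧ t v ≤ ENNReal.ofReal t2)) {k : ℕ} {C τ0 : ℝ}
    {x y : V} (h : SW vert σ ω A k C x y) (hx : col x = some true) (hτ0 : 0 ≤ τ0)
    (htx : t x ≤ ENNReal.ofReal τ0) (hC : τ0 + C ≤ t2) :
    col y = some true ∧ t y ≤ ENNReal.ofReal (τ0 + C) := by
  induction k generalizing C τ0 x with
  | zero =>
    obtain ⟨rfl, h1, _⟩ := h
    exact ⟨hx, le_trans htx (ENNReal.ofReal_le_ofReal (by linarith))⟩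
  | succ k ih =>
    obtain ⟨_, g, h1, h2⟩ := h
    subst h1
    have h3 := sw_nonneg hpos h2
    have h4 := hpos g
    obtain ⟨h5, h6⟩ := red_step hab hO hpos ht2 hA hx hτ0 htx (by linarith) (sw_endl h2)
    have h7 := ih h2 h5 (by linarith) h6 (by linarith)
    rw [show τ0 + wt true σ ω g + (C - wt true σ ω g) = τ0 + C by ring] at h7
    exact h7

/-- Climbing from a red vertex meets many red vertices. -/
theorem cl_red {t2 : ℝ} (hab : a ≠ b) (hO : IsOutcome vert σ (len ω) a b t col)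
    (hpos : ∀ h, 0 ≤ wt true σ ω h) (ht2 : 0 ≤ t2)
    (hA : ∀ v, A v → ¬ (col v = some false ∧ t v ≤ ENNReal.ofReal t2)) {m : ℕ} {idx : H → ℕ}
    {kn : ℕ → ℕ} {G : ℕ → Set (ℝ × ℝ)} {q : ℕ → ℝ} (hq : ∀ i, 0 ≤ q i)
    (hG : ∀ i, ∀ p ∈ G i, p.1 ≤ q i) (hkn : ∀ i, m ≤ kn i) (hAm : ∀ v, m ≤ deg vert v → A v)
    {r j : ℕ} {U : Finset V} {x : V} {τ0 : ℝ} (hxU : x ∈ U) (hx : col x = some true)
    (hτ0 : 0 ≤ τ0) (htx : t x ≤ ENNReal.ofReal τ0)
    (hC : τ0 + ∑ i ∈ range r, q (j + i) ≤ t2) (h : ClG vert idx kn G σ ω r j U x) :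
    ∃ T : Finset V, T.card = r ∧ (∀ v ∈ T, v ∉ U ∧ col v = some true) := by
  induction r generalizing j U x τ0 with
  | zero => exact ⟨∅, by simp, by simp⟩
  | succ r ih =>
    obtain ⟨g, h1, _, h3, _, h5, h6, h7⟩ := h
    subst h1
    rw [sum_shift] at hC
    have h8 := wt_le hG h6
    have h9 : 0 ≤ ∑ i ∈ range r, q (j + 1 + i) := Finset.sum_nonneg (fun i _ => hq _)
    obtain ⟨h10, h11⟩ := red_step hab hO hpos ht2 hA hx hτ0 htx (by linarith)
      (hAm _ (le_trans (hkn (j + 1)) h5))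
    obtain ⟨T, hT1, hT2⟩ := ih (j := j + 1) (τ0 := τ0 + q j) (mem_insert_self _ _) h10
      (by have := hq j; linarith) (le_trans h11 (ENNReal.ofReal_le_ofReal (by linarith)))
      (by linarith) h7
    refine ⟨insert (vert (σ g)) T, ?_, ?_⟩
    · rw [card_insert_of_notMem, hT1]
      intro hmem
      exact (hT2 _ hmem).1 (mem_insert_self _ _)
    · intro v hv
      rcases mem_insert.1 hv with rfl | hv
      · exact ⟨h3, h10⟩
      · exact ⟨fun hU => (hT2 v hv).1 (mem_insert_of_mem hU), (hT2 v hv).2⟩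

end

end Pool.Agent.H949.DX
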