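import Pool.Agent.H949.DX.D1
import Pool.Agent.H949.DX.D2
import Pool.Agent.H949.DX.D3

/-!
# Escape of red, and the deterministic core
-/

set_option linter.unusedSectionVars false
set_option linter.unusedVariables false

open MeasureTheory Finset
open scoped ENNReal

namespace Pool.Agent.H949.DX

open Pool.Agent.H949.CM Pool.Agent.H949.CX

variable {V H : Type} [Fintype V] [DecidableEq V] [Fintype H] [DecidableEq H]

section

variable {vert : H → V} {σ : Mt H} {ω : Wt H} {A : V → Prop} {a b : V} {m : ℕ}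
  {P : V → Mt H → Wt H → Prop}

/-- Escape through a side half-edge of a chain. -/
theorem escape {L gb : ℕ} (hL : ∀ h, vert h = b → ¬ Rv vert m σ L {b} h)
    (hA : ∀ v, ¬ A v → ∃ ys, NB vert m σ b ys ∧ ed vert σ b ys = v ∧ ys.length < gb ∧
      ∀ zs, zs <:+ ys → ¬ A (ed vert σ b zs))
    (hAm : ∀ v, m ≤ deg vert v → A v) :
    ∀ (g : ℕ) (s : ℝ) (f : H) (xs : List H), NB vert m σ b (f :: xs) → A (ed vert σ b xs) →
      xs.length + g + gb ≤ L → ¬ Fl vert true m P g s f σ ω →
      ∃ z k, m ≤ deg vert z ∧ P z σ ω ∧ SW vert σ ω A k s (ed vert σ b xs) z := by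
  intro g
  induction g with
  | zero => intro s f xs _ _ _ h; exact absurd trivial h
  | succ g ih =>
    intro s f xs hN hAx hlen hF
    simp only [Fl, not_or, not_and, not_not] at hF
    obtain ⟨hF1, hF2, hF3⟩ := hF
    have hF1' : wt true σ ω f ≤ s := not_lt.1 hF1
    have hvf : vert f = ed vert σ b xs := (nb_tail hN).2
    have hAw : A (vert (σ f)) := by
      by_contra hc
      obtain ⟨ys, hy1, hy2, hy3, hy4⟩ := hA _ hc
      rcases lt_or_ge (deg vert (vert (σ f))) m with hd | hd
      · have he : f :: xs = ys := nb_unique hL hN hy1 (by rw [List.length_cons]; omega)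
          (by rw [hy2]; rfl) (fun _ => hd)
        exact hy4 xs (he ▸ List.suffix_cons f xs) hAx
      · exact hc (hAm _ hd)
    rcases lt_or_ge (deg vert (vert (σ f))) m with hd | hd
    · have h1 := hF2 hd
      simp only [not_forall] at h1
      obtain ⟨f', hf', hFl⟩ := h1
      obtain ⟨z, k, hz1, hz2, hz3⟩ := ih (s - wt true σ ω f) f' (f :: xs) ⟨hf', hd, hN⟩ hAw
        (by rw [List.length_cons]; omega) hFl
      exact ⟨z, k + 1, hz1, hz2, hAx, f, hvf, hz3⟩
    · refine ⟨vert (σ f), 1, hd, hF3 hd, hAx, f, hvf, rfl, ?_, hAw⟩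
      linarith

theorem lw_append {i : ℕ} : ∀ {k : ℕ} {x y z : V}, LW vert m σ k x y → LW vert m σ i y z →
    LW vert m σ (k + i) x z := by
  intro k
  induction k with
  | zero => intro x y z h1 h2; rw [zero_add]; rw [show x = y from h1]; exact h2
  | succ k ih =>
    intro x y z h1 h2
    obtain ⟨hd, h, hv, hw⟩ := h1
    have e : k + 1 + i = (k + i) + 1 := by ring
    rw [e]
    exact ⟨hd, h, hv, ih hw h2⟩

/-- Escape from the red source. -/
theorem escape_red {L gb : ℕ} (hfar : ∀ k ≤ L, ¬ LW vert m σ k b a)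
    (hA : ∀ v, ¬ A v → ∃ k < gb, LW vert m σ k b v)
    (hAm : ∀ v, m ≤ deg vert v → A v) :
    ∀ (g : ℕ) (s : ℝ) (f : H) (i : ℕ), A (vert f) → LW vert m σ i (vert f) a →
      i + g + gb ≤ L → ¬ Fl vert true m P g s f σ ω →
      ∃ z k, m ≤ deg vert z ∧ P z σ ω ∧ SW vert σ ω A k s (vert f) z := by
  intro g
  induction g with
  | zero => intro s f i _ _ _ h; exact absurd trivial h
  | succ g ih =>
    intro s f i hAf hLW hlen hF
    simp only [Fl, not_or, not_and, not_not] at hF
    obtain ⟨hF1, hF2, hF3⟩ := hF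
    have hF1' : wt true σ ω f ≤ s := not_lt.1 hF1
    have hback : ∀ hd : deg vert (vert (σ f)) < m, LW vert m σ (i + 1) (vert (σ f)) a :=
      fun hd => ⟨hd, σ f, rfl, by rw [Mt.invol]; exact hLW⟩
    have hAw : A (vert (σ f)) := by
      by_contra hc
      rcases lt_or_ge (deg vert (vert (σ f))) m with hd | hd
      · obtain ⟨k, hk, hkw⟩ := hA _ hc
        exact hfar _ (by omega) (lw_append hkw (hback hd))
      · exact hc (hAm _ hd)
    rcases lt_or_ge (deg vert (vert (σ f))) m with hd | hd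
    · have h1 := hF2 hd
      simp only [not_forall] at h1
      obtain ⟨f', hf', hFl⟩ := h1
      have hvf' : vert f' = vert (σ f) := (mem_nxt.1 hf').1
      obtain ⟨z, k, hz1, hz2, hz3⟩ := ih (s - wt true σ ω f) f' (i + 1) (by rw [hvf']; exact hAw)
        (by rw [hvf']; exact hback hd) (by omega) hFl
      refine ⟨z, k + 1, hz1, hz2, hAf, f, rfl, ?_⟩
      rw [← hvf']; exact hz3
    · refine ⟨vert (σ f), 1, hd, hF3 hd, hAf, f, rfl, rfl, ?_, hAw⟩
      linarith

end

end Pool.Agent.H949.DX
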