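import Pool.Agent.H949.DX.D4

/-!
# The deterministic core
-/

set_option linter.unusedSectionVars false
set_option linter.unusedVariables false

open MeasureTheory Finset
open scoped ENNReal

namespace Pool.Agent.H949.DX

open Pool.Agent.H949.CM Pool.Agent.H949.CX

variable {V H : Type} [Fintype V] [DecidableEq V] [Fintype H] [DecidableEq H]

section

variable {vert : H → V} {σ : Mt H} {ω : Wt H} {b : V} {t : V → ℝ≥0∞}
  {col : V → Option Bool} {r : V → ℕ}

/-- The number of lines from `h` is at least one if a chain is too long or meets a large degree. -/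
theorem cc_big {m1 : ℕ} {Q : H → Mt H → Wt H → Prop} {Lt : V → Prop}
    {xs : List H} (hx : BCh vert σ (len ω) b t col r xs)
    (hLt : ∀ ys zs, ys <:+ zs → zs <:+ xs → Lt (ed vert σ b ys) → Lt (ed vert σ b zs))
    (hQ : ∀ h ys f, h :: ys <:+ xs → h :: ys ≠ xs → Lt (vert (σ h)) →
      deg vert (vert (σ h)) < m1 → f ∈ nxt vert (σ h) → Q f σ ω) :
    ∀ (k : ℕ) (h : H) (ys zs : List H), xs = zs ++ h :: ys → Lt (vert (σ h)) →
      (k ≤ zs.length ∨ m1 ≤ deg vert (ed vert σ b xs)) → 1 ≤ CC vert m1 Q k h σ ω := by
  classical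
  intro k
  induction k with
  | zero => intro h ys zs _ _ _; exact le_refl _
  | succ k ih =>
    intro h ys zs he hl hc
    simp only [CC]
    by_cases hd : m1 ≤ deg vert (vert (σ h))
    · rw [if_pos hd]
    · rw [if_neg hd]
      rcases List.eq_nil_or_concat zs with h0 | ⟨zs', h1, h0⟩
      · exfalso
        subst h0
        rw [List.nil_append] at he
        rcases hc with hc | hc
        · simp at hc
        · rw [he] at hc
          exact hd hc
      · have he' : xs = zs' ++ h1 :: (h :: ys) := by
          rw [he, h0]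
          simp
        have hs1 : h1 :: h :: ys <:+ xs := ⟨zs', he'.symm⟩
        have hs2 : h :: ys <:+ xs := ⟨zs, he.symm⟩
        have hne : h :: ys ≠ xs := by
          intro h2
          have := congrArg List.length h2
          rw [he', List.length_append] at this
          simp only [List.length_cons] at this
          omega
        have hmem : h1 ∈ nxt vert (σ h) := chain_rank (chain_suffix hx hs1)
        have hl1 : Lt (vert (σ h1)) := hLt (h :: ys) (h1 :: h :: ys) (List.suffix_cons _ _) hs1 hl
        have h3 := ih h1 (h :: ys) zs' he' hl1 (by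
          rcases hc with hc | hc
          · left
            rw [h0] at hc
            simp only [List.concat_eq_append, List.length_append, List.length_cons,
              List.length_nil] at hc
            omega
          · exact Or.inr hc)
        refine le_trans ?_ (Finset.single_le_sum (f := fun f =>
          if ∀ f' ∈ (nxt vert (σ h)).erase f, Q f' σ ω then CC vert m1 Q k f σ ω else 0)
          (fun _ _ => bot_le) hmem)
        rw [if_pos]
        · exact h3
        · intro f' hf'
          exact hQ h ys f' hs2 hne hl (not_le.1 hd) (Finset.mem_of_mem_erase hf')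

theorem wc_big {m1 m2 j gb : ℕ} {Q : H → Mt H → Wt H → Prop} {Lt : V → Prop}
    {xs : List H} (hx : BCh vert σ (len ω) b t col r xs)
    (hLt : ∀ ys zs, ys <:+ zs → zs <:+ xs → Lt (ed vert σ b ys) → Lt (ed vert σ b zs))
    (hQ : ∀ h ys f, h :: ys <:+ xs → h :: ys ≠ xs → Lt (vert (σ h)) →
      deg vert (vert (σ h)) < m1 → f ∈ nxt vert (σ h) → Q f σ ω)
    (hE : ∀ h ys, h :: ys <:+ xs → ¬ Lt (vert (σ h)) →
      (h :: ys).length < gb ∧ deg vert (vert (σ h)) < m2)
    (hxL : Lt (ed vert σ b xs))
    (hbad : gb + j ≤ xs.length ∨ m1 ≤ deg vert (ed vert σ b xs)) :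
    ∀ (a : ℕ) (h : H) (ys zs : List H), xs = zs ++ h :: ys → ys.length < gb →
      gb ≤ a + ys.length → 1 ≤ WC vert m1 m2 Q j a h σ ω := by
  classical
  intro a
  induction a with
  | zero => intro h ys zs _ h1 h2; omega
  | succ a ih =>
    intro h ys zs he hlen hga
    simp only [WC]
    by_cases hl : Lt (vert (σ h))
    · refine le_trans ?_ le_self_add
      apply cc_big hx hLt hQ j h ys zs he hl
      rcases hbad with hb | hb
      · left
        rw [he, List.length_append, List.length_cons] at hb
        omega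
      · exact Or.inr hb
    · refine le_trans ?_ le_add_self
      have hs2 : h :: ys <:+ xs := ⟨zs, he.symm⟩
      obtain ⟨h3, h4⟩ := hE h ys hs2 hl
      rw [if_pos h4]
      rcases List.eq_nil_or_concat zs with h0 | ⟨zs', h1, h0⟩
      · exfalso
        subst h0
        rw [List.nil_append] at he
        rw [he] at hxL
        exact hl hxL
      · have he' : xs = zs' ++ h1 :: (h :: ys) := by
          rw [he, h0]
          simp
        have hs1 : h1 :: h :: ys <:+ xs := ⟨zs', he'.symm⟩
        have hmem : h1 ∈ nxt vert (σ h) := chain_rank (chain_suffix hx hs1)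
        have h5 := ih h1 (h :: ys) zs' he' h3 (by
          rw [List.length_cons] at h3 ⊢
          omega)
        exact le_trans h5 (Finset.single_le_sum (f := fun f => WC vert m1 m2 Q j a f σ ω)
          (fun _ _ => bot_le) hmem)

end

/-- **Deterministic core.** -/
theorem det_core {vert : H → V} {σ : Mt H} {ω : Wt H} {a b : V} {t : V → ℝ≥0∞}
    {col : V → Option Bool} (hab : a ≠ b) (hO : Causal vert σ (len ω) a b t col)
    (hposr : ∀ h, 0 ≤ wt true σ ω h) (hposb : ∀ h, 0 ≤ wt false σ ω h)
    (hnx : ∀ y : H, (nxt vert y).Nonempty)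
    {m m1 m2 g gb j J L : ℕ} {x : ℝ} {idx : H → ℕ} {kn : ℕ → ℕ} {G : ℕ → Set (ℝ × ℝ)}
    {q : ℕ → ℝ} (hx : 0 ≤ x) (hm1 : m1 ≤ m) (hm2 : m2 ≤ m) (hgb : 1 ≤ gb)
    (hdb : deg vert b < m2) (hq : ∀ i, 0 ≤ q i) (hqs : ∑ i ∈ range J, q i ≤ 1)
    (hG : ∀ i, ∀ p ∈ G i, p.1 ≤ q i) (hkn : ∀ i, m ≤ kn i) (hkn0 : kn 0 = m)
    (hLL : gb + j + g + gb ≤ L)
    (h1 : ∀ h, vert h = b → Gd vert false m2 gb (2 * x + 3) h σ ω)
    (h2 : ∀ h, vert h = b → WC vert m1 m2 (fun f σ ω => Fl vert true m
      (fun v σ ω => ClG vert idx kn G σ ω J 0 {v} v) g x f σ ω) j gb h σ ω < 1)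
    (h3 : ∀ h, vert h = b → ¬ Rv vert m σ L {b} h)
    (h4 : ∃ f, vert f = a ∧ ¬ Fl vert true m
      (fun v σ ω => ClG vert idx kn G σ ω J 0 {v} v) g x f σ ω)
    (h5 : ∀ k ≤ L, ¬ LW vert m σ k b a)
    (h6 : ∀ x z, x ≠ z → kn J ≤ deg vert x → kn J ≤ deg vert z →
      ∃ h, vert h = x ∧ vert (σ h) = z ∧ wt true σ ω h ≤ 1) :
    (univ.filter (fun v => col v = some false)).card ≤
        ∑ k ∈ range (gb + j + 1), (max m1 m2) ^ k ∧
      J + 1 ≤ (univ.filter (fun v => col v = some true)).card := by
  classical
  obtain ⟨t2, ht2⟩ : ∃ t2, t2 = 2 * x + 3 := ⟨_, rfl⟩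
  have ht20 : 0 ≤ t2 := by linarith
  rw [← ht2] at h1
  set P : V → Mt H → Wt H → Prop := fun v σ ω => ClG vert idx kn G σ ω J 0 {v} v with hP
  set A : V → Prop := fun v => ¬ (col v = some false ∧ t v ≤ ENNReal.ofReal t2) with hA
  obtain ⟨r, hr⟩ := hO.rank
  have hcb : col b = some false := hO.out.col_b hab
  have hca : col a = some true := hO.out.col_a hab
  have htb : t b = 0 := hO.out.time_b
  -- early blue vertices
  have hearly : ∀ v, ¬ A v → ∃ ys, BCh vert σ (len ω) b t col r ys ∧ ed vert σ b ys = v ∧
      ys.length < gb ∧ (∀ zs, zs <:+ ys → zs ≠ [] → deg vert (ed vert σ b zs) < m2) ∧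
      ∀ zs, zs <:+ ys → ¬ A (ed vert σ b zs) := by
    intro v hv
    have hv' : col v = some false ∧ t v ≤ ENNReal.ofReal t2 := not_not.1 hv
    obtain ⟨ys, hy1, hy2⟩ := chain_exists hab hO.out hr hv'.1
    obtain ⟨hy3, hy4⟩ := chain_early ht20 hposb hnx htb hgb h1 hy1 (by rw [hy2]; exact hv'.2)
    refine ⟨ys, hy1, hy2, hy3, hy4, ?_⟩
    intro zs hzs hc
    apply hc
    refine ⟨chain_col hcb (chain_suffix hy1 hzs), ?_⟩
    refine le_trans (chain_time hy1 hzs) ?_
    rw [hy2]; exact hv'.2
  have hAm2 : ∀ v, m2 ≤ deg vert v → A v := by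
    intro v hd hc
    obtain ⟨ys, _, hy2, _, hy4, _⟩ := hearly v (not_not.2 hc)
    rcases List.eq_nil_or_concat ys with h0 | ⟨_, _, h0⟩
    · subst h0
      have : b = v := hy2
      rw [← this] at hd
      omega
    · have hne : ys ≠ [] := by rw [h0]; simp
      have := hy4 ys (List.suffix_refl _) hne
      rw [hy2] at this
      omega
  have hAm : ∀ v, m ≤ deg vert v → A v := fun v hd => hAm2 v (le_trans hm2 hd)
  have hAnb : ∀ v, ¬ A v → ∃ ys, NB vert m σ b ys ∧ ed vert σ b ys = v ∧ ys.length < gb ∧
      ∀ zs, zs <:+ ys → ¬ A (ed vert σ b zs) := by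
    intro v hv
    obtain ⟨ys, hy1, hy2, hy3, hy4, hy5⟩ := hearly v hv
    exact ⟨ys, chain_nb hy1 (fun zs hz hz0 _ => lt_of_lt_of_le (hy4 zs hz hz0) hm2), hy2, hy3, hy5⟩
  have hAlw : ∀ v, ¬ A v → ∃ k < gb, LW vert m σ k b v := by
    intro v hv
    obtain ⟨ys, hy1, hy2, hy3, hy4, hy5⟩ := hearly v hv
    refine ⟨ys.length, hy3, ?_⟩
    rw [← hy2]
    apply lw_of_chain hy1
    intro zs hz _
    rcases List.eq_nil_or_concat zs with h0 | ⟨_, _, h0⟩
    · subst h0
      have : ed vert σ b ([] : List H) = b := rfl
      rw [this]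
      omega
    · exact lt_of_lt_of_le (hy4 zs hz (by rw [h0]; simp)) hm2
  have hAdef : ∀ v, A v → ¬ (col v = some false ∧ t v ≤ ENNReal.ofReal t2) := fun v h => h
  have hAa : A a := by
    intro hc
    rw [hca] at hc
    simp at hc
  -- the red hub
  obtain ⟨f, hfa, hfl⟩ := h4
  obtain ⟨z, k, hz1, hz2, hz3⟩ := escape_red (b := b) (a := a) (A := A) (P := P) (L := L)
    (gb := gb) h5 hAlw hAm g x f 0 (by rw [hfa]; exact hAa) (by rw [hfa]; exact rfl)
    (by omega) hfl
  rw [hfa] at hz3
  have hta : t a ≤ ENNReal.ofReal 0 := by rw [hO.out.time_a]; exact bot_le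
  obtain ⟨hz4, hz5⟩ := sw_red hab hO.out hposr ht20 hAdef hz3 hca (le_refl 0) hta (by linarith)
  rw [zero_add] at hz5
  have hsum0 : ∑ i ∈ range J, q (0 + i) ≤ 1 := by
    simpa using hqs
  obtain ⟨T, hT1, hT2⟩ := cl_red hab hO.out hposr ht20 hAdef hq hG hkn hAm
    (mem_singleton_self z) hz4 hx hz5 (by linarith) hz2
  obtain ⟨y, hy1, hy2⟩ := cl_sw hG hkn hAm hz1 (by rw [hkn0]; exact hz1) hz2
  rw [zero_add] at hy1
  have hy2' := sw_mono hy2 hsum0
  obtain ⟨hy3, hy4⟩ := sw_red hab hO.out hposr ht20 hAdef hy2' hz4 hx hz5 (by linarith)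
  -- the side half-edges of late blue vertices
  have hside : ∀ (xs : List H) (f : H), NB vert m σ b (f :: xs) →
      col (ed vert σ b xs) = some false → A (ed vert σ b xs) → xs.length + g + gb ≤ L →
      Fl vert true m P g x f σ ω := by
    intro xs f hN hc hAx hlen
    by_contra hF
    obtain ⟨z', k', hz1', hz2', hz3'⟩ := escape h3 hAnb hAm g x f xs hN hAx hlen hF
    obtain ⟨y', hy1', hy2''⟩ := cl_sw hG hkn hAm hz1' (by rw [hkn0]; exact hz1') hz2'
    rw [zero_add] at hy1'
    have h7 := sw_symm (sw_trans hz3' (sw_mono hy2'' hsum0))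
    have h8 : ∃ k'' : ℕ, SW vert σ ω A k'' (x + 2) y (ed vert σ b xs) := by
      by_cases he : y = y'
      · rw [he]
        exact ⟨_, sw_mono h7 (by linarith)⟩
      · obtain ⟨h, hh1, hh2, hh3⟩ := h6 y y' he hy1 hy1'
        refine ⟨(k' + J) + 1, hAm y (le_trans (hkn J) hy1), h, hh1, ?_⟩
        rw [hh2]
        exact sw_mono h7 (by linarith)
    obtain ⟨k'', h9⟩ := h8
    have h10 := sw_red hab hO.out hposr ht20 hAdef h9 hy3 (by linarith) hy4 (by linarith)
    rw [hc] at h10
    simp at h10
  -- all blue chains are short and have small degrees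
  have hb0 : deg vert b < max m1 m2 := lt_of_lt_of_le hdb (le_max_right _ _)
  have hMm : max m1 m2 ≤ m := max_le hm1 hm2
  have hmain : ∀ (n : ℕ) (xs : List H), xs.length = n → BCh vert σ (len ω) b t col r xs →
      xs.length < gb + j ∧ deg vert (ed vert σ b xs) < max m1 m2 := by
    intro n
    induction n using Nat.strong_induction_on with
    | _ n ih =>
      intro xs hxn hx'
      by_cases hAx : A (ed vert σ b xs)
      · have hprop : ∀ ys, ys <:+ xs → ys ≠ xs → ys.length < gb + j ∧
            deg vert (ed vert σ b ys) < max m1 m2 := by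
          intro ys hys hne
          have hlt : ys.length < n := by
            have h7 := hys.length_le
            rcases Nat.lt_or_ge ys.length xs.length with h8 | h8
            · omega
            · exact absurd (hys.eq_of_length (le_antisymm h7 h8)) hne
          exact ih ys.length hlt ys rfl (chain_suffix hx' hys)
        have hN : NB vert m σ b xs := by
          apply chain_nb hx'
          intro ys hys _ hne
          exact lt_of_lt_of_le (hprop ys hys hne).2 hMm
        by_contra hcon
        have hbad : gb + j ≤ xs.length ∨ m1 ≤ deg vert (ed vert σ b xs) := by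
          by_contra hc
          push Not at hc
          exact hcon ⟨hc.1, lt_of_lt_of_le hc.2 (le_max_left _ _)⟩
        have hxne : xs ≠ [] := by
          intro h0
          subst h0
          apply hAx
          refine ⟨hcb, ?_⟩
          show t b ≤ _
          rw [htb]; exact bot_le
        rcases List.eq_nil_or_concat xs with h0 | ⟨zs, h0', h0⟩
        · exact hxne h0
        · have he : xs = zs ++ h0' :: [] := by
            rw [h0, List.concat_eq_append]
          have hv0 : vert h0' = b := by
            have h7 : [h0'] <:+ xs := ⟨zs, he.symm⟩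
            have h8 := chain_suffix hx' h7
            exact h8.1
          have h7 := wc_big (m1 := m1) (m2 := m2) (j := j) (gb := gb)
            (Q := fun f σ ω => Fl vert true m P g x f σ ω) (Lt := A) hx'
            (by
              intro ys zs hyz hzx hAy
              by_contra hc
              have hc' : col (ed vert σ b zs) = some false ∧
                t (ed vert σ b zs) ≤ ENNReal.ofReal t2 := hc
              apply hAy
              exact ⟨chain_col hcb (chain_suffix hx' (hyz.trans hzx)),
                le_trans (chain_time (chain_suffix hx' hzx) hyz) hc'.2⟩)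
            (by
              intro h ys f' hs hne hL hd hf'
              have h8 := hprop (h :: ys) hs hne
              apply hside (h :: ys) f'
              · exact ⟨hf', lt_of_lt_of_le hd hm1, nb_suffix hN hs⟩
              · exact chain_col hcb (chain_suffix hx' hs)
              · exact hL
              · omega)
            (by
              intro h ys hs hL
              have hc' : col (vert (σ h)) = some false ∧
                t (vert (σ h)) ≤ ENNReal.ofReal t2 := not_not.1 hL
              obtain ⟨h8, h9⟩ := chain_early ht20 hposb hnx htb hgb h1 (chain_suffix hx' hs)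
                (show t (ed vert σ b (h :: ys)) ≤ _ from hc'.2)
              exact ⟨h8, h9 (h :: ys) (List.suffix_refl _) (by simp)⟩)
            hAx hbad gb h0' [] zs he (by simp; omega) (by simp)
          exact absurd h7 (not_le.2 (h2 h0' hv0))
      · have hc' : col (ed vert σ b xs) = some false ∧
          t (ed vert σ b xs) ≤ ENNReal.ofReal t2 := not_not.1 hAx
        obtain ⟨h8, h9⟩ := chain_early ht20 hposb hnx htb hgb h1 hx' hc'.2
        refine ⟨by omega, ?_⟩
        rcases List.eq_nil_or_concat xs with h0 | ⟨_, _, h0⟩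
        · subst h0
          exact hb0
        · exact lt_of_lt_of_le (h9 xs (List.suffix_refl _) (by rw [h0]; simp)) (le_max_right _ _)
  constructor
  · refine le_trans (card_le_card ?_) (card_lw (vert := vert) (σ := σ) (M := max m1 m2)
      (gb + j) b)
    intro v hv
    rw [mem_filter] at hv ⊢
    refine ⟨hv.1, ?_⟩
    obtain ⟨xs, hx1, hx2⟩ := chain_exists hab hO.out hr hv.2
    refine ⟨xs.length, (hmain _ xs rfl hx1).1.le, ?_⟩
    rw [← hx2]
    apply lw_of_chain hx1
    intro ys hys _
    exact (hmain _ ys rfl (chain_suffix hx1 hys)).2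
  · have hzT : z ∉ T := fun h => (hT2 z h).1 (mem_singleton_self z)
    calc J + 1 = (insert z T).card := by rw [card_insert_of_notMem hzT, hT1]
      _ ≤ _ := by
          apply card_le_card
          intro v hv
          rw [mem_insert] at hv
          rw [mem_filter]
          refine ⟨mem_univ _, ?_⟩
          rcases hv with rfl | hv
          · exact hz4
          · exact (hT2 v hv).2

end Pool.Agent.H949.DX
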