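import Mathlib

/-!
# Explosive and non-explosive branching processes: definitions
-/

open MeasureTheory Filter Topology
open scoped ENNReal

namespace Pool.Agent.H949.DX

/-- `NR ρ μ g s` is the chance that no line of descent of `g` edges that starts with a given edge
has total length at most `s`, when the numbers of children have law `ρ` and the edge lengths have
law `μ`. -/
noncomputable def NR (ρ : Measure ℕ) (μ : Measure ℝ) : ℕ → ℝ → ℝ≥0∞
  | 0, _ => 0
  | (g + 1), s => ∫⁻ x, (if s < x then 1 else ∫⁻ k, (NR ρ μ g (s - x)) ^ k ∂ρ) ∂μ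

/-- The same recursion, restricted to the numbers of children `k` with `k + 1 < m`, and started
from the value `v`. -/
noncomputable def TR (ρ : Measure ℕ) (μ : Measure ℝ) (m : ℕ) (v : ℝ≥0∞) : ℕ → ℝ → ℝ≥0∞
  | 0, _ => v
  | (g + 1), s => ∫⁻ x, (if s < x then 1 else
      ∫⁻ k in {k : ℕ | k + 1 < m}, (TR ρ μ m v g (s - x)) ^ k ∂ρ) ∂μ

/-- The sample space of the branching process with edge lengths: every possible individual (a list
of positions: `i :: u` is reached by going to the child number `i` of the root, and then from
there as `u` says) carries its number of children and the length of the edge to its parent. -/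
abbrev Om : Type := List ℕ → ℕ × ℝ

/-- The individual `u` exists. -/
def Lives : Om → List ℕ → Prop
  | _, [] => True
  | ω, i :: u => i < (ω []).1 ∧ Lives (fun w => ω (i :: w)) u

/-- The birth time of `u`: the total length of the path from the root to `u`. -/
def birth : Om → List ℕ → ℝ
  | _, [] => 0
  | ω, i :: u => (ω [i]).2 + birth (fun w => ω (i :: w)) u

/-- The law at one individual: the root has offspring law `ρ0`, the others have offspring law
`ρ`; edge lengths have law `μ`. -/
noncomputable def ndLaw (ρ0 ρ : Measure ℕ) (μ : Measure ℝ) : List ℕ → Measure (ℕ × ℝ)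
  | [] => ρ0.prod μ
  | _ :: _ => ρ.prod μ

instance (ρ0 ρ : Measure ℕ) (μ : Measure ℝ) [IsProbabilityMeasure ρ0] [IsProbabilityMeasure ρ]
    [IsProbabilityMeasure μ] (u : List ℕ) : IsProbabilityMeasure (ndLaw ρ0 ρ μ u) := by
  cases u
  · unfold ndLaw; infer_instance
  · unfold ndLaw; infer_instance

/-- The law of the branching process: all individuals are independent. -/
noncomputable def bpLaw (ρ0 ρ : Measure ℕ) (μ : Measure ℝ) [IsProbabilityMeasure ρ0]
    [IsProbabilityMeasure ρ] [IsProbabilityMeasure μ] : Measure Om :=
  Measure.infinitePi (ndLaw ρ0 ρ μ)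

/-- With positive probability infinitely many individuals are born before some finite time. -/
def Explosive (ρ0 ρ : Measure ℕ) (μ : Measure ℝ) [IsProbabilityMeasure ρ0]
    [IsProbabilityMeasure ρ] [IsProbabilityMeasure μ] : Prop :=
  ∃ t : ℝ, 0 < bpLaw ρ0 ρ μ {ω | {u | Lives ω u ∧ birth ω u ≤ t}.Infinite}

end Pool.Agent.H949.DX
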