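import Pool.Agent.H949.DX.Walk
import Pool.Agent.H949.CX.PSE

/-!
# Upper estimate for the chance that red does not escape, several half-edges at once
-/

set_option linter.unusedSectionVars false

open MeasureTheory Finset
open scoped ENNReal

namespace Pool.Agent.H949.DX

open Pool.Agent.H949.CM Pool.Agent.H949.CX

variable {V H : Type} [Fintype V] [DecidableEq V] [Fintype H] [DecidableEq H]

theorem St.step {vert : H → V} {l : List (H × H)} {U : Finset V} {h y : H} (hS : St vert l U)
    (hU : vert h ∈ U) (hy : vert y ∉ U) : St vert ((h, y) :: l) (insert (vert y) U) := by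
  constructor
  · intro g hg
    rw [dom_cons, mem_insert, mem_insert] at hg
    rcases hg with rfl | rfl | hg
    · exact mem_insert_of_mem hU
    · exact mem_insert_self _ _
    · exact mem_insert_of_mem (hS.1 g hg)
  · rw [card_insert_of_notMem hy]
    have h1 := card_dom_cons_le h y l
    have h2 := hS.2
    omega

theorem measurableSet_Fl₂ {vert : H → V} {c : Bool} {m : ℕ} {P : V → Mt H → Wt H → Prop}
    (hP : ∀ v σ, MeasurableSet {ω | P v σ ω}) (σ : Mt H) (g : ℕ) (h : H) :
    MeasurableSet {p : ℝ × Wt H | Fl vert c m P g p.1 h σ p.2} := by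
  induction g generalizing h with
  | zero => exact MeasurableSet.univ
  | succ g ih =>
    have hw : Measurable (fun p : ℝ × Wt H => wt c σ p.2 h) :=
      (measurable_wt c σ h).comp measurable_snd
    have e1 : {p : ℝ × Wt H | Fl vert c m P (g + 1) p.1 h σ p.2} =
        {p : ℝ × Wt H | p.1 < wt c σ p.2 h} ∪
        (({p : ℝ × Wt H | deg vert (vert (σ h)) < m} ∩
          ⋂ f ∈ nxt vert (σ h), (fun p : ℝ × Wt H => (p.1 - wt c σ p.2 h, p.2)) ⁻¹'
            {p : ℝ × Wt H | Fl vert c m P g p.1 f σ p.2}) ∪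
        ({p : ℝ × Wt H | m ≤ deg vert (vert (σ h))} ∩
          (fun p : ℝ × Wt H => p.2) ⁻¹' {ω | P (vert (σ h)) σ ω}ᶜ)) := by
      ext p
      simp only [Fl, Set.mem_ofPred_eq, Set.mem_union, Set.mem_inter_iff, Set.mem_iInter,
        Set.mem_preimage, Set.mem_compl_iff]
    rw [e1]
    refine (measurableSet_lt measurable_fst hw).union (((MeasurableSet.const _).inter ?_).union
      ((MeasurableSet.const _).inter (measurable_snd (hP _ _).compl)))
    refine Finset.measurableSet_biInter _ fun f _ => ?_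
    exact ((measurable_fst.sub hw).prodMk measurable_snd) (ih f)

theorem measurableSet_Fl {vert : H → V} {c : Bool} {m : ℕ} {P : V → Mt H → Wt H → Prop}
    (hP : ∀ v σ, MeasurableSet {ω | P v σ ω}) (σ : Mt H) (g : ℕ) (s : ℝ) (h : H) :
    MeasurableSet {ω : Wt H | Fl vert c m P g s h σ ω} := by
  have h1 : Measurable (fun ω : Wt H => (s, ω)) := measurable_const.prodMk measurable_id
  exact h1 (measurableSet_Fl₂ (c := c) (m := m) hP σ g h)

namespace E1

/-- the function whose mean is estimated -/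
noncomputable def FT (vert : H → V) (c : Bool) (m : ℕ) (P : V → Mt H → Wt H → Prop)
    (Y : Mt H → Wt H → ℝ≥0∞) (ts : List (H × ℕ × ℝ)) (σ : Mt H) (ω : Wt H) : ℝ≥0∞ :=
  open Classical in
  if ∀ t ∈ ts, Fl vert c m P t.2.1 t.2.2 t.1 σ ω then Y σ ω else 0

section FT

variable {vert : H → V} {c : Bool} {m : ℕ} {P : V → Mt H → Wt H → Prop}
    {Y : Mt H → Wt H → ℝ≥0∞}

theorem FT_le {ts ts' : List (H × ℕ × ℝ)} {σ : Mt H} {ω : Wt H}
    (h : (∀ t ∈ ts, Fl vert c m P t.2.1 t.2.2 t.1 σ ω) →
      ∀ t ∈ ts', Fl vert c m P t.2.1 t.2.2 t.1 σ ω) :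
    FT vert c m P Y ts σ ω ≤ FT vert c m P Y ts' σ ω := by
  unfold FT
  by_cases h1 : ∀ t ∈ ts, Fl vert c m P t.2.1 t.2.2 t.1 σ ω
  · rw [if_pos h1, if_pos (h h1)]
  · rw [if_neg h1]
    exact bot_le

theorem FT_le_Y {ts : List (H × ℕ × ℝ)} {σ : Mt H} {ω : Wt H} :
    FT vert c m P Y ts σ ω ≤ Y σ ω := by
  unfold FT
  split_ifs
  · exact le_rfl
  · exact bot_le

theorem FT_nil : FT vert c m P Y [] = Y := by
  funext σ ω
  unfold FT
  rw [if_pos (by simp)]

theorem measurable_FT (hP : ∀ v σ, MeasurableSet {ω | P v σ ω}) (hY : ∀ σ, Measurable (Y σ))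
    (ts : List (H × ℕ × ℝ)) (σ : Mt H) : Measurable (FT vert c m P Y ts σ) := by
  unfold FT
  refine Measurable.ite ?_ (hY σ) measurable_const
  induction ts with
  | nil => simp
  | cons t ts ih =>
    have e : {ω : Wt H | ∀ t' ∈ t :: ts, Fl vert c m P t'.2.1 t'.2.2 t'.1 σ ω} =
        {ω | Fl vert c m P t.2.1 t.2.2 t.1 σ ω} ∩
        {ω : Wt H | ∀ t' ∈ ts, Fl vert c m P t'.2.1 t'.2.2 t'.1 σ ω} := by
      ext ω
      simp
    rw [e]
    exact (measurableSet_Fl hP σ _ _ _).inter ih

end FT

/-- averaging over the partner -/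
theorem avg_up {vert : H → V} {ρ : Measure ℕ} {m R : ℕ} {e : ℝ≥0∞} (hE : Env vert ρ m R e)
    {l : List (H × H)} {U : Finset V} {h : H} (hS : St vert l U) (hU : U.card ≤ R)
    (hh : h ∉ dom l) {G : H → ℝ≥0∞} {A B E' T1 : ℝ≥0∞} (hAB : A ≤ B) (hT1 : T1 ≤ 1) {q : Prop}
    [Decidable q]
    (h1 : ∀ y ∈ fr l h, vert y ∈ U → G y ≤ B)
    (h2 : ∀ y ∈ fr l h, vert y ∉ U → G y ≤ (if q then A else
      if deg vert (vert y) < m then T1 ^ (deg vert (vert y) - 1) * A else 0) + E') :
    (∑ y ∈ fr l h, G y) / (fr l h).card ≤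
      A * (if q then 1 else ∫⁻ k in {k : ℕ | k + 1 < m}, T1 ^ k ∂ρ) + (E' + 2 * e * B) := by
  set n := (fr l h).card with hn
  have hn0 : (n : ℝ≥0∞) ≠ 0 := by
    have := Finset.card_pos.2 (hE.ne l U h hS hU hh)
    exact_mod_cast this.ne'
  have hnt : (n : ℝ≥0∞) ≠ ⊤ := ENNReal.natCast_ne_top _
  have hfc : ∀ x : ℝ≥0∞, (((fr l h).filter (fun y => vert y ∉ U)).card : ℝ≥0∞) * x / n ≤ x := by
    intro x
    have h3 : (((fr l h).filter (fun y => vert y ∉ U)).card : ℝ≥0∞) ≤ n := by
      exact_mod_cast card_filter_le _ _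
    calc (((fr l h).filter (fun y => vert y ∉ U)).card : ℝ≥0∞) * x / n ≤ n * x / n := by gcongr
      _ = x := by rw [mul_comm, ENNReal.mul_div_cancel_right hn0 hnt]
  have hsum : ∑ y ∈ fr l h, G y ≤
      (((fr l h).filter (fun y => vert y ∈ U)).card : ℝ≥0∞) * B +
      (∑ y ∈ (fr l h).filter (fun y => vert y ∉ U), (if q then A else
        if deg vert (vert y) < m then T1 ^ (deg vert (vert y) - 1) * A else 0) +
      (((fr l h).filter (fun y => vert y ∉ U)).card : ℝ≥0∞) * E') := by
    rw [← Finset.sum_filter_add_sum_filter_not (fr l h) (fun y => vert y ∈ U)]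
    refine add_le_add ?_ ?_
    · refine (Finset.sum_le_card_nsmul _ _ B fun y hy => ?_).trans ?_
      · rw [mem_filter] at hy
        exact h1 y hy.1 hy.2
      · rw [nsmul_eq_mul]
    · have h3 : (((fr l h).filter (fun y => vert y ∉ U)).card : ℝ≥0∞) * E' =
          ∑ y ∈ (fr l h).filter (fun y => vert y ∉ U), E' := by
        rw [sum_const, nsmul_eq_mul]
      rw [h3, ← Finset.sum_add_distrib]
      refine Finset.sum_le_sum fun y hy => ?_
      rw [mem_filter] at hy
      exact h2 y hy.1 hy.2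
  have hmain : (∑ y ∈ (fr l h).filter (fun y => vert y ∉ U), (if q then A else
        if deg vert (vert y) < m then T1 ^ (deg vert (vert y) - 1) * A else 0)) / n ≤
      A * (if q then 1 else ∫⁻ k in {k : ℕ | k + 1 < m}, T1 ^ k ∂ρ) + e * B := by
    by_cases hq : q
    · simp only [if_pos hq]
      rw [sum_const, nsmul_eq_mul, mul_one]
      exact (hfc A).trans le_self_add
    · simp only [if_neg hq]
      rw [← Finset.sum_filter, Finset.filter_filter]
      have h3 := hE.up l U h hS hU hh (fun k => T1 ^ k * A) B (fun k => by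
        calc T1 ^ k * A ≤ 1 * B := mul_le_mul' (pow_le_one₀ zero_le hT1) hAB
          _ = B := one_mul B)
      refine h3.trans ?_
      gcongr
      rw [lintegral_mul_const _ (Measurable.of_discrete), mul_comm]
  calc (∑ y ∈ fr l h, G y) / n ≤ ((((fr l h).filter (fun y => vert y ∈ U)).card : ℝ≥0∞) * B +
      (∑ y ∈ (fr l h).filter (fun y => vert y ∉ U), (if q then A else
        if deg vert (vert y) < m then T1 ^ (deg vert (vert y) - 1) * A else 0) +
      (((fr l h).filter (fun y => vert y ∉ U)).card : ℝ≥0∞) * E')) / n := by gcongr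
    _ = (((fr l h).filter (fun y => vert y ∈ U)).card : ℝ≥0∞) / n * B +
      ((∑ y ∈ (fr l h).filter (fun y => vert y ∉ U), (if q then A else
        if deg vert (vert y) < m then T1 ^ (deg vert (vert y) - 1) * A else 0)) / n +
      (((fr l h).filter (fun y => vert y ∉ U)).card : ℝ≥0∞) * E' / n) := by
        rw [ENNReal.add_div, ENNReal.add_div, ENNReal.mul_div_right_comm]
    _ ≤ e * B + ((A * (if q then 1 else ∫⁻ k in {k : ℕ | k + 1 < m}, T1 ^ k ∂ρ) + e * B) + E') := by
        refine add_le_add ?_ (add_le_add hmain (hfc E'))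
        gcongr
        exact hE.hit l U h hS hU hh
    _ = _ := by ring

section main

variable {κ : Measure (ℝ × ℝ)} [IsProbabilityMeasure κ]

theorem meas_TRint {ρ : Measure ℕ} [IsProbabilityMeasure ρ] {μ : Measure ℝ}
    [IsProbabilityMeasure μ] {m : ℕ} (g : ℕ) (s : ℝ) :
    Measurable (fun x : ℝ => if s < x then (1 : ℝ≥0∞) else
      ∫⁻ k in {k : ℕ | k + 1 < m}, (TR ρ μ m 1 g (s - x)) ^ k ∂ρ) := by
  refine Measurable.ite (measurableSet_lt measurable_const measurable_id)
    measurable_const ?_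
  have : Antitone (fun t : ℝ => ∫⁻ k in {k : ℕ | k + 1 < m}, (TR ρ μ m 1 g t) ^ k ∂ρ) :=
    fun t t' htt => lintegral_mono (fun k => pow_le_pow_left' (TR_anti le_rfl g htt) k)
  exact this.measurable.comp (measurable_const.sub measurable_id)

theorem prod_TR_le {ρ : Measure ℕ} [IsProbabilityMeasure ρ] {μ : Measure ℝ}
    [IsProbabilityMeasure μ] {m : ℕ} (ts : List (H × ℕ × ℝ)) :
    (ts.map (fun t => TR ρ μ m 1 t.2.1 t.2.2)).prod ≤ 1 := by
  induction ts with
  | nil => simp
  | cons t ts ih =>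
    rw [List.map_cons, List.prod_cons]
    calc TR ρ μ m 1 t.2.1 t.2.2 * (ts.map (fun t => TR ρ μ m 1 t.2.1 t.2.2)).prod ≤ 1 * 1 :=
          mul_le_mul' (TR_le_one le_rfl _ _) ih
      _ = 1 := one_mul 1

/-- the bound for one revealed pair -/
theorem one_pair {vert : H → V} {ρ : Measure ℕ}
    [IsProbabilityMeasure ρ] {m R : ℕ} {η : ℝ≥0∞} {c : Bool}
    {P : V → Mt H → Wt H → Prop} (hP : ∀ (l : List (H × H)) (U : Finset V) (v : V) (τ : Wt H), St vert l U → U.card ≤ R →
      v ∈ U → ((dom l).filter (fun h => vert h = v)).card ≤ 1 → m ≤ deg vert v →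
      EE κ l τ (fun σ ω => open Classical in if P v σ ω then 0 else 1) ≤ η)
    {Y : Mt H → Wt H → ℝ≥0∞} {B yb : ℝ≥0∞}
    (hYB : ∀ σ ω, Y σ ω ≤ B) (hBt : B ≠ ⊤) {K : Finset H} {N' : ℕ} {E' : ℝ≥0∞}
    (hE' : η * B ≤ E') {R' : ℕ} (hR : R' ≤ R)
    (ih : ∀ (ts : List (H × ℕ × ℝ)) (l : List (H × H)) (U : Finset V) (τ : Wt H),
      (ts.map (fun t => sz m t.2.1)).sum ≤ N' → St vert l U → U.card + N' ≤ R' →
      (∀ t ∈ ts, t.1 ∉ dom l ∧ vert t.1 ∈ U ∧ t.1 ∉ K) → (∀ k ∈ K, k ∉ dom l ∧ vert k ∈ U) →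
      (ts.map Prod.fst).Nodup →
      EE κ l τ (FT vert c m P Y ts) ≤
        (ts.map (fun t => TR ρ (κ.map (pr c)) m 1 t.2.1 t.2.2)).prod * yb + E')
    {h : H} {g : ℕ} {s : ℝ} {ts : List (H × ℕ × ℝ)} {l : List (H × H)} {U : Finset V} {τ : Wt H}
    (hcost : m * sz m g + (ts.map (fun t => sz m t.2.1)).sum ≤ N') (hS : St vert l U)
    (hUc : U.card + 1 + N' ≤ R')
    (hh : h ∉ dom l) (hhU : vert h ∈ U) (hhK : h ∉ K)
    (hts : ∀ t ∈ ts, t.1 ∉ dom l ∧ vert t.1 ∈ U ∧ t.1 ∉ K) (hK : ∀ k ∈ K, k ∉ dom l ∧ vert k ∈ U)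
    (hnd : h ∉ ts.map Prod.fst) (hnd' : (ts.map Prod.fst).Nodup) {y : H}
    (hy : vert y ∉ U) (w : ℝ × ℝ) :
    EE κ ((h, y) :: l) (Function.update τ s(h, y) w) (FT vert c m P Y ((h, g + 1, s) :: ts)) ≤
      (if s < pr c w then (ts.map (fun t => TR ρ (κ.map (pr c)) m 1 t.2.1 t.2.2)).prod * yb else
      if deg vert (vert y) < m then
        (TR ρ (κ.map (pr c)) m 1 g (s - pr c w)) ^ (deg vert (vert y) - 1) *
          ((ts.map (fun t => TR ρ (κ.map (pr c)) m 1 t.2.1 t.2.2)).prod * yb) else 0) + E' := by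
  set l' := (h, y) :: l with hl'
  set τ' := Function.update τ s(h, y) w with hτ'
  have hS' : St vert l' (insert (vert y) U) := hS.step hhU hy
  have hcard : (insert (vert y) U).card = U.card + 1 := card_insert_of_notMem hy
  have hy_dom : ∀ k : H, vert k ∈ U → k ≠ h → k ∉ dom l → k ∉ dom l' := by
    intro k hk hkh hkd
    rw [hl', dom_cons, mem_insert, mem_insert, not_or, not_or]
    exact ⟨hkh, fun e => hy (e ▸ hk), hkd⟩
  have hK' : ∀ k ∈ K, k ∉ dom l' ∧ vert k ∈ insert (vert y) U := by
    intro k hk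
    obtain ⟨h1, h2⟩ := hK k hk
    exact ⟨hy_dom k h2 (fun e => hhK (e ▸ hk)) h1, mem_insert_of_mem h2⟩
  have hts' : ∀ t ∈ ts, t.1 ∉ dom l' ∧ vert t.1 ∈ insert (vert y) U ∧ t.1 ∉ K := by
    intro t ht
    obtain ⟨h1, h2, h3⟩ := hts t ht
    refine ⟨hy_dom _ h2 (fun e => hnd ?_) h1, mem_insert_of_mem h2, h3⟩
    rw [← e]
    exact List.mem_map_of_mem ht
  -- the length of the edge of `h`
  have hwt : ∀ σ ∈ Al l', ∀ ω, σ h = y ∧ wt c σ (glue l' τ' ω) h = pr c w := by
    intro σ hσ ω
    obtain ⟨h1, h2⟩ := mem_Al_cons.1 hσ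
    refine ⟨h1, ?_⟩
    unfold wt
    rw [h1, glue_of_mem (by rw [hl', Ed_cons]; exact mem_insert_self _ _), hτ',
      Function.update_self]
  by_cases hs : s < pr c w
  · rw [if_pos hs]
    refine (EE_mono (G := FT vert c m P Y ts) fun σ _ ω => ?_).trans
      (ih ts l' _ τ' (by omega) hS' (by rw [hcard]; exact hUc) hts' hK' hnd')
    exact FT_le fun h1 t ht => h1 t (List.mem_cons_of_mem _ ht)
  · rw [if_neg hs]
    by_cases hd : deg vert (vert y) < m
    · rw [if_pos hd]
      set ts' : List (H × ℕ × ℝ) :=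
        (nxt vert y).toList.map (fun f => (f, g, s - pr c w)) ++ ts with hts'def
      have hmem : ∀ t ∈ ts', (t.1 ∈ nxt vert y ∧ t = (t.1, g, s - pr c w)) ∨ t ∈ ts := by
        intro t ht
        rw [hts'def, List.mem_append, List.mem_map] at ht
        rcases ht with ⟨f, hf, rfl⟩ | ht
        · left
          exact ⟨by simpa using hf, rfl⟩
        · exact Or.inr ht
      have h3 := ih ts' l' (insert (vert y) U) τ' ?_ hS' (by rw [hcard]; exact hUc) ?_ hK' ?_
      · refine (EE_mono (G := FT vert c m P Y ts') fun σ hσ ω => ?_).trans (h3.trans (le_of_eq ?_))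
        · obtain ⟨h4, h5⟩ := hwt σ hσ ω
          refine FT_le fun h6 t ht => ?_
          have h7 := h6 _ List.mem_cons_self
          rcases hmem t ht with ⟨h8, h9⟩ | h8
          · rcases h7 with h7 | ⟨-, h7⟩ | ⟨h7, -⟩
            · rw [h5] at h7
              exact absurd h7 hs
            · rw [h5, h4] at h7
              rw [h9]
              exact h7 _ h8
            · rw [h4] at h7
              exact absurd hd (not_lt.2 h7)
          · exact h6 t (List.mem_cons_of_mem _ h8)
        · rw [hts'def, List.map_append, List.prod_append, List.map_map]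
          have h4 : ((nxt vert y).toList.map ((fun t : H × ℕ × ℝ =>
              TR ρ (κ.map (pr c)) m 1 t.2.1 t.2.2) ∘ fun f => (f, g, s - pr c w))) =
              (nxt vert y).toList.map (fun _ => TR ρ (κ.map (pr c)) m 1 g (s - pr c w)) := rfl
          rw [h4, List.map_const', List.prod_replicate, Finset.length_toList, card_nxt, mul_assoc]
      · rw [hts'def, List.map_append, List.sum_append, List.map_map]
        have h4 : ((nxt vert y).toList.map ((fun t : H × ℕ × ℝ => sz m t.2.1) ∘
            fun f => (f, g, s - pr c w))) = (nxt vert y).toList.map (fun _ => sz m g) := rfl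
        rw [h4, List.map_const', List.sum_replicate, Finset.length_toList, card_nxt, smul_eq_mul]
        have h5 : (deg vert (vert y) - 1) * sz m g ≤ m * sz m g :=
          Nat.mul_le_mul_right _ (by omega)
        omega
      · intro t ht
        rcases hmem t ht with ⟨h8, -⟩ | h8
        · have h9 := (mem_nxt.1 h8).1
          refine ⟨fresh_nxt hS.1 hhU hy h8, ?_, fun h10 => ?_⟩
          · rw [h9]
            exact mem_insert_self _ _
          · apply hy
            rw [← h9]
            exact (hK _ h10).2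
        · exact hts' t h8
      · rw [hts'def, List.map_append, List.map_map]
        have h4 : ((nxt vert y).toList.map (Prod.fst ∘
            fun f : H => (f, g, s - pr c w))) = (nxt vert y).toList := by
          have : (Prod.fst ∘ fun f : H => (f, g, s - pr c w)) = id := rfl
          rw [this, List.map_id]
        rw [h4, List.nodup_append']
        refine ⟨Finset.nodup_toList _, hnd', ?_⟩
        intro f hf hf'
        rw [List.mem_map] at hf'
        obtain ⟨t, ht, rfl⟩ := hf'
        have h5 := (mem_nxt.1 (by simpa using hf)).1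
        apply hy
        rw [← h5]
        exact (hts t ht).2.1
    · rw [if_neg hd, zero_add]
      refine le_trans ?_ hE'
      have h3 := hP l' (insert (vert y) U) (vert y) τ' hS' (by rw [hcard]; omega)
        (mem_insert_self _ _) ?_ (not_lt.1 hd)
      · refine (EE_mono (G := fun σ ω => B * (open Classical in if P (vert y) σ ω then 0 else 1))
          fun σ hσ ω => ?_).trans ?_
        · obtain ⟨h4, h5⟩ := hwt σ hσ ω
          by_cases h6 : P (vert y) σ (glue l' τ' ω)
          · rw [if_pos h6, mul_zero]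
            unfold FT
            rw [if_neg]
            intro h7
            rcases h7 _ List.mem_cons_self with h8 | ⟨h8, -⟩ | ⟨-, h8⟩
            · rw [h5] at h8
              exact hs h8
            · rw [h4] at h8
              exact hd h8
            · rw [h4] at h8
              exact h8 h6
          · rw [if_neg h6, mul_one]
            exact FT_le_Y.trans (hYB _ _)
        · rw [EE_const_mul hBt, mul_comm]
          gcongr
      · have h4 : (dom l').filter (fun h => vert h = vert y) ⊆ {y} := by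
          intro k hk
          rw [mem_filter, hl', dom_cons, mem_insert, mem_insert] at hk
          rw [mem_singleton]
          obtain ⟨rfl | rfl | hk, hk'⟩ := hk
          · exact absurd (hk' ▸ hhU) hy
          · rfl
          · exact absurd (hk' ▸ hS.1 k hk) hy
        exact (card_le_card h4).trans (by simp)

end main

end E1

open E1

open Classical in
theorem fl_up {κ : Measure (ℝ × ℝ)} [IsProbabilityMeasure κ] {vert : H → V} {ρ : Measure ℕ}
    [IsProbabilityMeasure ρ] {m R : ℕ} {e η : ℝ≥0∞} (hE : Env vert ρ m R e) {c : Bool}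
    {P : V → Mt H → Wt H → Prop} (hPm : ∀ v σ, MeasurableSet {ω | P v σ ω})
    (hP : ∀ (l : List (H × H)) (U : Finset V) (v : V) (τ : Wt H), St vert l U → U.card ≤ R →
      v ∈ U → ((dom l).filter (fun h => vert h = v)).card ≤ 1 → m ≤ deg vert v →
      EE κ l τ (fun σ ω => if P v σ ω then 0 else 1) ≤ η)
    (Y : Mt H → Wt H → ℝ≥0∞) (hYm : ∀ σ, Measurable (Y σ)) {B yb : ℝ≥0∞}
    (hYB : ∀ σ ω, Y σ ω ≤ B) (hyB : yb ≤ B) (hBt : B ≠ ⊤) (K : Finset H) {R' : ℕ}
    (hR : R' ≤ R)
    (hY : ∀ (l : List (H × H)) (U : Finset V) (τ : Wt H), St vert l U → U.card ≤ R' →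
      (∀ k ∈ K, k ∉ dom l ∧ vert k ∈ U) → EE κ l τ Y ≤ yb) :
    ∀ (N : ℕ) (ts : List (H × ℕ × ℝ)) (l : List (H × H)) (U : Finset V) (τ : Wt H),
      (ts.map (fun t => sz m t.2.1)).sum ≤ N → St vert l U → U.card + N ≤ R' →
      (∀ t ∈ ts, t.1 ∉ dom l ∧ vert t.1 ∈ U ∧ t.1 ∉ K) → (∀ k ∈ K, k ∉ dom l ∧ vert k ∈ U) →
      (ts.map Prod.fst).Nodup →
      EE κ l τ (fun σ ω => if ∀ t ∈ ts, Fl vert c m P t.2.1 t.2.2 t.1 σ ω then Y σ ω else 0) ≤
        (ts.map (fun t => TR ρ (κ.map (pr c)) m 1 t.2.1 t.2.2)).prod * yb +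
          (N * (2 * e) + η) * B := by
  have : IsProbabilityMeasure (κ.map (pr c)) :=
    Measure.isProbabilityMeasure_map (measurable_pr c).aemeasurable
  intro N
  induction N with
  | zero =>
    intro ts l U τ hcost hS hU hts hK hnd
    have h0 : ts = [] := by
      rcases ts with _ | ⟨t, ts⟩
      · rfl
      · exfalso
        have h1 : 1 ≤ sz m t.2.1 := by
          cases t.2.1 with
          | zero => exact le_rfl
          | succ g => unfold sz; omega
        rw [List.map_cons, List.sum_cons] at hcost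
        omega
    subst h0
    have h2 := hY l U τ hS (by omega) hK
    have h3 := FT_nil (vert := vert) (c := c) (m := m) (P := P) (Y := Y)
    show EE κ l τ (FT vert c m P Y []) ≤ _
    rw [h3, List.map_nil, List.prod_nil, one_mul]
    exact h2.trans le_self_add
  | succ N ih =>
    intro ts l U τ hcost hS hU hts hK hnd
    have hEN : (((N + 1 : ℕ) : ℝ≥0∞) * (2 * e) + η) * B =
        (N * (2 * e) + η) * B + 2 * e * B := by
      push_cast
      ring
    rcases ts with _ | ⟨⟨h, g, s⟩, ts⟩
    · have h2 := hY l U τ hS (by omega) hK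
      have h3 := FT_nil (vert := vert) (c := c) (m := m) (P := P) (Y := Y)
      show EE κ l τ (FT vert c m P Y []) ≤ _
      rw [h3, List.map_nil, List.prod_nil, one_mul]
      exact h2.trans le_self_add
    · rw [List.map_cons, List.nodup_cons] at hnd
      obtain ⟨hnd1, hnd2⟩ := hnd
      obtain ⟨hh1, hh2, hh3⟩ := hts _ List.mem_cons_self
      have hts2 : ∀ t ∈ ts, t.1 ∉ dom l ∧ vert t.1 ∈ U ∧ t.1 ∉ K := fun t ht =>
        hts t (List.mem_cons_of_mem _ ht)
      rw [List.map_cons, List.sum_cons] at hcost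
      rw [List.map_cons, List.prod_cons, hEN]
      set A := (ts.map (fun t => TR ρ (κ.map (pr c)) m 1 t.2.1 t.2.2)).prod * yb with hA
      cases g with
      | zero =>
        have h1 := ih ts l U τ (by
          have : sz m (h, 0, s).2.1 = 1 := rfl
          omega) hS (by omega) hts2 hK hnd2
        have h2 : TR ρ (κ.map (pr c)) m 1 (h, 0, s).2.1 (h, 0, s).2.2 = 1 := rfl
        rw [h2, one_mul]
        refine le_trans (EE_mono (G := FT vert c m P Y ts) fun σ _ ω => ?_)
          (h1.trans (add_le_add le_rfl le_self_add))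
        show FT vert c m P Y ((h, 0, s) :: ts) σ _ ≤ _
        exact FT_le fun h3 t ht => h3 t (List.mem_cons_of_mem _ ht)
      | succ g =>
        have hsz : sz m (h, g + 1, s).2.1 = 1 + m * sz m g := rfl
        show EE κ l τ (FT vert c m P Y ((h, g + 1, s) :: ts)) ≤ _
        have hm := measurable_FT (vert := vert) (c := c) (m := m) hPm hYm ((h, g + 1, s) :: ts)
        rw [EE_reveal hm hh1]
        have hUR : U.card ≤ R := by omega
        have hn0 : ((fr l h).card : ℝ≥0∞) ≠ 0 := by
          have := Finset.card_pos.2 (hE.ne l U h hS hUR hh1)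
          exact_mod_cast this.ne'
        have hAB : A ≤ B := by
          have h1 : (ts.map (fun t => TR ρ (κ.map (pr c)) m 1 t.2.1 t.2.2)).prod ≤ 1 :=
            prod_TR_le ts
          calc A ≤ 1 * B := mul_le_mul' h1 hyB
            _ = B := one_mul B
        have hAt : A ≠ ⊤ := ne_top_of_le_ne_top hBt hAB
        have hpt : ∀ w : ℝ × ℝ, (∑ y ∈ fr l h, EE κ ((h, y) :: l) (Function.update τ s(h, y) w)
            (FT vert c m P Y ((h, g + 1, s) :: ts))) / (fr l h).card ≤
            A * (if s < pr c w then 1 else ∫⁻ k in {k : ℕ | k + 1 < m},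
              (TR ρ (κ.map (pr c)) m 1 g (s - pr c w)) ^ k ∂ρ) +
              ((N * (2 * e) + η) * B + 2 * e * B) := by
          intro w
          refine avg_up hE hS hUR hh1 hAB (TR_le_one le_rfl _ _) ?_ ?_
          · intro y _ _
            refine (EE_mono (G := fun _ _ => B) fun σ _ ω => ?_).trans (EE_const_le _ _ B)
            exact FT_le_Y.trans (hYB _ _)
          · intro y _ hyU
            refine one_pair (N' := N) (K := K) (R := R) (R' := R') (η := η) hP hYB hBt ?_ hR ?_
              (by omega) hS (by omega) hh1 hh2 hh3 hts2 hK hnd1 hnd2 hyU w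
            · gcongr
              exact le_add_self
            · intro ts l U τ a1 a2 a3 a4 a5 a6
              exact ih ts l U τ a1 a2 a3 a4 a5 a6
        have hint : (∑ y ∈ fr l h, ∫⁻ w, EE κ ((h, y) :: l) (Function.update τ s(h, y) w)
            (FT vert c m P Y ((h, g + 1, s) :: ts)) ∂κ) / (fr l h).card =
            ∫⁻ w, (∑ y ∈ fr l h, EE κ ((h, y) :: l) (Function.update τ s(h, y) w)
            (FT vert c m P Y ((h, g + 1, s) :: ts))) / (fr l h).card ∂κ := by
          rw [← lintegral_finsetSum _ (fun y _ => measurable_EE_update hm s(h, y))]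
          simp only [div_eq_mul_inv]
          rw [lintegral_mul_const' _ _ (ENNReal.inv_ne_top.2 hn0)]
        rw [hint]
        refine (lintegral_mono hpt).trans ?_
        have hmT := meas_TRint (ρ := ρ) (μ := κ.map (pr c)) (m := m) g s
        rw [lintegral_add_right _ measurable_const, lintegral_const, measure_univ, mul_one,
          lintegral_const_mul' _ _ hAt]
        have h5 : ∫⁻ w, (if s < pr c w then (1 : ℝ≥0∞) else ∫⁻ k in {k : ℕ | k + 1 < m},
              (TR ρ (κ.map (pr c)) m 1 g (s - pr c w)) ^ k ∂ρ) ∂κ =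
            TR ρ (κ.map (pr c)) m 1 (g + 1) s := by
          show _ = ∫⁻ x, _ ∂(κ.map (pr c))
          rw [lintegral_map hmT (measurable_pr c)]
        rw [h5]
        have h6 : TR ρ (κ.map (pr c)) m 1 (h, g + 1, s).2.1 (h, g + 1, s).2.2 =
          TR ρ (κ.map (pr c)) m 1 (g + 1) s := rfl
        rw [h6, hA]
        apply le_of_eq
        ring

end Pool.Agent.H949.DX
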