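import Pool.Agent.H949.DX.Walk
import Pool.Agent.H949.CX.PSE

/-!
# Lower estimate for the chance that blue stays near, and no short cycles

Definitions: `EE`, `glue`, `Ed`, `EE_reveal`, `EE_add`, `EE_mono`, `EE_congr`, `EE_const`,
`EE_const_le`, `EE_sum` in `CX/WMeas.lean`; `wt`, `pr`, `nxt`, `mem_nxt`, `card_nxt` in `CX/PS.lean`;
`measurable_EE_update` in `CX/PSE.lean`; `dom`, `fr`, `Al`, `mem_Al_cons`, `card_fr`,
`card_Al_cons_eq`, `apply_mem_fr` in `CM/Match.lean`; `Gd`, `Rv`, `sz`, `St`, `Env` in
`DX/Walk.lean`; `TR`, `TR_le_one`, `measurable_TR` in `DX/Rec.lean`. `EE κ l τ F` is the mean of `F`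
over the matchings that contain the pairs of `l` and over the lengths, given that the lengths of the
edges of `l` are `τ`.

Paper proof.
`measurableSet_Gd₂`: induction on `g`; `(s, ω) ↦ (s - wt c σ ω h, ω)` is measurable. Then
`measurableSet_Gd` is a section.
`gd_lo`: Write `Tt g s = TR ρ (κ.map (pr c)) m 0 g s ≤ 1`, `A ≤ 1` for the product over the rest `ts'`.
Induction on `N`, for all `ts`, `l`, `U`, `τ`.
* `ts = []`: `1 ≤ EE κ l τ 1 = 1` (`EE_const`, `Al l` nonempty).
* `ts = (h, 0, s) :: ts'`: `TR .. 0 0 s = 0`, so the left side is `0`.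
* `ts = (h, g + 1, s) :: ts'`: `N ≥ 1 + m * sz m g + cost ts'`. Reveal `h` (`EE_reveal`): the mean is
  `(∑ y ∈ fr l h, ∫⁻ w, EE κ l' τ' F ∂κ) / (fr l h).card`, `l' = (h, y) :: l`,
  `τ' = Function.update τ s(h, y) w`; for `y ∈ fr l h` also `Al l'` is nonempty (`card_Al_cons_eq` with
  `σ h`, `σ ∈ Al l`, `apply_mem_fr`). For `σ ∈ Al l'`: `σ h = y`, `wt c σ (glue l' τ' ω) h = pr c w`.
  Let `vert y ∉ U`, `U' = insert (vert y) U` (`St vert l' U'`). If `s < pr c w` then `F` is the function
  of `ts'` on `Al l'`, so `A ≤ EE κ l' τ' F + (N-1) 2 e`. If `pr c w ≤ s` and `deg vert (vert y) < m` then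
  `F` is the function of `(nxt vert y).toList.map (fun f => (f, g, s - pr c w)) ++ ts'`, of cost at most
  `N - 1`, so `(Tt g (s - pr c w)) ^ (deg vert (vert y) - 1) * A ≤ EE κ l' τ' F + (N-1) 2 e`.
  For fixed `w` with `s < pr c w`: `A ≤ (∑ over fresh y of A) / |fr| + e` (`Env.hit`, `A ≤ 1`,
  `Env.ne`), so `A ≤ avg EE + (N-1) 2 e + e`. For `pr c w ≤ s`: by `Env.lo` with
  `φ k = (Tt g (s - pr c w)) ^ k * A ≤ 1`, `A * ∫⁻ k in .., (Tt ..)^k ∂ρ ≤ avg over fresh y with
  deg < m of φ (deg - 1) + e ≤ avg EE + (N-1) 2 e + e`. Integrate over `w`: `A * Tt (g+1) s ≤ EE κ l τ F +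
  N * (2 e)`.
`rv_up`: induction on `r`. `Rv 0` is `False`. For `r + 1` reveal `h`; `Rv` does not depend on the
lengths. If `vert y ∈ U`: at most `1`, fraction at most `e` (`Env.hit`). If `vert y ∉ U` and
`deg vert (vert y) < m`: union bound over the `deg - 1 < m` half-edges `f ∈ nxt vert y`, each with
`EE κ l' τ' (Rv r (insert (vert y) U) f) ≤ sz m r * e` by induction. If `vert y ∉ U` and the degree
is `≥ m`: `Rv` is false. Total `≤ e + m * (sz m r * e) = sz m (r + 1) * e`.
(The right form of `EE` here: `fun σ _ => if Rv .. then 1 else 0`.)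
-/

set_option linter.unusedSectionVars false

open MeasureTheory Finset
open scoped ENNReal

namespace Pool.Agent.H949.DX

open Pool.Agent.H949.CM Pool.Agent.H949.CX

variable {V H : Type} [Fintype V] [DecidableEq V] [Fintype H] [DecidableEq H]

theorem St.step' {vert : H → V} {l : List (H × H)} {U : Finset V} {h y : H} (hS : St vert l U)
    (hU : vert h ∈ U) (hy : vert y ∉ U) : St vert ((h, y) :: l) (insert (vert y) U) := by
  refine ⟨fun g hg => ?_, ?_⟩
  · rw [dom_cons, mem_insert, mem_insert] at hg
    rcases hg with rfl | rfl | hg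
    · exact mem_insert_of_mem hU
    · exact mem_insert_self _ _
    · exact mem_insert_of_mem (hS.1 g hg)
  · rw [card_insert_of_notMem hy]
    have h1 := card_dom_cons_le h y l
    have h2 := hS.2
    omega

theorem measurableSet_Gd₂ {vert : H → V} {c : Bool} {m : ℕ} (σ : Mt H) (g : ℕ) (h : H) :
    MeasurableSet {p : ℝ × Wt H | Gd vert c m g p.1 h σ p.2} := by
  induction g generalizing h with
  | zero =>
    have h0 : {p : ℝ × Wt H | Gd vert c m 0 p.1 h σ p.2} = ∅ := by
      ext p
      simp [Gd]
    rw [h0]
    exact MeasurableSet.empty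
  | succ g ih =>
    have hw : Measurable (fun p : ℝ × Wt H => wt c σ p.2 h) :=
      (measurable_wt c σ h).comp measurable_snd
    have hsh : Measurable (fun p : ℝ × Wt H => ((p.1 - wt c σ p.2 h, p.2) : ℝ × Wt H)) :=
      (measurable_fst.sub hw).prodMk measurable_snd
    have h1 : {p : ℝ × Wt H | Gd vert c m (g + 1) p.1 h σ p.2} =
        {p : ℝ × Wt H | p.1 < wt c σ p.2 h} ∪
          ({p : ℝ × Wt H | deg vert (vert (σ h)) < m} ∩
            ⋂ f ∈ nxt vert (σ h), (fun p : ℝ × Wt H => ((p.1 - wt c σ p.2 h, p.2) : ℝ × Wt H)) ⁻¹'
              {p : ℝ × Wt H | Gd vert c m g p.1 f σ p.2}) := by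
      ext p
      simp [Gd]
    rw [h1]
    refine (measurableSet_lt measurable_fst hw).union ((MeasurableSet.const _).inter ?_)
    exact Finset.measurableSet_biInter _ (fun f _ => hsh (ih f))

theorem measurableSet_Gd {vert : H → V} {c : Bool} {m : ℕ} (σ : Mt H) (g : ℕ) (s : ℝ) (h : H) :
    MeasurableSet {ω : Wt H | Gd vert c m g s h σ ω} := by
  have h1 : Measurable (fun ω : Wt H => ((s, ω) : ℝ × Wt H)) :=
    measurable_const.prodMk measurable_id
  exact h1 (measurableSet_Gd₂ (vert := vert) (c := c) (m := m) σ g h)

theorem avg_le' {ι : Type*} {S T : Finset ι} (hST : S ⊆ T) (hT : T.Nonempty)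
    {a b : ι → ℝ≥0∞} {C : ℝ≥0∞} (h : ∀ y ∈ S, a y ≤ b y + C) :
    (∑ y ∈ S, a y) / (T.card : ℝ≥0∞) ≤ (∑ y ∈ T, b y) / (T.card : ℝ≥0∞) + C := by
  have hT0 : (T.card : ℝ≥0∞) ≠ 0 := by exact_mod_cast (Finset.card_pos.2 hT).ne'
  calc (∑ y ∈ S, a y) / (T.card : ℝ≥0∞) ≤ (∑ y ∈ T, (b y + C)) / (T.card : ℝ≥0∞) := by
        gcongr
        exact (Finset.sum_le_sum h).trans (Finset.sum_le_sum_of_subset hST)
    _ = (∑ y ∈ T, b y) / (T.card : ℝ≥0∞) + C := by
        rw [Finset.sum_add_distrib, ENNReal.add_div, Finset.sum_const, nsmul_eq_mul,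
          mul_comm (T.card : ℝ≥0∞), ENNReal.mul_div_cancel_right hT0 (ENNReal.natCast_ne_top _)]

theorem Al_cons_nonempty' {l : List (H × H)} (hl : (Al l).Nonempty) {h y : H} (hh : h ∉ dom l)
    (hy : y ∈ fr l h) : (Al ((h, y) :: l)).Nonempty := by
  rw [← Finset.card_pos]
  have h1 := ratio hh hy
  have h2 := Finset.card_pos.2 hl
  rcases Nat.eq_zero_or_pos (Al ((h, y) :: l)).card with h0 | h0
  · rw [h0, mul_zero] at h1
    omega
  · exact h0

theorem sz_pos (m g : ℕ) : 1 ≤ sz m g := by
  cases g with
  | zero => exact le_refl _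
  | succ g => simp only [sz]; omega

theorem measurableSet_forall_Gd {vert : H → V} {c : Bool} {m : ℕ} (ts : List (H × ℕ × ℝ))
    (σ : Mt H) : MeasurableSet {ω : Wt H | ∀ t ∈ ts, Gd vert c m t.2.1 t.2.2 t.1 σ ω} := by
  induction ts with
  | nil =>
    have : {ω : Wt H | ∀ t ∈ ([] : List (H × ℕ × ℝ)), Gd vert c m t.2.1 t.2.2 t.1 σ ω} =
        Set.univ := by
      ext ω
      simp
    rw [this]
    exact MeasurableSet.univ
  | cons t ts ih =>
    have : {ω : Wt H | ∀ t' ∈ t :: ts, Gd vert c m t'.2.1 t'.2.2 t'.1 σ ω} =
        {ω : Wt H | Gd vert c m t.2.1 t.2.2 t.1 σ ω} ∩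
          {ω : Wt H | ∀ t' ∈ ts, Gd vert c m t'.2.1 t'.2.2 t'.1 σ ω} := by
      ext ω
      simp only [List.forall_mem_cons, Set.mem_ofPred_eq, Set.mem_inter_iff]
    rw [this]
    exact (measurableSet_Gd σ _ _ _).inter ih

open Classical in
/-- The indicator of the event that all lines of `ts` are good. -/
noncomputable def GF (vert : H → V) (c : Bool) (m : ℕ) (ts : List (H × ℕ × ℝ)) (σ : Mt H)
    (ω : Wt H) : ℝ≥0∞ :=
  if (∀ t ∈ ts, Gd vert c m t.2.1 t.2.2 t.1 σ ω) then 1 else 0

theorem GF_of {vert : H → V} {c : Bool} {m : ℕ} {ts : List (H × ℕ × ℝ)} {σ : Mt H}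
    {ω : Wt H} (h : ∀ t ∈ ts, Gd vert c m t.2.1 t.2.2 t.1 σ ω) : GF vert c m ts σ ω = 1 :=
  if_pos h

theorem GF_of_not {vert : H → V} {c : Bool} {m : ℕ} {ts : List (H × ℕ × ℝ)} {σ : Mt H}
    {ω : Wt H} (h : ¬ ∀ t ∈ ts, Gd vert c m t.2.1 t.2.2 t.1 σ ω) : GF vert c m ts σ ω = 0 :=
  if_neg h

theorem GF_le {vert : H → V} {c : Bool} {m : ℕ} {ts ts' : List (H × ℕ × ℝ)} {σ : Mt H}
    {ω : Wt H} (h : (∀ t ∈ ts, Gd vert c m t.2.1 t.2.2 t.1 σ ω) →
      ∀ t ∈ ts', Gd vert c m t.2.1 t.2.2 t.1 σ ω) :
    GF vert c m ts σ ω ≤ GF vert c m ts' σ ω := by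
  by_cases h1 : ∀ t ∈ ts, Gd vert c m t.2.1 t.2.2 t.1 σ ω
  · rw [GF_of h1, GF_of (h h1)]
  · rw [GF_of_not h1]
    exact zero_le

theorem measurable_GF {vert : H → V} {c : Bool} {m : ℕ} (ts : List (H × ℕ × ℝ))
    (σ : Mt H) : Measurable (GF vert c m ts σ) := by
  unfold GF
  exact Measurable.ite (measurableSet_forall_Gd _ σ) measurable_const measurable_const

theorem gd_lo_aux {κ : Measure (ℝ × ℝ)} [IsProbabilityMeasure κ] {vert : H → V} {ρ : Measure ℕ}
    [IsProbabilityMeasure ρ] {m R : ℕ} {e : ℝ≥0∞} (hE : Env vert ρ m R e) {c : Bool} :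
    ∀ (N : ℕ) (ts : List (H × ℕ × ℝ)) (l : List (H × H)) (U : Finset V) (τ : Wt H),
      (ts.map (fun t => sz m t.2.1)).sum ≤ N → St vert l U → U.card + N ≤ R →
      (Al l).Nonempty → (∀ t ∈ ts, t.1 ∉ dom l ∧ vert t.1 ∈ U) → (ts.map Prod.fst).Nodup →
      (ts.map (fun t => TR ρ (κ.map (pr c)) m 0 t.2.1 t.2.2)).prod ≤
        EE κ l τ (GF vert c m ts) + N * (2 * e) := by
  have hmp : IsProbabilityMeasure (κ.map (pr c)) :=
    Measure.isProbabilityMeasure_map (measurable_pr c).aemeasurable
  have hnil : ∀ (N : ℕ) (l : List (H × H)) (τ : Wt H), (Al l).Nonempty →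
      (([] : List (H × ℕ × ℝ)).map (fun t => TR ρ (κ.map (pr c)) m 0 t.2.1 t.2.2)).prod ≤
        EE κ l τ (GF vert c m []) + N * (2 * e) := by
    intro N l τ hl
    have h1 : EE κ l τ (GF vert c m []) = EE κ l τ (fun _ _ => 1) := by
      apply EE_congr
      intro σ _ ω
      exact GF_of (by simp)
    rw [h1, EE_const hl]
    simp
  intro N
  induction N with
  | zero =>
    intro ts l U τ hc hS hR hl hts hnd
    cases ts with
    | nil => exact hnil 0 l τ hl
    | cons t ts' =>
      exfalso
      simp only [List.map_cons, List.sum_cons] at hc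
      have := sz_pos m t.2.1
      omega
  | succ N ih =>
    intro ts l U τ hc hS hR hl hts hnd
    cases ts with
    | nil => exact hnil _ l τ hl
    | cons t ts' =>
      obtain ⟨h, g0, s⟩ := t
      cases g0 with
      | zero =>
        simp only [List.map_cons, List.prod_cons, TR, zero_mul]
        exact zero_le
      | succ g =>
        have hh : h ∉ dom l := (hts _ List.mem_cons_self).1
        have hhU : vert h ∈ U := (hts _ List.mem_cons_self).2
        have hnd1 : h ∉ ts'.map Prod.fst := by
          rw [List.map_cons, List.nodup_cons] at hnd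
          exact hnd.1
        have hnd2 : (ts'.map Prod.fst).Nodup := by
          rw [List.map_cons, List.nodup_cons] at hnd
          exact hnd.2
        have hc' : m * sz m g + (ts'.map (fun t => sz m t.2.1)).sum ≤ N := by
          simp only [List.map_cons, List.sum_cons, sz] at hc
          omega
        have hts' : ∀ t ∈ ts', t.1 ∉ dom l ∧ vert t.1 ∈ U := fun t ht =>
          hts t (List.mem_cons_of_mem _ ht)
        set A : ℝ≥0∞ := (ts'.map (fun t => TR ρ (κ.map (pr c)) m 0 t.2.1 t.2.2)).prod with hA
        have hA1 : A ≤ 1 := by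
          rw [hA]
          clear hA hts' hc' hnd2 hnd1 hc hts hnd
          induction ts' with
          | nil => simp
          | cons t ts ih2 =>
            rw [List.map_cons, List.prod_cons]
            exact mul_le_one' (TR_le_one zero_le_one _ _) ih2
        set F : Mt H → Wt H → ℝ≥0∞ := GF vert c m ((h, g + 1, s) :: ts') with hF
        have hFm : ∀ σ, Measurable (F σ) := fun σ => measurable_GF _ σ
        have hfrne : (fr l h).Nonempty := hE.ne l U h hS (by omega) hh
        set I : ℝ → ℝ≥0∞ := fun t => ∫⁻ k in {k : ℕ | k + 1 < m},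
          (TR ρ (κ.map (pr c)) m 0 g t) ^ k ∂ρ with hI
        have hIm : Measurable I := by
          have : Antitone I := fun t t' htt =>
            lintegral_mono (fun k => pow_le_pow_left' (TR_anti zero_le_one g htt) k)
          exact this.measurable
        have hJm : Measurable (fun x : ℝ => if s < x then (1 : ℝ≥0∞) else I (s - x)) := by
          refine Measurable.ite (measurableSet_lt measurable_const measurable_id)
            measurable_const ?_
          exact hIm.comp (measurable_const.sub measurable_id)
        have hJm' : Measurable (fun w : ℝ × ℝ =>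
            if s < pr c w then (1 : ℝ≥0∞) else I (s - pr c w)) := hJm.comp (measurable_pr c)
        -- the induction hypothesis at a fresh half-edge
        have hstep : ∀ y ∈ fr l h, vert y ∉ U → ∀ (τ' : Wt H) (ts'' : List (H × ℕ × ℝ)),
            (ts''.map (fun t => sz m t.2.1)).sum ≤ N →
            (∀ t ∈ ts'', t.1 ∉ dom ((h, y) :: l) ∧ vert t.1 ∈ insert (vert y) U) →
            (ts''.map Prod.fst).Nodup →
            (ts''.map (fun t => TR ρ (κ.map (pr c)) m 0 t.2.1 t.2.2)).prod ≤
              EE κ ((h, y) :: l) τ' (GF vert c m ts'') + N * (2 * e) := by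
          intro y hy hyU τ' ts'' hc2 hts2 hnd3
          exact ih ts'' ((h, y) :: l) (insert (vert y) U) τ' hc2 (hS.step' hhU hyU)
            (by rw [card_insert_of_notMem hyU]; omega) (Al_cons_nonempty' hl hh hy) hts2 hnd3
        have hold : ∀ y, vert y ∉ U → ∀ t ∈ ts', t.1 ∉ dom ((h, y) :: l) ∧
            vert t.1 ∈ insert (vert y) U := by
          intro y hyU t ht
          refine ⟨?_, mem_insert_of_mem (hts' t ht).2⟩
          rw [dom_cons, mem_insert, mem_insert, not_or, not_or]
          refine ⟨?_, ?_, (hts' t ht).1⟩
          · intro he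
            exact hnd1 (he ▸ List.mem_map_of_mem ht)
          · intro he
            exact hyU (he ▸ (hts' t ht).2)
        have hwt : ∀ (y : H) (w : ℝ × ℝ) (σ : Mt H), σ ∈ Al ((h, y) :: l) → ∀ ω : Wt H,
            wt c σ (glue ((h, y) :: l) (Function.update τ s(h, y) w) ω) h = pr c w := by
          intro y w σ hσ ω
          have h1 : σ h = y := (mem_Al_cons.1 hσ).1
          unfold wt
          rw [h1, glue_of_mem (by rw [Ed_cons]; exact mem_insert_self _ _),
            Function.update_self]
        -- pointwise bound
        have hpt : ∀ w : ℝ × ℝ, (if s < pr c w then (1 : ℝ≥0∞) else I (s - pr c w)) * A ≤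
            (∑ y ∈ fr l h, EE κ ((h, y) :: l) (Function.update τ s(h, y) w) F) /
              (fr l h).card + (N * (2 * e) + e) := by
          intro w
          by_cases hw : s < pr c w
          · rw [if_pos hw, one_mul]
            have h1 : ∀ y ∈ (fr l h).filter (fun y => vert y ∉ U), A ≤
                EE κ ((h, y) :: l) (Function.update τ s(h, y) w) F + N * (2 * e) := by
              intro y hy
              rw [mem_filter] at hy
              refine le_trans (hstep y hy.1 hy.2 (Function.update τ s(h, y) w) ts' (by omega)
                (hold y hy.2) hnd2) ?_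
              gcongr
              apply EE_mono
              intro σ hσ ω
              have h2 := hwt y w σ hσ ω
              rw [hF]
              refine GF_le (fun h3 => ?_)
              rw [List.forall_mem_cons]
              refine ⟨?_, h3⟩
              show Gd vert c m (g + 1) s h σ _
              simp only [Gd]
              left
              rw [h2]
              exact hw
            have hn0 : ((fr l h).card : ℝ≥0∞) ≠ 0 := by
              exact_mod_cast (Finset.card_pos.2 hfrne).ne'
            have hsplit : A * (fr l h).card =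
                (∑ y ∈ (fr l h).filter (fun y => vert y ∈ U), A) +
                  ∑ y ∈ (fr l h).filter (fun y => vert y ∉ U), A := by
              rw [Finset.sum_filter_add_sum_filter_not, Finset.sum_const, nsmul_eq_mul, mul_comm]
            calc A = A * (fr l h).card / (fr l h).card := by
                  rw [ENNReal.mul_div_cancel_right hn0 (ENNReal.natCast_ne_top _)]
              _ = (∑ y ∈ (fr l h).filter (fun y => vert y ∈ U), A) / (fr l h).card +
                  (∑ y ∈ (fr l h).filter (fun y => vert y ∉ U), A) / (fr l h).card := by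
                  rw [hsplit, ENNReal.add_div]
              _ ≤ e + ((∑ y ∈ fr l h,
                    EE κ ((h, y) :: l) (Function.update τ s(h, y) w) F) / (fr l h).card +
                      N * (2 * e)) := by
                  apply add_le_add
                  · refine le_trans ?_ (hE.hit l U h hS (by omega) hh)
                    gcongr
                    rw [Finset.sum_const, nsmul_eq_mul]
                    calc (((fr l h).filter (fun y => vert y ∈ U)).card : ℝ≥0∞) * A
                        ≤ (((fr l h).filter (fun y => vert y ∈ U)).card : ℝ≥0∞) * 1 := by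
                          gcongr
                      _ = _ := mul_one _
                  · exact avg_le' (filter_subset _ _) hfrne h1
              _ = _ := by ring
          · rw [if_neg hw]
            set x := pr c w with hx
            have hlo := hE.lo l U h hS (by omega) hh
              (fun k => (TR ρ (κ.map (pr c)) m 0 g (s - x)) ^ k * A) 1 (fun k =>
                mul_le_one' (pow_le_one₀ zero_le (TR_le_one zero_le_one _ _)) hA1)
            have h0 : I (s - x) * A = ∫⁻ k in {k : ℕ | k + 1 < m},
                (TR ρ (κ.map (pr c)) m 0 g (s - x)) ^ k * A ∂ρ := by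
              rw [lintegral_mul_const _ (measurable_of_countable _)]
            rw [h0]
            refine le_trans hlo ?_
            have h1 : ∀ y ∈ (fr l h).filter (fun y => vert y ∉ U ∧ deg vert (vert y) < m),
                (TR ρ (κ.map (pr c)) m 0 g (s - x)) ^ (deg vert (vert y) - 1) * A ≤
                EE κ ((h, y) :: l) (Function.update τ s(h, y) w) F + N * (2 * e) := by
              intro y hy
              rw [mem_filter] at hy
              obtain ⟨hy1, hyU, hdm⟩ := hy
              have hcard : (nxt vert y).card = deg vert (vert y) - 1 := card_nxt vert y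
              have h5 := hstep y hy1 hyU (Function.update τ s(h, y) w)
                ((nxt vert y).toList.map (fun f => ((f, g, s - x) : H × ℕ × ℝ)) ++ ts') ?_ ?_ ?_
              · rw [List.map_append, List.prod_append, List.map_map] at h5
                have h6 : List.map ((fun t : H × ℕ × ℝ => TR ρ (κ.map (pr c)) m 0 t.2.1 t.2.2) ∘
                    (fun f => ((f, g, s - x) : H × ℕ × ℝ))) (nxt vert y).toList =
                    List.replicate (nxt vert y).card (TR ρ (κ.map (pr c)) m 0 g (s - x)) := by
                  rw [← Finset.length_toList]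
                  exact List.map_eq_replicate_iff.2 (fun _ _ => rfl)
                rw [h6, List.prod_replicate, hcard] at h5
                refine le_trans h5 ?_
                gcongr
                apply EE_mono
                intro σ hσ ω
                have h2 := hwt y w σ hσ ω
                have h7 : σ h = y := (mem_Al_cons.1 hσ).1
                rw [hF]
                refine GF_le (fun h3 => ?_)
                rw [List.forall_mem_append] at h3
                rw [List.forall_mem_cons]
                refine ⟨?_, h3.2⟩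
                show Gd vert c m (g + 1) s h σ _
                simp only [Gd]
                right
                rw [h2, h7]
                refine ⟨hdm, fun f hf => ?_⟩
                exact h3.1 (f, g, s - x) (List.mem_map_of_mem (Finset.mem_toList.2 hf))
              · rw [List.map_append, List.sum_append, List.map_map]
                have h6 : List.map ((fun t : H × ℕ × ℝ => sz m t.2.1) ∘
                    (fun f => ((f, g, s - x) : H × ℕ × ℝ))) (nxt vert y).toList =
                    List.replicate (nxt vert y).card (sz m g) := by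
                  rw [← Finset.length_toList]
                  exact List.map_eq_replicate_iff.2 (fun _ _ => rfl)
                rw [h6, List.sum_replicate, smul_eq_mul, hcard]
                have h8 : (deg vert (vert y) - 1) * sz m g ≤ m * sz m g :=
                  Nat.mul_le_mul_right _ (by omega)
                omega
              · intro t ht
                rcases List.mem_append.1 ht with ht | ht
                · obtain ⟨f, hf, rfl⟩ := List.mem_map.1 ht
                  have hf' : f ∈ nxt vert y := Finset.mem_toList.1 hf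
                  refine ⟨fresh_nxt hS.1 hhU hyU hf', ?_⟩
                  show vert f ∈ _
                  rw [(mem_nxt.1 hf').1]
                  exact mem_insert_self _ _
                · exact hold y hyU t ht
              · rw [List.map_append, List.map_map, List.nodup_append]
                have h9 : (nxt vert y).toList.map (Prod.fst ∘
                    (fun f => ((f, g, s - x) : H × ℕ × ℝ))) = (nxt vert y).toList := by
                  have : (Prod.fst ∘ (fun f => ((f, g, s - x) : H × ℕ × ℝ))) = id := rfl
                  rw [this, List.map_id]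
                rw [h9]
                refine ⟨Finset.nodup_toList _, hnd2, ?_⟩
                intro a ha b hb hab
                subst hab
                obtain ⟨t, ht, rfl⟩ := List.mem_map.1 hb
                have h10 := (mem_nxt.1 (Finset.mem_toList.1 ha)).1
                exact hyU (h10 ▸ (hts' t ht).2)
            calc (∑ y ∈ (fr l h).filter (fun y => vert y ∉ U ∧ deg vert (vert y) < m),
                  (TR ρ (κ.map (pr c)) m 0 g (s - x)) ^ (deg vert (vert y) - 1) * A) /
                    (fr l h).card + e * 1
                ≤ ((∑ y ∈ fr l h, EE κ ((h, y) :: l) (Function.update τ s(h, y) w) F) /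
                    (fr l h).card + N * (2 * e)) + e * 1 := by
                  gcongr ?_ + _
                  exact avg_le' (filter_subset _ _) hfrne h1
              _ = _ := by ring
        rw [EE_reveal hFm hh]
        calc (((h, g + 1, s) :: ts').map (fun t => TR ρ (κ.map (pr c)) m 0 t.2.1 t.2.2)).prod
            = (∫⁻ x, (if s < x then (1 : ℝ≥0∞) else I (s - x)) ∂(κ.map (pr c))) * A := by
              rw [List.map_cons, List.prod_cons]
              simp only [TR]
              rfl
          _ = (∫⁻ w, (if s < pr c w then (1 : ℝ≥0∞) else I (s - pr c w)) ∂κ) * A := by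
              rw [lintegral_map hJm (measurable_pr c)]
          _ = ∫⁻ w, (if s < pr c w then (1 : ℝ≥0∞) else I (s - pr c w)) * A ∂κ := by
              rw [lintegral_mul_const _ hJm']
          _ ≤ ∫⁻ w, ((∑ y ∈ fr l h, EE κ ((h, y) :: l) (Function.update τ s(h, y) w) F) /
              (fr l h).card + (N * (2 * e) + e)) ∂κ := lintegral_mono hpt
          _ = (∑ y ∈ fr l h, ∫⁻ w, EE κ ((h, y) :: l) (Function.update τ s(h, y) w) F ∂κ) /
              (fr l h).card + (N * (2 * e) + e) := by
              have hsm : Measurable (fun w => ∑ y ∈ fr l h,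
                  EE κ ((h, y) :: l) (Function.update τ s(h, y) w) F) :=
                Finset.measurable_fun_sum _ (fun y _ => measurable_EE_update hFm s(h, y))
              rw [lintegral_add_right _ measurable_const, lintegral_const, measure_univ, mul_one]
              congr 1
              simp only [div_eq_mul_inv]
              rw [lintegral_mul_const _ hsm,
                lintegral_finsetSum _ (fun y _ => measurable_EE_update hFm s(h, y))]
          _ ≤ (∑ y ∈ fr l h, ∫⁻ w, EE κ ((h, y) :: l) (Function.update τ s(h, y) w) F ∂κ) /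
              (fr l h).card + ((N + 1 : ℕ) : ℝ≥0∞) * (2 * e) := by
              gcongr
              push_cast
              rw [add_mul, one_mul, two_mul]
              gcongr
              exact le_self_add

open Classical in
theorem gd_lo {κ : Measure (ℝ × ℝ)} [IsProbabilityMeasure κ] {vert : H → V} {ρ : Measure ℕ}
    [IsProbabilityMeasure ρ] {m R : ℕ} {e : ℝ≥0∞} (hE : Env vert ρ m R e) {c : Bool} :
    ∀ (N : ℕ) (ts : List (H × ℕ × ℝ)) (l : List (H × H)) (U : Finset V) (τ : Wt H),
      (ts.map (fun t => sz m t.2.1)).sum ≤ N → St vert l U → U.card + N ≤ R →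
      (Al l).Nonempty → (∀ t ∈ ts, t.1 ∉ dom l ∧ vert t.1 ∈ U) → (ts.map Prod.fst).Nodup →
      (ts.map (fun t => TR ρ (κ.map (pr c)) m 0 t.2.1 t.2.2)).prod ≤
        EE κ l τ (fun σ ω => if ∀ t ∈ ts, Gd vert c m t.2.1 t.2.2 t.1 σ ω then 1 else 0) +
          N * (2 * e) := by
  intro N ts l U τ hc hS hR hl hts hnd
  refine le_trans (gd_lo_aux hE (c := c) N ts l U τ hc hS hR hl hts hnd) ?_
  gcongr
  apply EE_mono
  intro σ _ ω
  by_cases h : ∀ t ∈ ts, Gd vert c m t.2.1 t.2.2 t.1 σ (glue l τ ω)
  · rw [GF_of h]
    simp only [if_pos h]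
    exact le_refl _
  · rw [GF_of_not h]
    exact zero_le

open Classical in
theorem rv_up {κ : Measure (ℝ × ℝ)} [IsProbabilityMeasure κ] {vert : H → V} {ρ : Measure ℕ}
    [IsProbabilityMeasure ρ] {m R : ℕ} {e : ℝ≥0∞} (hE : Env vert ρ m R e) :
    ∀ (r : ℕ) (l : List (H × H)) (U : Finset V) (τ : Wt H) (h : H), St vert l U →
      U.card + r ≤ R → h ∉ dom l → vert h ∈ U →
      EE κ l τ (fun σ _ => if Rv vert m σ r U h then 1 else 0) ≤ sz m r * e := by
  intro r
  induction r with
  | zero =>
    intro l U τ h _ _ _ _
    have h1 : EE κ l τ (fun σ _ => if Rv vert m σ 0 U h then (1 : ℝ≥0∞) else 0) =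
        EE κ l τ (fun _ _ => 0) := by
      apply EE_congr
      intro σ _ ω
      simp [Rv]
    rw [h1, EE_zero]
    exact zero_le
  | succ r ih =>
    intro l U τ h hS hR hh hhU
    have hFm : ∀ σ : Mt H, Measurable (fun _ : Wt H =>
      if Rv vert m σ (r + 1) U h then (1 : ℝ≥0∞) else 0) := fun σ => measurable_const
    have hfrne : (fr l h).Nonempty := hE.ne l U h hS (by omega) hh
    have hn0 : ((fr l h).card : ℝ≥0∞) ≠ 0 := by
      exact_mod_cast (Finset.card_pos.2 hfrne).ne'
    rw [EE_reveal hFm hh]
    have hpt : ∀ y ∈ fr l h, ∀ w : ℝ × ℝ,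
        EE κ ((h, y) :: l) (Function.update τ s(h, y) w)
          (fun σ _ => if Rv vert m σ (r + 1) U h then (1 : ℝ≥0∞) else 0) ≤
          (if vert y ∈ U then 1 else 0) + m * (sz m r * e) := by
      intro y hy w
      by_cases hyU : vert y ∈ U
      · rw [if_pos hyU]
        refine le_trans ?_ le_self_add
        refine le_trans ?_ (EE_const_le (κ := κ) ((h, y) :: l) (Function.update τ s(h, y) w) 1)
        apply EE_mono
        intro σ _ ω
        show (if _ then (1 : ℝ≥0∞) else 0) ≤ 1
        split_ifs
        · exact le_refl _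
        · exact zero_le
      · rw [if_neg hyU, zero_add]
        by_cases hdm : deg vert (vert y) < m
        · have h1 : EE κ ((h, y) :: l) (Function.update τ s(h, y) w)
              (fun σ _ => if Rv vert m σ (r + 1) U h then (1 : ℝ≥0∞) else 0) ≤
              EE κ ((h, y) :: l) (Function.update τ s(h, y) w)
                (fun σ ω => ∑ f ∈ nxt vert y, (fun f (σ : Mt H) (_ : Wt H) =>
                  if Rv vert m σ r (insert (vert y) U) f then (1 : ℝ≥0∞) else 0) f σ ω) := by
            apply EE_mono
            intro σ hσ ω
            have h7 : σ h = y := (mem_Al_cons.1 hσ).1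
            show (if _ then (1 : ℝ≥0∞) else 0) ≤ ∑ f ∈ nxt vert y,
              (if Rv vert m σ r (insert (vert y) U) f then (1 : ℝ≥0∞) else 0)
            by_cases h3 : Rv vert m σ (r + 1) U h
            · rw [if_pos h3]
              simp only [Rv] at h3
              rw [h7] at h3
              rcases h3 with h3 | ⟨_, f, hf, h4⟩
              · exact absurd h3 hyU
              · refine le_trans ?_ (Finset.single_le_sum (f := fun f =>
                  (if Rv vert m σ r (insert (vert y) U) f then (1 : ℝ≥0∞) else 0))
                  (fun i _ => zero_le) hf)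
                simp only [if_pos h4]
                exact le_refl _
            · rw [if_neg h3]
              exact zero_le
          refine le_trans h1 ?_
          rw [EE_sum _ (fun f _ σ => measurable_const)]
          calc ∑ f ∈ nxt vert y, EE κ ((h, y) :: l) (Function.update τ s(h, y) w)
                (fun (σ : Mt H) (_ : Wt H) =>
                  if Rv vert m σ r (insert (vert y) U) f then (1 : ℝ≥0∞) else 0)
              ≤ ∑ f ∈ nxt vert y, sz m r * e := by
                apply Finset.sum_le_sum
                intro f hf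
                apply ih ((h, y) :: l) (insert (vert y) U) _ f (hS.step' hhU hyU)
                · rw [card_insert_of_notMem hyU]; omega
                · exact fresh_nxt hS.1 hhU hyU hf
                · rw [(mem_nxt.1 hf).1]
                  exact mem_insert_self _ _
            _ = ((deg vert (vert y) - 1 : ℕ) : ℝ≥0∞) * (sz m r * e) := by
                rw [Finset.sum_const, nsmul_eq_mul, card_nxt]
            _ ≤ m * (sz m r * e) := by
                gcongr
                omega
        · have h1 : EE κ ((h, y) :: l) (Function.update τ s(h, y) w)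
              (fun σ _ => if Rv vert m σ (r + 1) U h then (1 : ℝ≥0∞) else 0) =
              EE κ ((h, y) :: l) (Function.update τ s(h, y) w) (fun _ _ => 0) := by
            apply EE_congr
            intro σ hσ ω
            have h7 : σ h = y := (mem_Al_cons.1 hσ).1
            show (if _ then (1 : ℝ≥0∞) else 0) = 0
            rw [if_neg]
            intro h3
            simp only [Rv] at h3
            rw [h7] at h3
            rcases h3 with h3 | ⟨h3, _⟩
            · exact hyU h3
            · exact hdm h3
          rw [h1, EE_zero]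
          exact zero_le
    calc (∑ y ∈ fr l h, ∫⁻ w, EE κ ((h, y) :: l) (Function.update τ s(h, y) w)
          (fun σ _ => if Rv vert m σ (r + 1) U h then (1 : ℝ≥0∞) else 0) ∂κ) / (fr l h).card
        ≤ (∑ y ∈ fr l h, (if vert y ∈ U then (1 : ℝ≥0∞) else 0)) / (fr l h).card +
            m * (sz m r * e) := by
          apply avg_le' (subset_refl _) hfrne
          intro y hy
          calc ∫⁻ w, EE κ ((h, y) :: l) (Function.update τ s(h, y) w)
                (fun σ _ => if Rv vert m σ (r + 1) U h then (1 : ℝ≥0∞) else 0) ∂κ
              ≤ ∫⁻ _w, ((if vert y ∈ U then 1 else 0) + m * (sz m r * e)) ∂κ :=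
                lintegral_mono (hpt y hy)
            _ = _ := by rw [lintegral_const, measure_univ, mul_one]
      _ ≤ e + m * (sz m r * e) := by
          gcongr ?_ + _
          rw [Finset.sum_boole]
          exact hE.hit l U h hS (by omega) hh
      _ = sz m (r + 1) * e := by
          simp only [sz]
          push_cast
          ring

end Pool.Agent.H949.DX
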