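import Pool.Agent.H949.DX.E1

/-!
# The mean number of long lines whose side half-edges do not let red escape

Definitions: `EE`, `EE_reveal`, `EE_add`, `EE_sum`, `EE_mono`, `EE_congr`, `EE_const_le` in
`CX/WMeas.lean`; `wt`, `pr`, `nxt`, `mem_nxt`, `card_nxt` in `CX/PS.lean`; `measurable_EE_update` in
`CX/PSE.lean`; `Fl`, `CC`, `WC`, `sz`, `St`, `Env` in `DX/Walk.lean`; `TR`, `TR_le_one` in
`DX/Rec.lean`, `St.step`, `measurableSet_Fl`, `fl_up` in `DX/E1.lean`.

Paper proof of `cc_up`. Let `Q f := Fl vert c m P g x f`, `T1 := TR ρ (κ.map (pr c)) m 1 g x ≤ 1`,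
`N := m1 * sz m g`, `B := m1 ^ j`. `measurable_CC`: induction on `r` (finite sums of indicators).
`cc_bound`: `CC r h ≤ m1 ^ r` (induction; a vertex of degree `< m1` has at most `m1` next
half-edges; `1 ≤ m1`). Main claim by induction on `r ≤ j`: `EE κ l τ (CC r h) ≤ cb θ δ r`. `r = 0`:
`EE_const_le`. Step: reveal `h`, `l' = (h, y) :: l`, `U' = insert (vert y) U`.
- `vert y ∈ U`: `CC (r+1) h ≤ m1 ^ (r+1) ≤ B`; contribution at most `e B` (`Env.hit`).
- fresh `y` (`vert y ∉ U`) with `m1 ≤ deg vert (vert y)`: the value is `1`. The fraction of such `y` is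
  at most `p1 + e`: by `hE1.lo` with `φ = 1`, `B = 1`, `ρ {k | k+1 < m1} ≤ frac(fresh, deg < m1) + e`,
  and the two fractions add up to at most `1 = ρ {k | k+1 < m1} + ρ {k | m1 ≤ k+1}`.
- fresh `y` with `deg vert (vert y) < m1`: on `Al l'`, `CC (r+1) h` is
  `∑ f ∈ nxt vert y, (if ∀ f' ∈ (nxt vert y).erase f, Q f' then CC r f else 0)`. Apply `fl_up` to each
  `f` with `Y = CC r f`, `K = {f}`, `ts = ((nxt vert y).erase f).toList.map (fun f' => (f', g, x))`
  (of cost at most `N`), `yb = min (cb θ δ r) B`, `R' = R - r * (1 + N)` and the induction hypothesis as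
  `hY` (`U''.card ≤ R'` gives `U''.card + r (1+N) ≤ R`; note `CC r f ≤ m1^r ≤ B` gives
  `EE ≤ B`). Here `U'.card + N ≤ R'` because `U.card + (r+1)(1+N) ≤ R`. With `k = deg - 1` next
  half-edges the sum over `f` is at most `k * (T1^(k-1) * yb + (N (2e) + η) B) ≤ k T1^(k-1) yb + m1 (N (2e)+η) B`.
  Average: `hE1.up` with `φ k = if k + 1 < m1 then k * T1^(k-1) * yb else 0 ≤ m1 * B`:
  `≤ (∫⁻ k in {k | k+1 < m1}, k * T1^(k-1) ∂ρ) * yb + e * (m1 * B)`.
Total `≤ θ * cb r + e m1 B + m1 (N (2e) + η) B + (p1 + e) + e B ≤ θ * cb r + δ = cb (r+1)`.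

Paper proof of `wc_up`. `wc_bound`: `WC a h ≤ m1^j * (m2+1)^a` by induction. Induction on `a`:
`EE (WC (a+1) h) = EE (CC j h) + EE(second term)`; reveal `h` in the second term: `vert y ∈ U`:
the value is at most `m2 * (m1^j (m2+1)^a)`, fraction `≤ e`; fresh `y`: at most
`∑_{f ∈ nxt vert y} EE κ l' τ' (WC a f) ≤ m2 * wb_a` with `wb_a = (m2+1)^a (y0 + a (e m1^j))`. So
`EE (WC (a+1) h) ≤ y0 + m2 wb_a + e m1^j (m2+1)^(a+1) ≤ wb_{a+1}`.

Paper proof of `cb_le`: `cb θ δ r ≤ θ^r + δ * (1 - θ)⁻¹` by induction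
(`θ * (1-θ)⁻¹ + 1 ≤ (1-θ)⁻¹` for `θ < 1`; in fact equality).

Paper proof of `theta_le`: if `T1 ≤ η1 ≤ 1/2` then for `k ≥ 2`, `k * T1^(k-1) ≤ 2 η1` (because
`k (1/2)^(k-2) ≤ 2`), for `k = 1` the value is `1`, for `k = 0` it is `0`; so the integral is at most
`ρ {1} + 2 η1`.
-/

set_option linter.unusedSectionVars false

open MeasureTheory Finset
open scoped ENNReal

namespace Pool.Agent.H949.DX

open Pool.Agent.H949.CM Pool.Agent.H949.CX

variable {V H : Type} [Fintype V] [DecidableEq V] [Fintype H] [DecidableEq H]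



/-- The bound for the mean of `CC`. -/
noncomputable def cb (θ δ : ℝ≥0∞) : ℕ → ℝ≥0∞
  | 0 => 1
  | (r + 1) => θ * cb θ δ r + δ

theorem cb_le {θ δ : ℝ≥0∞} (hθ : θ < 1) (r : ℕ) : cb θ δ r ≤ θ ^ r + δ * (1 - θ)⁻¹ := by
  induction r with
  | zero =>
    show (1 : ℝ≥0∞) ≤ θ ^ 0 + _
    rw [pow_zero]
    exact le_self_add
  | succ r ih =>
    have h1 : 1 - θ ≠ 0 := (tsub_pos_of_lt hθ).ne'
    have h2 : 1 - θ ≠ ⊤ := ne_top_of_le_ne_top ENNReal.one_ne_top tsub_le_self
    have h3 : θ * (1 - θ)⁻¹ + 1 = (1 - θ)⁻¹ := by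
      calc θ * (1 - θ)⁻¹ + 1 = θ * (1 - θ)⁻¹ + (1 - θ) * (1 - θ)⁻¹ := by
            rw [ENNReal.mul_inv_cancel h1 h2]
        _ = (θ + (1 - θ)) * (1 - θ)⁻¹ := by rw [add_mul]
        _ = (1 - θ)⁻¹ := by rw [add_tsub_cancel_of_le hθ.le, one_mul]
    show θ * cb θ δ r + δ ≤ _
    calc θ * cb θ δ r + δ ≤ θ * (θ ^ r + δ * (1 - θ)⁻¹) + δ := by gcongr
      _ = θ ^ (r + 1) + δ * (θ * (1 - θ)⁻¹ + 1) := by ring
      _ = _ := by rw [h3]

theorem theta_le {ρ : Measure ℕ} [IsProbabilityMeasure ρ] {T1 η1 : ℝ≥0∞} (h1 : T1 ≤ η1)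
    (h2 : η1 ≤ 1 / 2) (m1 : ℕ) :
    ∫⁻ k in {k : ℕ | k + 1 < m1}, (k : ℝ≥0∞) * T1 ^ (k - 1) ∂ρ ≤ ρ {1} + 2 * η1 := by
  have hpt : ∀ k : ℕ, (k : ℝ≥0∞) * T1 ^ (k - 1) ≤ ({1} : Set ℕ).indicator 1 k + 2 * η1 := by
    intro k
    rcases k with _ | _ | j
    · simp
    · simp
    · have e1 : j + 1 + 1 - 1 = j + 1 := rfl
      have h3 : ((j + 1 + 1 : ℕ) : ℝ≥0∞) * (1 / 2) ^ j ≤ 2 := by
        have h4 : j + 1 + 1 ≤ 2 * 2 ^ j := by
          have := @Nat.lt_two_pow_self (j + 1)
          rw [pow_succ] at this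
          omega
        calc ((j + 1 + 1 : ℕ) : ℝ≥0∞) * (1 / 2) ^ j ≤ ((2 * 2 ^ j : ℕ) : ℝ≥0∞) * (1 / 2) ^ j := by
              gcongr
          _ = 2 * (2 * (1 / 2)) ^ j := by
              rw [mul_pow]; push_cast; ring
          _ = 2 := by
              rw [one_div, ENNReal.mul_inv_cancel two_ne_zero ENNReal.ofNat_ne_top, one_pow,
                mul_one]
      calc ((j + 1 + 1 : ℕ) : ℝ≥0∞) * T1 ^ (j + 1 + 1 - 1)
          = ((j + 1 + 1 : ℕ) : ℝ≥0∞) * T1 ^ j * T1 := by rw [e1, pow_succ, mul_assoc]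
        _ ≤ ((j + 1 + 1 : ℕ) : ℝ≥0∞) * (1 / 2) ^ j * η1 := by
            gcongr
            exact h1.trans h2
        _ ≤ 2 * η1 := by gcongr
        _ ≤ _ := le_add_self
  calc ∫⁻ k in {k : ℕ | k + 1 < m1}, (k : ℝ≥0∞) * T1 ^ (k - 1) ∂ρ
      ≤ ∫⁻ k in {k : ℕ | k + 1 < m1}, (({1} : Set ℕ).indicator 1 k + 2 * η1) ∂ρ :=
        lintegral_mono fun k => hpt k
    _ ≤ ∫⁻ k, (({1} : Set ℕ).indicator 1 k + 2 * η1) ∂ρ := setLIntegral_le_lintegral _ _
    _ = ρ {1} + 2 * η1 := by
        rw [lintegral_add_right _ measurable_const, lintegral_indicator_one (by simp),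
          lintegral_const, measure_univ, mul_one]

theorem measurable_CC {vert : H → V} {m1 : ℕ} {Q : H → Mt H → Wt H → Prop}
    (hQ : ∀ f σ, MeasurableSet {ω | Q f σ ω}) (r : ℕ) (h : H) (σ : Mt H) :
    Measurable (CC vert m1 Q r h σ) := by
  classical
  induction r generalizing h with
  | zero => exact measurable_const
  | succ r ih =>
    show Measurable (fun ω => CC vert m1 Q (r + 1) h σ ω)
    simp only [CC]
    by_cases h1 : m1 ≤ deg vert (vert (σ h))
    · simp only [if_pos h1]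
      exact measurable_const
    · simp only [if_neg h1]
      refine Finset.measurable_fun_sum _ fun f _ => ?_
      refine Measurable.ite ?_ (ih f) measurable_const
      have h2 : {ω : Wt H | ∀ f' ∈ (nxt vert (σ h)).erase f, Q f' σ ω} =
          ⋂ f' ∈ (nxt vert (σ h)).erase f, {ω | Q f' σ ω} := by
        ext ω
        simp only [Set.mem_ofPred_eq, Set.mem_iInter]
      rw [h2]
      exact Finset.measurableSet_biInter _ fun f' _ => hQ f' σ

theorem measurable_WC {vert : H → V} {m1 m2 : ℕ} {Q : H → Mt H → Wt H → Prop}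
    (hQ : ∀ f σ, MeasurableSet {ω | Q f σ ω}) (j a : ℕ) (h : H) (σ : Mt H) :
    Measurable (WC vert m1 m2 Q j a h σ) := by
  classical
  induction a generalizing h with
  | zero => exact measurable_CC hQ j h σ
  | succ a ih =>
    show Measurable (fun ω => WC vert m1 m2 Q j (a + 1) h σ ω)
    simp only [WC]
    refine (measurable_CC hQ j h σ).add ?_
    by_cases h1 : deg vert (vert (σ h)) < m2
    · simp only [if_pos h1]
      exact Finset.measurable_fun_sum _ fun f _ => ih f
    · simp only [if_neg h1]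
      exact measurable_const

theorem cc_bound {vert : H → V} {m1 : ℕ} (hm1 : 1 ≤ m1) {Q : H → Mt H → Wt H → Prop}
    (r : ℕ) (h : H) (σ : Mt H) (ω : Wt H) : CC vert m1 Q r h σ ω ≤ (m1 : ℝ≥0∞) ^ r := by
  have hm : (1 : ℝ≥0∞) ≤ m1 := by exact_mod_cast hm1
  induction r generalizing h with
  | zero =>
    show (1 : ℝ≥0∞) ≤ _
    rw [pow_zero]
  | succ r ih =>
    simp only [CC]
    by_cases h1 : m1 ≤ deg vert (vert (σ h))
    · rw [if_pos h1]
      exact one_le_pow₀ hm
    · rw [if_neg h1]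
      calc _ ≤ ∑ f ∈ nxt vert (σ h), (m1 : ℝ≥0∞) ^ r := by
            refine Finset.sum_le_sum fun f _ => ?_
            split_ifs
            · exact ih f
            · exact bot_le
        _ = ((deg vert (vert (σ h)) - 1 : ℕ) : ℝ≥0∞) * (m1 : ℝ≥0∞) ^ r := by
            rw [sum_const, nsmul_eq_mul, card_nxt]
        _ ≤ (m1 : ℝ≥0∞) * (m1 : ℝ≥0∞) ^ r := by
            gcongr
            omega
        _ = _ := by rw [pow_succ]; ring

theorem wc_bound {vert : H → V} {m1 m2 : ℕ} (hm1 : 1 ≤ m1) {Q : H → Mt H → Wt H → Prop}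
    (j a : ℕ) (h : H) (σ : Mt H) (ω : Wt H) :
    WC vert m1 m2 Q j a h σ ω ≤ (m1 : ℝ≥0∞) ^ j * ((m2 : ℝ≥0∞) + 1) ^ a := by
  induction a generalizing h with
  | zero =>
    rw [pow_zero, mul_one]
    exact cc_bound hm1 j h σ ω
  | succ a ih =>
    simp only [WC]
    have h2 : (if deg vert (vert (σ h)) < m2 then
        ∑ f ∈ nxt vert (σ h), WC vert m1 m2 Q j a f σ ω else 0) ≤
        (m2 : ℝ≥0∞) * ((m1 : ℝ≥0∞) ^ j * ((m2 : ℝ≥0∞) + 1) ^ a) := by
      split_ifs with h1
      · calc _ ≤ ∑ f ∈ nxt vert (σ h), (m1 : ℝ≥0∞) ^ j * ((m2 : ℝ≥0∞) + 1) ^ a :=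
              Finset.sum_le_sum fun f _ => ih f
          _ = ((deg vert (vert (σ h)) - 1 : ℕ) : ℝ≥0∞) *
                ((m1 : ℝ≥0∞) ^ j * ((m2 : ℝ≥0∞) + 1) ^ a) := by
              rw [sum_const, nsmul_eq_mul, card_nxt]
          _ ≤ _ := by
              gcongr
              omega
      · exact bot_le
    have h3 : (m1 : ℝ≥0∞) ^ j ≤ (m1 : ℝ≥0∞) ^ j * ((m2 : ℝ≥0∞) + 1) ^ a :=
      le_mul_of_one_le_right bot_le (one_le_pow₀ le_add_self)
    calc _ ≤ (m1 : ℝ≥0∞) ^ j * ((m2 : ℝ≥0∞) + 1) ^ a +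
          (m2 : ℝ≥0∞) * ((m1 : ℝ≥0∞) ^ j * ((m2 : ℝ≥0∞) + 1) ^ a) :=
          add_le_add ((cc_bound hm1 j h σ ω).trans h3) h2
      _ = _ := by ring

/-- Averages over the free half-edges: `b y` is at most `A` if `vert y ∈ U`, and at most `D` plus
`E` (if the degree is large) or `φ` (if it is small). -/
theorem avg_up {vert : H → V} {ρ : Measure ℕ} [IsProbabilityMeasure ρ] {m1 R : ℕ}
    {e p1 : ℝ≥0∞} (hE1 : Env vert ρ m1 R e) (hp1 : ρ {k : ℕ | m1 ≤ k + 1} ≤ p1)
    {l : List (H × H)} {U : Finset V} {h : H} (hS : St vert l U) (hU : U.card ≤ R)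
    (hh : h ∉ dom l) (φ : ℕ → ℝ≥0∞) (Bφ : ℝ≥0∞) (hφ : ∀ k, φ k ≤ Bφ) (A D : ℝ≥0∞)
    (b : H → ℝ≥0∞) (h1 : ∀ y ∈ fr l h, vert y ∈ U → b y ≤ A)
    (h2 : ∀ y ∈ fr l h, vert y ∉ U → m1 ≤ deg vert (vert y) → b y ≤ 1)
    (h3 : ∀ y ∈ fr l h, vert y ∉ U → deg vert (vert y) < m1 →
      b y ≤ φ (deg vert (vert y) - 1) + D) :
    (∑ y ∈ fr l h, b y) / (fr l h).card ≤
      e * A + (p1 + e) + (∫⁻ k in {k : ℕ | k + 1 < m1}, φ k ∂ρ + e * Bφ) + D := by
  classical
  set n : ℝ≥0∞ := ((fr l h).card : ℝ≥0∞) with hn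
  have hne : (fr l h).Nonempty := hE1.ne l U h hS hU hh
  have hn0 : n ≠ 0 := by
    rw [hn]
    exact_mod_cast (Finset.card_pos.2 hne).ne'
  have hnt : n ≠ ⊤ := ENNReal.natCast_ne_top _
  set S1 := (fr l h).filter (fun y => vert y ∈ U) with hS1
  set S2 := (fr l h).filter (fun y => vert y ∉ U ∧ m1 ≤ deg vert (vert y)) with hS2
  set S3 := (fr l h).filter (fun y => vert y ∉ U ∧ deg vert (vert y) < m1) with hS3
  have hb : ∀ y ∈ fr l h, b y ≤ (if vert y ∈ U then A else 0) +
      (if vert y ∉ U ∧ m1 ≤ deg vert (vert y) then 1 else 0) +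
      (if vert y ∉ U ∧ deg vert (vert y) < m1 then φ (deg vert (vert y) - 1) else 0) + D := by
    intro y hy
    by_cases hyU : vert y ∈ U
    · rw [if_pos hyU]
      calc b y ≤ A := h1 y hy hyU
        _ ≤ _ := by
          rw [add_assoc, add_assoc]
          exact le_self_add
    · by_cases hd : m1 ≤ deg vert (vert y)
      · rw [if_neg hyU, if_pos ⟨hyU, hd⟩, if_neg (fun hc => absurd hc.2 (not_lt.2 hd))]
        calc b y ≤ 1 := h2 y hy hyU hd
          _ ≤ _ := by
            rw [zero_add, add_zero]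
            exact le_self_add
      · rw [if_neg hyU, if_neg (fun hc => hd hc.2), if_pos ⟨hyU, not_le.1 hd⟩, zero_add, zero_add]
        exact h3 y hy hyU (not_le.1 hd)
  have hsum : ∑ y ∈ fr l h, b y ≤ S1.card * A + S2.card +
      ∑ y ∈ S3, φ (deg vert (vert y) - 1) + n * D := by
    refine (Finset.sum_le_sum hb).trans_eq ?_
    rw [sum_add_distrib, sum_add_distrib, sum_add_distrib, ← sum_filter, ← sum_filter,
      ← sum_filter, sum_const, sum_const, sum_const, nsmul_eq_mul, nsmul_eq_mul, nsmul_eq_mul,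
      mul_one]
  have hf1 : (S1.card : ℝ≥0∞) / n ≤ e := hE1.hit l U h hS hU hh
  have hf3 : (∑ y ∈ S3, φ (deg vert (vert y) - 1)) / n ≤
      ∫⁻ k in {k : ℕ | k + 1 < m1}, φ k ∂ρ + e * Bφ := hE1.up l U h hS hU hh φ Bφ hφ
  have hf2 : (S2.card : ℝ≥0∞) / n ≤ p1 + e := by
    have hlo := hE1.lo l U h hS hU hh (fun _ => 1) 1 (fun _ => le_refl _)
    rw [lintegral_const, one_mul, Measure.restrict_apply_univ, sum_const, nsmul_eq_mul, mul_one,
      mul_one] at hlo
    have hlo' : ρ {k : ℕ | k + 1 < m1} ≤ (S3.card : ℝ≥0∞) / n + e := hlo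
    have hdis : Disjoint S2 S3 := by
      rw [Finset.disjoint_left]
      intro y hy hy'
      have a1 := (mem_filter.1 hy).2.2
      have a2 := (mem_filter.1 hy').2.2
      omega
    have hcard : S2.card + S3.card ≤ (fr l h).card := by
      rw [← card_union_of_disjoint hdis]
      apply card_le_card
      intro y hy
      rcases mem_union.1 hy with hy | hy
      · exact (mem_filter.1 hy).1
      · exact (mem_filter.1 hy).1
    have hle : (S2.card : ℝ≥0∞) / n + (S3.card : ℝ≥0∞) / n ≤ 1 := by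
      rw [← ENNReal.add_div]
      refine ENNReal.div_le_of_le_mul ?_
      rw [one_mul, hn]
      exact_mod_cast hcard
    have huniv : (1 : ℝ≥0∞) ≤ ρ {k : ℕ | k + 1 < m1} + ρ {k : ℕ | m1 ≤ k + 1} := by
      rw [← measure_univ (μ := ρ)]
      refine (measure_mono ?_).trans (measure_union_le _ _)
      intro k _
      rcases lt_or_ge (k + 1) m1 with hk | hk
      · exact Or.inl hk
      · exact Or.inr hk
    have hfin : (S3.card : ℝ≥0∞) / n ≠ ⊤ := ENNReal.div_ne_top (ENNReal.natCast_ne_top _) hn0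
    have hfinal : (S2.card : ℝ≥0∞) / n + (S3.card : ℝ≥0∞) / n ≤
        (p1 + e) + (S3.card : ℝ≥0∞) / n := by
      calc _ ≤ (1 : ℝ≥0∞) := hle
        _ ≤ ρ {k : ℕ | k + 1 < m1} + ρ {k : ℕ | m1 ≤ k + 1} := huniv
        _ ≤ ((S3.card : ℝ≥0∞) / n + e) + p1 := add_le_add hlo' hp1
        _ = _ := by ring
    exact (ENNReal.add_le_add_iff_right hfin).1 hfinal
  calc (∑ y ∈ fr l h, b y) / n
      ≤ (S1.card * A + S2.card + ∑ y ∈ S3, φ (deg vert (vert y) - 1) + n * D) / n := by
        gcongr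
    _ = (S1.card : ℝ≥0∞) / n * A + (S2.card : ℝ≥0∞) / n +
          (∑ y ∈ S3, φ (deg vert (vert y) - 1)) / n + n / n * D := by
        rw [ENNReal.add_div, ENNReal.add_div, ENNReal.add_div]
        simp only [div_eq_mul_inv]
        ring
    _ ≤ e * A + (p1 + e) + (∫⁻ k in {k : ℕ | k + 1 < m1}, φ k ∂ρ + e * Bφ) + D := by
        rw [ENNReal.div_self hn0 hnt, one_mul]
        gcongr

theorem cc_up {κ : Measure (ℝ × ℝ)} [IsProbabilityMeasure κ] {vert : H → V} {ρ : Measure ℕ}
    [IsProbabilityMeasure ρ] {m m1 R g j : ℕ} {x : ℝ} {e η θ p1 δ : ℝ≥0∞}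
    (hE : Env vert ρ m R e) (hE1 : Env vert ρ m1 R e) (hm1 : 1 ≤ m1) (he : e ≠ ⊤) (hη : η ≠ ⊤)
    {c : Bool} {P : V → Mt H → Wt H → Prop} (hPm : ∀ v σ, MeasurableSet {ω | P v σ ω})
    (hP : ∀ (l : List (H × H)) (U : Finset V) (v : V) (τ : Wt H), St vert l U → U.card ≤ R →
      v ∈ U → ((dom l).filter (fun h => vert h = v)).card ≤ 1 → m ≤ deg vert v →
      EE κ l τ (fun σ ω => by classical exact if P v σ ω then 0 else 1) ≤ η)
    (hθ : ∫⁻ k in {k : ℕ | k + 1 < m1},
      (k : ℝ≥0∞) * (TR ρ (κ.map (pr c)) m 1 g x) ^ (k - 1) ∂ρ ≤ θ)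
    (hp1 : ρ {k : ℕ | m1 ≤ k + 1} ≤ p1)
    (hδ : p1 + e + e * (m1 : ℝ≥0∞) ^ j + e * (m1 * (m1 : ℝ≥0∞) ^ j) +
      m1 * (((m1 * sz m g : ℕ) : ℝ≥0∞) * (2 * e) + η) * (m1 : ℝ≥0∞) ^ j ≤ δ) :
    ∀ r ≤ j, ∀ (l : List (H × H)) (U : Finset V) (τ : Wt H) (h : H), St vert l U →
      U.card + r * (1 + m1 * sz m g) ≤ R → h ∉ dom l → vert h ∈ U →
      EE κ l τ (CC vert m1 (fun f σ ω => Fl vert c m P g x f σ ω) r h) ≤ cb θ δ r := by
  classical
  set Q : H → Mt H → Wt H → Prop := fun f σ ω => Fl vert c m P g x f σ ω with hQdef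
  have hQ : ∀ f σ, MeasurableSet {ω | Q f σ ω} := fun f σ => measurableSet_Fl hPm σ g x f
  have hm : (1 : ℝ≥0∞) ≤ m1 := by exact_mod_cast hm1
  have : IsProbabilityMeasure (κ.map (pr c)) :=
    Measure.isProbabilityMeasure_map (measurable_pr c).aemeasurable
  set T1 : ℝ≥0∞ := TR ρ (κ.map (pr c)) m 1 g x with hT1
  have hT1le : T1 ≤ 1 := TR_le_one (le_refl _) g x
  set N : ℕ := m1 * sz m g with hN
  set B : ℝ≥0∞ := (m1 : ℝ≥0∞) ^ j with hB
  have hBt : B ≠ ⊤ := ENNReal.pow_ne_top (ENNReal.natCast_ne_top _)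
  intro r
  induction r with
  | zero =>
    intro _ l U τ h _ _ _ _
    exact EE_const_le l τ 1
  | succ r ih =>
    intro hrj l U τ h hS hU hh hhU
    have hFm : ∀ σ, Measurable (CC vert m1 Q (r + 1) h σ) := fun σ =>
      measurable_CC hQ (r + 1) h σ
    have hpowB : ∀ i ≤ j, (m1 : ℝ≥0∞) ^ i ≤ B := fun i hi => pow_le_pow_right₀ hm hi
    have hrN : U.card + (1 + N) + r * (1 + N) ≤ R := by
      have : (r + 1) * (1 + N) = r * (1 + N) + (1 + N) := by ring
      omega
    have hUR : U.card ≤ R := by omega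
    set yb : ℝ≥0∞ := min (cb θ δ r) B with hyb
    rw [EE_reveal hFm hh]
    set D : ℝ≥0∞ := m1 * ((N : ℝ≥0∞) * (2 * e) + η) * B with hD
    set φ : ℕ → ℝ≥0∞ := fun k => if k + 1 < m1 then (k : ℝ≥0∞) * T1 ^ (k - 1) * yb else 0
      with hφ
    have hφB : ∀ k, φ k ≤ m1 * B := by
      intro k
      rw [hφ]
      dsimp only
      split_ifs with hk
      · calc (k : ℝ≥0∞) * T1 ^ (k - 1) * yb ≤ (m1 : ℝ≥0∞) * 1 * B := by
              gcongr
              · omega
              · exact pow_le_one₀ bot_le hT1le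
              · exact min_le_right _ _
          _ = _ := by rw [mul_one]
      · exact bot_le
    -- the bound for a revealed partner
    have key : ∀ y ∈ fr l h, vert y ∉ U → deg vert (vert y) < m1 → ∀ τ' : Wt H,
        EE κ ((h, y) :: l) τ' (CC vert m1 Q (r + 1) h) ≤ φ (deg vert (vert y) - 1) + D := by
      intro y hy hyU hd τ'
      set l' := (h, y) :: l with hl'
      set U' := insert (vert y) U with hU'
      have hS' : St vert l' U' := hS.step hhU hyU
      have hU'c : U'.card ≤ U.card + 1 := card_insert_le _ _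
      have hfn : ∀ f ∈ nxt vert y, f ∉ dom l' ∧ vert f ∈ U' := by
        intro f hf
        refine ⟨fresh_nxt hS.1 hhU hyU hf, ?_⟩
        rw [(mem_nxt.1 hf).1]
        exact mem_insert_self _ _
      have e1 : EE κ l' τ' (CC vert m1 Q (r + 1) h) =
          EE κ l' τ' (fun σ ω => ∑ f ∈ nxt vert y,
            if ∀ f' ∈ (nxt vert y).erase f, Q f' σ ω then CC vert m1 Q r f σ ω else 0) := by
        apply EE_congr
        intro σ hσ ω
        obtain ⟨h1, h2⟩ := mem_Al_cons.1 hσ
        simp only [CC]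
        rw [h1, if_neg (not_le.2 hd)]
      have hmeas : ∀ f ∈ nxt vert y, ∀ σ, Measurable (fun ω : Wt H =>
          if ∀ f' ∈ (nxt vert y).erase f, Q f' σ ω then CC vert m1 Q r f σ ω else 0) := by
        intro f _ σ
        refine Measurable.ite ?_ (measurable_CC hQ r f σ) measurable_const
        have h2 : {ω : Wt H | ∀ f' ∈ (nxt vert y).erase f, Q f' σ ω} =
            ⋂ f' ∈ (nxt vert y).erase f, {ω | Q f' σ ω} := by
          ext ω
          simp only [Set.mem_ofPred_eq, Set.mem_iInter]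
        rw [h2]
        exact Finset.measurableSet_biInter _ fun f' _ => hQ f' σ
      rw [e1, EE_sum _ hmeas]
      have hkk : (nxt vert y).card = deg vert (vert y) - 1 := card_nxt vert y
      have each : ∀ f ∈ nxt vert y, EE κ l' τ' (fun σ ω =>
          if ∀ f' ∈ (nxt vert y).erase f, Q f' σ ω then CC vert m1 Q r f σ ω else 0) ≤
          T1 ^ (deg vert (vert y) - 1 - 1) * yb + ((N : ℝ≥0∞) * (2 * e) + η) * B := by
        intro f hf
        set ts : List (H × ℕ × ℝ) :=
          ((nxt vert y).erase f).toList.map (fun f' => (f', g, x)) with hts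
        have hlen : ((nxt vert y).erase f).toList.length = deg vert (vert y) - 1 - 1 := by
          rw [length_toList, card_erase_of_mem hf, hkk]
        have hmem : ∀ t ∈ ts, t.1 ∈ (nxt vert y).erase f ∧ t.2.1 = g ∧ t.2.2 = x := by
          intro t ht
          obtain ⟨f', hf', rfl⟩ := List.mem_map.1 ht
          exact ⟨mem_toList.1 hf', rfl, rfl⟩
        have main := fl_up (c := c) hE hPm hP (CC vert m1 Q r f)
          (fun σ => measurable_CC hQ r f σ) (B := B) (yb := yb)
          (fun σ ω => (cc_bound hm1 r f σ ω).trans (hpowB r (by omega))) (min_le_right _ _) hBt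
          {f} (R' := R - r * (1 + N)) (Nat.sub_le _ _)
          (by
            intro l2 U2 τ2 hS2 hU2 hK
            obtain ⟨h5, h6⟩ := hK f (mem_singleton_self f)
            refine le_min (ih (by omega) l2 U2 τ2 f hS2 (by omega) h5 h6) ?_
            refine le_trans ?_ (EE_const_le (κ := κ) l2 τ2 B)
            exact EE_mono fun σ _ ω => (cc_bound hm1 r f σ _).trans (hpowB r (by omega)))
          N ts l' U' τ'
          (by
            rw [hts, List.map_map]
            have : ((fun t : H × ℕ × ℝ => sz m t.2.1) ∘ fun f' => (f', g, x)) =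
                fun _ : H => sz m g := rfl
            rw [this, List.map_const', List.sum_replicate, hlen, smul_eq_mul, hN]
            exact Nat.mul_le_mul_right _ (by omega))
          hS' (by omega)
          (by
            intro t ht
            obtain ⟨h5, _, _⟩ := hmem t ht
            obtain ⟨h6, h7⟩ := mem_erase.1 h5
            obtain ⟨h8, h9⟩ := hfn _ h7
            exact ⟨h8, h9, fun hc => h6 (mem_singleton.1 hc)⟩)
          (by
            intro k hk
            rw [mem_singleton.1 hk]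
            exact hfn f hf)
          (by
            rw [hts, List.map_map]
            have : (Prod.fst ∘ fun f' : H => (f', g, x)) = id := rfl
            rw [this, List.map_id]
            exact nodup_toList _)
        have hprod : (ts.map (fun t => TR ρ (κ.map (pr c)) m 1 t.2.1 t.2.2)).prod =
            T1 ^ (deg vert (vert y) - 1 - 1) := by
          rw [hts, List.map_map]
          have : ((fun t : H × ℕ × ℝ => TR ρ (κ.map (pr c)) m 1 t.2.1 t.2.2) ∘
              fun f' => (f', g, x)) = fun _ : H => T1 := rfl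
          rw [this, List.map_const', List.prod_replicate, hlen]
        rw [hprod] at main
        refine le_trans (EE_mono ?_) main
        intro σ _ ω
        by_cases hc : ∀ f' ∈ (nxt vert y).erase f, Q f' σ (glue l' τ' ω)
        · rw [if_pos hc, if_pos]
          intro t ht
          obtain ⟨h5, h6, h7⟩ := hmem t ht
          rw [h6, h7]
          exact hc _ h5
        · rw [if_neg hc]
          exact bot_le
      refine (Finset.sum_le_card_nsmul _ _ _ each).trans ?_
      rw [nsmul_eq_mul, hkk, hφ, hD]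
      dsimp only
      set k := deg vert (vert y) - 1 with hk
      by_cases hk1 : k + 1 < m1
      · rw [if_pos hk1]
        calc (k : ℝ≥0∞) * (T1 ^ (k - 1) * yb + ((N : ℝ≥0∞) * (2 * e) + η) * B)
            = (k : ℝ≥0∞) * T1 ^ (k - 1) * yb + k * ((N : ℝ≥0∞) * (2 * e) + η) * B := by ring
          _ ≤ _ := by
            gcongr
            omega
      · -- then the degree is zero, and there are no next half-edges
        have hk0 : k = 0 := by omega
        rw [hk0]
        simp
    have bound : ∀ y ∈ fr l h, ∀ C : ℝ≥0∞,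
        (∀ w : ℝ × ℝ, EE κ ((h, y) :: l) (Function.update τ s(h, y) w)
          (CC vert m1 Q (r + 1) h) ≤ C) →
        ∫⁻ w, EE κ ((h, y) :: l) (Function.update τ s(h, y) w) (CC vert m1 Q (r + 1) h) ∂κ ≤
          C := by
      intro y _ C hC
      calc _ ≤ ∫⁻ _w, C ∂κ := lintegral_mono hC
        _ = C := by rw [lintegral_const, measure_univ, mul_one]
    have hav := avg_up hE1 hp1 hS hUR hh φ (m1 * B) hφB B D
      (fun y => ∫⁻ w, EE κ ((h, y) :: l) (Function.update τ s(h, y) w)
        (CC vert m1 Q (r + 1) h) ∂κ)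
      (by
        intro y hy _
        refine bound y hy B fun w => ?_
        refine le_trans ?_ (EE_const_le (κ := κ) ((h, y) :: l) (Function.update τ s(h, y) w) B)
        exact EE_mono fun σ _ ω => (cc_bound hm1 (r + 1) h σ _).trans (hpowB (r + 1) hrj))
      (by
        intro y hy _ hd
        refine bound y hy 1 fun w => ?_
        refine le_trans ?_ (EE_const_le (κ := κ) ((h, y) :: l) (Function.update τ s(h, y) w) 1)
        refine EE_mono fun σ hσ ω => ?_
        obtain ⟨h1, h2⟩ := mem_Al_cons.1 hσ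
        simp only [CC]
        rw [h1, if_pos hd])
      (by
        intro y hy hyU hd
        exact bound y hy _ fun w => key y hy hyU hd _)
    refine hav.trans ?_
    have hint : ∫⁻ k in {k : ℕ | k + 1 < m1}, φ k ∂ρ ≤ θ * cb θ δ r := by
      calc ∫⁻ k in {k : ℕ | k + 1 < m1}, φ k ∂ρ
          ≤ ∫⁻ k in {k : ℕ | k + 1 < m1}, ((k : ℝ≥0∞) * T1 ^ (k - 1)) * yb ∂ρ := by
            apply lintegral_mono
            intro k
            rw [hφ]
            dsimp only
            split_ifs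
            · exact le_refl _
            · exact bot_le
        _ = (∫⁻ k in {k : ℕ | k + 1 < m1}, (k : ℝ≥0∞) * T1 ^ (k - 1) ∂ρ) * yb :=
            lintegral_mul_const _ (measurable_of_countable _)
        _ ≤ θ * cb θ δ r := by
            gcongr
            exact min_le_left _ _
    show _ ≤ θ * cb θ δ r + δ
    calc e * B + (p1 + e) + (∫⁻ k in {k : ℕ | k + 1 < m1}, φ k ∂ρ + e * (m1 * B)) + D
        ≤ e * B + (p1 + e) + (θ * cb θ δ r + e * (m1 * B)) + D := by gcongr
      _ = θ * cb θ δ r + (p1 + e + e * B + e * (m1 * B) + D) := by ring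
      _ ≤ _ := by
        gcongr

theorem wc_up {κ : Measure (ℝ × ℝ)} [IsProbabilityMeasure κ] {vert : H → V} {ρ : Measure ℕ}
    [IsProbabilityMeasure ρ] {m m1 m2 R j Rj : ℕ} {e y0 : ℝ≥0∞} (hE : Env vert ρ m R e)
    (hm1 : 1 ≤ m1) {Q : H → Mt H → Wt H → Prop} (hQ : ∀ f σ, MeasurableSet {ω | Q f σ ω})
    (hCC : ∀ (l : List (H × H)) (U : Finset V) (τ : Wt H) (h : H), St vert l U →
      U.card + Rj ≤ R → h ∉ dom l → vert h ∈ U → EE κ l τ (CC vert m1 Q j h) ≤ y0) :
    ∀ (a : ℕ) (l : List (H × H)) (U : Finset V) (τ : Wt H) (h : H), St vert l U →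
      U.card + (a + Rj) ≤ R → h ∉ dom l → vert h ∈ U →
      EE κ l τ (WC vert m1 m2 Q j a h) ≤
        ((m2 : ℝ≥0∞) + 1) ^ a * (y0 + a * (e * (m1 : ℝ≥0∞) ^ j)) := by
  classical
  intro a
  induction a with
  | zero =>
    intro l U τ h hS hU hh hhU
    have h1 := hCC l U τ h hS (by omega) hh hhU
    have h2 : WC vert m1 m2 Q j 0 h = CC vert m1 Q j h := by
      funext σ ω
      simp only [WC]
    rw [h2]
    simpa using h1
  | succ a ih =>
    intro l U τ h hS hU hh hhU
    set M : ℝ≥0∞ := (m2 : ℝ≥0∞) with hM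
    set E : ℝ≥0∞ := e * (m1 : ℝ≥0∞) ^ j with hEdef
    set G : Mt H → Wt H → ℝ≥0∞ := fun σ ω => if deg vert (vert (σ h)) < m2 then
      ∑ f ∈ nxt vert (σ h), WC vert m1 m2 Q j a f σ ω else 0 with hG
    have hGm : ∀ σ, Measurable (G σ) := by
      intro σ
      show Measurable (fun ω => G σ ω)
      simp only [hG]
      by_cases h1 : deg vert (vert (σ h)) < m2
      · simp only [if_pos h1]
        exact Finset.measurable_fun_sum _ fun f _ => measurable_WC hQ j a f σ
      · simp only [if_neg h1]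
        exact measurable_const
    have hGb : ∀ σ ω, G σ ω ≤ M * ((m1 : ℝ≥0∞) ^ j * (M + 1) ^ a) := by
      intro σ ω
      simp only [hG]
      split_ifs with h1
      · calc _ ≤ ∑ f ∈ nxt vert (σ h), (m1 : ℝ≥0∞) ^ j * (M + 1) ^ a :=
              Finset.sum_le_sum fun f _ => wc_bound hm1 j a f σ ω
          _ = ((deg vert (vert (σ h)) - 1 : ℕ) : ℝ≥0∞) * ((m1 : ℝ≥0∞) ^ j * (M + 1) ^ a) := by
              rw [sum_const, nsmul_eq_mul, card_nxt]
          _ ≤ _ := by
              rw [hM]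
              gcongr
              omega
      · exact bot_le
    have h0 : EE κ l τ (WC vert m1 m2 Q j (a + 1) h) =
        EE κ l τ (CC vert m1 Q j h) + EE κ l τ G := by
      rw [← EE_add (fun σ => measurable_CC hQ j h σ)]
      rfl
    have hfirst : EE κ l τ (CC vert m1 Q j h) ≤ y0 := hCC l U τ h hS (by omega) hh hhU
    set wb : ℝ≥0∞ := (M + 1) ^ a * (y0 + a * E) with hwb
    have hUR : U.card ≤ R := by omega
    have hne : (fr l h).Nonempty := hE.ne l U h hS hUR hh
    set n : ℝ≥0∞ := ((fr l h).card : ℝ≥0∞) with hn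
    have hn0 : n ≠ 0 := by
      rw [hn]
      exact_mod_cast (Finset.card_pos.2 hne).ne'
    have hnt : n ≠ ⊤ := ENNReal.natCast_ne_top _
    set A : ℝ≥0∞ := M * ((m1 : ℝ≥0∞) ^ j * (M + 1) ^ a) with hA
    have hsecond : EE κ l τ G ≤ e * A + M * wb := by
      rw [EE_reveal hGm hh]
      have bound : ∀ y ∈ fr l h, ∫⁻ w, EE κ ((h, y) :: l) (Function.update τ s(h, y) w) G ∂κ ≤
          (if vert y ∈ U then A else 0) + M * wb := by
        intro y hy
        have hpt : ∀ w : ℝ × ℝ, EE κ ((h, y) :: l) (Function.update τ s(h, y) w) G ≤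
            (if vert y ∈ U then A else 0) + M * wb := by
          intro w
          set l' := (h, y) :: l with hl'
          set τ' := Function.update τ s(h, y) w with hτ'
          by_cases hyU : vert y ∈ U
          · rw [if_pos hyU]
            refine le_trans ?_ le_self_add
            refine le_trans ?_ (EE_const_le (κ := κ) l' τ' A)
            exact EE_mono fun σ _ ω => hGb σ _
          · rw [if_neg hyU, zero_add]
            have e1 : EE κ l' τ' G = EE κ l' τ' (fun σ ω => if deg vert (vert y) < m2 then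
                ∑ f ∈ nxt vert y, WC vert m1 m2 Q j a f σ ω else 0) := by
              apply EE_congr
              intro σ hσ ω
              obtain ⟨h1, h2⟩ := mem_Al_cons.1 hσ
              simp only [hG]
              rw [h1]
            rw [e1]
            by_cases hd : deg vert (vert y) < m2
            · simp only [if_pos hd]
              rw [EE_sum _ (fun f _ σ => measurable_WC hQ j a f σ)]
              have hS' : St vert l' (insert (vert y) U) := hS.step hhU hyU
              have hU'c : (insert (vert y) U).card ≤ U.card + 1 := card_insert_le _ _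
              calc ∑ f ∈ nxt vert y, EE κ l' τ' (WC vert m1 m2 Q j a f)
                  ≤ ∑ f ∈ nxt vert y, wb := by
                    refine Finset.sum_le_sum fun f hf => ?_
                    refine ih l' _ τ' f hS' (by omega) (fresh_nxt hS.1 hhU hyU hf) ?_
                    rw [(mem_nxt.1 hf).1]
                    exact mem_insert_self _ _
                _ = ((deg vert (vert y) - 1 : ℕ) : ℝ≥0∞) * wb := by
                    rw [sum_const, nsmul_eq_mul, card_nxt]
                _ ≤ M * wb := by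
                    rw [hM]
                    gcongr
                    omega
            · simp only [if_neg hd]
              rw [EE_zero]
              exact bot_le
        calc _ ≤ ∫⁻ _w, ((if vert y ∈ U then A else 0) + M * wb) ∂κ := lintegral_mono hpt
          _ = _ := by rw [lintegral_const, measure_univ, mul_one]
      have hhit : (((fr l h).filter (fun y => vert y ∈ U)).card : ℝ≥0∞) / n ≤ e :=
        hE.hit l U h hS hUR hh
      calc _ ≤ (∑ y ∈ fr l h, ((if vert y ∈ U then A else 0) + M * wb)) / n := by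
            gcongr with y hy
            exact bound y hy
        _ = (((fr l h).filter (fun y => vert y ∈ U)).card : ℝ≥0∞) / n * A + n / n * (M * wb) := by
            rw [sum_add_distrib, ← sum_filter, sum_const, sum_const, nsmul_eq_mul, nsmul_eq_mul,
              ENNReal.add_div]
            simp only [div_eq_mul_inv]
            ring
        _ ≤ e * A + M * wb := by
            rw [ENNReal.div_self hn0 hnt, one_mul]
            gcongr
    rw [h0]
    refine (add_le_add hfirst hsecond).trans ?_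
    have hp : (1 : ℝ≥0∞) ≤ (M + 1) ^ a := one_le_pow₀ le_add_self
    have h1 : y0 ≤ wb := by
      calc y0 ≤ y0 + a * E := le_self_add
        _ ≤ wb := le_mul_of_one_le_left bot_le hp
    have h2 : e * A = M * ((M + 1) ^ a * E) := by
      rw [hA, hEdef]; ring
    have h3 : M * ((M + 1) ^ a * E) ≤ (M + 1) ^ (a + 1) * E := by
      calc M * ((M + 1) ^ a * E) ≤ (M + 1) * ((M + 1) ^ a * E) := by
            gcongr
            exact le_self_add
        _ = _ := by ring
    calc y0 + (e * A + M * wb) ≤ wb + ((M + 1) ^ (a + 1) * E + M * wb) := by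
          rw [h2]
          gcongr
      _ = (M + 1) ^ (a + 1) * (y0 + ((a + 1 : ℕ) : ℝ≥0∞) * E) := by
          rw [hwb]
          push_cast
          ring

end Pool.Agent.H949.DX
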