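import Pool.Agent.H949.DX.Walk
import Pool.Agent.H949.CM.Model

/-!
# Counting conditions imply the sampling environment

Definitions: `dom`, `fr`, `card_fr` in `CM/Match.lean`; `deg` in `CM/Far.lean` (the number of
half-edges of a vertex); `St`, `Env` in `DX/Walk.lean`; `ind`, etc. in `CM/Match.lean`.

Paper proof of `env_of_counts`. Let `M := Fintype.card H` (real), `Mf := (fr l h).card`. By
`card_fr` and `St`: `Mf ≥ M - 2 R - 1 ≥ (1 - e0) M > 0` (`hbig`), `Mf ≤ M`. The number of `y : H` with
`deg vert (vert y) = k + 1` is `(k+1) * #{v | deg v = k+1}` (`Finset.sum_fiberwise`,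
`∑ y : H, f (vert y) = ∑ v, deg v • f v`), and every `deg vert (vert y) ≥ 1`. The number of `y` with
`vert y ∈ U` is `∑ v ∈ U, deg v ≤ R e0 M`.
(ne) `Mf > 0`.
(hit) `#{y ∈ fr | vert y ∈ U} / Mf ≤ R e0 M / ((1 - e0) M) ≤ 2 R e0` as `e0 ≤ 1/4`.
(up) For `φ ≤ B`: the sum is at most `∑_{k+1<m'} φ k (k+1) #{deg = k+1}`, and
`(k+1) #{deg = k+1} / Mf ≤ (ρ{k} + e0) / (1 - e0) ≤ ρ{k} + 4 e0` (`1/(1-e0) ≤ 1 + 2 e0`, `e0 ≤ 1/4`), so
the left side is at most `∑_{k+1<m'} φ k ρ{k} + 4 m' e0 B = ∫⁻ k in {k+1<m'}, φ ∂ρ + 4 m' e0 B`.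
(lo) `∫⁻ k in {k+1<m'}, φ ∂ρ = ∑_{k+1<m'} φ k ρ {k} ≤ ∑_{k+1<m'} φ k (k+1) #{deg = k+1} / M + m' e0 B
= (∑_{y : H, deg (vert y) < m'} φ (deg (vert y) - 1)) / M + m' e0 B`, and removing the `y` which are not
in `fr l h` (at most `2 R + 1 ≤ e0 M`) or have `vert y ∈ U` (at most `R e0 M`) costs at most
`B (1 + R) e0`; finally `1 / M ≤ 1 / Mf`.
All errors are at most `(4 m + 2 R + 2) e0 B` since `m' ≤ m`.
(Sums against `ρ` restricted to the finite set `{k | k + 1 < m'}`: `lintegral_finset` or
`Measure.restrict` + `lintegral_countable'`/`MeasureTheory.lintegral_finset`; the set equals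
`Finset.range (m' - 1)`.)
-/

set_option linter.unusedSectionVars false

open MeasureTheory Finset
open scoped ENNReal

namespace Pool.Agent.H949.DX

open Pool.Agent.H949.CM Pool.Agent.H949.CX

variable {V H : Type} [Fintype V] [DecidableEq V] [Fintype H] [DecidableEq H]

theorem E4_pos (vert : H → V) (y : H) : 1 ≤ deg vert (vert y) := by
  unfold deg
  exact Finset.card_pos.2 ⟨y, by simp⟩

/-- Sums over half-edges by the degrees. -/
theorem E4_sum (vert : H → V) (m' : ℕ) (g : ℕ → ℝ≥0∞) :
    ∑ y ∈ univ.filter (fun y : H => deg vert (vert y) < m'), g (deg vert (vert y) - 1) =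
      ∑ k ∈ range (m' - 1),
        ((univ.filter (fun y : H => deg vert (vert y) = k + 1)).card : ℝ≥0∞) * g k := by
  have hmaps : ∀ y ∈ univ.filter (fun y : H => deg vert (vert y) < m'),
      deg vert (vert y) - 1 ∈ range (m' - 1) := by
    intro y hy
    have h1 := (mem_filter.1 hy).2
    have h2 := E4_pos vert y
    rw [mem_range]
    omega
  rw [← Finset.sum_fiberwise_of_maps_to hmaps]
  refine Finset.sum_congr rfl fun k hk => ?_
  have hk' := mem_range.1 hk
  have h3 : (univ.filter (fun y : H => deg vert (vert y) < m')).filter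
      (fun y => deg vert (vert y) - 1 = k) =
      univ.filter (fun y : H => deg vert (vert y) = k + 1) := by
    ext y
    have h2 := E4_pos vert y
    simp only [mem_filter, mem_univ, true_and]
    omega
  rw [h3, ← nsmul_eq_mul, ← Finset.sum_const]
  refine Finset.sum_congr rfl fun y hy => ?_
  have h1 := (mem_filter.1 hy).2
  rw [h1, Nat.add_sub_cancel]

/-- The number of half-edges at vertices of degree `k + 1`. -/
theorem E4_card (vert : H → V) (k : ℕ) :
    (univ.filter (fun y : H => deg vert (vert y) = k + 1)).card =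
      (k + 1) * (univ.filter (fun v => deg vert v = k + 1)).card := by
  rw [Finset.card_eq_sum_card_fiberwise (f := vert)
    (t := univ.filter (fun v => deg vert v = k + 1)) (by
      intro y hy
      simpa using hy)]
  rw [Finset.sum_congr rfl (g := fun _ => k + 1)]
  · rw [Finset.sum_const, smul_eq_mul, mul_comm]
  · intro v hv
    have hv' := (mem_filter.1 hv).2
    rw [← hv']
    unfold deg
    congr 1
    ext y
    simp only [mem_filter, mem_univ, true_and]
    constructor
    · exact fun h => h.2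
    · intro h
      exact ⟨by rw [h], h⟩

/-- The number of half-edges at the vertices of `U`. -/
theorem E4_cardU (vert : H → V) (U : Finset V) :
    (univ.filter (fun y : H => vert y ∈ U)).card = ∑ v ∈ U, deg vert v := by
  rw [Finset.card_eq_sum_card_fiberwise (f := vert) (t := U) (by
      intro y hy
      simpa using hy)]
  refine Finset.sum_congr rfl fun v hv => ?_
  unfold deg
  congr 1
  ext y
  simp only [mem_filter, mem_univ, true_and]
  constructor
  · exact fun h => h.2
  · intro h
    refine ⟨?_, h⟩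
    rw [h]
    exact hv

/-- The integral over a finite set of degrees. -/
theorem E4_int (ρ : Measure ℕ) (m' : ℕ) (φ : ℕ → ℝ≥0∞) :
    ∫⁻ k in {k : ℕ | k + 1 < m'}, φ k ∂ρ = ∑ k ∈ range (m' - 1), φ k * ρ {k} := by
  have h1 : {k : ℕ | k + 1 < m'} = ((range (m' - 1) : Finset ℕ) : Set ℕ) := by
    ext k
    simp only [Set.mem_ofPred_eq, coe_range, Set.mem_Iio]
    omega
  rw [h1, lintegral_finset]

theorem env_of_counts {vert : H → V} {ρ : Measure ℕ} [IsProbabilityMeasure ρ] {m R : ℕ}
    {e0 : ℝ} (he0 : 0 < e0) (he1 : e0 ≤ 1 / 4)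
    (hcnt : ∀ k : ℕ, k + 1 < m →
      |((k : ℝ) + 1) * ((univ.filter (fun v => deg vert v = k + 1)).card : ℝ) /
        (Fintype.card H : ℝ) - ρ.real {k}| ≤ e0)
    (hmax : ∀ v, (deg vert v : ℝ) ≤ e0 * (Fintype.card H : ℝ))
    (hbig : (2 * R + 1 : ℝ) ≤ e0 * (Fintype.card H : ℝ)) {m' : ℕ} (hm' : m' ≤ m) :
    Env vert ρ m' R (ENNReal.ofReal ((4 * m + 2 * R + 2) * e0)) := by
  classical
  set M : ℝ := (Fintype.card H : ℝ) with hM
  have hMpos : 0 < M := by
    have h1 : (0 : ℝ) < 2 * R + 1 := by positivity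
    nlinarith
  have hm'r : (m' : ℝ) ≤ m := by exact_mod_cast hm'
  have hρ1 : ∀ k, ρ.real {k} ≤ 1 := fun k => measureReal_le_one
  have hρ0 : ∀ k, 0 ≤ ρ.real {k} := fun k => measureReal_nonneg
  -- the free half-edges
  have hF : ∀ (l : List (H × H)) (U : Finset V) (h : H), St vert l U → U.card ≤ R → h ∉ dom l →
      (1 - e0) * M ≤ ((fr l h).card : ℝ) ∧ ((fr l h).card : ℝ) ≤ M ∧
        ((univ.filter (fun y : H => y ∉ fr l h)).card : ℝ) ≤ e0 * M := by
    intro l U h hSt hU hh
    have h1 := card_fr hh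
    have h2 : (dom l).card ≤ 2 * R := hSt.2.trans (by omega)
    have h3 : ((fr l h).card : ℝ) + (dom l).card + 1 = M := by
      rw [hM]
      exact_mod_cast h1
    have h4 : ((dom l).card : ℝ) ≤ 2 * R := by exact_mod_cast h2
    have h5 : (0 : ℝ) ≤ (dom l).card := Nat.cast_nonneg _
    have h6 : (univ.filter (fun y : H => y ∉ fr l h)).card = Fintype.card H - (fr l h).card := by
      have h7 : univ.filter (fun y : H => y ∉ fr l h) = (fr l h)ᶜ := by
        ext y
        simp
      rw [h7, card_compl]
    have h8 : ((univ.filter (fun y : H => y ∉ fr l h)).card : ℝ) = (dom l).card + 1 := by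
      have h9 : (univ.filter (fun y : H => y ∉ fr l h)).card = (dom l).card + 1 := by omega
      rw [h9]
      push_cast
      ring
    refine ⟨by linarith, by linarith, ?_⟩
    rw [h8]
    linarith
  have hFpos : ∀ (l : List (H × H)) (U : Finset V) (h : H), St vert l U → U.card ≤ R →
      h ∉ dom l → 0 < ((fr l h).card : ℝ) := by
    intro l U h h1 h2 h3
    have h4 := (hF l U h h1 h2 h3).1
    nlinarith
  -- the half-edges at `U`
  have hUc : ∀ U : Finset V, U.card ≤ R →
      ((univ.filter (fun y : H => vert y ∈ U)).card : ℝ) ≤ R * (e0 * M) := by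
    intro U hU
    rw [E4_cardU]
    push_cast
    calc ∑ v ∈ U, (deg vert v : ℝ) ≤ ∑ v ∈ U, e0 * M := Finset.sum_le_sum fun v _ => hmax v
      _ = U.card * (e0 * M) := by rw [Finset.sum_const, nsmul_eq_mul]
      _ ≤ R * (e0 * M) := by
        refine mul_le_mul_of_nonneg_right ?_ (by positivity)
        exact_mod_cast hU
  -- the degrees
  have hN : ∀ k, k + 1 < m' →
      |((univ.filter (fun y : H => deg vert (vert y) = k + 1)).card : ℝ) / M - ρ.real {k}| ≤ e0 := by
    intro k hk
    rw [E4_card]
    push_cast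
    exact hcnt k (by omega)
  have hle1 : ∀ {a : ℕ} {b : ℝ}, 0 < b → ((a : ℝ≥0∞) / ENNReal.ofReal b) =
      ENNReal.ofReal ((a : ℝ) / b) := by
    intro a b hb
    rw [ENNReal.ofReal_div_of_pos hb, ENNReal.ofReal_natCast]
  have hcast : ∀ a : ℕ, (a : ℝ≥0∞) = ENNReal.ofReal (a : ℝ) := fun a =>
    (ENNReal.ofReal_natCast a).symm
  have hρe : ∀ k, ρ {k} = ENNReal.ofReal (ρ.real {k}) := fun k => by
    rw [ofReal_measureReal]
  constructor
  · -- upper bound
    intro l U h hSt hU hh φ B hφ
    obtain ⟨f1, f2, f3⟩ := hF l U h hSt hU hh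
    have f0 := hFpos l U h hSt hU hh
    have hkey : ∀ k ∈ range (m' - 1),
        ((univ.filter (fun y : H => deg vert (vert y) = k + 1)).card : ℝ≥0∞) /
          ((fr l h).card : ℝ≥0∞) ≤ ρ {k} + ENNReal.ofReal (4 * e0) := by
      intro k hk
      have hk' := mem_range.1 hk
      have h1 := hN k (by omega)
      have h2 := (abs_le.1 h1).2
      rw [hcast (fr l h).card, hle1 f0, hρe, ← ENNReal.ofReal_add (hρ0 k) (by positivity)]
      refine ENNReal.ofReal_le_ofReal ?_
      rw [div_le_iff₀ f0]
      have h3 : ((univ.filter (fun y : H => deg vert (vert y) = k + 1)).card : ℝ) ≤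
          (ρ.real {k} + e0) * M := by
        rw [← div_le_iff₀ hMpos]
        linarith
      have h4 := hρ1 k
      have h5 := hρ0 k
      have h6 : (ρ.real {k} + e0) ≤ (ρ.real {k} + 4 * e0) * (1 - e0) := by nlinarith
      calc ((univ.filter (fun y : H => deg vert (vert y) = k + 1)).card : ℝ) ≤
          (ρ.real {k} + e0) * M := h3
        _ ≤ ((ρ.real {k} + 4 * e0) * (1 - e0)) * M := mul_le_mul_of_nonneg_right h6 hMpos.le
        _ = (ρ.real {k} + 4 * e0) * ((1 - e0) * M) := by ring
        _ ≤ (ρ.real {k} + 4 * e0) * ((fr l h).card : ℝ) :=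
          mul_le_mul_of_nonneg_left f1 (by positivity)
    calc (∑ y ∈ (fr l h).filter (fun y => vert y ∉ U ∧ deg vert (vert y) < m'),
          φ (deg vert (vert y) - 1)) / ((fr l h).card : ℝ≥0∞)
        ≤ (∑ y ∈ univ.filter (fun y : H => deg vert (vert y) < m'),
          φ (deg vert (vert y) - 1)) / ((fr l h).card : ℝ≥0∞) := by
          refine ENNReal.div_le_div_right (Finset.sum_le_sum_of_subset ?_) _
          intro y hy
          exact mem_filter.2 ⟨mem_univ _, (mem_filter.1 hy).2.2⟩
      _ = ∑ k ∈ range (m' - 1), φ k *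
          (((univ.filter (fun y : H => deg vert (vert y) = k + 1)).card : ℝ≥0∞) /
            ((fr l h).card : ℝ≥0∞)) := by
          rw [E4_sum, div_eq_mul_inv, Finset.sum_mul]
          refine Finset.sum_congr rfl fun k _ => ?_
          rw [div_eq_mul_inv]
          ring
      _ ≤ ∑ k ∈ range (m' - 1), (φ k * ρ {k} + B * ENNReal.ofReal (4 * e0)) := by
          refine Finset.sum_le_sum fun k hk => ?_
          calc φ k * (((univ.filter (fun y : H => deg vert (vert y) = k + 1)).card : ℝ≥0∞) /
              ((fr l h).card : ℝ≥0∞)) ≤ φ k * (ρ {k} + ENNReal.ofReal (4 * e0)) :=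
                mul_le_mul_right (hkey k hk) _
            _ = φ k * ρ {k} + φ k * ENNReal.ofReal (4 * e0) := mul_add _ _ _
            _ ≤ φ k * ρ {k} + B * ENNReal.ofReal (4 * e0) :=
                add_le_add le_rfl (mul_le_mul_left (hφ k) _)
      _ = ∫⁻ k in {k : ℕ | k + 1 < m'}, φ k ∂ρ + (m' - 1 : ℕ) * (B * ENNReal.ofReal (4 * e0)) := by
          rw [Finset.sum_add_distrib, E4_int, Finset.sum_const, card_range, nsmul_eq_mul]
      _ ≤ ∫⁻ k in {k : ℕ | k + 1 < m'}, φ k ∂ρ +
          ENNReal.ofReal ((4 * m + 2 * R + 2) * e0) * B := by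
          refine add_le_add le_rfl ?_
          have h7 : ((m' - 1 : ℕ) : ℝ≥0∞) * ENNReal.ofReal (4 * e0) ≤
              ENNReal.ofReal ((4 * m + 2 * R + 2) * e0) := by
            rw [hcast, ← ENNReal.ofReal_mul (Nat.cast_nonneg _)]
            refine ENNReal.ofReal_le_ofReal ?_
            have h8 : ((m' - 1 : ℕ) : ℝ) ≤ m := by
              have h9 : (m' - 1 : ℕ) ≤ m := by omega
              exact_mod_cast h9
            have h10 : (0 : ℝ) ≤ R := Nat.cast_nonneg _
            nlinarith
          calc ((m' - 1 : ℕ) : ℝ≥0∞) * (B * ENNReal.ofReal (4 * e0)) =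
              (((m' - 1 : ℕ) : ℝ≥0∞) * ENNReal.ofReal (4 * e0)) * B := by ring
            _ ≤ _ := mul_le_mul_left h7 _
  · -- lower bound
    intro l U h hSt hU hh φ B hφ
    obtain ⟨f1, f2, f3⟩ := hF l U h hSt hU hh
    have f0 := hFpos l U h hSt hU hh
    have hkey : ∀ k ∈ range (m' - 1), ρ {k} ≤
        ((univ.filter (fun y : H => deg vert (vert y) = k + 1)).card : ℝ≥0∞) /
          ENNReal.ofReal M + ENNReal.ofReal e0 := by
      intro k hk
      have hk' := mem_range.1 hk
      have h1 := hN k (by omega)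
      have h2 := (abs_le.1 h1).1
      rw [hle1 hMpos, hρe, ← ENNReal.ofReal_add (by positivity) he0.le]
      refine ENNReal.ofReal_le_ofReal ?_
      linarith
    have hsum : ∑ y ∈ univ.filter (fun y : H => deg vert (vert y) < m'),
        φ (deg vert (vert y) - 1) ≤
        ∑ y ∈ (fr l h).filter (fun y => vert y ∉ U ∧ deg vert (vert y) < m'),
          φ (deg vert (vert y) - 1) + ENNReal.ofReal ((1 + R) * (e0 * M)) * B := by
      have hsub : univ.filter (fun y : H => deg vert (vert y) < m') ⊆
          (fr l h).filter (fun y => vert y ∉ U ∧ deg vert (vert y) < m') ∪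
            (univ.filter (fun y : H => y ∉ fr l h) ∪ univ.filter (fun y : H => vert y ∈ U)) := by
        intro y hy
        have hy' := (mem_filter.1 hy).2
        simp only [mem_union, mem_filter, mem_univ, true_and]
        by_cases h1 : y ∈ fr l h
        · by_cases h2 : vert y ∈ U
          · exact Or.inr (Or.inr h2)
          · exact Or.inl ⟨h1, h2, hy'⟩
        · exact Or.inr (Or.inl h1)
      have hcard : (((univ.filter (fun y : H => y ∉ fr l h) ∪
          univ.filter (fun y : H => vert y ∈ U)).card : ℕ) : ℝ≥0∞) ≤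
          ENNReal.ofReal ((1 + R) * (e0 * M)) := by
        rw [hcast]
        refine ENNReal.ofReal_le_ofReal ?_
        have h1 := card_union_le (univ.filter (fun y : H => y ∉ fr l h))
          (univ.filter (fun y : H => vert y ∈ U))
        have h2 : ((univ.filter (fun y : H => y ∉ fr l h) ∪
          univ.filter (fun y : H => vert y ∈ U)).card : ℝ) ≤
          ((univ.filter (fun y : H => y ∉ fr l h)).card : ℝ) +
          ((univ.filter (fun y : H => vert y ∈ U)).card : ℝ) := by exact_mod_cast h1
        have h3 := hUc U hU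
        calc _ ≤ _ := h2
          _ ≤ e0 * M + R * (e0 * M) := add_le_add f3 h3
          _ = (1 + R) * (e0 * M) := by ring
      calc ∑ y ∈ univ.filter (fun y : H => deg vert (vert y) < m'), φ (deg vert (vert y) - 1)
          ≤ ∑ y ∈ (fr l h).filter (fun y => vert y ∉ U ∧ deg vert (vert y) < m') ∪
            (univ.filter (fun y : H => y ∉ fr l h) ∪ univ.filter (fun y : H => vert y ∈ U)),
            φ (deg vert (vert y) - 1) := Finset.sum_le_sum_of_subset hsub
        _ ≤ ∑ y ∈ (fr l h).filter (fun y => vert y ∉ U ∧ deg vert (vert y) < m'),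
            φ (deg vert (vert y) - 1) +
            ∑ y ∈ univ.filter (fun y : H => y ∉ fr l h) ∪ univ.filter (fun y : H => vert y ∈ U),
            φ (deg vert (vert y) - 1) := by
            rw [← Finset.sum_union_inter]
            exact le_self_add
        _ ≤ _ := by
            refine add_le_add le_rfl ?_
            calc ∑ y ∈ univ.filter (fun y : H => y ∉ fr l h) ∪
                univ.filter (fun y : H => vert y ∈ U), φ (deg vert (vert y) - 1)
                ≤ ∑ y ∈ univ.filter (fun y : H => y ∉ fr l h) ∪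
                univ.filter (fun y : H => vert y ∈ U), B := Finset.sum_le_sum fun y _ => hφ _
              _ = _ * B := by rw [Finset.sum_const, nsmul_eq_mul]
              _ ≤ _ := mul_le_mul_left hcard _
    calc ∫⁻ k in {k : ℕ | k + 1 < m'}, φ k ∂ρ = ∑ k ∈ range (m' - 1), φ k * ρ {k} :=
          E4_int ρ m' φ
      _ ≤ ∑ k ∈ range (m' - 1), (((univ.filter
          (fun y : H => deg vert (vert y) = k + 1)).card : ℝ≥0∞) * φ k / ENNReal.ofReal M +
            B * ENNReal.ofReal e0) := by
          refine Finset.sum_le_sum fun k hk => ?_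
          calc φ k * ρ {k} ≤ φ k * (((univ.filter
              (fun y : H => deg vert (vert y) = k + 1)).card : ℝ≥0∞) /
              ENNReal.ofReal M + ENNReal.ofReal e0) := mul_le_mul_right (hkey k hk) _
            _ = ((univ.filter (fun y : H => deg vert (vert y) = k + 1)).card : ℝ≥0∞) * φ k /
              ENNReal.ofReal M + φ k * ENNReal.ofReal e0 := by
                rw [div_eq_mul_inv, div_eq_mul_inv]
                ring
            _ ≤ _ := add_le_add le_rfl (mul_le_mul_left (hφ k) _)
      _ = (∑ y ∈ univ.filter (fun y : H => deg vert (vert y) < m'),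
          φ (deg vert (vert y) - 1)) / ENNReal.ofReal M +
          (m' - 1 : ℕ) * (B * ENNReal.ofReal e0) := by
          rw [E4_sum, Finset.sum_add_distrib, Finset.sum_const, card_range, nsmul_eq_mul,
            div_eq_mul_inv, Finset.sum_mul]
          rfl
      _ ≤ (∑ y ∈ (fr l h).filter (fun y => vert y ∉ U ∧ deg vert (vert y) < m'),
          φ (deg vert (vert y) - 1) + ENNReal.ofReal ((1 + R) * (e0 * M)) * B) /
          ENNReal.ofReal M + (m' - 1 : ℕ) * (B * ENNReal.ofReal e0) :=
          add_le_add (ENNReal.div_le_div_right hsum _) le_rfl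
      _ = (∑ y ∈ (fr l h).filter (fun y => vert y ∉ U ∧ deg vert (vert y) < m'),
          φ (deg vert (vert y) - 1)) / ENNReal.ofReal M +
          (ENNReal.ofReal ((1 + R) * e0) * B + (m' - 1 : ℕ) * (B * ENNReal.ofReal e0)) := by
          rw [ENNReal.add_div, add_assoc]
          congr 2
          rw [show (1 + (R : ℝ)) * (e0 * M) = ((1 + R) * e0) * M by ring,
            ENNReal.ofReal_mul (by positivity), mul_right_comm]
          exact ENNReal.mul_div_cancel_right (by simpa using hMpos) ENNReal.ofReal_ne_top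
      _ ≤ (∑ y ∈ (fr l h).filter (fun y => vert y ∉ U ∧ deg vert (vert y) < m'),
          φ (deg vert (vert y) - 1)) / ((fr l h).card : ℝ≥0∞) +
          ENNReal.ofReal ((4 * m + 2 * R + 2) * e0) * B := by
          refine add_le_add (ENNReal.div_le_div_left ?_ _) ?_
          · rw [hcast]
            exact ENNReal.ofReal_le_ofReal f2
          · have h7 : ENNReal.ofReal ((1 + R) * e0) + ((m' - 1 : ℕ) : ℝ≥0∞) * ENNReal.ofReal e0 ≤
                ENNReal.ofReal ((4 * m + 2 * R + 2) * e0) := by
              rw [hcast, ← ENNReal.ofReal_mul (Nat.cast_nonneg _),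
                ← ENNReal.ofReal_add (by positivity) (by positivity)]
              refine ENNReal.ofReal_le_ofReal ?_
              have h8 : ((m' - 1 : ℕ) : ℝ) ≤ m := by
                have h9 : (m' - 1 : ℕ) ≤ m := by omega
                exact_mod_cast h9
              have h10 : (0 : ℝ) ≤ R := Nat.cast_nonneg _
              have h11 : (0 : ℝ) ≤ m := Nat.cast_nonneg _
              nlinarith
            calc ENNReal.ofReal ((1 + R) * e0) * B + ((m' - 1 : ℕ) : ℝ≥0∞) *
                (B * ENNReal.ofReal e0) = (ENNReal.ofReal ((1 + R) * e0) +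
                  ((m' - 1 : ℕ) : ℝ≥0∞) * ENNReal.ofReal e0) * B := by ring
              _ ≤ _ := mul_le_mul_left h7 _
  · -- hitting the revealed vertices
    intro l U h hSt hU hh
    obtain ⟨f1, f2, f3⟩ := hF l U h hSt hU hh
    have f0 := hFpos l U h hSt hU hh
    rw [hcast (fr l h).card, hle1 f0]
    refine ENNReal.ofReal_le_ofReal ?_
    rw [div_le_iff₀ f0]
    have h1 : (((fr l h).filter (fun y => vert y ∈ U)).card : ℝ) ≤ R * (e0 * M) := by
      refine le_trans ?_ (hUc U hU)
      exact_mod_cast card_le_card (filter_subset_filter _ (subset_univ _))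
    have h10 : (0 : ℝ) ≤ R := Nat.cast_nonneg _
    have h11 : (0 : ℝ) ≤ m := Nat.cast_nonneg _
    have h12 : (R : ℝ) * e0 ≤ ((4 * m + 2 * R + 2) * e0) * (1 - e0) := by
      have h13 : (R : ℝ) ≤ (4 * m + 2 * R + 2) * (1 - e0) := by nlinarith
      nlinarith
    calc (((fr l h).filter (fun y => vert y ∈ U)).card : ℝ) ≤ (R * e0) * M := by linarith
      _ ≤ (((4 * m + 2 * R + 2) * e0) * (1 - e0)) * M := mul_le_mul_of_nonneg_right h12 hMpos.le
      _ = ((4 * m + 2 * R + 2) * e0) * ((1 - e0) * M) := by ring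
      _ ≤ _ := mul_le_mul_of_nonneg_left f1 (by positivity)
  · intro l U h hSt hU hh
    have f0 := hFpos l U h hSt hU hh
    rw [← card_pos]
    exact_mod_cast f0

end Pool.Agent.H949.DX
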