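import Pool.Agent.H949.DX.Walk
import Pool.Agent.H949.CM.Model

/-!
# Independent degrees: the degree counts are near their means

Definitions: `fixParity`, `le_fixParity`, `fixParity_le` in `CM/Model.lean`.

Paper proof of `cnt_whp`. Let `N = n + 1`, `E = ∫ j, j ∂μD ≥ 2`, `S = ∑ v, d v`.
(1) LLN for `D`: for every `ε > 0`, `P(|S / N - E| > ε) → 0`. And LLN for the indicators: for every
`k`, `P(|#{v | d v = k} / N - μD.real {k}| > ε) → 0`. (Either Mathlib's strong law
`ProbabilityTheory.strong_law_ae_real` for the coordinates of `Measure.infinitePi (fun _ : ℕ => μD)`,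
which gives almost sure convergence, hence convergence in probability
(`tendstoInMeasure_of_tendsto_ae`), transferred to `Measure.pi` over `Fin (n+1)`
(`Measure.infinitePi_eq_pi`, `Measure.map_infinitePi_infinitePi_of_inj` with the injection
`Fin.val : Fin (n+1) → ℕ`); or truncation at `N` and Chebyshev.)
(2) `P(∃ v, d v > ε N) ≤ N μD {k | ε N < k} → 0`: `N μD.real {k | ε N < k} ≤ (1/ε) ∫ k 1{k > ε N} ∂μD
→ 0` by dominated convergence.
(3) On the complement of these events (with small `ε`, for all `k < m`) let `d' = fixParity d`, and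
`S' = ∑ v, d' v ∈ {S, S + 1}`; every count `#{v | d' v = k}` differs from `#{v | d v = k}` by at most
`1`. As `S' ≥ N` (`D ≥ 2`), `(k+1) #{d' = k+1} / S'` is within a constant (depending on `m`, `E`) times
`ε + 1/N` of `(k+1) μD.real {k+1} / E = ρ.real {k}`; so it is within `e0` for small `ε` and large `N`.
`d' v ≤ d v + 1 ≤ ε N + 1 ≤ e0 S'`. `S' ≤ S + 1 ≤ (E + ε) N + 1 ≤ (E + 1) N`.
The conclusion `2 N ≤ S'` holds whenever all `d v ≥ 2`, which is almost sure (`hD2`).
-/

set_option linter.unusedSectionVars false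

open MeasureTheory Finset Filter Topology
open scoped ENNReal

namespace Pool.Agent.H949.DX

open Pool.Agent.H949.CM

/-- The degree counts are near their means. -/
structure Cnt (ρ : Measure ℕ) (m : ℕ) (e0 K1 : ℝ) {n : ℕ} (d : Fin (n + 1) → ℕ) : Prop where
  two : ∀ v, 2 ≤ d v
  cnt : ∀ k : ℕ, k + 1 < m →
    |((k : ℝ) + 1) * ((univ.filter (fun v => d v = k + 1)).card : ℝ) / (∑ v, (d v : ℝ)) -
      ρ.real {k}| ≤ e0
  max : ∀ v, (d v : ℝ) ≤ e0 * ∑ v, (d v : ℝ)
  sum : ∑ v, (d v : ℝ) ≤ K1 * ((n : ℝ) + 1)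

/-- Strong law of large numbers for a function of the coordinates. -/
theorem slln (μD : Measure ℕ) [IsProbabilityMeasure μD] (f : ℕ → ℝ) (hf : Integrable f μD) :
    ∀ᵐ ω ∂(Measure.infinitePi fun _ : ℕ => μD),
      Tendsto (fun n : ℕ => (∑ i ∈ range n, f (ω i)) / n) atTop (𝓝 (∫ k, f k ∂μD)) := by
  have hmp : ∀ i : ℕ, MeasurePreserving (Function.eval i)
      (Measure.infinitePi fun _ : ℕ => μD) μD :=
    fun i => measurePreserving_eval_infinitePi (fun _ : ℕ => μD) i
  have hfm : Measurable f := measurable_from_top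
  have h := ProbabilityTheory.strong_law_ae_real (μ := Measure.infinitePi fun _ : ℕ => μD)
    (fun i ω => f (ω i)) ((hmp 0).integrable_comp_of_integrable hf) (by
      intro i j hij
      have h1 := ProbabilityTheory.iIndepFun_infinitePi (P := fun _ : ℕ => μD)
        (X := fun _ : ℕ => f) (fun _ => hfm)
      exact h1.indepFun hij) (by
      intro i
      have h1 : ProbabilityTheory.IdentDistrib (Function.eval i : (ℕ → ℕ) → ℕ) (Function.eval 0)
          (Measure.infinitePi fun _ : ℕ => μD) (Measure.infinitePi fun _ : ℕ => μD) :=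
        ⟨(hmp i).measurable.aemeasurable, (hmp 0).measurable.aemeasurable, by
          rw [(hmp i).map_eq, (hmp 0).map_eq]⟩
      exact h1.comp hfm)
  have e : ∫ ω, f (ω 0) ∂(Measure.infinitePi fun _ : ℕ => μD) = ∫ k, f k ∂μD := by
    conv_rhs => rw [← (hmp 0).map_eq]
    rw [integral_map (hmp 0).measurable.aemeasurable hfm.aestronglyMeasurable]
  rw [e] at h
  exact h

/-- The last term is small against the sum. -/
theorem term_div {x : ℕ → ℕ} {E : ℝ}
    (h : Tendsto (fun n : ℕ => (∑ i ∈ range n, (x i : ℝ)) / n) atTop (𝓝 E)) :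
    Tendsto (fun n : ℕ => (x n : ℝ) / ((n : ℝ) + 1)) atTop (𝓝 0) := by
  have h1 : Tendsto (fun n : ℕ => (∑ i ∈ range (n + 1), (x i : ℝ)) / ((n : ℝ) + 1)) atTop
      (𝓝 E) := by
    have := h.comp (tendsto_add_atTop_nat 1)
    refine this.congr fun n => ?_
    simp only [Function.comp_apply, Nat.cast_add, Nat.cast_one]
  have h2 : Tendsto (fun n : ℕ => (∑ i ∈ range n, (x i : ℝ)) / n * ((n : ℝ) / ((n : ℝ) + 1)))
      atTop (𝓝 (E * 1)) := h.mul (tendsto_natCast_div_add_atTop (1 : ℝ))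
  have h3 := h1.sub h2
  rw [mul_one, sub_self] at h3
  refine h3.congr' ?_
  filter_upwards [eventually_gt_atTop 0] with n hn
  have hn' : (n : ℝ) ≠ 0 := by exact_mod_cast hn.ne'
  have hn2 : (n : ℝ) + 1 ≠ 0 := by positivity
  rw [sum_range_succ]
  field_simp
  ring

/-- All terms are small against the length. -/
theorem max_small {x : ℕ → ℕ}
    (h : Tendsto (fun n : ℕ => (x n : ℝ) / ((n : ℝ) + 1)) atTop (𝓝 0)) {ε : ℝ} (hε : 0 < ε) :
    ∀ᶠ n : ℕ in atTop, ∀ v ≤ n, (x v : ℝ) + 1 ≤ ε * ((n : ℝ) + 1) := by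
  have h1 : Tendsto (fun n : ℕ => (x n : ℝ) / ((n : ℝ) + 1) + 1 / ((n : ℝ) + 1)) atTop
      (𝓝 (0 + 0)) := h.add tendsto_one_div_add_atTop_nhds_zero_nat
  rw [add_zero] at h1
  obtain ⟨M, hM⟩ := eventually_atTop.1 (h1.eventually (gt_mem_nhds hε))
  have h2 : Tendsto (fun n : ℕ => (1 / ((n : ℝ) + 1)) * ∑ i ∈ range M, ((x i : ℝ) + 1)) atTop
      (𝓝 (0 * ∑ i ∈ range M, ((x i : ℝ) + 1))) :=
    tendsto_one_div_add_atTop_nhds_zero_nat.mul_const _
  rw [zero_mul] at h2
  filter_upwards [h2.eventually (gt_mem_nhds hε)] with n hn v hv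
  have hn0 : (0 : ℝ) < (n : ℝ) + 1 := by positivity
  rcases lt_or_ge v M with hvM | hvM
  · have h3 : (x v : ℝ) + 1 ≤ ∑ i ∈ range M, ((x i : ℝ) + 1) :=
      single_le_sum (f := fun i => (x i : ℝ) + 1) (fun i _ => by positivity) (mem_range.2 hvM)
    rw [div_mul_eq_mul_div, one_mul, div_lt_iff₀ hn0] at hn
    linarith
  · have h3 := hM v hvM
    have hv0 : (0 : ℝ) < (v : ℝ) + 1 := by positivity
    rw [← add_div, div_lt_iff₀ hv0] at h3
    have h4 : (v : ℝ) + 1 ≤ (n : ℝ) + 1 := by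
      have : (v : ℝ) ≤ n := by exact_mod_cast hv
      linarith
    have h5 : ε * ((v : ℝ) + 1) ≤ ε * ((n : ℝ) + 1) := mul_le_mul_of_nonneg_left h4 hε.le
    linarith

theorem fixParity_ne {n : ℕ} (d : Fin (n + 1) → ℕ) {v : Fin (n + 1)} (hv : v ≠ Fin.last n) :
    fixParity d v = d v := by
  unfold fixParity
  split_ifs
  · rfl
  · rw [Function.update_of_ne hv]

theorem card_fix_le {n : ℕ} (d : Fin (n + 1) → ℕ) (k : ℕ) :
    (univ.filter (fun v => fixParity d v = k)).card ≤ (univ.filter (fun v => d v = k)).card + 1 := by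
  refine (card_le_card ?_).trans (card_insert_le (Fin.last n) (univ.filter (fun v => d v = k)))
  intro v hv
  rw [mem_filter] at hv
  by_cases h : v = Fin.last n
  · rw [h]; exact mem_insert_self _ _
  · rw [fixParity_ne d h] at hv
    exact mem_insert_of_mem (mem_filter.2 ⟨mem_univ _, hv.2⟩)

theorem le_card_fix {n : ℕ} (d : Fin (n + 1) → ℕ) (k : ℕ) :
    (univ.filter (fun v => d v = k)).card ≤ (univ.filter (fun v => fixParity d v = k)).card + 1 := by
  refine (card_le_card ?_).trans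
    (card_insert_le (Fin.last n) (univ.filter (fun v => fixParity d v = k)))
  intro v hv
  rw [mem_filter] at hv
  by_cases h : v = Fin.last n
  · rw [h]; exact mem_insert_self _ _
  · refine mem_insert_of_mem (mem_filter.2 ⟨mem_univ _, ?_⟩)
    rw [fixParity_ne d h]
    exact hv.2

theorem sum_fix_le {n : ℕ} (d : Fin (n + 1) → ℕ) :
    ∑ v, (fixParity d v : ℝ) ≤ ∑ v, (d v : ℝ) + 1 := by
  have h1 : ∀ v, (fixParity d v : ℝ) ≤ (d v : ℝ) + if v = Fin.last n then (1 : ℝ) else 0 := by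
    intro v
    by_cases h : v = Fin.last n
    · rw [if_pos h]
      exact_mod_cast fixParity_le d v
    · rw [if_neg h, fixParity_ne d h, add_zero]
  refine (sum_le_sum fun v _ => h1 v).trans ?_
  rw [sum_add_distrib, sum_ite_eq' univ (Fin.last n), if_pos (mem_univ _)]

theorem le_sum_fix {n : ℕ} (d : Fin (n + 1) → ℕ) :
    ∑ v, (d v : ℝ) ≤ ∑ v, (fixParity d v : ℝ) :=
  sum_le_sum fun v _ => by exact_mod_cast le_fixParity d v

/-- The deterministic part. -/
theorem cnt_of_tendsto {x : ℕ → ℕ} {E : ℝ} (hE : 0 < E) {p : ℕ → ℝ} (hx2 : ∀ i, 2 ≤ x i)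
    (hS : Tendsto (fun n : ℕ => (∑ i ∈ range n, (x i : ℝ)) / n) atTop (𝓝 E))
    (hC : ∀ k : ℕ, Tendsto (fun n : ℕ => (∑ i ∈ range n, (if x i = k then (1 : ℝ) else 0)) / n)
      atTop (𝓝 (p k)))
    (ρ : Measure ℕ) (hρ : ∀ k : ℕ, ρ.real {k} = ((k : ℝ) + 1) * p (k + 1) / E)
    (m : ℕ) {e0 : ℝ} (he0 : 0 < e0) :
    ∀ᶠ n : ℕ in atTop, Cnt ρ m e0 (E + 1) (fixParity (fun i : Fin (n + 1) => x i)) := by
  have hone : Tendsto (fun n : ℕ => 1 / ((n : ℝ) + 1)) atTop (𝓝 0) :=
    tendsto_one_div_add_atTop_nhds_zero_nat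
  -- the sum
  have hS1 : Tendsto (fun n : ℕ => (∑ v : Fin (n + 1), (x v : ℝ)) / ((n : ℝ) + 1)) atTop
      (𝓝 E) := by
    have := hS.comp (tendsto_add_atTop_nat 1)
    refine this.congr fun n => ?_
    simp only [Function.comp_apply, Nat.cast_add, Nat.cast_one]
    rw [Fin.sum_univ_eq_sum_range (fun i => (x i : ℝ)) (n + 1)]
  have hS2 : Tendsto (fun n : ℕ => (∑ v : Fin (n + 1),
      (fixParity (fun i : Fin (n + 1) => x i) v : ℝ)) / ((n : ℝ) + 1)) atTop (𝓝 E) := by
    have hup := hS1.add hone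
    rw [add_zero] at hup
    refine tendsto_of_tendsto_of_tendsto_of_le_of_le hS1 hup (fun n => ?_) (fun n => ?_)
    · have hn0 : (0 : ℝ) < (n : ℝ) + 1 := by positivity
      exact div_le_div_of_nonneg_right (le_sum_fix _) hn0.le
    · have hn0 : (0 : ℝ) < (n : ℝ) + 1 := by positivity
      show _ ≤ (∑ v : Fin (n + 1), (x v : ℝ)) / ((n : ℝ) + 1) + 1 / ((n : ℝ) + 1)
      rw [← add_div]
      exact div_le_div_of_nonneg_right (sum_fix_le _) hn0.le
  -- the counts
  have hC1 : ∀ k : ℕ, Tendsto (fun n : ℕ =>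
      ((univ.filter (fun v : Fin (n + 1) => x v = k)).card : ℝ) / ((n : ℝ) + 1)) atTop
      (𝓝 (p k)) := by
    intro k
    have := (hC k).comp (tendsto_add_atTop_nat 1)
    refine this.congr fun n => ?_
    simp only [Function.comp_apply, Nat.cast_add, Nat.cast_one]
    rw [card_filter, Nat.cast_sum,
      ← Fin.sum_univ_eq_sum_range (fun i => if x i = k then (1 : ℝ) else 0) (n + 1)]
    congr 1
    refine sum_congr rfl fun v _ => ?_
    split_ifs <;> simp
  have hC2 : ∀ k : ℕ, Tendsto (fun n : ℕ =>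
      ((univ.filter (fun v : Fin (n + 1) =>
        fixParity (fun i : Fin (n + 1) => x i) v = k)).card : ℝ) / ((n : ℝ) + 1)) atTop
      (𝓝 (p k)) := by
    intro k
    have hup := (hC1 k).add hone
    have hlo := (hC1 k).sub hone
    rw [add_zero] at hup
    rw [sub_zero] at hlo
    refine tendsto_of_tendsto_of_tendsto_of_le_of_le hlo hup (fun n => ?_) (fun n => ?_)
    · have hn0 : (0 : ℝ) < (n : ℝ) + 1 := by positivity
      show ((univ.filter (fun v : Fin (n + 1) => x v = k)).card : ℝ) / ((n : ℝ) + 1) -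
        1 / ((n : ℝ) + 1) ≤ _
      rw [← sub_div]
      refine div_le_div_of_nonneg_right ?_ hn0.le
      rw [sub_le_iff_le_add]
      exact_mod_cast le_card_fix (fun i : Fin (n + 1) => x i) k
    · have hn0 : (0 : ℝ) < (n : ℝ) + 1 := by positivity
      show _ ≤ ((univ.filter (fun v : Fin (n + 1) => x v = k)).card : ℝ) / ((n : ℝ) + 1) +
        1 / ((n : ℝ) + 1)
      rw [← add_div]
      refine div_le_div_of_nonneg_right ?_ hn0.le
      exact_mod_cast card_fix_le (fun i : Fin (n + 1) => x i) k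
  have hC3 : ∀ k : ℕ, ∀ᶠ n : ℕ in atTop,
      |((k : ℝ) + 1) * ((univ.filter (fun v : Fin (n + 1) =>
        fixParity (fun i : Fin (n + 1) => x i) v = k + 1)).card : ℝ) /
        (∑ v : Fin (n + 1), (fixParity (fun i : Fin (n + 1) => x i) v : ℝ)) - ρ.real {k}| ≤ e0 := by
    intro k
    have h1 := ((hC2 (k + 1)).const_mul ((k : ℝ) + 1)).div hS2 hE.ne'
    rw [← hρ k] at h1
    have h2 : Tendsto (fun n : ℕ => ((k : ℝ) + 1) * ((univ.filter (fun v : Fin (n + 1) =>
        fixParity (fun i : Fin (n + 1) => x i) v = k + 1)).card : ℝ) /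
        (∑ v : Fin (n + 1), (fixParity (fun i : Fin (n + 1) => x i) v : ℝ))) atTop
        (𝓝 (ρ.real {k})) := by
      refine h1.congr fun n => ?_
      have hn0 : ((n : ℝ) + 1) ≠ 0 := by positivity
      rw [Pi.div_apply, ← mul_div_assoc, div_div_div_cancel_right₀ hn0]
    have h3 := (h2.sub_const (ρ.real {k})).abs
    rw [sub_self, abs_zero] at h3
    exact (h3.eventually (gt_mem_nhds he0)).mono fun n hn => hn.le
  have hC4 : ∀ᶠ n : ℕ in atTop, ∀ k ∈ range m,
      |((k : ℝ) + 1) * ((univ.filter (fun v : Fin (n + 1) =>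
        fixParity (fun i : Fin (n + 1) => x i) v = k + 1)).card : ℝ) /
        (∑ v : Fin (n + 1), (fixParity (fun i : Fin (n + 1) => x i) v : ℝ)) - ρ.real {k}| ≤ e0 :=
    (eventually_all_finset _).2 fun k _ => hC3 k
  filter_upwards [hC4, max_small (term_div hS) he0,
    hS2.eventually (gt_mem_nhds (show E < E + 1 by linarith))] with n h1 h2 h3
  have hn0 : (0 : ℝ) < (n : ℝ) + 1 := by positivity
  have hsum : ((n : ℝ) + 1) ≤
      ∑ v : Fin (n + 1), (fixParity (fun i : Fin (n + 1) => x i) v : ℝ) := by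
    have h5 : ∀ v : Fin (n + 1), (1 : ℝ) ≤ (fixParity (fun i : Fin (n + 1) => x i) v : ℝ) := by
      intro v
      have h6 := le_fixParity (fun i : Fin (n + 1) => x i) v
      have h7 := hx2 v
      have h8 : 1 ≤ fixParity (fun i : Fin (n + 1) => x i) v := by
        have h9 : x v ≤ fixParity (fun i : Fin (n + 1) => x i) v := h6
        omega
      exact_mod_cast h8
    have h6 := sum_le_sum (s := (univ : Finset (Fin (n + 1)))) fun v _ => h5 v
    simpa using h6
  refine ⟨?_, ?_, ?_, ?_⟩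
  · intro v
    exact (hx2 v).trans (le_fixParity (fun i : Fin (n + 1) => x i) v)
  · intro k hk
    exact h1 k (mem_range.2 (by omega))
  · intro v
    have h4 := h2 v (Nat.lt_succ_iff.1 v.2)
    have h5 : (fixParity (fun i : Fin (n + 1) => x i) v : ℝ) ≤ (x v : ℝ) + 1 := by
      exact_mod_cast fixParity_le (fun i : Fin (n + 1) => x i) v
    have h6 : e0 * ((n : ℝ) + 1) ≤
        e0 * ∑ v : Fin (n + 1), (fixParity (fun i : Fin (n + 1) => x i) v : ℝ) :=
      mul_le_mul_of_nonneg_left hsum he0.le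
    linarith
  · rw [div_lt_iff₀ hn0] at h3
    exact h3.le

theorem cnt_whp (μD : Measure ℕ) [IsProbabilityMeasure μD]
    (hint : Integrable (fun k : ℕ => (k : ℝ)) μD) (hD2 : μD {k | k < 2} = 0)
    (ρ : Measure ℕ) [IsProbabilityMeasure ρ]
    (hρ : ∀ k : ℕ, ρ {k} = ENNReal.ofReal (((k : ℝ) + 1) * μD.real {k + 1} / ∫ j, (j : ℝ) ∂μD))
    (m : ℕ) {e0 : ℝ} (he0 : 0 < e0) :
    Tendsto (fun n : ℕ => (Measure.pi fun _ : Fin (n + 1) => μD)
      {d | ¬ Cnt ρ m e0 ((∫ j, (j : ℝ) ∂μD) + 1) (fixParity d)}) atTop (𝓝 0) := by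
  have hE2 : (2 : ℝ) ≤ ∫ j, (j : ℝ) ∂μD := by
    have hae : ∀ᵐ k : ℕ ∂μD, (2 : ℝ) ≤ (k : ℝ) := by
      rw [ae_iff]
      refine measure_mono_null ?_ hD2
      intro k hk
      have hk' : ¬ (2 : ℝ) ≤ (k : ℝ) := hk
      show k < 2
      by_contra h
      exact hk' (by exact_mod_cast Nat.not_lt.1 h)
    have h1 := integral_mono_ae (integrable_const (2 : ℝ)) hint hae
    simpa using h1
  have hE : (0 : ℝ) < ∫ j, (j : ℝ) ∂μD := by linarith
  have hmp : ∀ i : ℕ, MeasurePreserving (Function.eval i)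
      (Measure.infinitePi fun _ : ℕ => μD) μD :=
    fun i => measurePreserving_eval_infinitePi (fun _ : ℕ => μD) i
  have hge : ∀ᵐ ω ∂(Measure.infinitePi fun _ : ℕ => μD), ∀ i, 2 ≤ ω i := by
    rw [ae_all_iff]
    intro i
    have h1 : ∀ᵐ k : ℕ ∂μD, 2 ≤ k := by
      rw [ae_iff]
      refine measure_mono_null ?_ hD2
      intro k hk
      have hk' : ¬ 2 ≤ k := hk
      show k < 2
      omega
    exact (hmp i).quasiMeasurePreserving.ae h1
  have hcnt : ∀ᵐ ω ∂(Measure.infinitePi fun _ : ℕ => μD), ∀ k : ℕ,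
      Tendsto (fun n : ℕ => (∑ i ∈ range n, (if ω i = k then (1 : ℝ) else 0)) / n) atTop
        (𝓝 (μD.real {k})) := by
    rw [ae_all_iff]
    intro k
    have hi : Integrable (fun j : ℕ => if j = k then (1 : ℝ) else 0) μD := by
      refine Integrable.of_bound (C := 1) measurable_from_top.aestronglyMeasurable ?_
      refine Eventually.of_forall fun j => ?_
      split_ifs <;> simp
    have h1 := slln μD (fun j => if j = k then (1 : ℝ) else 0) hi
    have h2 : ∫ j, (if j = k then (1 : ℝ) else 0) ∂μD = μD.real {k} := by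
      have h3 : ∫ j, (({k} : Set ℕ).indicator (1 : ℕ → ℝ)) j ∂μD = μD.real {k} :=
        integral_indicator_one (MeasurableSet.singleton k)
      rw [← h3]
      congr 1
      funext j
      by_cases h : j = k
      · rw [if_pos h, Set.indicator_of_mem (show j ∈ ({k} : Set ℕ) from h)]
        rfl
      · rw [if_neg h, Set.indicator_of_notMem (show j ∉ ({k} : Set ℕ) from h)]
    rw [h2] at h1
    exact h1
  have hρ' : ∀ k : ℕ, ρ.real {k} = ((k : ℝ) + 1) * μD.real {k + 1} / ∫ j, (j : ℝ) ∂μD := by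
    intro k
    rw [Measure.real, hρ k, ENNReal.toReal_ofReal]
    positivity
  have hev : ∀ᵐ ω ∂(Measure.infinitePi fun _ : ℕ => μD), ∀ᶠ n : ℕ in atTop,
      Cnt ρ m e0 ((∫ j, (j : ℝ) ∂μD) + 1) (fixParity (fun i : Fin (n + 1) => ω i)) := by
    filter_upwards [hge, hcnt, slln μD _ hint] with ω h1 h2 h3
    exact cnt_of_tendsto hE (p := fun k => μD.real {k}) h1 h3 h2 ρ hρ' m he0
  have hmap : ∀ n : ℕ, (Measure.pi fun _ : Fin (n + 1) => μD) =
      (Measure.infinitePi fun _ : ℕ => μD).map (fun ω (i : Fin (n + 1)) => ω (i : ℕ)) := by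
    intro n
    rw [Measure.map_infinitePi_infinitePi_of_inj (P := fun _ : ℕ => μD)
      (f := (Fin.val : Fin (n + 1) → ℕ)) Fin.val_injective]
    exact (Measure.infinitePi_eq_pi _).symm
  have hmeas : ∀ n : ℕ, Measurable (fun (ω : ℕ → ℕ) (i : Fin (n + 1)) => ω (i : ℕ)) :=
    fun n => measurable_pi_lambda _ fun i => measurable_pi_apply _
  have hset : ∀ n : ℕ, (Measure.pi fun _ : Fin (n + 1) => μD)
      {d | ¬ Cnt ρ m e0 ((∫ j, (j : ℝ) ∂μD) + 1) (fixParity d)} =
      (Measure.infinitePi fun _ : ℕ => μD) ((fun (ω : ℕ → ℕ) (i : Fin (n + 1)) => ω (i : ℕ)) ⁻¹'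
        {d | ¬ Cnt ρ m e0 ((∫ j, (j : ℝ) ∂μD) + 1) (fixParity d)}) := by
    intro n
    rw [hmap n, Measure.map_apply (hmeas n) (Set.to_countable _).measurableSet]
  simp_rw [hset]
  have hlim := tendsto_measure_of_ae_tendsto_indicator_of_isFiniteMeasure atTop
    (μ := Measure.infinitePi fun _ : ℕ => μD) (A := ∅)
    (As := fun n : ℕ => (fun (ω : ℕ → ℕ) (i : Fin (n + 1)) => ω (i : ℕ)) ⁻¹'
        {d | ¬ Cnt ρ m e0 ((∫ j, (j : ℝ) ∂μD) + 1) (fixParity d)})
    MeasurableSet.empty (fun n => hmeas n (Set.to_countable _).measurableSet) (by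
      filter_upwards [hev] with ω hω
      filter_upwards [hω] with n hn
      constructor
      · intro h
        exact absurd hn h
      · intro h
        exact absurd h (Set.notMem_empty _))
  rw [measure_empty] at hlim
  exact hlim

end Pool.Agent.H949.DX
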