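import Pool.Agent.H949.DX.D5
import Pool.Agent.H949.DX.E2
import Pool.Agent.H949.DX.E3
import Pool.Agent.H949.DX.C1
import Pool.Agent.H949.DX.C2

/-!
# The estimate for a given pair of sources
-/

set_option linter.unusedSectionVars false
set_option linter.unusedVariables false

open MeasureTheory Finset
open scoped ENNReal

namespace Pool.Agent.H949.DX

open Pool.Agent.H949.CM Pool.Agent.H949.CX

variable {V H : Type} [Fintype V] [DecidableEq V] [Fintype H] [DecidableEq H]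

/-- Some outcome has too many blue or too few red vertices, although the sources are far apart. -/
def BadP (vert : H → V) (a b : V) (Kc J L m : ℕ) (σ : Mt H) (ω : Wt H) : Prop :=
  (∃ (t : V → ℝ≥0∞) (col : V → Option Bool), Causal vert σ (len ω) a b t col ∧
    ¬ ((univ.filter (fun v => col v = some false)).card ≤ Kc ∧
      J + 1 ≤ (univ.filter (fun v => col v = some true)).card)) ∧
    ∀ k ≤ L, ¬ LW vert m σ k b a

theorem EE_nil {κ : Measure (ℝ × ℝ)} [IsProbabilityMeasure κ] (τ : Wt H)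
    (F : Mt H → Wt H → ℝ≥0∞) :
    EE κ [] τ F = (∑ σ : Mt H, ∫⁻ ω, F σ ω ∂(lawW H κ)) / Fintype.card (Mt H) := by
  unfold EE
  rw [Al_nil, Finset.card_univ]
  simp only [glue_nil]

open Classical in
theorem quenched_pair {κ : Measure (ℝ × ℝ)} [IsProbabilityMeasure κ] {vert : H → V}
    {ρ : Measure ℕ} [IsProbabilityMeasure ρ]
    (hκ1 : κ {w | w.1 < 0} = 0) (hκ2 : κ {w | w.2 < 0} = 0)
    (hdeg : ∀ v, 2 ≤ deg vert v) (hMt : Nonempty (Mt H))
    {idx : H → ℕ} {kn : ℕ → ℕ} {G : ℕ → Set (ℝ × ℝ)} (hGm : ∀ j, MeasurableSet (G j))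
    {q : ℕ → ℝ} {m m1 m2 m3 g gb j J L R : ℕ} {x : ℝ} {e η δ1 δ2 δ3 δ4 δ6 θ p1 δc : ℝ≥0∞}
    (hx : 0 ≤ x) (hm1' : 1 ≤ m1) (hm1 : m1 ≤ m) (hm2 : m2 ≤ m) (hm3 : m3 ≤ m2) (hgb : 1 ≤ gb)
    (hq : ∀ i, 0 ≤ q i) (hqs : ∑ i ∈ range J, q i ≤ 1)
    (hG : ∀ i, ∀ p ∈ G i, p.1 ≤ q i) (hkn : ∀ i, m ≤ kn i) (hkn0 : kn 0 = m)
    (hLL : gb + j + g + gb ≤ L)
    (hE : Env vert ρ m R e) (hE1 : Env vert ρ m1 R e) (hE2 : Env vert ρ m2 R e)
    (he : e ≠ ⊤) (hη : η ≠ ⊤)
    (hR1 : 1 + m3 * sz m2 gb ≤ R) (hR2 : 1 + (gb + j * (1 + m1 * sz m g)) ≤ R)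
    (hR3 : 1 + L ≤ R) (hR4 : 1 + sz m g ≤ R)
    (hP : ∀ (l : List (H × H)) (U : Finset V) (v : V) (τ : Wt H), St vert l U → U.card ≤ R →
      v ∈ U → ((dom l).filter (fun h => vert h = v)).card ≤ 1 → m ≤ deg vert v →
      EE κ l τ (fun σ ω => if ClG vert idx kn G σ ω J 0 {v} v then 0 else 1) ≤ η)
    (hθ : ∫⁻ k in {k : ℕ | k + 1 < m1},
      (k : ℝ≥0∞) * (TR ρ (κ.map (pr true)) m 1 g x) ^ (k - 1) ∂ρ ≤ θ)
    (hp1 : ρ {k : ℕ | m1 ≤ k + 1} ≤ p1)
    (hδc : p1 + e + e * (m1 : ℝ≥0∞) ^ j + e * (m1 * (m1 : ℝ≥0∞) ^ j) +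
      m1 * (((m1 * sz m g : ℕ) : ℝ≥0∞) * (2 * e) + η) * (m1 : ℝ≥0∞) ^ j ≤ δc)
    (n1 : ∀ k < m3, 1 + ((k * sz m2 gb : ℕ) : ℝ≥0∞) * (2 * e) ≤
      (TR ρ (κ.map (pr false)) m2 0 gb (2 * x + 3)) ^ k + δ1)
    (n2 : m3 * (((m2 : ℝ≥0∞) + 1) ^ gb * (cb θ δc j + gb * (e * (m1 : ℝ≥0∞) ^ j))) ≤ δ2)
    (n3 : m3 * (sz m L * e) ≤ δ3)
    (n4 : TR ρ (κ.map (pr true)) m 1 g x + ((sz m g : ℕ) * (2 * e) + η) ≤ δ4)
    (n6 : ∀ τ : Wt H, EE κ [] τ (fun σ ω => if ∃ x z, x ≠ z ∧ kn J ≤ deg vert x ∧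
      kn J ≤ deg vert z ∧ ¬ ∃ h, vert h = x ∧ vert (σ h) = z ∧ wt true σ ω h ≤ 1 then 1 else 0) ≤
      δ6)
    {a b : V} (hab : a ≠ b) (hdb : deg vert b < m3) :
    ∑ σ : Mt H, (lawW H κ) {ω | BadP vert a b (∑ k ∈ range (gb + j + 1), (max m1 m2) ^ k) J L m
      σ ω} ≤ Fintype.card (Mt H) * (δ1 + δ2 + δ3 + δ4 + δ6) := by
  have hAl : (Al ([] : List (H × H))).Nonempty := by
    rw [Al_nil]; exact univ_nonempty
  -- the climbing predicate
  set P : V → Mt H → Wt H → Prop := fun v σ ω => ClG vert idx kn G σ ω J 0 {v} v with hPdef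
  have hPm : ∀ v σ, MeasurableSet {ω | P v σ ω} := fun v σ => measurableSet_ClG hGm σ J 0 {v} v
  -- a half-edge at `a`
  obtain ⟨fa, hfa⟩ : ∃ f, vert f = a := by
    have h1 := hdeg a
    have h2 : 0 < (univ.filter (fun h => vert h = a)).card := by
      unfold deg at h1; omega
    obtain ⟨f, hf⟩ := Finset.card_pos.1 h2
    exact ⟨f, (mem_filter.1 hf).2⟩
  set Hb : Finset H := univ.filter (fun h => vert h = b) with hHb
  have hHbc : Hb.card = deg vert b := rfl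
  have hStn : ∀ v : V, St vert ([] : List (H × H)) {v} := by
    intro v
    exact ⟨by simp, by simp⟩
  -- the functions
  set F1 : Mt H → Wt H → ℝ≥0∞ := fun σ ω =>
    if ∀ t ∈ Hb.toList.map (fun h => (h, gb, 2 * x + 3)),
      Gd vert false m2 t.2.1 t.2.2 t.1 σ ω then 1 else 0 with hF1
  set F1' : Mt H → Wt H → ℝ≥0∞ := fun σ ω =>
    if ∀ t ∈ Hb.toList.map (fun h => (h, gb, 2 * x + 3)),
      Gd vert false m2 t.2.1 t.2.2 t.1 σ ω then 0 else 1 with hF1'
  set F2 : Mt H → Wt H → ℝ≥0∞ := fun σ ω => ∑ h ∈ Hb,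
    WC vert m1 m2 (fun f σ ω => Fl vert true m P g x f σ ω) j gb h σ ω with hF2
  set F3 : Mt H → Wt H → ℝ≥0∞ := fun σ ω => ∑ h ∈ Hb,
    if Rv vert m σ L {b} h then 1 else 0 with hF3
  set F4 : Mt H → Wt H → ℝ≥0∞ := fun σ ω =>
    if ∀ t ∈ [(fa, g, x)], Fl vert true m P t.2.1 t.2.2 t.1 σ ω then 1 else 0 with hF4
  set F6 : Mt H → Wt H → ℝ≥0∞ := fun σ ω => if ∃ x z, x ≠ z ∧ kn J ≤ deg vert x ∧
      kn J ≤ deg vert z ∧ ¬ ∃ h, vert h = x ∧ vert (σ h) = z ∧ wt true σ ω h ≤ 1 then 1 else 0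
    with hF6
  -- measurability
  have hGdm : ∀ σ, MeasurableSet {ω : Wt H | ∀ t ∈ Hb.toList.map (fun h => (h, gb, 2 * x + 3)),
      Gd vert false m2 t.2.1 t.2.2 t.1 σ ω} := by
    intro σ
    have : {ω : Wt H | ∀ t ∈ Hb.toList.map (fun h => (h, gb, 2 * x + 3)),
      Gd vert false m2 t.2.1 t.2.2 t.1 σ ω} = ⋂ h ∈ Hb, {ω | Gd vert false m2 gb (2 * x + 3) h
        σ ω} := by
      ext ω
      simp [List.mem_map]
    rw [this]
    exact Finset.measurableSet_biInter _ (fun h _ => measurableSet_Gd σ gb _ h)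
  have hFlm : ∀ f σ, MeasurableSet {ω : Wt H | Fl vert true m P g x f σ ω} :=
    fun f σ => measurableSet_Fl hPm σ g x f
  have hF1m : ∀ σ, Measurable (F1 σ) := fun σ =>
    Measurable.ite (hGdm σ) measurable_const measurable_const
  have hF1'm : ∀ σ, Measurable (F1' σ) := fun σ =>
    Measurable.ite (hGdm σ) measurable_const measurable_const
  have hF2m : ∀ σ, Measurable (F2 σ) := fun σ =>
    Finset.measurable_fun_sum _ (fun h _ => measurable_WC hFlm j gb h σ)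
  have hF3m : ∀ σ, Measurable (F3 σ) := fun σ => measurable_const
  have hF4m : ∀ σ, Measurable (F4 σ) := by
    intro σ
    have : {ω : Wt H | ∀ t ∈ [(fa, g, x)], Fl vert true m P t.2.1 t.2.2 t.1 σ ω} =
        {ω | Fl vert true m P g x fa σ ω} := by
      ext ω; simp
    exact Measurable.ite (by rw [this]; exact hFlm fa σ) measurable_const measurable_const
  have hF6m : ∀ σ, Measurable (F6 σ) := by
    intro σ
    apply Measurable.ite _ measurable_const measurable_const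
    have : {ω : Wt H | ∃ x z, x ≠ z ∧ kn J ≤ deg vert x ∧
        kn J ≤ deg vert z ∧ ¬ ∃ h, vert h = x ∧ vert (σ h) = z ∧ wt true σ ω h ≤ 1} =
        ⋃ x : V, ⋃ z : V, ({ω | x ≠ z ∧ kn J ≤ deg vert x ∧ kn J ≤ deg vert z} ∩
          (⋃ h : H, ({ω | vert h = x ∧ vert (σ h) = z} ∩ {ω | wt true σ ω h ≤ 1}))ᶜ) := by
      ext ω
      simp only [Set.mem_ofPred_eq, Set.mem_iUnion, Set.mem_inter_iff, Set.mem_compl_iff]
      constructor
      · rintro ⟨x, z, h1, h2, h3, h4⟩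
        exact ⟨x, z, ⟨h1, h2, h3⟩, fun ⟨h, h5, h6⟩ => h4 ⟨h, h5.1, h5.2, h6⟩⟩
      · rintro ⟨x, z, ⟨h1, h2, h3⟩, h4⟩
        exact ⟨x, z, h1, h2, h3, fun ⟨h, h5, h6, h7⟩ => h4 ⟨h, ⟨h5, h6⟩, h7⟩⟩
    rw [this]
    refine MeasurableSet.iUnion (fun x => MeasurableSet.iUnion (fun z => ?_))
    refine (MeasurableSet.const _).inter (MeasurableSet.compl ?_)
    refine MeasurableSet.iUnion (fun h => (MeasurableSet.const _).inter ?_)
    exact measurableSet_le (measurable_wt true σ h) measurable_const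
  set Gs : Mt H → Wt H → ℝ≥0∞ := fun σ ω => F1' σ ω + (F2 σ ω + (F3 σ ω + (F4 σ ω + F6 σ ω)))
    with hGs
  have hGsm : ∀ σ, Measurable (Gs σ) := fun σ =>
    (hF1'm σ).add ((hF2m σ).add ((hF3m σ).add ((hF4m σ).add (hF6m σ))))
  -- the weights are nonnegative
  have hae : ∀ᵐ ω ∂(lawW H κ), ∀ e : Sym2 H, 0 ≤ (ω e).1 ∧ 0 ≤ (ω e).2 := by
    rw [ae_all_iff]
    intro e
    have h1 : ∀ᵐ w ∂κ, 0 ≤ w.1 ∧ 0 ≤ w.2 := by
      have h2 : ∀ᵐ w ∂κ, ¬ w.1 < 0 := by
        rw [ae_iff]; simpa using hκ1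
      have h3 : ∀ᵐ w ∂κ, ¬ w.2 < 0 := by
        rw [ae_iff]; simpa using hκ2
      filter_upwards [h2, h3] with w h4 h5
      exact ⟨not_lt.1 h4, not_lt.1 h5⟩
    exact (measurePreserving_eval (fun _ : Sym2 H => κ) e).quasiMeasurePreserving.ae h1
  -- bad implies that one of the functions is at least one
  have hbad : ∀ σ : Mt H, (lawW H κ) {ω | BadP vert a b (∑ k ∈ range (gb + j + 1),
      (max m1 m2) ^ k) J L m σ ω} ≤ ∫⁻ ω, Gs σ ω ∂(lawW H κ) := by
    intro σ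
    have h1 : (lawW H κ) {ω | 1 ≤ Gs σ ω} ≤ ∫⁻ ω, Gs σ ω ∂(lawW H κ) := by
      have := mul_meas_ge_le_lintegral (μ := lawW H κ) (hGsm σ) 1
      rwa [one_mul] at this
    refine le_trans (measure_mono_ae ?_) h1
    filter_upwards [hae] with ω hω hB
    show 1 ≤ Gs σ ω
    obtain ⟨⟨t, col, hC, hcol⟩, hfar⟩ := hB
    by_contra hlt
    have hlt' : Gs σ ω < 1 := not_le.1 hlt
    have g1 : F1' σ ω < 1 := lt_of_le_of_lt le_self_add hlt'
    have g2' : F2 σ ω + (F3 σ ω + (F4 σ ω + F6 σ ω)) < 1 := lt_of_le_of_lt le_add_self hlt'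
    have g2 : F2 σ ω < 1 := lt_of_le_of_lt le_self_add g2'
    have g3' : F3 σ ω + (F4 σ ω + F6 σ ω) < 1 := lt_of_le_of_lt le_add_self g2'
    have g3 : F3 σ ω < 1 := lt_of_le_of_lt le_self_add g3'
    have g4' : F4 σ ω + F6 σ ω < 1 := lt_of_le_of_lt le_add_self g3'
    have g4 : F4 σ ω < 1 := lt_of_le_of_lt le_self_add g4'
    have g6 : F6 σ ω < 1 := lt_of_le_of_lt le_add_self g4'
    apply hcol
    refine det_core (g := g) (x := x) (idx := idx) (kn := kn) (G := G) (q := q) (m := m)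
      (L := L) hab hC (fun h => (hω _).1) (fun h => (hω _).2) ?_ hx hm1 hm2 hgb
      (lt_of_lt_of_le hdb hm3) hq hqs hG hkn hkn0 hLL ?_ ?_ ?_ ?_ hfar ?_
    · intro y
      rw [← Finset.card_pos, card_nxt]
      have := hdeg (vert y)
      omega
    · intro h hh
      simp only [hF1'] at g1
      split_ifs at g1 with hc
      · have := hc (h, gb, 2 * x + 3) (List.mem_map.2 ⟨h, by
          rw [Finset.mem_toList]; exact mem_filter.2 ⟨mem_univ _, hh⟩, rfl⟩)
        exact this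
      · exact absurd g1 (lt_irrefl _)
    · intro h hh
      refine lt_of_le_of_lt ?_ g2
      exact Finset.single_le_sum (f := fun h => WC vert m1 m2
        (fun f σ ω => Fl vert true m P g x f σ ω) j gb h σ ω) (fun _ _ => bot_le)
        (mem_filter.2 ⟨mem_univ _, hh⟩)
    · intro h hh hR
      have h2 : (1 : ℝ≥0∞) ≤ F3 σ ω := by
        have h3 := Finset.single_le_sum (f := fun h => if Rv vert m σ L {b} h then
          (1 : ℝ≥0∞) else 0) (fun _ _ => bot_le) (mem_filter.2 ⟨mem_univ _, hh⟩ : h ∈ Hb)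
        simp only [if_pos hR] at h3
        exact h3
      exact absurd g3 (not_lt.2 h2)
    · refine ⟨fa, hfa, fun hF => ?_⟩
      have h2 : F4 σ ω = 1 := by
        simp only [hF4]
        rw [if_pos]
        intro t ht
        rw [List.mem_singleton] at ht
        subst ht
        exact hF
      rw [h2] at g4
      exact absurd g4 (lt_irrefl _)
    · intro y z hyz hy hz
      by_contra hc
      have h2 : F6 σ ω = 1 := by
        simp only [hF6]
        rw [if_pos]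
        exact ⟨y, z, hyz, hy, hz, hc⟩
      rw [h2] at g6
      exact absurd g6 (lt_irrefl _)
  -- the means
  set τ : Wt H := fun _ => (0, 0) with hτ
  have hsz : ∀ (N : ℕ), ((Hb.toList.map (fun h => (h, gb, 2 * x + 3))).map
      (fun t : H × ℕ × ℝ => N * sz m2 t.2.1)).sum = Hb.card * (N * sz m2 gb) := by
    intro N
    rw [List.map_map]
    have : ((fun t : H × ℕ × ℝ => N * sz m2 t.2.1) ∘ fun h => (h, gb, 2 * x + 3)) =
        fun _ => N * sz m2 gb := rfl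
    rw [this, List.map_const', List.sum_replicate, Finset.length_toList, smul_eq_mul]
  have e1 : EE κ [] τ F1' ≤ δ1 := by
    have h1 := gd_lo (κ := κ) hE2 (c := false) (Hb.card * sz m2 gb)
      (Hb.toList.map (fun h => (h, gb, 2 * x + 3))) [] {b} τ
      (by
        have := hsz 1
        simp only [one_mul] at this
        exact this.le) (hStn b)
      (by
        rw [card_singleton, hHbc]
        have : deg vert b * sz m2 gb ≤ m3 * sz m2 gb := Nat.mul_le_mul_right _ hdb.le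
        omega) hAl
      (by
        intro t ht
        obtain ⟨h, hh, rfl⟩ := List.mem_map.1 ht
        rw [Finset.mem_toList] at hh
        exact ⟨by simp, by simpa using (mem_filter.1 hh).2⟩)
      (by
        rw [List.map_map]
        have : (Prod.fst ∘ fun h => ((h, gb, 2 * x + 3) : H × ℕ × ℝ)) = id := rfl
        rw [this, List.map_id]
        exact Finset.nodup_toList _)
    have h2 : ((Hb.toList.map (fun h => (h, gb, 2 * x + 3))).map
        (fun t : H × ℕ × ℝ => TR ρ (κ.map (pr false)) m2 0 t.2.1 t.2.2)).prod =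
        (TR ρ (κ.map (pr false)) m2 0 gb (2 * x + 3)) ^ (deg vert b) := by
      rw [List.map_map]
      have : ((fun t : H × ℕ × ℝ => TR ρ (κ.map (pr false)) m2 0 t.2.1 t.2.2) ∘
          fun h => (h, gb, 2 * x + 3)) = fun _ => TR ρ (κ.map (pr false)) m2 0 gb (2 * x + 3) := rfl
      rw [this, List.map_const', List.prod_replicate, Finset.length_toList, hHbc]
    rw [h2] at h1
    have h1' : (TR ρ (κ.map (pr false)) m2 0 gb (2 * x + 3)) ^ (deg vert b) ≤
        EE κ [] τ F1 + ((Hb.card * sz m2 gb : ℕ) : ℝ≥0∞) * (2 * e) := by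
      convert h1
    have h3 := n1 (deg vert b) hdb
    have h4 : EE κ [] τ F1 + EE κ [] τ F1' = 1 := by
      rw [← EE_add hF1m, ← EE_const (κ := κ) hAl τ 1]
      apply EE_congr
      intro σ _ ω
      simp only [hF1, hF1']
      split_ifs <;> simp
    have h5 : EE κ [] τ F1 + EE κ [] τ F1' ≤ EE κ [] τ F1 + δ1 := by
      rw [h4]
      have h6 : 1 + ((deg vert b * sz m2 gb : ℕ) : ℝ≥0∞) * (2 * e) ≤
          (EE κ [] τ F1 + δ1) + ((deg vert b * sz m2 gb : ℕ) : ℝ≥0∞) * (2 * e) := by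
        calc _ ≤ _ := h3
          _ ≤ (EE κ [] τ F1 + ((Hb.card * sz m2 gb : ℕ) : ℝ≥0∞) * (2 * e)) + δ1 :=
              add_le_add h1' (le_refl _)
          _ = _ := by rw [hHbc]; ring
      refine (ENNReal.add_le_add_iff_right ?_).1 h6
      exact ENNReal.mul_ne_top (ENNReal.natCast_ne_top _) (ENNReal.mul_ne_top (by simp) he)
    refine (ENNReal.add_le_add_iff_left ?_).1 h5
    exact ne_top_of_le_ne_top ENNReal.one_ne_top (h4 ▸ le_self_add)
  have e2 : EE κ [] τ F2 ≤ δ2 := by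
    have hcc := cc_up (κ := κ) (j := j) (θ := θ) (p1 := p1) (δ := δc) hE hE1 hm1' he hη
      (c := true) hPm hP hθ hp1 hδc j (le_refl j)
    have hwc := wc_up (κ := κ) (m2 := m2) (y0 := cb θ δc j) (j := j)
      (Rj := j * (1 + m1 * sz m g)) hE2 hm1' hFlm hcc gb
    simp only [hF2]
    rw [EE_sum _ (fun h _ σ => measurable_WC hFlm j gb h σ)]
    refine le_trans ?_ n2
    calc ∑ h ∈ Hb, EE κ [] τ (fun σ ω => WC vert m1 m2
          (fun f σ ω => Fl vert true m P g x f σ ω) j gb h σ ω)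
        ≤ ∑ h ∈ Hb, ((m2 : ℝ≥0∞) + 1) ^ gb * (cb θ δc j + gb * (e * (m1 : ℝ≥0∞) ^ j)) := by
          apply Finset.sum_le_sum
          intro h hh
          apply hwc [] {b} τ h (hStn b) (by rw [card_singleton]; exact hR2) (by simp)
          rw [mem_singleton]; exact (mem_filter.1 hh).2
      _ = (Hb.card : ℝ≥0∞) * _ := by rw [sum_const, nsmul_eq_mul]
      _ ≤ _ := mul_le_mul' (by rw [hHbc]; exact_mod_cast hdb.le) (le_refl _)
  have e3 : EE κ [] τ F3 ≤ δ3 := by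
    simp only [hF3]
    rw [EE_sum _ (fun h _ σ => measurable_const)]
    refine le_trans ?_ n3
    calc ∑ h ∈ Hb, EE κ [] τ (fun σ _ => if Rv vert m σ L {b} h then 1 else 0)
        ≤ ∑ h ∈ Hb, (sz m L * e : ℝ≥0∞) := by
          apply Finset.sum_le_sum
          intro h hh
          apply rv_up hE L [] {b} τ h (hStn b) (by rw [card_singleton]; exact hR3) (by simp)
          rw [mem_singleton]; exact (mem_filter.1 hh).2
      _ = (Hb.card : ℝ≥0∞) * _ := by rw [sum_const, nsmul_eq_mul]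
      _ ≤ _ := mul_le_mul' (by rw [hHbc]; exact_mod_cast hdb.le) (le_refl _)
  have e4 : EE κ [] τ F4 ≤ δ4 := by
    have h1 := fl_up (κ := κ) (η := η) hE (c := true) hPm hP (fun _ _ => 1)
      (fun _ => measurable_const) (B := 1) (yb := 1) (fun _ _ => le_refl _) (le_refl _)
      ENNReal.one_ne_top (∅ : Finset H) (R' := R) (le_refl R)
      (fun l U τ _ _ _ => EE_const_le l τ 1) (sz m g) [(fa, g, x)] [] {a} τ (by simp) (hStn a)
      (by rw [card_singleton]; exact hR4) (by simp [hfa]) (by simp) (by simp)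
    refine le_trans h1 (le_trans (le_of_eq ?_) n4)
    simp
  have e6 : EE κ [] τ F6 ≤ δ6 := n6 τ
  have htot : EE κ [] τ Gs ≤ δ1 + δ2 + δ3 + δ4 + δ6 := by
    simp only [hGs]
    rw [EE_add hF1'm, EE_add hF2m, EE_add hF3m, EE_add hF4m]
    calc EE κ [] τ F1' + (EE κ [] τ F2 + (EE κ [] τ F3 + (EE κ [] τ F4 + EE κ [] τ F6)))
        ≤ δ1 + (δ2 + (δ3 + (δ4 + δ6))) := by gcongr
      _ = _ := by ring
  rw [EE_nil] at htot
  have hc0 : ((Fintype.card (Mt H) : ℕ) : ℝ≥0∞) ≠ 0 := by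
    exact_mod_cast Fintype.card_ne_zero
  rw [ENNReal.div_le_iff hc0 (ENNReal.natCast_ne_top _)] at htot
  rw [mul_comm]
  exact le_trans (Finset.sum_le_sum (fun σ _ => hbad σ)) htot

end Pool.Agent.H949.DX
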