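import Pool.Agent.H949.DX.F1
import Pool.Agent.H949.CX.Law

/-!
# The law of the bad event for given degrees
-/

set_option linter.unusedSectionVars false
set_option linter.unusedVariables false

open MeasureTheory Finset
open scoped ENNReal

namespace Pool.Agent.H949.DX

open Pool.Agent.H949.CM Pool.Agent.H949.CX

/-- Some outcome has more than `Kc` blue vertices, or at most `J` red vertices. -/
def badEv {n : ℕ} (Kc J : ℕ) (d : Fin (n + 1) → ℕ) : Set (Conf d) :=
  {x | ∃ (t : Fin (n + 1) → ℝ≥0∞) (col : Fin (n + 1) → Option Bool),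
    Causal vtx x.1 (len x.2.1) x.2.2.1 x.2.2.2 t col ∧
    ¬ ((univ.filter (fun v => col v = some false)).card ≤ Kc ∧
      J + 1 ≤ (univ.filter (fun v => col v = some true)).card)}

theorem law_bound {n : ℕ} (hn : 1 ≤ n) (κ : Measure (ℝ × ℝ)) [IsProbabilityMeasure κ]
    (d : Fin (n + 1) → ℕ) (hMt : Nonempty (Mt (HalfEdge d))) {m m3 L Kc J : ℕ} {δs K1 : ℝ}
    (hδs : 0 ≤ δs)
    (hsum : ∑ v, (d v : ℝ) ≤ K1 * ((n : ℝ) + 1)) (hm3 : 0 < m3)
    (hq : ∀ a b, a ≠ b → d b < m3 → ∑ σ : Mt (HalfEdge d), (lawW (HalfEdge d) κ)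
      {ω | BadP vtx a b Kc J L m σ ω} ≤ Fintype.card (Mt (HalfEdge d)) * ENNReal.ofReal δs) :
    cmLaw2 κ d (badEv Kc J d) ≤
      ENNReal.ofReal (δs + ((∑ k ∈ range (L + 1), m ^ k : ℕ) : ℝ) / n + 2 * K1 / m3) := by
  classical
  refine le_trans (cmLaw2_le κ d (badEv Kc J d)) (ENNReal.ofReal_le_ofReal ?_)
  set Mc : ℝ := (Fintype.card (Mt (HalfEdge d)) : ℝ) with hMc
  have hMc0 : 0 < Mc := by rw [hMc]; exact_mod_cast Fintype.card_pos
  have hn0 : (0 : ℝ) < n := by exact_mod_cast hn
  have hm30 : (0 : ℝ) < m3 := by exact_mod_cast hm3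
  set S : ℝ := ((∑ k ∈ range (L + 1), m ^ k : ℕ) : ℝ) with hS
  -- the probabilities
  set p : Mt (HalfEdge d) → Fin (n + 1) → Fin (n + 1) → ℝ := fun σ a b =>
    ((lawW (HalfEdge d) κ) {ω | (σ, ω, (a, b)) ∈ badEv Kc J d}).toReal with hp
  set pb : Mt (HalfEdge d) → Fin (n + 1) → Fin (n + 1) → ℝ := fun σ a b =>
    ((lawW (HalfEdge d) κ) {ω | BadP vtx a b Kc J L m σ ω}).toReal with hpb
  have hp1 : ∀ σ a b, p σ a b ≤ 1 := by
    intro σ a b
    have h1 : (lawW (HalfEdge d) κ) {ω | (σ, ω, (a, b)) ∈ badEv Kc J d} ≤ 1 := prob_le_one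
    have h2 := ENNReal.toReal_mono ENNReal.one_ne_top h1
    simpa using h2
  have hpb0 : ∀ σ a b, 0 ≤ pb σ a b := fun σ a b => ENNReal.toReal_nonneg
  have hpt : ∀ σ a b, p σ a b ≤ pb σ a b +
      (if ∃ k ≤ L, LW vtx m σ k b a then (1 : ℝ) else 0) := by
    intro σ a b
    by_cases h : ∃ k ≤ L, LW vtx m σ k b a
    · rw [if_pos h]
      have := hp1 σ a b
      have := hpb0 σ a b
      linarith
    · rw [if_neg h, add_zero]
      apply ENNReal.toReal_mono (measure_ne_top _ _)
      apply measure_mono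
      intro ω hω
      push Not at h
      exact ⟨hω, h⟩
  have hpbs : ∀ a b, a ≠ b → d b < m3 → ∑ σ, pb σ a b ≤ Mc * δs := by
    intro a b hab hdb
    have h1 := hq a b hab hdb
    have h2 : ENNReal.ofReal (∑ σ, pb σ a b) ≤ ENNReal.ofReal (Mc * δs) := by
      rw [ENNReal.ofReal_sum_of_nonneg (fun σ _ => hpb0 σ a b), ENNReal.ofReal_mul hMc0.le]
      refine le_trans (le_of_eq ?_) (le_trans h1 (le_of_eq ?_))
      · apply Finset.sum_congr rfl
        intro σ _
        rw [hpb, ENNReal.ofReal_toReal (measure_ne_top _ _)]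
      · rw [hMc, ENNReal.ofReal_natCast]
    exact (ENNReal.ofReal_le_ofReal_iff (by positivity)).1 h2
  -- the number of vertices of large degree
  set big : ℝ := ((univ.filter (fun b : Fin (n + 1) => ¬ d b < m3)).card : ℝ) with hbig
  have hbig1 : big * m3 ≤ K1 * ((n : ℝ) + 1) := by
    refine le_trans ?_ hsum
    calc big * m3 = ∑ b ∈ univ.filter (fun b : Fin (n + 1) => ¬ d b < m3), (m3 : ℝ) := by
          rw [sum_const, nsmul_eq_mul]
      _ ≤ ∑ b ∈ univ.filter (fun b : Fin (n + 1) => ¬ d b < m3), (d b : ℝ) := by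
          apply Finset.sum_le_sum
          intro b hb
          exact_mod_cast not_lt.1 (mem_filter.1 hb).2
      _ ≤ ∑ v, (d v : ℝ) := Finset.sum_le_sum_of_subset_of_nonneg (filter_subset _ _)
          (fun _ _ _ => Nat.cast_nonneg _)
  -- sum over the matchings for a pair
  have hpair : ∀ a b, a ≠ b → ∑ σ, p σ a b ≤ Mc * δs +
      ∑ σ : Mt (HalfEdge d), (if ∃ k ≤ L, LW vtx m σ k b a then (1 : ℝ) else 0) +
      Mc * (if ¬ d b < m3 then 1 else 0) := by
    intro a b hab
    have h0 : 0 ≤ ∑ σ : Mt (HalfEdge d), (if ∃ k ≤ L, LW vtx m σ k b a then (1 : ℝ) else 0) :=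
      Finset.sum_nonneg (fun _ _ => by split_ifs <;> norm_num)
    by_cases hdb : d b < m3
    · rw [if_neg (not_not.2 hdb), mul_zero, add_zero]
      calc ∑ σ, p σ a b ≤ ∑ σ, (pb σ a b +
            (if ∃ k ≤ L, LW vtx m σ k b a then (1 : ℝ) else 0)) :=
            Finset.sum_le_sum (fun σ _ => hpt σ a b)
        _ ≤ _ := by
            rw [Finset.sum_add_distrib]
            have := hpbs a b hab hdb
            linarith
    · rw [if_pos hdb, mul_one]
      have h1 : ∑ σ, p σ a b ≤ Mc := by
        calc ∑ σ, p σ a b ≤ ∑ σ : Mt (HalfEdge d), (1 : ℝ) :=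
              Finset.sum_le_sum (fun σ _ => hp1 σ a b)
          _ = Mc := by rw [sum_const, card_univ, nsmul_eq_mul, mul_one]
      have h2 : 0 ≤ Mc * δs := by positivity
      linarith
  have hLW : ∀ (σ : Mt (HalfEdge d)) (b : Fin (n + 1)),
      ∑ a, (if ∃ k ≤ L, LW vtx m σ k b a then (1 : ℝ) else 0) ≤ S := by
    intro σ b
    rw [Finset.sum_ite, sum_const_zero, add_zero, sum_const, nsmul_eq_mul, mul_one, hS]
    exact_mod_cast card_lw (vert := vtx (d := d)) (σ := σ) (M := m) L b
  have htot : ∑ σ : Mt (HalfEdge d), ∑ a : Fin (n + 1), ∑ b ∈ univ.erase a, p σ a b ≤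
      ((n : ℝ) + 1) * n * (Mc * δs) + ((n : ℝ) + 1) * (Mc * S) +
        ((n : ℝ) + 1) * (Mc * big) := by
    have e0 : ∑ σ : Mt (HalfEdge d), ∑ a : Fin (n + 1), ∑ b ∈ univ.erase a, p σ a b =
        ∑ a : Fin (n + 1), ∑ b ∈ univ.erase a, ∑ σ : Mt (HalfEdge d), p σ a b := by
      rw [Finset.sum_comm]
      apply Finset.sum_congr rfl
      intro a _
      rw [Finset.sum_comm]
    rw [e0]
    calc ∑ a : Fin (n + 1), ∑ b ∈ univ.erase a, ∑ σ : Mt (HalfEdge d), p σ a b
        ≤ ∑ a : Fin (n + 1), ∑ b ∈ univ.erase a, (Mc * δs +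
          ∑ σ : Mt (HalfEdge d), (if ∃ k ≤ L, LW vtx m σ k b a then (1 : ℝ) else 0) +
          Mc * (if ¬ d b < m3 then 1 else 0)) := by
          apply Finset.sum_le_sum
          intro a _
          apply Finset.sum_le_sum
          intro b hb
          exact hpair a b (Finset.ne_of_mem_erase hb).symm
      _ = ∑ a : Fin (n + 1), ∑ b ∈ univ.erase a, (Mc * δs) +
          ∑ a : Fin (n + 1), ∑ b ∈ univ.erase a, ∑ σ : Mt (HalfEdge d),
            (if ∃ k ≤ L, LW vtx m σ k b a then (1 : ℝ) else 0) +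
          ∑ a : Fin (n + 1), ∑ b ∈ univ.erase a, Mc * (if ¬ d b < m3 then 1 else 0) := by
          rw [← Finset.sum_add_distrib, ← Finset.sum_add_distrib]
          apply Finset.sum_congr rfl
          intro a _
          rw [← Finset.sum_add_distrib, ← Finset.sum_add_distrib]
      _ ≤ _ := by
          apply add_le_add
          apply add_le_add
          · apply le_of_eq
            simp only [sum_const, nsmul_eq_mul, card_erase_of_mem (mem_univ _), card_univ,
              Fintype.card_fin]
            push_cast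
            ring
          · calc ∑ a : Fin (n + 1), ∑ b ∈ univ.erase a, ∑ σ : Mt (HalfEdge d),
                  (if ∃ k ≤ L, LW vtx m σ k b a then (1 : ℝ) else 0)
                ≤ ∑ a : Fin (n + 1), ∑ b : Fin (n + 1), ∑ σ : Mt (HalfEdge d),
                  (if ∃ k ≤ L, LW vtx m σ k b a then (1 : ℝ) else 0) := by
                  apply Finset.sum_le_sum
                  intro a _
                  apply Finset.sum_le_sum_of_subset_of_nonneg (erase_subset _ _)
                  intro b _ _
                  exact Finset.sum_nonneg (fun _ _ => by split_ifs <;> norm_num)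
              _ = ∑ b : Fin (n + 1), ∑ σ : Mt (HalfEdge d), ∑ a : Fin (n + 1),
                  (if ∃ k ≤ L, LW vtx m σ k b a then (1 : ℝ) else 0) := by
                  rw [Finset.sum_comm]
                  apply Finset.sum_congr rfl
                  intro b _
                  rw [Finset.sum_comm]
              _ ≤ ∑ b : Fin (n + 1), ∑ σ : Mt (HalfEdge d), S := by
                  apply Finset.sum_le_sum
                  intro b _
                  apply Finset.sum_le_sum
                  intro σ _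
                  exact hLW σ b
              _ = ((n : ℝ) + 1) * (Mc * S) := by
                  simp only [sum_const, nsmul_eq_mul, card_univ, Fintype.card_fin]
                  push_cast
                  ring
          · calc ∑ a : Fin (n + 1), ∑ b ∈ univ.erase a, Mc * (if ¬ d b < m3 then 1 else 0)
                ≤ ∑ a : Fin (n + 1), ∑ b : Fin (n + 1), Mc * (if ¬ d b < m3 then 1 else 0) := by
                  apply Finset.sum_le_sum
                  intro a _
                  apply Finset.sum_le_sum_of_subset_of_nonneg (erase_subset _ _)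
                  intro b _ _
                  split_ifs <;> simp [hMc0.le]
              _ = ((n : ℝ) + 1) * (Mc * big) := by
                  simp only [← Finset.mul_sum, sum_const, nsmul_eq_mul, card_univ,
                    Fintype.card_fin]
                  rw [Finset.sum_ite, sum_const_zero, add_zero, sum_const, nsmul_eq_mul, mul_one,
                    hbig]
                  push_cast
                  ring
  have hden : 0 < Mc * (((n : ℝ) + 1) * n) := by positivity
  rw [div_le_iff₀ hden]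
  refine le_trans htot ?_
  have h1 : big ≤ 2 * K1 / m3 * n := by
    have h2 : big ≤ K1 * ((n : ℝ) + 1) / m3 := by
      rw [le_div_iff₀ hm30]; exact hbig1
    refine le_trans h2 ?_
    have hK1 : 0 ≤ K1 := by
      have h3 : 0 ≤ K1 * ((n : ℝ) + 1) :=
        le_trans (Finset.sum_nonneg (fun _ _ => Nat.cast_nonneg _)) hsum
      by_contra hc
      have : K1 * ((n : ℝ) + 1) < 0 := mul_neg_of_neg_of_pos (not_le.1 hc) (by linarith)
      linarith
    have h4 : (n : ℝ) + 1 ≤ 2 * n := by
      have : (1 : ℝ) ≤ n := by exact_mod_cast hn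
      linarith
    calc K1 * ((n : ℝ) + 1) / m3 ≤ K1 * (2 * n) / m3 := by gcongr
      _ = 2 * K1 / m3 * n := by ring
  have h5 : (δs + S / n + 2 * K1 / m3) * (Mc * (((n : ℝ) + 1) * n)) =
      ((n : ℝ) + 1) * n * (Mc * δs) + ((n : ℝ) + 1) * (Mc * S) +
        ((n : ℝ) + 1) * (Mc * (2 * K1 / m3 * n)) := by
    field_simp
  rw [h5]
  gcongr

end Pool.Agent.H949.DX
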