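import Pool.Agent.H949.DX.Rec

/-!
# Limits of the recursions

Definitions (`NR`, `TR`) are in `DX/Defs.lean`, elementary facts (`NR_le_one`, `NR_anti`,
`NR_mono_g`, `NR_neg`, `measurable_NR`, `TR_le_one`, `TR_anti`, `measurable_TR`) in `DX/Rec.lean`.

Paper proof of `red_small`. Let `N s := ⨆ g, NR ρ μ g s` (increasing limit, `NR_mono_g`), antitone
in `s` (`NR_anti`), `≤ 1`. Let `φ z := ∫⁻ k, z ^ k ∂ρ`. By monotone convergence (twice)
`N s = ∫⁻ x, (if s < x then 1 else φ (N (s - x))) ∂μ` for all `s`. Let `q := ⨅ s, N s` (limit as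
`s → ∞`, `tendsto_atTop_iInf` for antitone functions), so `q ≤ N s0 ≤ c0 < 1`. Let `s → ∞` along the
integers in the equation: for each fixed `x` eventually `x ≤ s`, and
`φ (N (s - x)) → φ q` (dominated convergence on the probability measure `ρ`, bound `1`; for fixed `k`
`N (s-x) ^ k → q ^ k` by continuity of powers in `ℝ≥0∞`), and again by dominated convergence in `x`
`q = φ q`. Since `ρ {0} = 0`: `φ q = ∫⁻ k, q ^ k ∂ρ ≤ ρ {1} q + (1 - ρ {1}) q ^ 2` (for `k ≥ 2`,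
`q ^ k ≤ q ^ 2`), and if `0 < q < 1` this is `< q` because `q ^ 2 < q` and `ρ {1} < 1`
(`ρ {1} ≠ 1`). So `q = 0`. Hence for `η > 0` there is `x ≥ 0` with `N x ≤ η`
(`N` is antitone, so `x` may be taken nonnegative), and `NR ρ μ g x ≤ N x ≤ η` for all `g`.

Paper proof of `TR_zero_tendsto`. By induction on `g` (for all `s` together): for `g = 0` both are
`0`. For `g + 1`: for fixed `x` with `x ≤ s` and fixed `k`,
`Set.indicator {k | k + 1 < m} (fun k => (TR ρ μ m 0 g (s - x)) ^ k) k → (NR ρ μ g (s - x)) ^ k` as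
`m → ∞` (the indicator is eventually `1`; powers are continuous), bounded by `1`; dominated
convergence (`tendsto_lintegral_of_dominated_convergence`) on `ρ`, then on `μ` (the functions of
`x` are measurable by `measurable_TR`, bounded by `1`). Note
`∫⁻ k in S, f k ∂ρ = ∫⁻ k, S.indicator f k ∂ρ`.
-/

set_option linter.unusedSectionVars false

open MeasureTheory Filter Topology
open scoped ENNReal

namespace Pool.Agent.H949.DX

namespace Lim

/-- convergence of integrals of functions which are at most one -/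
theorem tendsto_lint {α : Type*} [MeasurableSpace α] (ν : Measure α) [IsProbabilityMeasure ν]
    {F : ℕ → α → ℝ≥0∞} {f : α → ℝ≥0∞} (hm : ∀ n, Measurable (F n)) (h1 : ∀ n x, F n x ≤ 1)
    (h : ∀ x, Tendsto (fun n => F n x) atTop (𝓝 (f x))) :
    Tendsto (fun n => ∫⁻ x, F n x ∂ν) atTop (𝓝 (∫⁻ x, f x ∂ν)) :=
  tendsto_lintegral_of_dominated_convergence (fun _ => 1) hm
    (fun n => Eventually.of_forall (h1 n)) (by simp) (Eventually.of_forall h)

theorem phi_tendsto (ρ : Measure ℕ) [IsProbabilityMeasure ρ] {z : ℕ → ℝ≥0∞} {z0 : ℝ≥0∞}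
    (h1 : ∀ n, z n ≤ 1) (h : Tendsto z atTop (𝓝 z0)) :
    Tendsto (fun n => ∫⁻ k, z n ^ k ∂ρ) atTop (𝓝 (∫⁻ k, z0 ^ k ∂ρ)) :=
  tendsto_lint ρ (fun _ => measurable_of_countable _) (fun n _ => pow_le_one₀ zero_le (h1 n))
    (fun _ => ENNReal.Tendsto.pow h)

theorem phi_tendsto' (ρ : Measure ℕ) [IsProbabilityMeasure ρ] {z : ℕ → ℝ≥0∞} {z0 : ℝ≥0∞}
    (h1 : ∀ n, z n ≤ 1) (h : Tendsto z atTop (𝓝 z0)) :
    Tendsto (fun n => ∫⁻ k in {k : ℕ | k + 1 < n}, z n ^ k ∂ρ) atTop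
      (𝓝 (∫⁻ k, z0 ^ k ∂ρ)) := by
  have e : ∀ n : ℕ, ∫⁻ k in {k : ℕ | k + 1 < n}, z n ^ k ∂ρ =
      ∫⁻ k, ({k : ℕ | k + 1 < n}.indicator (fun k => z n ^ k)) k ∂ρ := fun n =>
    (lintegral_indicator (MeasurableSet.of_discrete) _).symm
  simp only [e]
  refine tendsto_lint ρ (fun _ => measurable_of_countable _) (fun n k => ?_) (fun k => ?_)
  · refine (Set.indicator_le_self _ _ _).trans (pow_le_one₀ zero_le (h1 n))
  · refine (ENNReal.Tendsto.pow (n := k) h).congr' ?_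
    filter_upwards [eventually_gt_atTop (k + 1)] with n hn
    rw [Set.indicator_of_mem (show k ∈ {k : ℕ | k + 1 < n} from hn)]

theorem meas_ite (ν : Measure ℕ) {f : ℝ → ℝ≥0∞} (hf : Antitone f) (s : ℝ) :
    Measurable (fun x : ℝ => if s < x then (1 : ℝ≥0∞) else ∫⁻ k, (f (s - x)) ^ k ∂ν) := by
  refine Measurable.ite (measurableSet_lt measurable_const measurable_id) measurable_const ?_
  have : Antitone (fun t : ℝ => ∫⁻ k, (f t) ^ k ∂ν) := fun t t' htt =>
    lintegral_mono (fun k => pow_le_pow_left' (hf htt) k)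
  exact this.measurable.comp (measurable_const.sub measurable_id)

theorem phi_le_one (ρ : Measure ℕ) [IsProbabilityMeasure ρ] (S : Set ℕ) {z : ℝ≥0∞} (h : z ≤ 1) :
    ∫⁻ k in S, z ^ k ∂ρ ≤ 1 := by
  calc ∫⁻ k in S, z ^ k ∂ρ ≤ ∫⁻ _ in S, 1 ∂ρ := lintegral_mono (fun k => pow_le_one₀ zero_le h)
    _ ≤ 1 := by
      rw [lintegral_const, one_mul, Measure.restrict_apply_univ]
      exact prob_le_one

theorem phi_le_one' (ρ : Measure ℕ) [IsProbabilityMeasure ρ] {z : ℝ≥0∞} (h : z ≤ 1) :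
    ∫⁻ k, z ^ k ∂ρ ≤ 1 := by
  calc ∫⁻ k, z ^ k ∂ρ ≤ ∫⁻ _, 1 ∂ρ := lintegral_mono (fun k => pow_le_one₀ zero_le h)
    _ = 1 := by simp

/-- the fixed point is zero -/
theorem fix_zero (ρ : Measure ℕ) [IsProbabilityMeasure ρ] (hρ : ρ {0} = 0) (hρ1 : ρ {1} ≠ 1)
    {q : ℝ≥0∞} (hq : q < 1) (h : q = ∫⁻ k, q ^ k ∂ρ) : q = 0 := by
  by_contra hq0
  have hρ0 : ∀ᵐ k ∂ρ, k ≠ 0 := by
    rw [ae_iff]
    simpa using hρ
  have h1 : q ≤ q * ρ {1} + q ^ 2 * ρ {1}ᶜ := by
    calc q = ∫⁻ k, q ^ k ∂ρ := h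
      _ ≤ ∫⁻ k, (({1} : Set ℕ).indicator (fun _ => q) k +
          ({1}ᶜ : Set ℕ).indicator (fun _ => q ^ 2) k) ∂ρ := by
        apply lintegral_mono_ae
        filter_upwards [hρ0] with k hk
        by_cases hk1 : k = 1
        · subst hk1
          simp
        · have h2 : k ∈ ({1}ᶜ : Set ℕ) := hk1
          have h3 : k ∉ ({1} : Set ℕ) := hk1
          rw [Set.indicator_of_mem h2, Set.indicator_of_notMem h3, zero_add]
          exact pow_le_pow_right_of_le_one' hq.le (by omega)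
      _ = q * ρ {1} + q ^ 2 * ρ {1}ᶜ := by
        rw [lintegral_add_left (measurable_of_countable _),
          lintegral_indicator MeasurableSet.of_discrete,
          lintegral_indicator MeasurableSet.of_discrete, setLIntegral_const, setLIntegral_const]
  have h2 : ρ {1} + ρ {1}ᶜ = 1 := by
    rw [measure_add_measure_compl MeasurableSet.of_discrete, measure_univ]
  have hr : ρ {1} ≠ ⊤ := measure_ne_top _ _
  have hr' : ρ ({1}ᶜ : Set ℕ) ≠ ⊤ := measure_ne_top _ _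
  have hqt : q ≠ ⊤ := (hq.trans ENNReal.one_lt_top).ne
  generalize ρ {1} = r at *
  generalize ρ ({1}ᶜ : Set ℕ) = r' at *
  clear h hρ hρ0
  lift q to NNReal using hqt
  lift r to NNReal using hr
  lift r' to NNReal using hr'
  norm_cast at h1 h2 hq hρ1 hq0
  have e1 : (q : ℝ) ≤ q * r + q ^ 2 * r' := by exact_mod_cast h1
  have e2 : (r : ℝ) + r' = 1 := by exact_mod_cast h2
  have e3 : (q : ℝ) < 1 := by exact_mod_cast hq
  have e4 : (0 : ℝ) < q := by
    have := pos_iff_ne_zero.2 hq0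
    exact_mod_cast this
  have e5 : (0 : ℝ) < r' := by
    rcases lt_or_eq_of_le (r'.2 : (0 : ℝ) ≤ r') with h | h
    · exact h
    · exfalso
      apply hρ1
      have : (r : ℝ) = 1 := by
        rw [← e2]
        have h' : (0 : ℝ) = (r' : ℝ) := h
        rw [← h', add_zero]
      exact_mod_cast this
  have e6 : (r : ℝ) = 1 - r' := by linarith
  rw [e6] at e1
  nlinarith [mul_pos (mul_pos e4 e5) (sub_pos.2 e3)]

end Lim

open Lim

theorem red_small (ρ : Measure ℕ) [IsProbabilityMeasure ρ] (μ : Measure ℝ)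
    [IsProbabilityMeasure μ] (hρ : ρ {0} = 0) (hρ1 : ρ {1} ≠ 1) {s0 : ℝ} {c0 : ℝ≥0∞}
    (hc0 : c0 < 1) (h0 : ∀ g, NR ρ μ g s0 ≤ c0) {η : ℝ≥0∞} (hη : 0 < η) :
    ∃ x : ℝ, 0 ≤ x ∧ ∀ g, NR ρ μ g x ≤ η := by
  obtain ⟨N, hN⟩ : ∃ N : ℝ → ℝ≥0∞, ∀ s, N s = ⨆ g, NR ρ μ g s := ⟨_, fun _ => rfl⟩
  have hN1 : ∀ s, N s ≤ 1 := fun s => by rw [hN]; exact iSup_le fun g => NR_le_one g s
  have hNanti : Antitone N := fun s t hst => by
    rw [hN, hN]
    exact iSup_mono fun g => NR_anti g hst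
  have hlim : ∀ s, Tendsto (fun g => NR ρ μ g s) atTop (𝓝 (N s)) := fun s => by
    rw [hN]
    exact tendsto_atTop_iSup (NR_mono_g s)
  -- the equation
  have heq : ∀ s, N s = ∫⁻ x, (if s < x then (1 : ℝ≥0∞) else ∫⁻ k, (N (s - x)) ^ k ∂ρ) ∂μ := by
    intro s
    have h1 : Tendsto (fun g => NR ρ μ (g + 1) s) atTop (𝓝 (N s)) :=
      (tendsto_add_atTop_iff_nat 1).2 (hlim s)
    have h2 : Tendsto (fun g => NR ρ μ (g + 1) s) atTop
        (𝓝 (∫⁻ x, (if s < x then (1 : ℝ≥0∞) else ∫⁻ k, (N (s - x)) ^ k ∂ρ) ∂μ)) := by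
      simp only [NR]
      refine tendsto_lint μ (fun g => meas_ite ρ (NR_anti g) s) (fun g x => ?_) (fun x => ?_)
      · split_ifs
        · exact le_rfl
        · exact phi_le_one' ρ (NR_le_one _ _)
      · split_ifs
        · exact tendsto_const_nhds
        · exact phi_tendsto ρ (fun g => NR_le_one _ _) (hlim _)
    exact tendsto_nhds_unique h1 h2
  -- the limit
  obtain ⟨q, hq⟩ : ∃ q, q = ⨅ s, N s := ⟨_, rfl⟩
  have hNq : Tendsto N atTop (𝓝 q) := by
    rw [hq]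
    exact tendsto_atTop_iInf hNanti
  have hq1 : q < 1 := by
    refine lt_of_le_of_lt ?_ hc0
    rw [hq]
    refine (iInf_le _ s0).trans ?_
    rw [hN]
    exact iSup_le h0
  have hfix : q = ∫⁻ k, q ^ k ∂ρ := by
    have h1 : Tendsto (fun n : ℕ => N n) atTop (𝓝 q) := hNq.comp tendsto_natCast_atTop_atTop
    have h2 : Tendsto (fun n : ℕ => N n) atTop (𝓝 (∫⁻ _, (∫⁻ k, q ^ k ∂ρ) ∂μ)) := by
      have e : (fun n : ℕ => N n) = fun n : ℕ => ∫⁻ x, (if (n : ℝ) < x then (1 : ℝ≥0∞) else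
          ∫⁻ k, (N (n - x)) ^ k ∂ρ) ∂μ := by
        funext n
        exact heq n
      rw [e]
      refine tendsto_lint μ (fun n => meas_ite ρ hNanti n) (fun n x => ?_) (fun x => ?_)
      · split_ifs
        · exact le_rfl
        · exact phi_le_one' ρ (hN1 _)
      · have h3 : Tendsto (fun n : ℕ => N (n - x)) atTop (𝓝 q) := by
          refine hNq.comp ?_
          exact tendsto_atTop_add_const_right _ (-x) tendsto_natCast_atTop_atTop
        refine (phi_tendsto ρ (fun n => hN1 _) h3).congr' ?_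
        filter_upwards [tendsto_natCast_atTop_atTop.eventually_ge_atTop x] with n hn
        rw [if_neg (not_lt.2 hn)]
    have h3 : ∫⁻ _ : ℝ, (∫⁻ k, q ^ k ∂ρ) ∂μ = ∫⁻ k, q ^ k ∂ρ := by simp
    rw [h3] at h2
    exact tendsto_nhds_unique h1 h2
  have hq0 : q = 0 := fix_zero ρ hρ hρ1 hq1 hfix
  have h1 : Tendsto (fun n : ℕ => N n) atTop (𝓝 q) := hNq.comp tendsto_natCast_atTop_atTop
  rw [hq0] at h1
  obtain ⟨n, hn⟩ := ((tendsto_order.1 h1).2 η hη).exists
  refine ⟨n, n.cast_nonneg, fun g => le_trans ?_ hn.le⟩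
  rw [hN]
  exact le_iSup (fun g => NR ρ μ g n) g

theorem TR_zero_tendsto (ρ : Measure ℕ) [IsProbabilityMeasure ρ] (μ : Measure ℝ)
    [IsProbabilityMeasure μ] (g : ℕ) (s : ℝ) :
    Tendsto (fun m => TR ρ μ m 0 g s) atTop (𝓝 (NR ρ μ g s)) := by
  induction g generalizing s with
  | zero =>
    simp only [TR, NR]
    exact tendsto_const_nhds
  | succ g ih =>
    simp only [TR, NR]
    refine tendsto_lint μ (fun m => meas_ite (ρ.restrict {k : ℕ | k + 1 < m})
      (TR_anti zero_le g) s) (fun m x => ?_) (fun x => ?_)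
    · split_ifs
      · exact le_rfl
      · exact phi_le_one ρ _ (TR_le_one zero_le _ _)
    · split_ifs
      · exact tendsto_const_nhds
      · exact phi_tendsto' ρ (fun m => TR_le_one zero_le _ _) (ih _)

end Pool.Agent.H949.DX
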