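import Pool.Agent.H949.DX.Rec

/-!
# Quantiles of the edge length law of an explosive process
-/

set_option linter.unusedSectionVars false

open MeasureTheory Filter Topology
open scoped ENNReal

namespace Pool.Agent.H949.DX

/-- A quantile. -/
theorem exists_quantile (μ : Measure ℝ) [IsProbabilityMeasure μ] (hμ : μ (Set.Iio 0) = 0)
    {p : ℝ} (hp0 : 0 < p) (hp1 : p < 1) :
    ∃ q : ℝ, 0 ≤ q ∧ p ≤ μ.real (Set.Iic q) ∧ μ (Set.Iio q) ≤ ENNReal.ofReal p := by
  set S : Set ℝ := {t : ℝ | p ≤ ProbabilityTheory.cdf μ t} with hS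
  have hne : S.Nonempty := by
    have h := (ProbabilityTheory.tendsto_cdf_atTop μ).eventually (lt_mem_nhds hp1)
    obtain ⟨t, ht⟩ := h.exists
    exact ⟨t, ht.le⟩
  have hneg : ∀ t : ℝ, t < 0 → ProbabilityTheory.cdf μ t = 0 := by
    intro t ht
    rw [ProbabilityTheory.cdf_eq_real]
    have : μ (Set.Iic t) = 0 := by
      refine measure_mono_null ?_ hμ
      intro x hx
      exact lt_of_le_of_lt hx ht
    simp [Measure.real, this]
  have hbdd : BddBelow S := by
    refine ⟨0, ?_⟩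
    intro t ht
    by_contra hlt
    push Not at hlt
    have := hneg t hlt
    have ht' : p ≤ ProbabilityTheory.cdf μ t := ht
    linarith
  set q : ℝ := sInf S with hq
  have hq0 : 0 ≤ q := by
    apply le_csInf hne
    intro t ht
    by_contra hlt
    push Not at hlt
    have := hneg t hlt
    have ht' : p ≤ ProbabilityTheory.cdf μ t := ht
    linarith
  refine ⟨q, hq0, ?_, ?_⟩
  · -- right continuity
    rw [← ProbabilityTheory.cdf_eq_real]
    have hrc := (ProbabilityTheory.cdf μ).right_continuous q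
    have hrc' : Tendsto (ProbabilityTheory.cdf μ) (𝓝[>] q) (𝓝 (ProbabilityTheory.cdf μ q)) :=
      hrc.mono_left (nhdsWithin_mono _ Set.Ioi_subset_Ici_self)
    refine ge_of_tendsto hrc' ?_
    filter_upwards [self_mem_nhdsWithin] with t ht
    obtain ⟨u, huS, hut⟩ := exists_lt_of_csInf_lt hne (show sInf S < t from ht)
    exact le_trans huS (ProbabilityTheory.monotone_cdf μ hut.le)
  · have hm : μ (Set.Iio q) = ENNReal.ofReal (Function.leftLim (ProbabilityTheory.cdf μ) q) := by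
      conv_lhs => rw [← ProbabilityTheory.measure_cdf μ]
      rw [StieltjesFunction.measure_Iio _ (ProbabilityTheory.tendsto_cdf_atBot μ)]
      rw [sub_zero]
    rw [hm]
    apply ENNReal.ofReal_le_ofReal
    have hl := (ProbabilityTheory.monotone_cdf μ).tendsto_leftLim q
    refine le_of_tendsto hl ?_
    filter_upwards [self_mem_nhdsWithin] with t ht
    by_contra hlt
    push Not at hlt
    have : q ≤ t := csInf_le hbdd hlt.le
    exact absurd ht (not_lt.mpr this)

theorem bern (z r : ℝ≥0∞) (hz : z ≤ 1) (h1 : 1 ≤ z + r) (k : ℕ) :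
    1 ≤ z ^ k + (k : ℝ≥0∞) * r := by
  induction k with
  | zero => simp
  | succ k ih =>
    calc (1 : ℝ≥0∞) ≤ z + r := h1
      _ = z * 1 + r := by rw [mul_one]
      _ ≤ z * (z ^ k + (k : ℝ≥0∞) * r) + r := by gcongr
      _ = z ^ (k + 1) + z * ((k : ℝ≥0∞) * r) + r := by ring
      _ ≤ z ^ (k + 1) + 1 * ((k : ℝ≥0∞) * r) + r := by gcongr
      _ = z ^ (k + 1) + ((k + 1 : ℕ) : ℝ≥0∞) * r := by push_cast; ring

theorem sum_rpow_le {a : ℝ} (ha : 0 < a) (ha1 : a < 1) (n : ℕ) :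
    ∑ j ∈ Finset.range n, ((j + 1 : ℕ) : ℝ) ^ (-a) ≤ (n : ℝ) ^ (1 - a) / (1 - a) := by
  have h1a : 0 < 1 - a := by linarith
  induction n with
  | zero =>
    simp only [Finset.range_zero, Finset.sum_empty]
    positivity
  | succ n ih =>
    rw [Finset.sum_range_succ]
    have hn : (0 : ℝ) < ((n + 1 : ℕ) : ℝ) := by positivity
    have hb := rpow_one_add_le_one_add_mul_self (s := -(1 / ((n + 1 : ℕ) : ℝ)))
      (by
        rw [neg_le_neg_iff, div_le_one hn]
        push_cast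
        have : (0 : ℝ) ≤ n := Nat.cast_nonneg n
        linarith) h1a.le (by linarith : 1 - a ≤ 1)
    have e1 : (1 + -(1 / ((n + 1 : ℕ) : ℝ))) = (n : ℝ) / ((n + 1 : ℕ) : ℝ) := by
      field_simp
      push_cast
      ring
    rw [e1, Real.div_rpow (Nat.cast_nonneg n) hn.le] at hb
    have hpos : 0 < ((n + 1 : ℕ) : ℝ) ^ (1 - a) := Real.rpow_pos_of_pos hn _
    rw [div_le_iff₀ hpos] at hb
    have e2 : ((n + 1 : ℕ) : ℝ) ^ (-a) = ((n + 1 : ℕ) : ℝ) ^ (1 - a) / ((n + 1 : ℕ) : ℝ) := by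
      rw [eq_div_iff hn.ne']
      have := Real.rpow_add hn (-a) 1
      rw [Real.rpow_one] at this
      rw [← this]
      congr 1
      ring
    rw [e2]
    have hb2 : (n : ℝ) ^ (1 - a) ≤ ((n + 1 : ℕ) : ℝ) ^ (1 - a)
        - (1 - a) * (((n + 1 : ℕ) : ℝ) ^ (1 - a) / ((n + 1 : ℕ) : ℝ)) := by
      calc (n : ℝ) ^ (1 - a) ≤ _ := hb
        _ = _ := by ring
    calc ∑ x ∈ Finset.range n, ((x + 1 : ℕ) : ℝ) ^ (-a)
          + ((n + 1 : ℕ) : ℝ) ^ (1 - a) / ((n + 1 : ℕ) : ℝ)
        ≤ (n : ℝ) ^ (1 - a) / (1 - a) + ((n + 1 : ℕ) : ℝ) ^ (1 - a) / ((n + 1 : ℕ) : ℝ) := by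
          linarith
      _ ≤ (((n + 1 : ℕ) : ℝ) ^ (1 - a)
        - (1 - a) * (((n + 1 : ℕ) : ℝ) ^ (1 - a) / ((n + 1 : ℕ) : ℝ))) / (1 - a)
          + ((n + 1 : ℕ) : ℝ) ^ (1 - a) / ((n + 1 : ℕ) : ℝ) := by
          gcongr
      _ = ((n + 1 : ℕ) : ℝ) ^ (1 - a) / (1 - a) := by
          field_simp
          ring

/-- The truncated mean. -/
theorem trunc_mean (ρ : Measure ℕ) [IsProbabilityMeasure ρ] {a C : ℝ} (ha : 0 < a) (ha1 : a < 1)
    (hC : 0 ≤ C) (htail : ∀ x : ℝ, 1 ≤ x → ρ.real {k : ℕ | x ≤ (k : ℝ)} ≤ C * x ^ (-a))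
    (G : ℝ) (hG : 1 ≤ G) :
    ∫⁻ k, (if (k : ℝ) < G then (k : ℝ≥0∞) else 0) ∂ρ
      ≤ ENNReal.ofReal (C / (1 - a) * G ^ (1 - a)) := by
  have h1a : 0 < 1 - a := by linarith
  set n : ℕ := ⌊G⌋₊ with hn
  have hpt : ∀ k : ℕ, (if (k : ℝ) < G then (k : ℝ≥0∞) else 0)
      ≤ ∑ j ∈ Finset.range n, ({k : ℕ | ((j + 1 : ℕ) : ℝ) ≤ (k : ℝ)}).indicator
          (fun _ => (1 : ℝ≥0∞)) k := by
    intro k
    split_ifs with hk
    · have hkn : k ≤ n := Nat.le_floor hk.le
      calc (k : ℝ≥0∞) = ∑ j ∈ Finset.range k, (1 : ℝ≥0∞) := by simp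
        _ = ∑ j ∈ Finset.range k, ({k : ℕ | ((j + 1 : ℕ) : ℝ) ≤ (k : ℝ)}).indicator
              (fun _ => (1 : ℝ≥0∞)) k := by
            apply Finset.sum_congr rfl
            intro j hj
            rw [Set.indicator_of_mem]
            show ((j + 1 : ℕ) : ℝ) ≤ (k : ℝ)
            exact_mod_cast Finset.mem_range.mp hj
        _ ≤ _ := by
            apply Finset.sum_le_sum_of_subset
            exact Finset.range_mono hkn
    · exact zero_le
  have hmeas : ∀ j : ℕ, MeasurableSet {k : ℕ | ((j + 1 : ℕ) : ℝ) ≤ (k : ℝ)} :=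
    fun j => MeasurableSet.of_discrete
  calc ∫⁻ k, (if (k : ℝ) < G then (k : ℝ≥0∞) else 0) ∂ρ
      ≤ ∫⁻ k, ∑ j ∈ Finset.range n, ({k : ℕ | ((j + 1 : ℕ) : ℝ) ≤ (k : ℝ)}).indicator
          (fun _ => (1 : ℝ≥0∞)) k ∂ρ := lintegral_mono hpt
    _ = ∑ j ∈ Finset.range n, ρ {k : ℕ | ((j + 1 : ℕ) : ℝ) ≤ (k : ℝ)} := by
        rw [lintegral_finsetSum]
        · apply Finset.sum_congr rfl
          intro j _
          rw [lintegral_indicator (hmeas j)]
          simp
        · intro j _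
          exact Measurable.of_discrete
    _ ≤ ∑ j ∈ Finset.range n, ENNReal.ofReal (C * ((j + 1 : ℕ) : ℝ) ^ (-a)) := by
        apply Finset.sum_le_sum
        intro j _
        rw [← ofReal_measureReal]
        apply ENNReal.ofReal_le_ofReal
        apply htail
        push_cast
        have : (0 : ℝ) ≤ j := Nat.cast_nonneg j
        linarith
    _ = ENNReal.ofReal (∑ j ∈ Finset.range n, C * ((j + 1 : ℕ) : ℝ) ^ (-a)) := by
        rw [ENNReal.ofReal_sum_of_nonneg]
        intro j _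
        positivity
    _ ≤ ENNReal.ofReal (C / (1 - a) * G ^ (1 - a)) := by
        apply ENNReal.ofReal_le_ofReal
        rw [← Finset.mul_sum]
        calc C * ∑ j ∈ Finset.range n, ((j + 1 : ℕ) : ℝ) ^ (-a)
            ≤ C * ((n : ℝ) ^ (1 - a) / (1 - a)) := by
              apply mul_le_mul_of_nonneg_left (sum_rpow_le ha ha1 n) hC
          _ ≤ C * (G ^ (1 - a) / (1 - a)) := by
              have : (n : ℝ) ≤ G := Nat.floor_le (by linarith)
              gcongr
          _ = C / (1 - a) * G ^ (1 - a) := by ring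

/-- One step in the number of children. -/
theorem one_step (ρ : Measure ℕ) [IsProbabilityMeasure ρ] {a C : ℝ} (ha : 0 < a) (ha1 : a < 1)
    (hC : 0 ≤ C) (htail : ∀ x : ℝ, 1 ≤ x → ρ.real {k : ℕ | x ≤ (k : ℝ)} ≤ C * x ^ (-a))
    (G : ℝ) (hG : 1 ≤ G) (z r : ℝ≥0∞) (hz : z ≤ 1) (h1 : 1 ≤ z + r) :
    1 ≤ ∫⁻ k, z ^ k ∂ρ + (ENNReal.ofReal (C * G ^ (-a))
      + ENNReal.ofReal (C / (1 - a) * G ^ (1 - a)) * r) := by
  have hpt : ∀ k : ℕ, (1 : ℝ≥0∞) ≤ z ^ k + (({k : ℕ | G ≤ (k : ℝ)}).indicator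
      (fun _ => (1 : ℝ≥0∞)) k + (if (k : ℝ) < G then (k : ℝ≥0∞) else 0) * r) := by
    intro k
    by_cases hk : G ≤ (k : ℝ)
    · rw [Set.indicator_of_mem (show k ∈ {k : ℕ | G ≤ (k : ℝ)} from hk)]
      calc (1 : ℝ≥0∞) ≤ 1 + (if (k : ℝ) < G then (k : ℝ≥0∞) else 0) * r := le_self_add
        _ ≤ _ := le_add_self
    · push Not at hk
      rw [if_pos hk]
      calc (1 : ℝ≥0∞) ≤ z ^ k + (k : ℝ≥0∞) * r := bern z r hz h1 k
        _ ≤ _ := by gcongr; exact le_add_self
  calc (1 : ℝ≥0∞) = ∫⁻ _k, 1 ∂ρ := by simp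
    _ ≤ ∫⁻ k, (z ^ k + (({k : ℕ | G ≤ (k : ℝ)}).indicator
      (fun _ => (1 : ℝ≥0∞)) k + (if (k : ℝ) < G then (k : ℝ≥0∞) else 0) * r)) ∂ρ :=
        lintegral_mono hpt
    _ = ∫⁻ k, z ^ k ∂ρ + (ρ {k : ℕ | G ≤ (k : ℝ)}
        + (∫⁻ k, (if (k : ℝ) < G then (k : ℝ≥0∞) else 0) ∂ρ) * r) := by
        rw [lintegral_add_left Measurable.of_discrete,
          lintegral_add_left Measurable.of_discrete,
          lintegral_mul_const _ Measurable.of_discrete,
          lintegral_indicator MeasurableSet.of_discrete]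
        simp
    _ ≤ _ := by
        gcongr
        · rw [← ofReal_measureReal]
          exact ENNReal.ofReal_le_ofReal (htail G hG)
        · exact trunc_mean ρ ha ha1 hC htail G hG

/-- The main induction. -/
theorem main_ind (ρ : Measure ℕ) [IsProbabilityMeasure ρ] (μ : Measure ℝ)
    [IsProbabilityMeasure μ] {a C : ℝ} (ha : 0 < a) (ha1 : a < 1)
    (hC : 0 ≤ C) (htail : ∀ x : ℝ, 1 ≤ x → ρ.real {k : ℕ | x ≤ (k : ℝ)} ≤ C * x ^ (-a))
    (G : ℕ → ℝ) (hG : ∀ i, 1 ≤ G i) (q : ℕ → ℝ) (U : ℕ → ℝ≥0∞)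
    (hU : ∀ j, μ (Set.Iio (q j)) + (ENNReal.ofReal (C * (G j) ^ (-a))
      + ENNReal.ofReal (C / (1 - a) * (G j) ^ (1 - a)) * U (j + 1)) ≤ U j)
    (g : ℕ) : ∀ (j : ℕ) (s : ℝ), 0 ≤ s → s < ∑ i ∈ Finset.range g, q (j + i) →
      1 ≤ NR ρ μ g s + U j := by
  induction g with
  | zero =>
    intro j s hs0 hs
    simp at hs
    linarith
  | succ g ih =>
    intro j s hs0 hs
    set K : ℝ≥0∞ := ENNReal.ofReal (C * (G j) ^ (-a))
      + ENNReal.ofReal (C / (1 - a) * (G j) ^ (1 - a)) * U (j + 1) with hK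
    have hpt : ∀ x : ℝ, (1 : ℝ≥0∞) ≤ (if s < x then 1 else ∫⁻ k, (NR ρ μ g (s - x)) ^ k ∂ρ)
        + ((Set.Iio (q j)).indicator (fun _ => (1 : ℝ≥0∞)) x + K) := by
      intro x
      by_cases h1 : s < x
      · rw [if_pos h1]; exact le_self_add
      · rw [if_neg h1]
        push Not at h1
        by_cases h2 : x < q j
        · rw [Set.indicator_of_mem (show x ∈ Set.Iio (q j) from h2)]
          calc (1 : ℝ≥0∞) ≤ 1 + K := le_self_add
            _ ≤ _ := le_add_self
        · push Not at h2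
          have h3 : s - x < ∑ i ∈ Finset.range g, q (j + 1 + i) := by
            rw [Finset.sum_range_succ'] at hs
            have e : ∑ i ∈ Finset.range g, q (j + (i + 1))
                = ∑ i ∈ Finset.range g, q (j + 1 + i) := by
              apply Finset.sum_congr rfl
              intro i _
              congr 1
              ring
            rw [e] at hs
            simp only [add_zero] at hs
            linarith
          have h4 := ih (j + 1) (s - x) (by linarith) h3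
          have h5 := one_step ρ ha ha1 hC htail (G j) (hG j) _ _ (NR_le_one g (s - x)) h4
          exact le_trans h5 (add_le_add le_rfl (le_add_left le_rfl))
    have hmeas : Measurable (fun x : ℝ => if s < x then (1 : ℝ≥0∞)
        else ∫⁻ k, (NR ρ μ g (s - x)) ^ k ∂ρ) := by
      refine Measurable.ite measurableSet_Ioi measurable_const ?_
      have hm : Measurable (fun y : ℝ => ∫⁻ k, (NR ρ μ g y) ^ k ∂ρ) := by
        have hanti : Antitone (fun y : ℝ => ∫⁻ k, (NR ρ μ g y) ^ k ∂ρ) := by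
          intro y y' hyy
          exact lintegral_mono (fun k => pow_le_pow_left' (NR_anti g hyy) k)
        exact hanti.measurable
      exact hm.comp (measurable_const.sub measurable_id)
    calc (1 : ℝ≥0∞) = ∫⁻ _x, 1 ∂μ := by simp
      _ ≤ ∫⁻ x, ((if s < x then 1 else ∫⁻ k, (NR ρ μ g (s - x)) ^ k ∂ρ)
        + ((Set.Iio (q j)).indicator (fun _ => (1 : ℝ≥0∞)) x + K)) ∂μ := lintegral_mono hpt
      _ = NR ρ μ (g + 1) s + (μ (Set.Iio (q j)) + K) := by
        rw [lintegral_add_left hmeas, lintegral_add_right _ measurable_const,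
          lintegral_indicator measurableSet_Iio]
        simp [NR]
      _ ≤ NR ρ μ (g + 1) s + U j := by
        gcongr
        exact hU j

theorem quant (ρ : Measure ℕ) [IsProbabilityMeasure ρ] (μ : Measure ℝ)
    [IsProbabilityMeasure μ] (hμ : μ (Set.Iio 0) = 0) {s0 : ℝ} {c0 : ℝ≥0∞}
    (hc0 : c0 < 1) (h0 : ∀ g, NR ρ μ g s0 ≤ c0) {a C κ : ℝ} (ha : 0 < a) (ha1 : a < 1)
    (hC : 0 ≤ C) (htail : ∀ x : ℝ, 1 ≤ x → ρ.real {k : ℕ | x ≤ (k : ℝ)} ≤ C * x ^ (-a))
    (hκ : 1 / a < κ) :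
    ∃ (B : ℝ) (q : ℕ → ℝ), 0 < B ∧ (∀ i, 0 ≤ q i) ∧ Summable q ∧
      ∀ i, Real.exp (-(B * κ ^ i)) ≤ μ.real (Set.Iic (q i)) := by
  have h1a : 0 < 1 - a := by linarith
  have hκ1 : 1 < κ := lt_trans ((one_lt_div ha).mpr ha1) hκ
  have haκ : 0 < a * κ - 1 := by
    rw [div_lt_iff₀ ha] at hκ
    linarith
  have hs0 : 0 ≤ s0 := by
    by_contra hlt
    push Not at hlt
    have h := h0 1
    rw [NR_neg hμ 0 hlt] at h
    exact absurd hc0 (not_lt.mpr h)
  set η : ℝ := a * κ - 1 with hη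
  set C' : ℝ := C / (1 - a) with hC'
  have hC'0 : 0 ≤ C' := by positivity
  set D : ℝ := 2 * (1 + C) with hD
  have hD0 : 0 < D := by positivity
  have hc0r : c0.toReal < 1 := by
    have := (ENNReal.toReal_lt_toReal (ne_top_of_lt hc0) ENNReal.one_ne_top).mpr hc0
    simpa using this
  -- choice of B
  obtain ⟨B, hB0, hB1, hB2⟩ : ∃ B : ℝ, 0 < B ∧ 2 * C' ≤ Real.exp (B * η)
      ∧ D * Real.exp (-(a * B)) < 1 - c0.toReal := by
    have t1 : Tendsto (fun B : ℝ => Real.exp (B * η)) atTop atTop :=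
      Real.tendsto_exp_atTop.comp (tendsto_id.atTop_mul_const haκ)
    have t2 : Tendsto (fun B : ℝ => D * Real.exp (-(a * B))) atTop (𝓝 (D * 0)) := by
      apply Tendsto.const_mul
      exact Real.tendsto_exp_neg_atTop_nhds_zero.comp (tendsto_id.const_mul_atTop ha)
    rw [mul_zero] at t2
    have e1 := t1.eventually (eventually_ge_atTop (2 * C'))
    have e2 := t2.eventually (gt_mem_nhds (show (0 : ℝ) < 1 - c0.toReal by linarith))
    obtain ⟨B, h⟩ := ((eventually_gt_atTop (0 : ℝ)).and (e1.and e2)).exists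
    exact ⟨B, h.1, h.2.1, h.2.2⟩
  have hκi : ∀ i : ℕ, 1 ≤ κ ^ i := fun i => one_le_pow₀ hκ1.le
  have hqex : ∀ i : ℕ, ∃ q : ℝ, 0 ≤ q ∧ Real.exp (-(B * κ ^ i)) ≤ μ.real (Set.Iic q)
      ∧ μ (Set.Iio q) ≤ ENNReal.ofReal (Real.exp (-(B * κ ^ i))) := by
    intro i
    apply exists_quantile μ hμ (Real.exp_pos _)
    rw [Real.exp_lt_one_iff]
    have := hκi i
    have : 0 < B * κ ^ i := by positivity
    linarith
  choose q hq0 hq1 hq2 using hqex
  refine ⟨B, q, hB0, hq0, ?_, hq1⟩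
  set U : ℕ → ℝ≥0∞ := fun j => ENNReal.ofReal (D * Real.exp (-(a * B * κ ^ j))) with hU
  have hUj : ∀ j, μ (Set.Iio (q j)) + (ENNReal.ofReal (C * (Real.exp (B * κ ^ j)) ^ (-a))
      + ENNReal.ofReal (C / (1 - a) * (Real.exp (B * κ ^ j)) ^ (1 - a)) * U (j + 1)) ≤ U j := by
    intro j
    have hBk : 0 < B * κ ^ j := by have := hκi j; positivity
    have e1 : (Real.exp (B * κ ^ j)) ^ (-a) = Real.exp (-(a * B * κ ^ j)) := by
      rw [← Real.exp_mul]; congr 1; ring
    have e2 : (Real.exp (B * κ ^ j)) ^ (1 - a) = Real.exp (B * κ ^ j * (1 - a)) := by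
      rw [← Real.exp_mul]
    have hle : μ (Set.Iio (q j)) ≤ ENNReal.ofReal (Real.exp (-(a * B * κ ^ j))) := by
      refine le_trans (hq2 j) (ENNReal.ofReal_le_ofReal (Real.exp_le_exp.mpr ?_))
      nlinarith
    have key : C / (1 - a) * (Real.exp (B * κ ^ j)) ^ (1 - a)
        * (D * Real.exp (-(a * B * κ ^ (j + 1))))
        ≤ D / 2 * Real.exp (-(a * B * κ ^ j)) := by
      rw [e2]
      have hexp : Real.exp (B * κ ^ j * (1 - a)) * Real.exp (-(a * B * κ ^ (j + 1)))
          = Real.exp (-(B * κ ^ j * η)) * Real.exp (-(a * B * κ ^ j)) := by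
        rw [← Real.exp_add, ← Real.exp_add]
        congr 1
        rw [hη, pow_succ]
        ring
      have hbig : C' * Real.exp (-(B * κ ^ j * η)) ≤ 1 / 2 := by
        rw [Real.exp_neg]
        have hge : Real.exp (B * η) ≤ Real.exp (B * κ ^ j * η) := by
          apply Real.exp_le_exp.mpr
          have := hκi j
          have h2 : B * 1 * η ≤ B * κ ^ j * η := by gcongr
          linarith
        have hpos : 0 < Real.exp (B * κ ^ j * η) := Real.exp_pos _
        rw [← div_eq_mul_inv, div_le_iff₀ hpos]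
        linarith
      calc C / (1 - a) * Real.exp (B * κ ^ j * (1 - a))
            * (D * Real.exp (-(a * B * κ ^ (j + 1))))
          = D * C' * (Real.exp (B * κ ^ j * (1 - a)) * Real.exp (-(a * B * κ ^ (j + 1)))) := by
            rw [hC']; ring
        _ = D * (C' * Real.exp (-(B * κ ^ j * η))) * Real.exp (-(a * B * κ ^ j)) := by
            rw [hexp]; ring
        _ ≤ D * (1 / 2) * Real.exp (-(a * B * κ ^ j)) := by
            gcongr
        _ = _ := by ring
    calc μ (Set.Iio (q j)) + (ENNReal.ofReal (C * (Real.exp (B * κ ^ j)) ^ (-a))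
          + ENNReal.ofReal (C / (1 - a) * (Real.exp (B * κ ^ j)) ^ (1 - a)) * U (j + 1))
        ≤ ENNReal.ofReal (Real.exp (-(a * B * κ ^ j)))
          + (ENNReal.ofReal (C * Real.exp (-(a * B * κ ^ j)))
          + ENNReal.ofReal (D / 2 * Real.exp (-(a * B * κ ^ j)))) := by
          gcongr
          · rw [e1]
          · rw [hU]
            simp only
            rw [← ENNReal.ofReal_mul (by positivity)]
            exact ENNReal.ofReal_le_ofReal key
      _ = U j := by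
          rw [← ENNReal.ofReal_add (by positivity) (by positivity),
            ← ENNReal.ofReal_add (by positivity) (by positivity)]
          rw [hU]
          simp only
          congr 1
          rw [hD]
          ring
  have hbound : ∀ g : ℕ, ∑ i ∈ Finset.range g, q i ≤ s0 := by
    intro g
    by_contra hlt
    push Not at hlt
    have hmain := main_ind ρ μ ha ha1 hC htail (fun i => Real.exp (B * κ ^ i))
      (fun i => by
        have := hκi i
        have h2 : 0 < B * κ ^ i := by positivity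
        exact Real.one_le_exp h2.le) q U hUj g 0 s0 hs0 (by simpa using hlt)
    have hU0 : U 0 < ENNReal.ofReal (1 - c0.toReal) := by
      rw [hU]
      simp only [pow_zero, mul_one]
      exact (ENNReal.ofReal_lt_ofReal_iff (by linarith)).mpr hB2
    have hlt1 : NR ρ μ g s0 + U 0 < 1 := by
      calc NR ρ μ g s0 + U 0 ≤ c0 + U 0 := by gcongr; exact h0 g
        _ < c0 + ENNReal.ofReal (1 - c0.toReal) :=
            ENNReal.add_lt_add_left (ne_top_of_lt hc0) hU0
        _ = ENNReal.ofReal c0.toReal + ENNReal.ofReal (1 - c0.toReal) := by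
            rw [ENNReal.ofReal_toReal (ne_top_of_lt hc0)]
        _ = 1 := by
            rw [← ENNReal.ofReal_add ENNReal.toReal_nonneg (by linarith)]
            simp
    exact absurd hmain (not_le.mpr hlt1)
  exact summable_of_sum_range_le hq0 hbound

theorem sum_div (f : ℕ → ℝ) (M : ℕ) (hM : 0 < M) (n : ℕ) :
    ∑ j ∈ Finset.range (M * n), f (j / M) = M * ∑ i ∈ Finset.range n, f i := by
  induction n with
  | zero => simp
  | succ n ih =>
    rw [Nat.mul_succ, Finset.sum_range_add, ih, Finset.sum_range_succ, mul_add]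
    congr 1
    calc ∑ x ∈ Finset.range M, f ((M * n + x) / M) = ∑ x ∈ Finset.range M, f n := by
          apply Finset.sum_congr rfl
          intro x hx
          congr 1
          rw [Nat.mul_add_div hM, Nat.div_eq_of_lt (Finset.mem_range.mp hx), add_zero]
      _ = M * f n := by simp

theorem quant_conv (μ : Measure ℝ) [IsProbabilityMeasure μ] {B κ : ℝ} (hB : 0 < B) (hκ : 1 < κ)
    (q : ℕ → ℝ) (hq0 : ∀ i, 0 ≤ q i) (hq : Summable q)
    (hF : ∀ i, Real.exp (-(B * κ ^ i)) ≤ μ.real (Set.Iic (q i)))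
    {κ' δ ε : ℝ} (hκ' : 1 < κ') (hδ : 0 < δ) (hε : 0 < ε) :
    ∃ K1 : ℝ, 1 ≤ K1 ∧ ∀ K0 : ℝ, K1 ≤ K0 → ∃ q' : ℕ → ℝ, (∀ j, 0 ≤ q' j) ∧
      (∀ n, ∑ j ∈ Finset.range n, q' j ≤ ε) ∧
      ∀ j : ℕ, (K0 ^ (κ' ^ j)) ^ (-δ) ≤ μ.real (Set.Iic (q' j)) := by
  obtain ⟨M, hM0, hM⟩ : ∃ M : ℕ, 0 < M ∧ κ ≤ κ' ^ M := by
    obtain ⟨M, hM⟩ := pow_unbounded_of_one_lt κ hκ'
    refine ⟨M + 1, Nat.succ_pos _, ?_⟩
    calc κ ≤ κ' ^ M := hM.le
      _ ≤ κ' ^ (M + 1) := pow_le_pow_right₀ hκ'.le (Nat.le_succ _)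
  have hMr : (0 : ℝ) < M := by exact_mod_cast hM0
  -- the tail
  obtain ⟨N, hN⟩ : ∃ N : ℕ, ∑' i, q (i + N) ≤ ε / M := by
    have t := tendsto_sum_nat_add q
    have e := t.eventually (gt_mem_nhds (show (0 : ℝ) < ε / M by positivity))
    obtain ⟨N, hN⟩ := e.exists
    exact ⟨N, hN.le⟩
  have hκN : 0 < κ ^ N := by positivity
  refine ⟨Real.exp (B * κ ^ N / δ), Real.one_le_exp (by positivity), ?_⟩
  intro K0 hK0
  have hK0pos : 0 < K0 := lt_of_lt_of_le (Real.exp_pos _) hK0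
  have hlog : B * κ ^ N / δ ≤ Real.log K0 := by
    rw [Real.le_log_iff_exp_le hK0pos]; exact hK0
  have hlog' : B * κ ^ N ≤ δ * Real.log K0 := by
    rw [div_le_iff₀ hδ] at hlog
    linarith
  have hlogpos : 0 < δ * Real.log K0 := lt_of_lt_of_le (by positivity) hlog'
  refine ⟨fun j => q (j / M + N), fun j => hq0 _, ?_, ?_⟩
  · intro n
    calc ∑ j ∈ Finset.range n, q (j / M + N)
        ≤ ∑ j ∈ Finset.range (M * n), q (j / M + N) := by
          apply Finset.sum_le_sum_of_subset_of_nonneg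
          · apply Finset.range_mono
            exact Nat.le_mul_of_pos_left n hM0
          · intro i _ _; exact hq0 _
      _ = M * ∑ i ∈ Finset.range n, q (i + N) := sum_div (fun i => q (i + N)) M hM0 n
      _ ≤ M * ∑' i, q (i + N) := by
          gcongr
          apply Summable.sum_le_tsum
          · intro i _; exact hq0 _
          · exact (summable_nat_add_iff N).mpr hq
      _ ≤ M * (ε / M) := by gcongr
      _ = ε := by field_simp
  · intro j
    have hle : (K0 ^ (κ' ^ j)) ^ (-δ) ≤ Real.exp (-(B * κ ^ (j / M + N))) := by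
      rw [Real.rpow_def_of_pos (Real.rpow_pos_of_pos hK0pos _), Real.log_rpow hK0pos]
      apply Real.exp_le_exp.mpr
      have h1 : κ ^ (j / M) ≤ κ' ^ j := by
        calc κ ^ (j / M) ≤ (κ' ^ M) ^ (j / M) := by gcongr
          _ = κ' ^ (M * (j / M)) := by rw [← pow_mul]
          _ ≤ κ' ^ j := pow_le_pow_right₀ hκ'.le (Nat.mul_div_le j M)
      have h2 : B * κ ^ (j / M + N) ≤ κ' ^ j * (δ * Real.log K0) := by
        calc B * κ ^ (j / M + N) = κ ^ (j / M) * (B * κ ^ N) := by rw [pow_add]; ring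
          _ ≤ κ' ^ j * (δ * Real.log K0) := by gcongr
      linarith [h2]
    exact le_trans hle (hF _)

end Pool.Agent.H949.DX
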