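import Mathlib

/-!
# Power-law tails with a slowly varying factor: two-sided bounds

Hypotheses: `L` is slowly varying (`hL`), eventually positive (`hLpos`), and
`P(D > x) = L(x) x^(-(τ-1))` for large `x`, `2 < τ < 3`.

Paper proof. Put `p = τ - 1 ∈ (1, 2)`, `T x := μD.real {k | x < k}` (antitone, `≤ 1`). For large `x`,
`T (2 x) / T x = (L (2x)/L x) 2^(-p) → 2^(-p)` and `T x > 0` (as `L x > 0`), hence `T x > 0` for all
`x` (antitone).
(upper) Given `δ > 0` there is `x0 ≥ 1` with `T (2 x) ≤ 2^(-(p-δ)) T x` for `x ≥ x0`, so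
`T (2^j x0) ≤ 2^(-(p-δ) j)`; for `x ≥ x0` choose `j` with `2^j x0 ≤ x < 2^(j+1) x0`:
`T x ≤ T (2^j x0) ≤ 2^(-(p-δ) j) ≤ (2 x0 / x)^(p-δ)` when `p - δ ≥ 0` (if `p - δ < 0` the bound is
trivial: `x^(-(p-δ)) ≥ 1` for `x ≥ 1`; then take `C = 1`). For `1 ≤ x < x0`, `T x ≤ 1 ≤ x0^{p} x^{-(p-δ)}`
for suitable constant. So `T x ≤ C x^(-(p-δ))` for all `x ≥ 1`.
(lower) Likewise `T (2 x) ≥ 2^(-(p+δ)) T x` for `x ≥ x0`, so for `2^j x0 ≤ x < 2^(j+1) x0`:
`T x ≥ T (2^(j+1) x0) ≥ 2^(-(p+δ)(j+1)) T x0 ≥ T x0 * (x0/(2 x))^(p+δ)`, `T x0 > 0`; for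
`1 ≤ x < x0`: `T x ≥ T x0 > 0`.
(mean) `∫⁻ k, k ∂μD < ⊤`: `∫⁻ k ∂μD ≤ ∑_k P(D > k)` (`k = ∑_{j<k} 1`) and `P(D > k) ≤ C k^(-(p-δ))`
with `p - δ > 1` is summable. (One may also use dyadic blocks.)
(rho) Let `EDr := ∫ j, (j : ℝ) ∂μD > 0`. For `x ≥ 1`,
`ρ.real {k | x ≤ k} = ∑_{k ≥ x} (k+1) P(D = k+1) / EDr ≤ (1/EDr) ∑_{i ≥ 0} 2^(i+1) x * P(D > 2^i x)`
(if `j = k + 1 > x`, let `i` with `2^i x < j ≤ 2^(i+1) x`), `≤ (1/EDr) ∑_i 2^(i+1) x C (2^i x)^(-(p-δ))`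
`= C'' x^(1-(p-δ))` with `∑_i 2^{i(1-(p-δ))} < ∞`; here `a = p - 1 - δ = τ - 2 - δ > 0`.
`hρ` says that `ρ` is the size-biased law. (`ρ.real {k | x ≤ k}` is the integral of the indicator:
`∑'` over `k`, `Measure.real` on `ℕ`; `ρ {k} = ofReal ((k+1) μD.real {k+1} / EDr)`.)
(inf) `μD {k | x < k} > 0` for all `x`, and so for every `m`: `ρ {k | k + 1 < m} < 1` since
`ρ {k | m ≤ k + 1} > 0`.
-/

set_option linter.unusedSectionVars false

open MeasureTheory Filter Topology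
open scoped ENNReal

namespace Pool.Agent.H949.DX

/-- The degree law: `P(D > x) = L(x) x^(-(τ - 1))` for large `x`, with `L` slowly varying. -/
def SlowVar (L : ℝ → ℝ) : Prop :=
  (∀ᶠ x : ℝ in atTop, 0 < L x) ∧
    ∀ a : ℝ, 0 < a → Tendsto (fun x => L (a * x) / L x) atTop (𝓝 1)

namespace TailAux

section

variable (μD : Measure ℕ) [IsProbabilityMeasure μD]

/-- the tail -/
noncomputable def TT (x : ℝ) : ℝ := μD.real {k : ℕ | x < (k : ℝ)}

theorem TT_anti {x y : ℝ} (h : x ≤ y) : TT μD y ≤ TT μD x := by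
  refine measureReal_mono (fun k hk => ?_)
  exact lt_of_le_of_lt h hk

theorem TT_nonneg (x : ℝ) : 0 ≤ TT μD x := measureReal_nonneg

theorem TT_le_one (x : ℝ) : TT μD x ≤ 1 := measureReal_le_one

theorem step {L : ℝ → ℝ} {τ : ℝ} (hL : SlowVar L)
    (htail : ∀ᶠ x : ℝ in atTop, μD.real {k : ℕ | x < (k : ℝ)} = L x * x ^ (-(τ - 1)))
    {δ : ℝ} (hδ : 0 < δ) : ∃ x0 : ℝ, 1 ≤ x0 ∧ ∀ x : ℝ, x0 ≤ x → 0 < TT μD x ∧
      TT μD (2 * x) ≤ 2 ^ (-(τ - 1 - δ)) * TT μD x ∧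
      2 ^ (-(τ - 1 + δ)) * TT μD x ≤ TT μD (2 * x) := by
  have h2 : (1 : ℝ) < 2 ^ δ := Real.one_lt_rpow (by norm_num) hδ
  have h2' : (2 : ℝ) ^ (-δ) < 1 := Real.rpow_lt_one_of_one_lt_of_neg (by norm_num) (by linarith)
  have e1 := (hL.2 2 (by norm_num)).eventually (Ioo_mem_nhds h2' h2)
  have e2 : ∀ᶠ x : ℝ in atTop,
      μD.real {k : ℕ | 2 * x < (k : ℝ)} = L (2 * x) * (2 * x) ^ (-(τ - 1)) :=
    (tendsto_id.const_mul_atTop (show (0 : ℝ) < 2 by norm_num)).eventually htail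
  obtain ⟨x1, hx1⟩ := (e1.and ((htail.and e2).and hL.1)).exists_forall_of_atTop
  refine ⟨max 1 x1, le_max_left _ _, fun x hx => ?_⟩
  obtain ⟨⟨h3, h4⟩, ⟨h5, h6⟩, h7⟩ := hx1 x ((le_max_right _ _).trans hx)
  have hx0 : 0 < x := lt_of_lt_of_le one_pos ((le_max_left _ _).trans hx)
  have h8 : TT μD x = L x * x ^ (-(τ - 1)) := h5
  have h9 : TT μD (2 * x) = (L (2 * x) / L x) * 2 ^ (-(τ - 1)) * TT μD x := by
    have : TT μD (2 * x) = L (2 * x) * (2 * x) ^ (-(τ - 1)) := h6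
    rw [this, h8, Real.mul_rpow (by norm_num) hx0.le]
    field_simp
  have h10 : 0 < TT μD x := by
    rw [h8]
    positivity
  refine ⟨h10, ?_, ?_⟩
  · rw [h9]
    refine mul_le_mul_of_nonneg_right ?_ h10.le
    have h11 : (2 : ℝ) ^ (-(τ - 1 - δ)) = 2 ^ δ * 2 ^ (-(τ - 1)) := by
      rw [← Real.rpow_add (by norm_num)]
      congr 1
      ring
    rw [h11]
    exact mul_le_mul_of_nonneg_right h4.le (by positivity)
  · rw [h9]
    refine mul_le_mul_of_nonneg_right ?_ h10.le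
    have h11 : (2 : ℝ) ^ (-(τ - 1 + δ)) = 2 ^ (-δ) * 2 ^ (-(τ - 1)) := by
      rw [← Real.rpow_add (by norm_num)]
      congr 1
      ring
    rw [h11]
    exact mul_le_mul_of_nonneg_right h3.le (by positivity)

theorem two_pow_rpow (q : ℝ) (j : ℕ) : ((2:ℝ) ^ (-q)) ^ j = ((2:ℝ) ^ j) ^ (-q) := by
  rw [← Real.rpow_natCast, ← Real.rpow_natCast, ← Real.rpow_mul (by norm_num),
    ← Real.rpow_mul (by norm_num)]
  congr 1
  ring

/-- dyadic blocks -/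
theorem exists_block {x0 x : ℝ} (hx0 : 1 ≤ x0) (hx : x0 ≤ x) :
    ∃ j : ℕ, 2 ^ j * x0 ≤ x ∧ x < 2 ^ (j + 1) * x0 := by
  have hex : ∃ n : ℕ, x < 2 ^ n * x0 := by
    obtain ⟨n, hn⟩ := pow_unbounded_of_one_lt x (show (1 : ℝ) < 2 by norm_num)
    exact ⟨n, hn.trans_le (le_mul_of_one_le_right (by positivity) hx0)⟩
  classical
  have h3 := Nat.find_spec hex
  have h4 : Nat.find hex ≠ 0 := by
    intro h0
    rw [h0] at h3
    simp at h3
    linarith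
  obtain ⟨n, hn⟩ := Nat.exists_eq_succ_of_ne_zero h4
  refine ⟨n, ?_, ?_⟩
  · have := Nat.find_min hex (m := n) (by omega)
    exact not_lt.1 this
  · rw [hn] at h3
    exact h3

/-- dyadic blocks, other end points -/
theorem exists_block' {x y : ℝ} (hx : 1 ≤ x) (hy : x < y) :
    ∃ j : ℕ, 2 ^ j * x < y ∧ y ≤ 2 ^ (j + 1) * x := by
  have hex : ∃ n : ℕ, y ≤ 2 ^ n * x := by
    obtain ⟨n, hn⟩ := pow_unbounded_of_one_lt y (show (1 : ℝ) < 2 by norm_num)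
    exact ⟨n, hn.le.trans (le_mul_of_one_le_right (by positivity) hx)⟩
  classical
  have h3 := Nat.find_spec hex
  have h4 : Nat.find hex ≠ 0 := by
    intro h0
    rw [h0] at h3
    simp at h3
    linarith
  obtain ⟨n, hn⟩ := Nat.exists_eq_succ_of_ne_zero h4
  refine ⟨n, ?_, ?_⟩
  · have := Nat.find_min hex (m := n) (by omega)
    exact not_le.1 this
  · rw [hn] at h3
    exact h3

theorem upper {L : ℝ → ℝ} {τ : ℝ} (hL : SlowVar L)
    (htail : ∀ᶠ x : ℝ in atTop, μD.real {k : ℕ | x < (k : ℝ)} = L x * x ^ (-(τ - 1)))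
    {δ : ℝ} (hδ : 0 < δ) : ∃ C : ℝ, 1 ≤ C ∧ ∀ x : ℝ, 1 ≤ x →
    TT μD x ≤ C * x ^ (-(τ - 1 - δ)) := by
  obtain ⟨q, hq⟩ : ∃ q, q = τ - 1 - δ := ⟨_, rfl⟩
  rw [← hq]
  rcases le_or_gt q 0 with h | h
  · refine ⟨1, le_rfl, fun x hx => ?_⟩
    rw [one_mul]
    exact (TT_le_one μD x).trans (Real.one_le_rpow hx (by linarith))
  · obtain ⟨x0, hx0, hs⟩ := step μD hL htail hδ
    rw [← hq] at hs
    have iter : ∀ j : ℕ, TT μD (2 ^ j * x0) ≤ ((2:ℝ) ^ (-q)) ^ j := by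
      intro j
      induction j with
      | zero => rw [pow_zero, pow_zero]; exact TT_le_one _ _
      | succ j ih =>
        have h3 : x0 ≤ 2 ^ j * x0 := le_mul_of_one_le_left (by linarith) (one_le_pow₀ (by norm_num))
        have h5 : (2 : ℝ) ^ (j + 1) * x0 = 2 * (2 ^ j * x0) := by ring
        rw [h5, pow_succ']
        exact (hs _ h3).2.1.trans (mul_le_mul_of_nonneg_left ih (by positivity))
    refine ⟨(2 * x0) ^ q, Real.one_le_rpow (by linarith) h.le, fun x hx => ?_⟩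
    have hxp : 0 < x := by linarith
    have h6 : (2 * x0) ^ q * x ^ (-q) = (x / (2 * x0)) ^ (-q) := by
      rw [Real.div_rpow hxp.le (by positivity), Real.rpow_neg (by positivity : 0 ≤ 2 * x0),
        div_inv_eq_mul, mul_comm]
    rw [h6]
    rcases lt_or_ge x x0 with h7 | h7
    · refine (TT_le_one μD x).trans ?_
      apply Real.one_le_rpow_of_pos_of_le_one_of_nonpos (by positivity) _ (by linarith)
      rw [div_le_one (by positivity)]
      linarith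
    · obtain ⟨j, hj1, hj2⟩ := exists_block hx0 h7
      refine (TT_anti μD hj1).trans ((iter j).trans ?_)
      rw [two_pow_rpow]
      apply Real.rpow_le_rpow_of_nonpos (by positivity) _ (by linarith)
      rw [div_le_iff₀ (by positivity)]
      have : (2 : ℝ) ^ (j + 1) * x0 = 2 ^ j * (2 * x0) := by ring
      linarith

theorem lower {L : ℝ → ℝ} {τ : ℝ} (hτ : 1 < τ) (hL : SlowVar L)
    (htail : ∀ᶠ x : ℝ in atTop, μD.real {k : ℕ | x < (k : ℝ)} = L x * x ^ (-(τ - 1)))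
    {δ : ℝ} (hδ : 0 < δ) : ∃ c : ℝ, 0 < c ∧ ∀ x : ℝ, 1 ≤ x →
    c * x ^ (-(τ - 1 + δ)) ≤ TT μD x := by
  obtain ⟨q, hq⟩ : ∃ q, q = τ - 1 + δ := ⟨_, rfl⟩
  have hq0 : 0 < q := by rw [hq]; linarith
  obtain ⟨x0, hx0, hs⟩ := step μD hL htail hδ
  rw [← hq] at hs ⊢
  have h0 : 0 < TT μD x0 := (hs x0 le_rfl).1
  have iter : ∀ j : ℕ, ((2:ℝ) ^ (-q)) ^ j * TT μD x0 ≤ TT μD (2 ^ j * x0) := by
    intro j
    induction j with
    | zero => rw [pow_zero, pow_zero, one_mul, one_mul]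
    | succ j ih =>
      have h3 : x0 ≤ 2 ^ j * x0 := le_mul_of_one_le_left (by linarith) (one_le_pow₀ (by norm_num))
      have h5 : (2 : ℝ) ^ (j + 1) * x0 = 2 * (2 ^ j * x0) := by ring
      rw [h5, pow_succ', mul_assoc]
      exact (mul_le_mul_of_nonneg_left ih (by positivity)).trans (hs _ h3).2.2
  refine ⟨2 ^ (-q) * TT μD x0, by positivity, fun x hx => ?_⟩
  have hxp : 0 < x := by linarith
  have h6 : (2 : ℝ) ^ (-q) * TT μD x0 * x ^ (-q) = (2 * x) ^ (-q) * TT μD x0 := by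
    rw [Real.mul_rpow (by norm_num) hxp.le]
    ring
  rw [h6]
  rcases lt_or_ge x x0 with h7 | h7
  · refine le_trans ?_ (TT_anti μD h7.le)
    have : (2 * x) ^ (-q) ≤ 1 := Real.rpow_le_one_of_one_le_of_nonpos (by linarith) (by linarith)
    nlinarith
  · obtain ⟨j, hj1, hj2⟩ := exists_block hx0 h7
    refine le_trans ?_ ((iter (j + 1)).trans (TT_anti μD hj2.le))
    refine mul_le_mul_of_nonneg_right ?_ h0.le
    rw [two_pow_rpow]
    apply Real.rpow_le_rpow_of_nonpos (by positivity) _ (by linarith)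
    have : (2 : ℝ) ^ (j + 1) = 2 * 2 ^ j := by ring
    rw [this]
    have h8 : (2:ℝ) ^ j ≤ x := le_trans (le_mul_of_one_le_right (by positivity) hx0) hj1
    linarith

theorem measure_eq (x : ℝ) : μD {k : ℕ | x < (k : ℝ)} = ENNReal.ofReal (TT μD x) :=
  (ofReal_measureReal).symm

/-- the tail of the expectation -/
theorem lint_tail {C q : ℝ} (hC : 0 ≤ C) (hq : 1 < q)
    (hT : ∀ x : ℝ, 1 ≤ x → TT μD x ≤ C * x ^ (-q)) (x : ℝ) (hx : 1 ≤ x) :
    ∫⁻ k, Set.indicator {k : ℕ | x < (k : ℝ)} (fun k => (k : ℝ≥0∞)) k ∂μD ≤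
      ENNReal.ofReal (2 * C / (1 - 2 ^ (1 - q)) * x ^ (1 - q)) := by
  have hx0 : 0 < x := by linarith
  have hr0 : (0:ℝ) < 2 ^ (1 - q) := by positivity
  have hr1 : (2:ℝ) ^ (1 - q) < 1 :=
    Real.rpow_lt_one_of_one_lt_of_neg (by norm_num) (by linarith)
  have hpt : ∀ k : ℕ, Set.indicator {k : ℕ | x < (k : ℝ)} (fun k => (k : ℝ≥0∞)) k ≤
      ∑' j : ℕ, Set.indicator {k : ℕ | 2 ^ j * x < (k : ℝ)}
        (fun _ => ENNReal.ofReal (2 ^ (j + 1) * x)) k := by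
    intro k
    by_cases h : x < (k : ℝ)
    · rw [Set.indicator_of_mem (by exact h)]
      obtain ⟨n, hn1, hn2⟩ := exists_block' hx h
      refine le_trans ?_ (ENNReal.le_tsum n)
      rw [Set.indicator_of_mem (by exact hn1), ← ENNReal.ofReal_natCast]
      exact ENNReal.ofReal_le_ofReal hn2
    · rw [Set.indicator_of_notMem (by exact h)]
      exact zero_le
  refine (lintegral_mono hpt).trans ?_
  rw [lintegral_tsum fun j => (measurable_of_countable _).aemeasurable]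
  have hterm : ∀ j : ℕ, ∫⁻ k, Set.indicator {k : ℕ | 2 ^ j * x < (k : ℝ)}
        (fun _ => ENNReal.ofReal (2 ^ (j + 1) * x)) k ∂μD ≤
        ENNReal.ofReal (2 * C * x ^ (1 - q) * (2 ^ (1 - q)) ^ j) := by
    intro j
    rw [lintegral_indicator_const (MeasurableSet.of_discrete), measure_eq,
      ← ENNReal.ofReal_mul (by positivity)]
    refine ENNReal.ofReal_le_ofReal ?_
    have h1 : (1:ℝ) ≤ 2 ^ j * x := by
      have : (1:ℝ) ≤ 2 ^ j := one_le_pow₀ (by norm_num)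
      nlinarith
    refine (mul_le_mul_of_nonneg_left (hT _ h1) (by positivity)).trans (le_of_eq ?_)
    have h2 : ((2:ℝ) ^ (1 - q)) ^ j = 2 ^ j * (2 ^ j) ^ (-q) := by
      rw [← two_pow_rpow, ← mul_pow]
      congr 1
      rw [sub_eq_add_neg, Real.rpow_add (by norm_num), Real.rpow_one]
    have h3 : x ^ (1 - q) = x * x ^ (-q) := by
      rw [sub_eq_add_neg, Real.rpow_add hx0, Real.rpow_one]
    rw [h2, h3, Real.mul_rpow (by positivity) hx0.le]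
    ring
  refine (ENNReal.tsum_le_tsum hterm).trans (le_of_eq ?_)
  rw [← ENNReal.ofReal_tsum_of_nonneg (fun j => by positivity)
    ((summable_geometric_of_lt_one hr0.le hr1).mul_left _), tsum_mul_left,
    tsum_geometric_of_lt_one hr0.le hr1]
  congr 1
  rw [div_eq_mul_inv]
  ring

end

section rho

variable (μD : Measure ℕ) [IsProbabilityMeasure μD] (ρ : Measure ℕ) [IsProbabilityMeasure ρ]
  (hρ : ∀ k : ℕ, ρ {k} = ENNReal.ofReal (((k : ℝ) + 1) * μD.real {k + 1} / ∫ j, (j : ℝ) ∂μD))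

include hρ

theorem mean_pos : 0 < ∫ j, (j : ℝ) ∂μD := by
  have h0 : 0 ≤ ∫ j, (j : ℝ) ∂μD := integral_nonneg fun j => Nat.cast_nonneg j
  refine lt_of_le_of_ne h0 fun h => ?_
  have h1 : ∀ k, ρ {k} = 0 := by
    intro k
    rw [hρ, ← h, div_zero, ENNReal.ofReal_zero]
  have h2 : ρ Set.univ = 0 := by
    rw [← Set.iUnion_of_singleton ℕ]
    exact measure_iUnion_null h1
  rw [measure_univ] at h2
  exact one_ne_zero h2

theorem rho_le (x : ℝ) : ρ {k : ℕ | x ≤ (k : ℝ)} ≤ ENNReal.ofReal (1 / ∫ j, (j : ℝ) ∂μD) *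
    ∫⁻ k, Set.indicator {k : ℕ | x < (k : ℝ)} (fun k => (k : ℝ≥0∞)) k ∂μD := by
  have hE := mean_pos μD ρ hρ
  rw [lintegral_countable', ← Measure.tsum_indicator_apply_singleton ρ _ MeasurableSet.of_discrete,
    ← ENNReal.tsum_mul_left]
  refine le_trans ?_ (ENNReal.tsum_comp_le_tsum_of_injective (f := fun k : ℕ => k + 1)
    (add_left_injective 1) _)
  refine ENNReal.tsum_le_tsum fun k => ?_
  by_cases h : x ≤ (k : ℝ)
  · have h1 : x < ((k + 1 : ℕ) : ℝ) := by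
      push_cast
      linarith
    rw [Set.indicator_of_mem (by exact h), Set.indicator_of_mem (by exact h1), hρ]
    have h2 : μD {k + 1} = ENNReal.ofReal (μD.real {k + 1}) := (ofReal_measureReal).symm
    rw [h2, ← ENNReal.ofReal_natCast, ← ENNReal.ofReal_mul (by positivity),
      ← ENNReal.ofReal_mul (by positivity)]
    refine ENNReal.ofReal_le_ofReal (le_of_eq ?_)
    push_cast
    ring
  · rw [Set.indicator_of_notMem (by exact h)]
    exact zero_le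

end rho

end TailAux

open TailAux

section

variable (μD : Measure ℕ) [IsProbabilityMeasure μD] (L : ℝ → ℝ) (τ : ℝ) (hτ2 : 2 < τ)
  (hτ3 : τ < 3) (hL : SlowVar L)
  (htail : ∀ᶠ x : ℝ in atTop, μD.real {k : ℕ | x < (k : ℝ)} = L x * x ^ (-(τ - 1)))

include hτ2 hτ3 hL htail

theorem tail_upper {δ : ℝ} (hδ : 0 < δ) : ∃ C : ℝ, 1 ≤ C ∧ ∀ x : ℝ, 1 ≤ x →
    μD.real {k : ℕ | x < (k : ℝ)} ≤ C * x ^ (-(τ - 1 - δ)) :=
  upper μD hL htail hδ

theorem tail_lower {δ : ℝ} (hδ : 0 < δ) : ∃ c : ℝ, 0 < c ∧ ∀ x : ℝ, 1 ≤ x →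
    c * x ^ (-(τ - 1 + δ)) ≤ μD.real {k : ℕ | x < (k : ℝ)} :=
  lower μD (by linarith) hL htail hδ

theorem mean_finite : Integrable (fun k : ℕ => (k : ℝ)) μD := by
  obtain ⟨C, hC, hT⟩ := upper μD hL htail (δ := (τ - 2) / 2) (by linarith)
  have h1 := lint_tail μD (by linarith) (q := τ - 1 - (τ - 2) / 2) (by linarith) hT 1 le_rfl
  refine ⟨(measurable_of_countable _).aestronglyMeasurable, ?_⟩
  have h2 : ∫⁻ k : ℕ, ‖(k : ℝ)‖ₑ ∂μD ≤ ∫⁻ k, (1 + Set.indicator {k : ℕ | (1:ℝ) < (k : ℝ)}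
      (fun k => (k : ℝ≥0∞)) k) ∂μD := by
    refine lintegral_mono fun k => ?_
    have h3 : ‖(k : ℝ)‖ₑ = (k : ℝ≥0∞) := by
      rw [Real.enorm_eq_ofReal (Nat.cast_nonneg k), ENNReal.ofReal_natCast]
    rw [h3]
    by_cases h : (1:ℝ) < (k : ℝ)
    · rw [Set.indicator_of_mem (by exact h)]
      exact le_add_self
    · refine le_trans ?_ le_self_add
      push Not at h
      exact_mod_cast h
  refine lt_of_le_of_lt h2 ?_
  rw [lintegral_add_left measurable_const, lintegral_const, measure_univ, mul_one]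
  exact ENNReal.add_lt_top.2 ⟨ENNReal.one_lt_top, h1.trans_lt ENNReal.ofReal_lt_top⟩

theorem rho_tail (hD2 : μD {k | k < 2} = 0) (ρ : Measure ℕ) [IsProbabilityMeasure ρ]
    (hρ : ∀ k : ℕ, ρ {k} = ENNReal.ofReal (((k : ℝ) + 1) * μD.real {k + 1} / ∫ j, (j : ℝ) ∂μD))
    {δ : ℝ} (hδ : 0 < δ) (hδ2 : δ < τ - 2) : ∃ C : ℝ, 0 ≤ C ∧ ∀ x : ℝ, 1 ≤ x →
    ρ.real {k : ℕ | x ≤ (k : ℝ)} ≤ C * x ^ (-(τ - 2 - δ)) := by
  obtain ⟨C, hC, hT⟩ := upper μD hL htail hδ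
  have hE := mean_pos μD ρ hρ
  have hr1 : (2:ℝ) ^ (1 - (τ - 1 - δ)) < 1 :=
    Real.rpow_lt_one_of_one_lt_of_neg (by norm_num) (by linarith)
  refine ⟨1 / (∫ j, (j : ℝ) ∂μD) * (2 * C / (1 - 2 ^ (1 - (τ - 1 - δ)))), ?_, fun x hx => ?_⟩
  · have : 0 < 1 - (2:ℝ) ^ (1 - (τ - 1 - δ)) := by linarith
    positivity
  · have h1 := lint_tail μD (by linarith) (q := τ - 1 - δ) (by linarith) hT x hx
    have h2 := (rho_le μD ρ hρ x).trans (mul_le_mul_right h1 _)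
    rw [← ENNReal.ofReal_mul (by positivity)] at h2
    have h3 : 0 < 1 - (2:ℝ) ^ (1 - (τ - 1 - δ)) := by linarith
    have h4 : 1 - (τ - 1 - δ) = -(τ - 2 - δ) := by ring
    refine (ENNReal.toReal_le_of_le_ofReal (by positivity) h2).trans (le_of_eq ?_)
    rw [h4]
    ring

theorem rho_unbdd (hD2 : μD {k | k < 2} = 0) (ρ : Measure ℕ) [IsProbabilityMeasure ρ]
    (hρ : ∀ k : ℕ, ρ {k} = ENNReal.ofReal (((k : ℝ) + 1) * μD.real {k + 1} / ∫ j, (j : ℝ) ∂μD))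
    (m : ℕ) : ρ {k : ℕ | k + 1 < m} < 1 := by
  have hE := mean_pos μD ρ hρ
  obtain ⟨c, hc, hT⟩ := lower μD (by linarith : 1 < τ) hL htail (δ := 1) one_pos
  have h1 : 0 < TT μD (m + 1) := by
    have h2 := hT (m + 1) (by have : (0:ℝ) ≤ m := Nat.cast_nonneg m; linarith)
    refine lt_of_lt_of_le ?_ h2
    have : (0:ℝ) < (m : ℝ) + 1 := by positivity
    positivity
  obtain ⟨j, hj1, hj2⟩ : ∃ j : ℕ, (m : ℝ) + 1 < j ∧ μD {j} ≠ 0 := by
    by_contra hcon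
    push Not at hcon
    have h3 : μD {k : ℕ | (m : ℝ) + 1 < (k : ℝ)} = 0 := by
      have h4 : {k : ℕ | (m : ℝ) + 1 < (k : ℝ)} ⊆ ⋃ k : {k : ℕ // (m : ℝ) + 1 < (k : ℝ)}, {k.1} := by
        intro k hk
        exact Set.mem_iUnion.2 ⟨⟨k, hk⟩, rfl⟩
      exact measure_mono_null h4 (measure_iUnion_null fun k => hcon k.1 k.2)
    rw [measure_eq] at h3
    rw [ENNReal.ofReal_eq_zero] at h3
    linarith
  have hj : m + 1 < j := by exact_mod_cast hj1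
  obtain ⟨k, rfl⟩ : ∃ k, j = k + 1 := ⟨j - 1, by omega⟩
  have h5 : ρ {k} ≠ 0 := by
    rw [hρ]
    have h6 : 0 < μD.real {k + 1} := by
      refine lt_of_le_of_ne measureReal_nonneg fun h => hj2 ?_
      rw [← ofReal_measureReal (μ := μD) (s := {k + 1}), ← h, ENNReal.ofReal_zero]
    exact (ENNReal.ofReal_pos.2 (by positivity)).ne'
  have h7 : ρ {k : ℕ | k + 1 < m} ≤ ρ ({k}ᶜ) := by
    refine measure_mono fun i hi hik => ?_
    rw [Set.mem_singleton_iff] at hik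
    have : i + 1 < m := hi
    omega
  refine lt_of_le_of_lt h7 ?_
  rw [prob_compl_eq_one_sub MeasurableSet.of_discrete]
  exact ENNReal.sub_lt_self ENNReal.one_ne_top one_ne_zero h5

theorem rho_zero (hD2 : μD {k | k < 2} = 0) (ρ : Measure ℕ) [IsProbabilityMeasure ρ]
    (hρ : ∀ k : ℕ, ρ {k} = ENNReal.ofReal (((k : ℝ) + 1) * μD.real {k + 1} / ∫ j, (j : ℝ) ∂μD)) :
    ρ {0} = 0 := by
  rw [hρ]
  have h1 : μD {0 + 1} = 0 := by
    refine measure_mono_null ?_ hD2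
    rintro k rfl
    show 0 + 1 < 2
    norm_num
  have h2 : μD.real {0 + 1} = 0 := by
    rw [measureReal_def, h1, ENNReal.toReal_zero]
  rw [h2, mul_zero, zero_div, ENNReal.ofReal_zero]

theorem rho_one (hD2 : μD {k | k < 2} = 0) (ρ : Measure ℕ) [IsProbabilityMeasure ρ]
    (hρ : ∀ k : ℕ, ρ {k} = ENNReal.ofReal (((k : ℝ) + 1) * μD.real {k + 1} / ∫ j, (j : ℝ) ∂μD)) :
    ρ {1} ≠ 1 := by
  have h1 := rho_unbdd μD L τ hτ2 hτ3 hL htail hD2 ρ hρ 3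
  have h2 : ρ {1} ≤ ρ {k : ℕ | k + 1 < 3} := by
    refine measure_mono ?_
    rintro k rfl
    show 1 + 1 < 3
    norm_num
  exact (h2.trans_lt h1).ne

end

end Pool.Agent.H949.DX
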