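import Pool.Agent.H949.DX.BP2
import Pool.Agent.H949.DX.Lim
import Pool.Agent.H949.DX.Quant
import Pool.Agent.H949.DX.Tail
import Pool.Agent.H949.DX.E3
import Pool.Agent.H949.CM.Ana

/-!
# Choice of the constants
-/

set_option linter.unusedSectionVars false
set_option linter.unusedVariables false

open MeasureTheory Filter Topology
open scoped ENNReal

namespace Pool.Agent.H949.DX

open Pool.Agent.H949.CM Pool.Agent.H949.CX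

theorem bern' {T u : ℝ≥0∞} (hT : T ≤ 1) (h : 1 ≤ T + u) (k : ℕ) : 1 ≤ T ^ k + k * u := by
  induction k with
  | zero => simp
  | succ k ih =>
    calc 1 ≤ T + u := h
      _ = T * 1 + u := by rw [mul_one]
      _ ≤ T * (T ^ k + k * u) + u := by gcongr
      _ = T ^ (k + 1) + T * (k * u) + u := by ring
      _ ≤ T ^ (k + 1) + 1 * (k * u) + u := by gcongr
      _ = T ^ (k + 1) + ((k + 1 : ℕ) : ℝ≥0∞) * u := by push_cast; ring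

/-- A finite constant times a small number is small. -/
theorem small_mul {C D : ℝ≥0∞} (hC : C ≠ ⊤) (hD : 0 < D) :
    ∃ u : ℝ≥0∞, 0 < u ∧ u ≠ ⊤ ∧ C * u ≤ D := by
  by_cases hDt : D = ⊤
  · exact ⟨1, one_pos, ENNReal.one_ne_top, by rw [hDt]; exact le_top⟩
  · refine ⟨D / (C + 1), ENNReal.div_pos hD.ne' (ENNReal.add_ne_top.2 ⟨hC, ENNReal.one_ne_top⟩),
      ENNReal.div_ne_top hDt (by simp), ?_⟩
    calc C * (D / (C + 1)) ≤ (C + 1) * (D / (C + 1)) := by gcongr; exact le_self_add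
      _ ≤ D := ENNReal.mul_div_le

theorem rho_tail_tendsto (ρ : Measure ℕ) [IsProbabilityMeasure ρ] :
    Tendsto (fun m : ℕ => ρ {k : ℕ | m ≤ k + 1}) atTop (𝓝 0) := by
  have h1 := tendsto_measure_iInter_atTop (μ := ρ) (s := fun m : ℕ => {k : ℕ | m ≤ k + 1})
    (fun m => (MeasurableSet.of_discrete).nullMeasurableSet)
    (by
      intro m m' hmm k hk
      exact le_trans hmm hk) ⟨0, measure_ne_top _ _⟩
  have h2 : ⋂ m : ℕ, {k : ℕ | m ≤ k + 1} = ∅ := by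
    ext k
    simp only [Set.mem_iInter, Set.mem_ofPred_eq, Set.mem_empty_iff_false, iff_false, not_forall]
    exact ⟨k + 2, by omega⟩
  rw [h2, measure_empty] at h1
  exact h1

/-- The first constants. -/
theorem stage_A (ρ : Measure ℕ) [IsProbabilityMeasure ρ] (μR μB : Measure ℝ)
    [IsProbabilityMeasure μR] [IsProbabilityMeasure μB] (hρ : ρ {0} = 0) (hρ1 : ρ {1} ≠ 1)
    {s0 : ℝ} {c0 : ℝ≥0∞} (hc0 : c0 < 1) (h0 : ∀ g, NR ρ μR g s0 ≤ c0)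
    (hB : ∀ s, Tendsto (fun g => NR ρ μB g s) atTop (𝓝 1)) {D : ℝ≥0∞} (hD : 0 < D)
    (hDt : D ≠ ⊤) (m3 : ℕ) (hm3 : 1 ≤ m3) :
    ∃ (x : ℝ) (η1 θ : ℝ≥0∞) (gb m2 j m1 : ℕ), 0 ≤ x ∧ 0 < η1 ∧ η1 ≤ D ∧ η1 ≤ 1 / 2 ∧
      θ = ρ {1} + 2 * η1 ∧ θ < 1 ∧ (∀ g, NR ρ μR g x ≤ η1 / 2) ∧ 1 ≤ gb ∧ m3 ≤ m2 ∧ 1 ≤ m1 ∧
      (∀ k < m3, 1 ≤ (TR ρ μB m2 0 gb (2 * x + 3)) ^ k + D / 2) ∧
      (m3 : ℝ≥0∞) * ((m2 : ℝ≥0∞) + 1) ^ gb * θ ^ j ≤ D / 4 ∧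
      (m3 : ℝ≥0∞) * ((m2 : ℝ≥0∞) + 1) ^ gb * (1 - θ)⁻¹ * ρ {k : ℕ | m1 ≤ k + 1} ≤ D / 4 := by
  have hρ1' : ρ {1} < 1 := lt_of_le_of_ne prob_le_one hρ1
  have hpos1 : 0 < 1 - ρ {1} := tsub_pos_of_lt hρ1'
  set η1 : ℝ≥0∞ := min D (min (1 / 2) ((1 - ρ {1}) / 4)) with hη1
  have hη1p : 0 < η1 := by
    refine lt_min hD (lt_min (by norm_num) ?_)
    exact ENNReal.div_pos hpos1.ne' (by norm_num)
  have hη1D : η1 ≤ D := min_le_left _ _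
  have hη12 : η1 ≤ 1 / 2 := le_trans (min_le_right _ _) (min_le_left _ _)
  have hη14 : η1 ≤ (1 - ρ {1}) / 4 := le_trans (min_le_right _ _) (min_le_right _ _)
  have hθ1 : ρ {1} + 2 * η1 < 1 := by
    have h1 : 2 * η1 ≤ (1 - ρ {1}) / 2 := by
      calc 2 * η1 ≤ 2 * ((1 - ρ {1}) / 4) := by gcongr
        _ = (1 - ρ {1}) / 2 := by
            rw [← mul_div_assoc, mul_comm, ENNReal.div_eq_div_iff (by norm_num) (by norm_num)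
              (by norm_num) (by norm_num)]
            ring
    have h2 : (1 - ρ {1}) / 2 < 1 - ρ {1} :=
      ENNReal.half_lt_self hpos1.ne' (ne_top_of_le_ne_top ENNReal.one_ne_top tsub_le_self)
    calc ρ {1} + 2 * η1 ≤ ρ {1} + (1 - ρ {1}) / 2 := by gcongr
      _ < ρ {1} + (1 - ρ {1}) := ENNReal.add_lt_add_left (measure_ne_top _ _) h2
      _ = 1 := add_tsub_cancel_of_le prob_le_one
  set θ : ℝ≥0∞ := ρ {1} + 2 * η1 with hθ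
  obtain ⟨x, hx0, hx⟩ := red_small ρ μR hρ hρ1 hc0 h0 (η := η1 / 2)
    (ENNReal.half_pos hη1p.ne')
  have hm30 : (m3 : ℝ≥0∞) ≠ 0 := by exact_mod_cast (by omega : m3 ≠ 0)
  have hm3t : (m3 : ℝ≥0∞) ≠ ⊤ := ENNReal.natCast_ne_top _
  set u : ℝ≥0∞ := D / 2 / m3 with hu
  have hup : 0 < u := ENNReal.div_pos (ENNReal.half_pos hD.ne').ne' hm3t
  have hu2 : 0 < u / 2 := ENNReal.half_pos hup.ne'
  have hut : u ≠ ⊤ := ENNReal.div_ne_top (ENNReal.div_ne_top hDt (by norm_num)) hm30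
  -- gb
  obtain ⟨gb, hgb1, hgb2⟩ : ∃ gb : ℕ, 1 ≤ gb ∧ 1 ≤ NR ρ μB gb (2 * x + 3) + u / 2 := by
    have h1 := hB (2 * x + 3)
    have h2 : ∀ᶠ g : ℕ in atTop, 1 - u / 2 ≤ NR ρ μB g (2 * x + 3) :=
      h1.eventually (le_mem_nhds (ENNReal.sub_lt_self ENNReal.one_ne_top one_ne_zero hu2.ne'))
    obtain ⟨gb, hg1, hg2⟩ := (h2.and (eventually_ge_atTop 1)).exists
    refine ⟨gb, hg2, ?_⟩
    exact tsub_le_iff_right.1 hg1
  -- m2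
  obtain ⟨m2, hm21, hm22⟩ : ∃ m2 : ℕ, m3 ≤ m2 ∧
      NR ρ μB gb (2 * x + 3) ≤ TR ρ μB m2 0 gb (2 * x + 3) + u / 2 := by
    have h1 := TR_zero_tendsto ρ μB gb (2 * x + 3)
    by_cases hN : NR ρ μB gb (2 * x + 3) = 0
    · exact ⟨m3, le_refl _, by rw [hN]; exact bot_le⟩
    · have h2 : ∀ᶠ m : ℕ in atTop, NR ρ μB gb (2 * x + 3) - u / 2 ≤ TR ρ μB m 0 gb (2 * x + 3) :=
        h1.eventually (le_mem_nhds (ENNReal.sub_lt_self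
          (ne_top_of_le_ne_top ENNReal.one_ne_top (NR_le_one _ _)) hN hu2.ne'))
      obtain ⟨m2, hm1, hm2⟩ := (h2.and (eventually_ge_atTop m3)).exists
      exact ⟨m2, hm2, tsub_le_iff_right.1 hm1⟩
  have hT : 1 ≤ TR ρ μB m2 0 gb (2 * x + 3) + u := by
    calc 1 ≤ NR ρ μB gb (2 * x + 3) + u / 2 := hgb2
      _ ≤ (TR ρ μB m2 0 gb (2 * x + 3) + u / 2) + u / 2 := by gcongr
      _ = TR ρ μB m2 0 gb (2 * x + 3) + u := by rw [add_assoc, ENNReal.add_halves]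
  have hk : ∀ k < m3, 1 ≤ (TR ρ μB m2 0 gb (2 * x + 3)) ^ k + D / 2 := by
    intro k hk
    refine le_trans (bern' (TR_le_one zero_le _ _) hT k) ?_
    gcongr
    calc (k : ℝ≥0∞) * u ≤ m3 * u := by gcongr
      _ ≤ D / 2 := ENNReal.mul_div_le
  set Ca : ℝ≥0∞ := (m3 : ℝ≥0∞) * ((m2 : ℝ≥0∞) + 1) ^ gb with hCa
  have hCat : Ca ≠ ⊤ := ENNReal.mul_ne_top hm3t
    (ENNReal.pow_ne_top (ENNReal.add_ne_top.2 ⟨ENNReal.natCast_ne_top _, ENNReal.one_ne_top⟩))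
  -- j
  obtain ⟨j, hj⟩ : ∃ j : ℕ, Ca * θ ^ j ≤ D / 4 := by
    obtain ⟨v, hv1, hv2, hv3⟩ := small_mul hCat (show 0 < D / 4 from
      ENNReal.div_pos hD.ne' (by norm_num))
    have h1 : Tendsto (fun j : ℕ => θ ^ j) atTop (𝓝 0) :=
      ENNReal.tendsto_pow_atTop_nhds_zero_of_lt_one hθ1
    obtain ⟨j, hj⟩ := (h1.eventually (ge_mem_nhds hv1)).exists
    exact ⟨j, le_trans (by gcongr) hv3⟩
  -- m1
  have h1θ : 1 - θ ≠ 0 := (tsub_pos_of_lt hθ1).ne'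
  have hCbt : Ca * (1 - θ)⁻¹ ≠ ⊤ := ENNReal.mul_ne_top hCat (ENNReal.inv_ne_top.2 h1θ)
  obtain ⟨m1, hm11, hm12⟩ : ∃ m1 : ℕ, 1 ≤ m1 ∧
      Ca * (1 - θ)⁻¹ * ρ {k : ℕ | m1 ≤ k + 1} ≤ D / 4 := by
    obtain ⟨v, hv1, hv2, hv3⟩ := small_mul hCbt (show 0 < D / 4 from
      ENNReal.div_pos hD.ne' (by norm_num))
    obtain ⟨m1, hm, hm'⟩ := (((rho_tail_tendsto ρ).eventually (ge_mem_nhds hv1)).and
      (eventually_ge_atTop 1)).exists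
    exact ⟨m1, hm', le_trans (by gcongr) hv3⟩
  exact ⟨x, η1, θ, gb, m2, j, m1, hx0, hη1p, hη1D, hη12, rfl, hθ1, hx, hgb1, hm21, hm11, hk, hj,
    hm12⟩

end Pool.Agent.H949.DX
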