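import Pool.Agent.H949.DX.F3

/-!
# Choice of the constants, continued
-/

set_option linter.unusedSectionVars false
set_option linter.unusedVariables false

open MeasureTheory Filter Topology
open scoped ENNReal

namespace Pool.Agent.H949.DX

open Pool.Agent.H949.CM Pool.Agent.H949.CX

/-- The constants for climbing. -/
theorem stage_B {α c1 K1 : ℝ} (hα0 : 0 < α) (hα1 : α < 1) (hc1 : 0 < c1) (hK1 : 1 ≤ K1)
    (μR : Measure ℝ) [IsProbabilityMeasure μR] {B κq : ℝ} (hB : 0 < B) (hκq : 1 < κq)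
    (q : ℕ → ℝ) (hq0 : ∀ i, 0 ≤ q i) (hq : Summable q)
    (hF : ∀ i, Real.exp (-(B * κq ^ i)) ≤ μR.real (Set.Iic (q i)))
    {Cη D : ℝ≥0∞} (hCη : Cη ≠ ⊤) (hD : 0 < D) (M0 : ℕ) :
    ∃ (K0 κ' ρ0 B' c3 δc : ℝ) (q' : ℕ → ℝ), 1 / 2 < ρ0 ∧ ρ0 * (1 + α) < 1 ∧ 1 < κ' ∧
      α * κ' + δc < 1 ∧ 0 ≤ δc ∧ 0 < B' ∧ 0 < c3 ∧ c3 ≤ 1 ∧ c3 ≤ c1 / 4 ∧ 8 ≤ K0 ∧
      (∀ z, K0 ≤ z → Real.exp (-(c3 / (32 * K1) * z ^ (1 - α * κ' - δc))) +
        z * (z ^ κ') ^ (-B') ≤ z ^ (-B')) ∧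
      M0 ≤ ⌊K0⌋₊ ∧ (∀ j, 0 ≤ q' j) ∧ (∀ n, ∑ j ∈ Finset.range n, q' j ≤ 1) ∧
      (∀ j : ℕ, (K0 ^ (κ' ^ j)) ^ (-δc) ≤ μR.real (Set.Iic (q' j))) ∧
      Cη * ENNReal.ofReal (K0 ^ (-B')) ≤ D ∧ ENNReal.ofReal (K0 ^ (-B')) ≤ D := by
  set κ' : ℝ := (1 / α + 1) / 2 with hκ'
  have h1α : 1 < 1 / α := by rw [lt_div_iff₀ hα0]; linarith
  have hκ'1 : 1 < κ' := by rw [hκ']; linarith
  have hακ : α * κ' = (1 + α) / 2 := by rw [hκ']; field_simp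
  set δc : ℝ := (1 - α) / 4 with hδc
  have hδc0 : 0 < δc := by rw [hδc]; linarith
  set ρ0 : ℝ := (1 / 2 + 1 / (1 + α)) / 2 with hρ0
  have hα2 : 1 / 2 < 1 / (1 + α) := one_div_lt_one_div_of_lt (by linarith) (by linarith)
  have hρ1 : 1 / 2 < ρ0 := by rw [hρ0]; linarith
  have hρ2 : ρ0 * (1 + α) < 1 := by
    have h1 : ρ0 < 1 / (1 + α) := by rw [hρ0]; linarith
    rwa [lt_div_iff₀ (by linarith)] at h1
  set B' : ℝ := 2 / (κ' - 1) with hB'def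
  have hκ1' : 0 < κ' - 1 := by linarith
  have hB' : 0 < B' := by positivity
  have hB'' : κ' * B' = B' + 2 := by
    rw [hB'def]; field_simp; ring
  set c3 : ℝ := min (c1 / 4) 1 with hc3def
  have hc3 : 0 < c3 := lt_min (by positivity) one_pos
  obtain ⟨K1', hK1'1, hK1'⟩ := quant_conv μR hB hκq q hq0 hq hF hκ'1 hδc0 one_pos
  have hw : 0 < 1 - α * κ' - δc := by rw [hακ, hδc]; linarith
  have e1 := ev_level (c := c3 / (32 * K1)) (w := 1 - α * κ' - δc) (κ' := κ') (B' := B')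
    (by positivity) hw hB''
  obtain ⟨z0, hz0⟩ := eventually_atTop.1 e1
  have ht : Tendsto (fun K0 : ℝ => ENNReal.ofReal (K0 ^ (-B'))) atTop (𝓝 0) := by
    have := ENNReal.tendsto_ofReal (tendsto_rpow_neg_atTop hB')
    rwa [ENNReal.ofReal_zero] at this
  obtain ⟨u, hu1, hu2, hu3⟩ := small_mul hCη hD
  have e2 : ∀ᶠ K0 : ℝ in atTop, ENNReal.ofReal (K0 ^ (-B')) ≤ u :=
    ht.eventually (ge_mem_nhds hu1)
  have e3 : ∀ᶠ K0 : ℝ in atTop, ENNReal.ofReal (K0 ^ (-B')) ≤ D :=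
    ht.eventually (ge_mem_nhds hD)
  obtain ⟨K0, h1, h2, h3, h4, h5, h6⟩ := ((eventually_ge_atTop (8 : ℝ)).and
      ((eventually_ge_atTop z0).and ((eventually_ge_atTop K1').and
        ((eventually_ge_atTop (M0 : ℝ)).and (e2.and e3))))).exists
  obtain ⟨q', hq'0, hq's, hq'F⟩ := hK1' K0 h3
  refine ⟨K0, κ', ρ0, B', c3, δc, q', hρ1, hρ2, hκ'1, ?_, hδc0.le, hB', hc3, min_le_right _ _,
    min_le_left _ _, h1, fun z hz => hz0 z (le_trans h2 hz), Nat.le_floor h4, hq'0, hq's, hq'F,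
    le_trans (by gcongr) hu3, h6⟩
  linarith

/-- The choice of the sampling error. -/
theorem stage_C {Ce D : ℝ≥0∞} (hCe : Ce ≠ ⊤) (hD : 0 < D) (A : ℝ) (hA : 0 < A) :
    ∃ e0 : ℝ, 0 < e0 ∧ e0 ≤ 1 / 4 ∧ Ce * ENNReal.ofReal (A * e0) ≤ D := by
  obtain ⟨u, hu1, hu2, hu3⟩ := small_mul hCe hD
  have hu : 0 < u.toReal := ENNReal.toReal_pos hu1.ne' hu2
  refine ⟨min (1 / 4) (u.toReal / A), lt_min (by norm_num) (by positivity), min_le_left _ _, ?_⟩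
  refine le_trans ?_ hu3
  have h1 : A * min (1 / 4) (u.toReal / A) ≤ u.toReal := by
    calc A * min (1 / 4) (u.toReal / A) ≤ A * (u.toReal / A) := by
          gcongr
          exact min_le_right _ _
      _ = u.toReal := by field_simp
  have h2 : ENNReal.ofReal (A * min (1 / 4) (u.toReal / A)) ≤ u := by
    refine le_trans (ENNReal.ofReal_le_ofReal h1) ?_
    rw [ENNReal.ofReal_toReal hu2]
  gcongr

/-- The number of generations. -/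
theorem stage_g (ρ : Measure ℕ) [IsProbabilityMeasure ρ] (μR : Measure ℝ)
    [IsProbabilityMeasure μR] (hρ : ρ {0} = 0) {m : ℕ} (hm : ρ {k : ℕ | k + 1 < m} < 1)
    {x : ℝ} {η1 : ℝ≥0∞} (hη1 : 0 < η1) (hx : ∀ g, NR ρ μR g x ≤ η1 / 2) :
    ∃ g : ℕ, TR ρ μR m 1 g x ≤ η1 := by
  have h1 : Tendsto (fun g : ℕ => (ρ {k : ℕ | k + 1 < m}) ^ g) atTop (𝓝 0) :=
    ENNReal.tendsto_pow_atTop_nhds_zero_of_lt_one hm
  obtain ⟨g, hg⟩ := (h1.eventually (ge_mem_nhds (ENNReal.half_pos hη1.ne'))).exists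
  refine ⟨g, le_trans (TR_one_le hρ g x) ?_⟩
  calc (ρ {k : ℕ | k + 1 < m}) ^ g + NR ρ μR g x ≤ η1 / 2 + η1 / 2 := add_le_add hg (hx g)
    _ = η1 := ENNReal.add_halves η1

end Pool.Agent.H949.DX
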