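import Pool.Agent.H949.DX.F2
import Pool.Agent.H949.DX.F4
import Pool.Agent.H949.DX.E4
import Pool.Agent.H949.DX.Emp

/-!
# The estimate for good degrees
-/

set_option linter.unusedSectionVars false
set_option linter.unusedVariables false

open MeasureTheory Finset Filter Topology
open scoped ENNReal

namespace Pool.Agent.H949.DX

open Pool.Agent.H949.CM Pool.Agent.H949.CX

theorem pr_true : pr true = (Prod.fst : ℝ × ℝ → ℝ) := by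
  funext q; simp [pr]

theorem pr_false : pr false = (Prod.snd : ℝ × ℝ → ℝ) := by
  funext q; simp [pr]

/-- The numerical conditions. -/
theorem numeric {m m1 m2 m3 g gb j L : ℕ} {e θ p1 η D T1 TB η1 : ℝ≥0∞}
    (hθ1 : θ < 1) (hT : T1 ≤ η1) (hη1D : η1 ≤ D)
    (a1 : ∀ k < m3, 1 ≤ TB ^ k + D / 2)
    (a2 : (m3 : ℝ≥0∞) * ((m2 : ℝ≥0∞) + 1) ^ gb * θ ^ j ≤ D / 4)
    (a3 : (m3 : ℝ≥0∞) * ((m2 : ℝ≥0∞) + 1) ^ gb * (1 - θ)⁻¹ * p1 ≤ D / 4)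
    (a4 : (m3 : ℝ≥0∞) * ((m2 : ℝ≥0∞) + 1) ^ gb * (1 - θ)⁻¹ * (m1 * (m1 : ℝ≥0∞) ^ j) *
      η ≤ D / 4)
    (a5 : η ≤ D)
    (a6 : ((m3 : ℝ≥0∞) * ((m2 : ℝ≥0∞) + 1) ^ gb * (1 - θ)⁻¹ *
        (1 + (m1 : ℝ≥0∞) ^ j + m1 * (m1 : ℝ≥0∞) ^ j +
          m1 * (((m1 * sz m g : ℕ) : ℝ≥0∞) * 2) * (m1 : ℝ≥0∞) ^ j) +
        (m3 : ℝ≥0∞) * ((m2 : ℝ≥0∞) + 1) ^ gb * (gb * (m1 : ℝ≥0∞) ^ j) +
        m3 * sz m L + 2 * sz m g + 2 * (m3 * sz m2 gb : ℕ)) * e ≤ D / 4) :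
    ∃ δcc : ℝ≥0∞, p1 + e + e * (m1 : ℝ≥0∞) ^ j + e * (m1 * (m1 : ℝ≥0∞) ^ j) +
      m1 * (((m1 * sz m g : ℕ) : ℝ≥0∞) * (2 * e) + η) * (m1 : ℝ≥0∞) ^ j ≤ δcc ∧
      (∀ k < m3, 1 + ((k * sz m2 gb : ℕ) : ℝ≥0∞) * (2 * e) ≤ TB ^ k + D) ∧
      m3 * (((m2 : ℝ≥0∞) + 1) ^ gb * (cb θ δcc j + gb * (e * (m1 : ℝ≥0∞) ^ j))) ≤ D ∧
      m3 * (sz m L * e) ≤ D ∧ T1 + ((sz m g : ℕ) * (2 * e) + η) ≤ 3 * D := by
  set Ca : ℝ≥0∞ := (m3 : ℝ≥0∞) * ((m2 : ℝ≥0∞) + 1) ^ gb with hCa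
  set C2 : ℝ≥0∞ := 1 + (m1 : ℝ≥0∞) ^ j + m1 * (m1 : ℝ≥0∞) ^ j +
          m1 * (((m1 * sz m g : ℕ) : ℝ≥0∞) * 2) * (m1 : ℝ≥0∞) ^ j with hC2
  obtain ⟨δcc, hδcc⟩ : ∃ δcc : ℝ≥0∞, δcc = p1 + (m1 * (m1 : ℝ≥0∞) ^ j) * η + C2 * e := ⟨_, rfl⟩
  have hD4 : D / 4 + D / 4 + D / 4 + D / 4 = D := by
    have : D / 4 + D / 4 + D / 4 + D / 4 = D / 4 * 4 := by ring
    rw [this, ENNReal.div_mul_cancel (by norm_num) (by norm_num)]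
  have a6' : Ca * (1 - θ)⁻¹ * C2 * e + Ca * (gb * (m1 : ℝ≥0∞) ^ j) * e + m3 * sz m L * e +
      2 * sz m g * e + 2 * (m3 * sz m2 gb : ℕ) * e ≤ D / 4 := by
    refine le_trans (le_of_eq ?_) a6
    simp only [add_mul]
  have hb1 : Ca * (1 - θ)⁻¹ * C2 * e + Ca * (gb * (m1 : ℝ≥0∞) ^ j) * e ≤ D / 4 :=
    le_trans (le_trans (le_trans le_self_add le_self_add) le_self_add) a6'
  have hb2 : (m3 : ℝ≥0∞) * sz m L * e ≤ D / 4 := by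
    refine le_trans ?_ a6'
    refine le_trans ?_ le_self_add
    refine le_trans ?_ le_self_add
    exact le_add_self
  have hb3 : 2 * (sz m g : ℝ≥0∞) * e ≤ D / 4 := by
    refine le_trans ?_ a6'
    refine le_trans ?_ le_self_add
    exact le_add_self
  have hb4 : 2 * ((m3 * sz m2 gb : ℕ) : ℝ≥0∞) * e ≤ D / 4 := le_trans le_add_self a6'
  have hD42 : D / 4 ≤ D / 2 := ENNReal.div_le_div_left (by norm_num) D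
  have hDD : D / 4 ≤ D := by
    calc D / 4 ≤ D / 4 + D / 4 + D / 4 + D / 4 := le_add_self
      _ = D := hD4
  refine ⟨δcc, ?_, ?_, ?_, ?_, ?_⟩
  · apply le_of_eq
    rw [hδcc, hC2]
    ring
  · intro k hk
    have h1 : ((k * sz m2 gb : ℕ) : ℝ≥0∞) * (2 * e) ≤ D / 2 := by
      refine le_trans ?_ (le_trans hb4 hD42)
      have h2 : ((k * sz m2 gb : ℕ) : ℝ≥0∞) ≤ ((m3 * sz m2 gb : ℕ) : ℝ≥0∞) := by
        exact_mod_cast Nat.mul_le_mul_right _ hk.le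
      calc ((k * sz m2 gb : ℕ) : ℝ≥0∞) * (2 * e) ≤ ((m3 * sz m2 gb : ℕ) : ℝ≥0∞) * (2 * e) :=
            mul_le_mul' h2 (le_refl _)
        _ = _ := by ring
    calc 1 + ((k * sz m2 gb : ℕ) : ℝ≥0∞) * (2 * e) ≤ (TB ^ k + D / 2) + D / 2 :=
          add_le_add (a1 k hk) h1
      _ = _ := by rw [add_assoc, ENNReal.add_halves]
  · calc m3 * (((m2 : ℝ≥0∞) + 1) ^ gb * (cb θ δcc j + gb * (e * (m1 : ℝ≥0∞) ^ j)))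
        ≤ m3 * (((m2 : ℝ≥0∞) + 1) ^ gb * ((θ ^ j + δcc * (1 - θ)⁻¹) +
            gb * (e * (m1 : ℝ≥0∞) ^ j))) :=
          mul_le_mul' (le_refl _) (mul_le_mul' (le_refl _) (add_le_add (cb_le hθ1 j) (le_refl _)))
      _ = Ca * θ ^ j + Ca * (1 - θ)⁻¹ * p1 + Ca * (1 - θ)⁻¹ * (m1 * (m1 : ℝ≥0∞) ^ j) * η +
            (Ca * (1 - θ)⁻¹ * C2 * e + Ca * (gb * (m1 : ℝ≥0∞) ^ j) * e) := by
          rw [hCa, hδcc]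
          ring
      _ ≤ D / 4 + D / 4 + D / 4 + D / 4 :=
          add_le_add (add_le_add (add_le_add a2 a3) a4) hb1
      _ = D := hD4
  · refine le_trans (le_of_eq ?_) (le_trans hb2 hDD)
    ring
  · calc T1 + ((sz m g : ℕ) * (2 * e) + η)
        ≤ D + (D + D) := by
          refine add_le_add (le_trans hT hη1D) (add_le_add ?_ a5)
          refine le_trans (le_of_eq ?_) (le_trans hb3 hDD)
          ring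
      _ = 3 * D := by ring

section gen

variable {V H : Type} [Fintype V] [DecidableEq V] [Fintype H] [DecidableEq H]

/-- The estimate for a pair of sources, with explicit constants. -/
theorem quenched_gen (vert : H → V) (idx : H → ℕ)
    (hidx : ∀ v k, k ≤ deg vert v → (univ.filter (fun h => vert h = v ∧ idx h < k)).card = k)
    (κ : Measure (ℝ × ℝ)) [IsProbabilityMeasure κ]
    (ρ : Measure ℕ) [IsProbabilityMeasure ρ]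
    (hκ1 : κ {w | w.1 < 0} = 0) (hκ2 : κ {w | w.2 < 0} = 0)
    (hMt : Nonempty (Mt H)) (hdeg : ∀ v, 2 ≤ deg vert v)
    {m m1 m2 m3 g gb j J L R : ℕ} {x e0 K1 N X α c3 K0 κ' δc B' p δ : ℝ}
    {q : ℕ → ℝ} {η1 θ D : ℝ≥0∞}
    (hcnt : ∀ k : ℕ, k + 1 < m →
      |((k : ℝ) + 1) * ((univ.filter (fun v => deg vert v = k + 1)).card : ℝ) /
        (Fintype.card H : ℝ) - ρ.real {k}| ≤ e0)
    (hmax : ∀ v, (deg vert v : ℝ) ≤ e0 * (Fintype.card H : ℝ))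
    (hV : (Fintype.card V : ℝ) = N) (hN1' : 1 ≤ N)
    (hm2N : 2 * N ≤ (Fintype.card H : ℝ)) (hmK1 : (Fintype.card H : ℝ) ≤ K1 * N)
    (hlvl : ∀ i ≤ J, c3 * (N * (zl K0 κ' X i) ^ (-(1 + α))) ≤
      nG vert ⌊zl K0 κ' X i⌋₊)
    (hm : m = ⌊K0⌋₊) (hδ : 0 ≤ δ) (hD : D = ENNReal.ofReal δ)
    (hx : 0 ≤ x) (hm1' : 1 ≤ m1) (hm1 : m1 ≤ m) (hm2 : m2 ≤ m) (hm3 : m3 ≤ m2) (hgb : 1 ≤ gb)
    (hq : ∀ i, 0 ≤ q i) (hqs : ∀ n, ∑ i ∈ range n, q i ≤ 1)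
    (hLL : gb + j + g + gb ≤ L)
    (hR1 : 1 + m3 * sz m2 gb ≤ R) (hR2 : 1 + (gb + j * (1 + m1 * sz m g)) ≤ R)
    (hR3 : 1 + L ≤ R) (hR4 : 1 + sz m g ≤ R)
    (hα0 : 0 < α) (hα1 : α < 1) (hδc : 0 ≤ δc) (hK1 : 1 ≤ K1) (hc3 : 0 < c3) (hc3' : c3 ≤ 1)
    (hκ' : 1 < κ') (hακ : α * κ' + δc < 1) (hB' : 0 < B') (hK0 : 8 ≤ K0)
    (hlev : ∀ z, K0 ≤ z → Real.exp (-(c3 / (32 * K1) * z ^ (1 - α * κ' - δc))) +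
      z * (z ^ κ') ^ (-B') ≤ z ^ (-B'))
    (hG : ∀ i : ℕ, (K0 ^ (κ' ^ i)) ^ (-δc) ≤ κ.real {w | w.1 ≤ q i})
    (hK0X : K0 ≤ X) (hJ1 : X ≤ K0 ^ (κ' ^ J)) (hJ2 : ∀ i < J, K0 ^ (κ' ^ i) < X)
    (hN1 : X ≤ c3 / 8 * (N * X ^ (-α))) (hN3 : 2 ≤ c3 / 4 * (N * X ^ (-α)))
    (hN2 : (R + J : ℝ) ≤ c3 / 4 * (N * X ^ (-(1 + α))))
    (hp0 : 0 ≤ p) (hp1 : p ≤ 1) (hp : p ≤ κ.real {w | w.1 ≤ 1})
    (hN6 : N ^ 2 * Real.exp (-(p / (32 * K1) * (X ^ 2 / N))) ≤ δ)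
    (he0 : 0 < e0) (he1 : e0 ≤ 1 / 4) (hbig : (2 * R + 1 : ℝ) ≤ e0 * (2 * N))
    {e : ℝ≥0∞} (he : e = ENNReal.ofReal ((4 * m + 2 * R + 2) * e0))
    (hT : TR ρ (κ.map (pr true)) m 1 g x ≤ η1) (hη1D : η1 ≤ D) (hη12 : η1 ≤ 1 / 2)
    (hθ : θ = ρ {1} + 2 * η1) (hθ1 : θ < 1)
    (a1 : ∀ k < m3, 1 ≤ (TR ρ (κ.map (pr false)) m2 0 gb (2 * x + 3)) ^ k + D / 2)
    (a2 : (m3 : ℝ≥0∞) * ((m2 : ℝ≥0∞) + 1) ^ gb * θ ^ j ≤ D / 4)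
    (a3 : (m3 : ℝ≥0∞) * ((m2 : ℝ≥0∞) + 1) ^ gb * (1 - θ)⁻¹ * ρ {k : ℕ | m1 ≤ k + 1} ≤ D / 4)
    (a4 : (m3 : ℝ≥0∞) * ((m2 : ℝ≥0∞) + 1) ^ gb * (1 - θ)⁻¹ * (m1 * (m1 : ℝ≥0∞) ^ j) *
      ENNReal.ofReal (K0 ^ (-B')) ≤ D / 4)
    (a5 : ENNReal.ofReal (K0 ^ (-B')) ≤ D)
    (a6 : ((m3 : ℝ≥0∞) * ((m2 : ℝ≥0∞) + 1) ^ gb * (1 - θ)⁻¹ *
        (1 + (m1 : ℝ≥0∞) ^ j + m1 * (m1 : ℝ≥0∞) ^ j +
          m1 * (((m1 * sz m g : ℕ) : ℝ≥0∞) * 2) * (m1 : ℝ≥0∞) ^ j) +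
        (m3 : ℝ≥0∞) * ((m2 : ℝ≥0∞) + 1) ^ gb * (gb * (m1 : ℝ≥0∞) ^ j) +
        m3 * sz m L + 2 * sz m g + 2 * (m3 * sz m2 gb : ℕ)) * e ≤ D / 4)
    {a b : V} (hab : a ≠ b) (hdb : deg vert b < m3) :
    ∑ σ : Mt H, (lawW H κ) {ω | BadP vert a b (∑ k ∈ range (gb + j + 1), (max m1 m2) ^ k) J L m
      σ ω} ≤ Fintype.card (Mt H) * ENNReal.ofReal (7 * δ) := by
  classical
  set η : ℝ≥0∞ := ENNReal.ofReal (K0 ^ (-B')) with hη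
  have hηt : η ≠ ⊤ := ENNReal.ofReal_ne_top
  have het : e ≠ ⊤ := by rw [he]; exact ENNReal.ofReal_ne_top
  have hEnv : ∀ m' ≤ m, Env vert ρ m' R e := by
    intro m' hm'
    rw [he]
    refine env_of_counts he0 he1 (m := m) hcnt hmax ?_ hm'
    calc (2 * R + 1 : ℝ) ≤ e0 * (2 * N) := hbig
      _ ≤ _ := by gcongr
  obtain ⟨kn, hkn⟩ : ∃ kn : ℕ → ℕ, kn = fun i => ⌊zl K0 κ' X i⌋₊ := ⟨_, rfl⟩
  obtain ⟨G, hGdef⟩ : ∃ G : ℕ → Set (ℝ × ℝ), G = fun i => {w | w.1 ≤ q i} := ⟨_, rfl⟩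
  have hGm : ∀ i, MeasurableSet (G i) := fun i => by
    rw [hGdef]
    exact measurableSet_le measurable_fst measurable_const
  have hG' : ∀ i : ℕ, (K0 ^ (κ' ^ i)) ^ (-δc) ≤ κ.real (G i) := by
    intro i; rw [hGdef]; exact hG i
  have hclimb := climb_inst vert idx hidx κ G hGm (δ := δc) hα0 hα1 hδc hK1
    hc3 hc3' hκ' hακ hB' hK0 hlev hG' hN1' hK0X J R hJ2 hN1 hN3 hN2 (by linarith) hmK1 hlvl
  rw [← hkn, ← hm, ← hη] at hclimb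
  have hzl0 : zl K0 κ' X 0 = K0 := by
    unfold zl
    rw [pow_zero, Real.rpow_one]
    exact min_eq_left hK0X
  have hkn0 : kn 0 = m := by
    rw [hkn, hm]
    simp only [hzl0]
  have hknm : ∀ i, m ≤ kn i := by
    intro i
    rw [hm, hkn]
    exact Nat.floor_mono (zl_ge (by linarith) hκ'.le hK0X i)
  have hzJ : zl K0 κ' X J = X := min_eq_right hJ1
  have hX8 : 8 ≤ X := le_trans hK0 hK0X
  have htopb : ENNReal.ofReal ((Fintype.card V : ℝ) ^ 2 *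
        Real.exp (-(p * ((2 * (kn J / 4) : ℕ) / Fintype.card H) *
          (kn J / 4 : ℕ)))) ≤ D := by
    rw [hD]
    apply ENNReal.ofReal_le_ofReal
    refine le_trans ?_ hN6
    have h1 : kn J = ⌊X⌋₊ := by rw [hkn]; simp only [hzJ]
    have h2 := top_exp (p := p) (K1 := K1) (N := N) (M := (Fintype.card H : ℝ))
      hX8 hp0 hK1 hN1' (by linarith) hmK1
    rw [h1, hV]
    exact mul_le_mul_of_nonneg_left h2 (by positivity)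
  obtain ⟨δcc, hδc', n1, n2, n3, n4⟩ := numeric (m := m) (g := g) (L := L) (p1 := ρ {k : ℕ | m1 ≤ k + 1})
    hθ1 hT hη1D a1 a2 a3 a4 a5 a6
  have hθle : ∫⁻ k in {k : ℕ | k + 1 < m1},
      (k : ℝ≥0∞) * (TR ρ (κ.map (pr true)) m 1 g x) ^ (k - 1) ∂ρ ≤ θ := by
    rw [hθ]
    exact theta_le hT hη12 m1
  have hGq : ∀ i, ∀ p ∈ G i, p.1 ≤ q i := by
    intro i p hp
    rw [hGdef] at hp
    exact hp
  have hn6 : ∀ τ : Wt H, EE κ [] τ (fun σ ω => if ∃ x z, x ≠ z ∧ kn J ≤ deg vert x ∧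
      kn J ≤ deg vert z ∧ ¬ ∃ h, vert h = x ∧ vert (σ h) = z ∧ wt true σ ω h ≤ 1 then 1 else 0) ≤
      D := by
    intro τ
    exact le_trans (top_EE vert idx hidx κ hp0 hp1 hp (kn J) (kn J / 4) (by omega) τ) htopb
  have hmain := quenched_pair (ρ := ρ) (κ := κ) hκ1 hκ2 hdeg hMt (idx := idx) (kn := kn)
    (G := G) hGm (q := q) (m := m) (m1 := m1) (m2 := m2) (m3 := m3) (g := g) (gb := gb) (j := j)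
    (J := J) (L := L) (R := R) (x := x) (e := e) (η := η) (δ1 := D) (δ2 := D) (δ3 := D)
    (δ4 := 3 * D) (δ6 := D) (θ := θ) (p1 := ρ {k : ℕ | m1 ≤ k + 1}) (δc := δcc) hx hm1' hm1 hm2
    hm3 hgb hq (hqs J)
    hGq hknm hkn0 hLL (hEnv m (le_refl m)) (hEnv m1 hm1) (hEnv m2 hm2) het hηt hR1
    hR2 hR3 hR4 hclimb hθle (le_refl _) hδc' n1 n2 n3 n4 hn6 hab hdb
  refine le_trans hmain ?_
  have h7 : D + D + D + 3 * D + D = ENNReal.ofReal (7 * δ) := by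
    rw [ENNReal.ofReal_mul (by norm_num), ← hD]
    have : ENNReal.ofReal 7 = 7 := by simp
    rw [this]
    ring
  rw [h7]

end gen


theorem quenched_d {n : ℕ} (hn : 1 ≤ n) (κ : Measure (ℝ × ℝ)) [IsProbabilityMeasure κ]
    (ρ : Measure ℕ) [IsProbabilityMeasure ρ]
    (hκ1 : κ {w | w.1 < 0} = 0) (hκ2 : κ {w | w.2 < 0} = 0)
    (d : Fin (n + 1) → ℕ) (hev : Even (∑ v, d v))
    {m m1 m2 m3 g gb j J L R : ℕ} {x e0 K1 N X α c3 K0 κ' δc B' p δ : ℝ}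
    {q : ℕ → ℝ} {η1 θ D : ℝ≥0∞}
    (hC : Cnt ρ m e0 K1 d) (hN : N = (n : ℝ) + 1)
    (hlvl : ∀ i ≤ J, c3 * (N * (zl K0 κ' X i) ^ (-(1 + α))) ≤
      nG (vtx (d := d)) ⌊zl K0 κ' X i⌋₊)
    (hm : m = ⌊K0⌋₊) (hm3pos : 1 ≤ m3) (hδ : 0 ≤ δ) (hD : D = ENNReal.ofReal δ)
    (hx : 0 ≤ x) (hm1' : 1 ≤ m1) (hm1 : m1 ≤ m) (hm2 : m2 ≤ m) (hm3 : m3 ≤ m2) (hgb : 1 ≤ gb)
    (hq : ∀ i, 0 ≤ q i) (hqs : ∀ n, ∑ i ∈ range n, q i ≤ 1)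
    (hLL : gb + j + g + gb ≤ L)
    (hR1 : 1 + m3 * sz m2 gb ≤ R) (hR2 : 1 + (gb + j * (1 + m1 * sz m g)) ≤ R)
    (hR3 : 1 + L ≤ R) (hR4 : 1 + sz m g ≤ R)
    (hα0 : 0 < α) (hα1 : α < 1) (hδc : 0 ≤ δc) (hK1 : 1 ≤ K1) (hc3 : 0 < c3) (hc3' : c3 ≤ 1)
    (hκ' : 1 < κ') (hακ : α * κ' + δc < 1) (hB' : 0 < B') (hK0 : 8 ≤ K0)
    (hlev : ∀ z, K0 ≤ z → Real.exp (-(c3 / (32 * K1) * z ^ (1 - α * κ' - δc))) +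
      z * (z ^ κ') ^ (-B') ≤ z ^ (-B'))
    (hG : ∀ i : ℕ, (K0 ^ (κ' ^ i)) ^ (-δc) ≤ κ.real {w | w.1 ≤ q i})
    (hK0X : K0 ≤ X) (hJ1 : X ≤ K0 ^ (κ' ^ J)) (hJ2 : ∀ i < J, K0 ^ (κ' ^ i) < X)
    (hN1 : X ≤ c3 / 8 * (N * X ^ (-α))) (hN3 : 2 ≤ c3 / 4 * (N * X ^ (-α)))
    (hN2 : (R + J : ℝ) ≤ c3 / 4 * (N * X ^ (-(1 + α))))
    (hp0 : 0 ≤ p) (hp1 : p ≤ 1) (hp : p ≤ κ.real {w | w.1 ≤ 1})
    (hN6 : N ^ 2 * Real.exp (-(p / (32 * K1) * (X ^ 2 / N))) ≤ δ)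
    (he0 : 0 < e0) (he1 : e0 ≤ 1 / 4) (hbig : (2 * R + 1 : ℝ) ≤ e0 * (2 * N))
    {e : ℝ≥0∞} (he : e = ENNReal.ofReal ((4 * m + 2 * R + 2) * e0))
    (hT : TR ρ (κ.map (pr true)) m 1 g x ≤ η1) (hη1D : η1 ≤ D) (hη12 : η1 ≤ 1 / 2)
    (hθ : θ = ρ {1} + 2 * η1) (hθ1 : θ < 1)
    (a1 : ∀ k < m3, 1 ≤ (TR ρ (κ.map (pr false)) m2 0 gb (2 * x + 3)) ^ k + D / 2)
    (a2 : (m3 : ℝ≥0∞) * ((m2 : ℝ≥0∞) + 1) ^ gb * θ ^ j ≤ D / 4)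
    (a3 : (m3 : ℝ≥0∞) * ((m2 : ℝ≥0∞) + 1) ^ gb * (1 - θ)⁻¹ * ρ {k : ℕ | m1 ≤ k + 1} ≤ D / 4)
    (a4 : (m3 : ℝ≥0∞) * ((m2 : ℝ≥0∞) + 1) ^ gb * (1 - θ)⁻¹ * (m1 * (m1 : ℝ≥0∞) ^ j) *
      ENNReal.ofReal (K0 ^ (-B')) ≤ D / 4)
    (a5 : ENNReal.ofReal (K0 ^ (-B')) ≤ D)
    (a6 : ((m3 : ℝ≥0∞) * ((m2 : ℝ≥0∞) + 1) ^ gb * (1 - θ)⁻¹ *
        (1 + (m1 : ℝ≥0∞) ^ j + m1 * (m1 : ℝ≥0∞) ^ j +
          m1 * (((m1 * sz m g : ℕ) : ℝ≥0∞) * 2) * (m1 : ℝ≥0∞) ^ j) +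
        (m3 : ℝ≥0∞) * ((m2 : ℝ≥0∞) + 1) ^ gb * (gb * (m1 : ℝ≥0∞) ^ j) +
        m3 * sz m L + 2 * sz m g + 2 * (m3 * sz m2 gb : ℕ)) * e ≤ D / 4) :
    cmLaw2 κ d (badEv (∑ k ∈ range (gb + j + 1), (max m1 m2) ^ k) J d) ≤
      ENNReal.ofReal (7 * δ + ((∑ k ∈ range (L + 1), m ^ k : ℕ) : ℝ) / n + 2 * K1 / m3) := by
  have hn0 : (0 : ℝ) < n := by exact_mod_cast hn
  have hN0 : 0 < N := by rw [hN]; positivity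
  have hN1' : 1 ≤ N := by rw [hN]; linarith
  have hMt : Nonempty (Mt (HalfEdge d)) := nonempty_Mt (by rw [card_halfEdge]; exact hev)
  have hcard : (Fintype.card (HalfEdge d) : ℝ) = ∑ v, (d v : ℝ) := by
    rw [card_halfEdge]; push_cast; rfl
  have hm2N : 2 * N ≤ (Fintype.card (HalfEdge d) : ℝ) := by
    rw [hcard]
    calc 2 * N = ∑ v : Fin (n + 1), (2 : ℝ) := by
          rw [Finset.sum_const, Finset.card_univ, Fintype.card_fin, nsmul_eq_mul, hN]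
          push_cast; ring
      _ ≤ ∑ v, (d v : ℝ) := Finset.sum_le_sum (fun v _ => by exact_mod_cast hC.two v)
  have hmK1 : (Fintype.card (HalfEdge d) : ℝ) ≤ K1 * N := by
    rw [hcard, hN]; exact hC.sum
  have hdeg : ∀ v, 2 ≤ deg (vtx (d := d)) v := fun v => by rw [deg_vtx]; exact hC.two v
  have hcnt : ∀ k : ℕ, k + 1 < m →
      |((k : ℝ) + 1) * ((univ.filter (fun v => deg (vtx (d := d)) v = k + 1)).card : ℝ) /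
        (Fintype.card (HalfEdge d) : ℝ) - ρ.real {k}| ≤ e0 := by
    intro k hk
    have h1 := hC.cnt k hk
    rw [hcard]
    simp only [deg_vtx]
    exact h1
  have hmax : ∀ v, (deg (vtx (d := d)) v : ℝ) ≤ e0 * (Fintype.card (HalfEdge d) : ℝ) := by
    intro v
    rw [deg_vtx, hcard]
    exact hC.max v
  have hV : (Fintype.card (Fin (n + 1)) : ℝ) = N := by
    rw [Fintype.card_fin, hN]; push_cast; rfl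
  refine law_bound hn κ d hMt (m := m) (m3 := m3) (L := L) (δs := 7 * δ) (by positivity)
    (K1 := K1) hC.sum (by omega) ?_
  intro a b hab hdb
  exact quenched_gen (vtx (d := d)) hidx (hidx_spec d) κ ρ hκ1 hκ2 hMt hdeg hcnt hmax hV hN1'
    hm2N hmK1 hlvl hm hδ hD hx hm1' hm1 hm2 hm3 hgb hq hqs hLL hR1 hR2 hR3 hR4 hα0 hα1 hδc hK1 hc3
    hc3' hκ' hακ hB' hK0 hlev hG hK0X hJ1 hJ2 hN1 hN3 hN2 hp0 hp1 hp hN6 he0 he1 hbig he hT hη1D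
    hη12 hθ hθ1 a1 a2 a3 a4 a5 a6 hab (by rw [deg_vtx]; exact hdb)

end Pool.Agent.H949.DX
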