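import Pool.Agent.H949.DX.F5
import Pool.Agent.H949.CM.MainC

/-!
# The main theorem
-/

set_option linter.unusedSectionVars false
set_option linter.unusedVariables false

open MeasureTheory Finset Filter Topology
open scoped ENNReal

namespace Pool.Agent.H949.DX

open Pool.Agent.H949.CM Pool.Agent.H949.CX

theorem badEv_mono {n : ℕ} {Kc Kc' J J' : ℕ} (hK : Kc' ≤ Kc) (hJ : J ≤ J') (d : Fin (n + 1) → ℕ) :
    badEv Kc J d ⊆ badEv Kc' J' d := by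
  rintro x ⟨t, col, h1, h2⟩
  refine ⟨t, col, h1, fun h3 => h2 ⟨le_trans h3.1 hK, le_trans (by omega) h3.2⟩⟩

theorem nG_vtx {n : ℕ} (d : Fin (n + 1) → ℕ) (k : ℕ) : nG (vtx (d := d)) k = cnt k d := by
  unfold nG cnt
  simp only [deg_vtx]

theorem cnt_fix_mono {n : ℕ} (d : Fin (n + 1) → ℕ) (k : ℕ) : cnt k d ≤ cnt k (fixParity d) := by
  unfold cnt
  apply card_le_card
  intro v hv
  rw [mem_filter] at hv ⊢
  exact ⟨hv.1, le_trans hv.2 (le_fixParity d v)⟩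

theorem PP_le (μD : Measure ℕ) [IsProbabilityMeasure μD] (κ : Measure (ℝ × ℝ))
    [IsProbabilityMeasure κ] (n : ℕ) (E : ∀ d : Fin (n + 1) → ℕ, Set (Conf d))
    (b1 b2 : Set (Fin (n + 1) → ℕ)) {u1 u2 u3 : ℝ} (hu1 : 0 ≤ u1) (hu2 : 0 ≤ u2) (hu3 : 0 ≤ u3)
    (h1 : (Measure.pi fun _ : Fin (n + 1) => μD) b1 ≤ ENNReal.ofReal u1)
    (h2 : (Measure.pi fun _ : Fin (n + 1) => μD) b2 ≤ ENNReal.ofReal u2)
    (h3 : ∀ d : Fin (n + 1) → ℕ, d ∉ b1 → d ∉ b2 →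
      cmLaw2 κ (fixParity d) (E (fixParity d)) ≤ ENNReal.ofReal u3) :
    PP μD κ n E ≤ ENNReal.ofReal (u1 + u2 + u3) := by
  unfold PP
  calc ∫⁻ d, cmLaw2 κ (fixParity d) (E (fixParity d)) ∂(Measure.pi fun _ : Fin (n + 1) => μD)
      ≤ ∫⁻ d, ((b1 ∪ b2).indicator (fun _ => (1 : ℝ≥0∞)) d + ENNReal.ofReal u3)
        ∂(Measure.pi fun _ : Fin (n + 1) => μD) := by
        apply lintegral_mono
        intro d
        by_cases hd : d ∈ b1 ∪ b2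
        · show _ ≤ (b1 ∪ b2).indicator (fun _ => (1 : ℝ≥0∞)) d + _
          rw [Set.indicator_of_mem hd]
          exact le_trans (cmLaw2_le_one κ _ _) le_self_add
        · rw [Set.mem_union, not_or] at hd
          exact le_trans (h3 d hd.1 hd.2) le_add_self
    _ = (Measure.pi fun _ : Fin (n + 1) => μD) (b1 ∪ b2) + ENNReal.ofReal u3 := by
        rw [lintegral_add_right _ measurable_const, lintegral_const, measure_univ, mul_one,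
          lintegral_indicator_const ((Set.to_countable _).measurableSet), one_mul]
    _ ≤ (ENNReal.ofReal u1 + ENNReal.ofReal u2) + ENNReal.ofReal u3 :=
        add_le_add (le_trans (measure_union_le _ _) (add_le_add h1 h2)) (le_refl _)
    _ = _ := by
        rw [← ENNReal.ofReal_add hu1 hu2, ← ENNReal.ofReal_add (by positivity) hu3]

/-- **Main theorem.** The explosive colour beats the non-explosive one. -/
theorem main_expl (μD : Measure ℕ) [IsProbabilityMeasure μD] (ρ : Measure ℕ)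
    [IsProbabilityMeasure ρ] (κ : Measure (ℝ × ℝ)) [IsProbabilityMeasure κ] {τ : ℝ} {L : ℝ → ℝ}
    (hτ2 : 2 < τ) (hτ3 : τ < 3) (hL : SlowVar L)
    (htail : ∀ᶠ x : ℝ in atTop, μD.real {k : ℕ | x < (k : ℝ)} = L x * x ^ (-(τ - 1)))
    (hD2 : μD {k | k < 2} = 0)
    (hρ : ∀ k : ℕ, ρ {k} = ENNReal.ofReal (((k : ℝ) + 1) * μD.real {k + 1} / ∫ j, (j : ℝ) ∂μD))
    (hκ1 : κ {w | w.1 < 0} = 0) (hκ2 : κ {w | w.2 < 0} = 0)
    (hR : Explosive μD ρ κ.fst) (hB : ¬ Explosive μD ρ κ.snd) {ε : ℝ} (hε : 0 < ε) :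
    ∃ Kc : ℕ, ∀ J0 : ℕ, ∀ᶠ n : ℕ in atTop,
      PP μD κ n (fun d => badEv Kc J0 d) ≤ ENNReal.ofReal ε := by
  obtain ⟨δ, hδdef⟩ : ∃ δ : ℝ, δ = ε / 11 := ⟨_, rfl⟩
  have hδ : 0 < δ := by rw [hδdef]; positivity
  obtain ⟨D, hD⟩ : ∃ D : ℝ≥0∞, D = ENNReal.ofReal δ := ⟨_, rfl⟩
  have hDpos : 0 < D := by rw [hD]; exact ENNReal.ofReal_pos.2 hδ
  have hDt : D ≠ ⊤ := by rw [hD]; exact ENNReal.ofReal_ne_top
  have hD4 : 0 < D / 4 := ENNReal.div_pos hDpos.ne' (by norm_num)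
  obtain ⟨K1, hK1def⟩ : ∃ K1 : ℝ, K1 = (∫ j, (j : ℝ) ∂μD) + 1 := ⟨_, rfl⟩
  have hint0 : 0 ≤ ∫ j, (j : ℝ) ∂μD := integral_nonneg (fun j => Nat.cast_nonneg j)
  have hK1 : 1 ≤ K1 := by rw [hK1def]; linarith
  obtain ⟨m3, hm3pos, hm3δ⟩ : ∃ m3 : ℕ, 1 ≤ m3 ∧ 2 * K1 / m3 ≤ δ := by
    refine ⟨⌈2 * K1 / δ⌉₊ + 1, by omega, ?_⟩
    have h1 : 2 * K1 / δ ≤ ((⌈2 * K1 / δ⌉₊ + 1 : ℕ) : ℝ) := by
      push_cast
      have := Nat.le_ceil (2 * K1 / δ)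
      linarith
    have h2 : (0 : ℝ) < ((⌈2 * K1 / δ⌉₊ + 1 : ℕ) : ℝ) := by positivity
    rw [div_le_iff₀ h2]
    rw [div_le_iff₀ hδ] at h1
    linarith
  -- the marginal laws
  have hμ1 : κ.fst (Set.Iio 0) = 0 := by
    rw [Measure.fst_apply measurableSet_Iio]; exact hκ1
  have hμ2 : κ.snd (Set.Iio 0) = 0 := by
    rw [Measure.snd_apply measurableSet_Iio]; exact hκ2
  have hμD0 : μD {0} = 0 := by
    refine measure_mono_null ?_ hD2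
    intro k hk
    rw [Set.mem_singleton_iff] at hk
    show k < 2
    omega
  have hρ0 : ρ {0} = 0 := rho_zero μD L τ hτ2 hτ3 hL htail hD2 ρ hρ
  have hρ1 : ρ {1} ≠ 1 := rho_one μD L τ hτ2 hτ3 hL htail hD2 ρ hρ
  obtain ⟨s0, hs0, c0, hc0, h0⟩ := NR_of_explosive μD ρ κ.fst hμ1 hμD0 hρ0 hR
  have hBt : ∀ s, Tendsto (fun g => NR ρ κ.snd g s) atTop (𝓝 1) :=
    fun s => NR_of_not_explosive μD ρ κ.snd hμ2 hμD0 hρ0 hB s
  obtain ⟨x, η1, θ, gb, m2, j, m1, hx0, hη1p, hη1D, hη12, hθ, hθ1, hNRx, hgb, hm32, hm1', a1, a2,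
    a3⟩ := stage_A ρ κ.fst κ.snd hρ0 hρ1 hc0 h0 hBt hDpos hDt m3 hm3pos
  -- quantiles
  obtain ⟨a, ha⟩ : ∃ a : ℝ, a = τ - 2 - (τ - 2) / 2 := ⟨_, rfl⟩
  have ha0 : 0 < a := by rw [ha]; linarith
  have ha1 : a < 1 := by rw [ha]; linarith
  obtain ⟨C, hC0, hCt⟩ := rho_tail μD L τ hτ2 hτ3 hL htail hD2 ρ hρ (δ := (τ - 2) / 2)
    (by linarith) (by linarith)
  rw [← ha] at hCt
  have h2a : 1 / a < 2 / a := by
    apply div_lt_div_of_pos_right (by norm_num) ha0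
  have h1a : 1 < 2 / a := by rw [lt_div_iff₀ ha0]; linarith
  obtain ⟨B, q0, hB0, hq0, hqs, hqF⟩ := quant ρ κ.fst hμ1 hc0 h0 ha0 ha1 hC0 hCt (κ := 2 / a) h2a
  -- lower bound for the degrees
  obtain ⟨α, hα⟩ : ∃ α : ℝ, α = τ - 2 + (3 - τ) / 2 := ⟨_, rfl⟩
  have hα0 : 0 < α := by rw [hα]; linarith
  have hα1 : α < 1 := by rw [hα]; linarith
  obtain ⟨c1, hc1, hc1t⟩ := tail_lower μD L τ hτ2 hτ3 hL htail (δ := (3 - τ) / 2) (by linarith)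
  have hexp : -(τ - 1 + (3 - τ) / 2) = -(1 + α) := by rw [hα]; ring
  rw [hexp] at hc1t
  have hlow : ∀ x : ℝ, 1 ≤ x → ENNReal.ofReal (c1 * x ^ (-(1 + α))) ≤ μD {k | x < k} := by
    intro x hx
    rw [← ofReal_measureReal (μ := μD) (s := {k : ℕ | x < k})]
    exact ENNReal.ofReal_le_ofReal (hc1t x hx)
  have hm3t : (m3 : ℝ≥0∞) ≠ ⊤ := ENNReal.natCast_ne_top _
  have h1θ : 1 - θ ≠ 0 := (tsub_pos_of_lt hθ1).ne'
  have h1θ' : (1 - θ)⁻¹ ≠ ⊤ := ENNReal.inv_ne_top.2 h1θ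
  have hm2t : ((m2 : ℝ≥0∞) + 1) ^ gb ≠ ⊤ :=
    ENNReal.pow_ne_top (ENNReal.add_ne_top.2 ⟨ENNReal.natCast_ne_top _, ENNReal.one_ne_top⟩)
  have hm1t : (m1 : ℝ≥0∞) ^ j ≠ ⊤ := ENNReal.pow_ne_top (ENNReal.natCast_ne_top _)
  have hCη : (m3 : ℝ≥0∞) * ((m2 : ℝ≥0∞) + 1) ^ gb * (1 - θ)⁻¹ * (m1 * (m1 : ℝ≥0∞) ^ j) ≠ ⊤ :=
    ENNReal.mul_ne_top (ENNReal.mul_ne_top (ENNReal.mul_ne_top hm3t hm2t) h1θ')
      (ENNReal.mul_ne_top (ENNReal.natCast_ne_top _) hm1t)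
  obtain ⟨K0, κ', ρ0, B', c3, δc, q', hr1, hr2, hκ', hακ, hδc, hB', hc3, hc3', hc31, hK0, hlev,
    hM0, hq'0, hq's, hq'F, a4, a5'⟩ := stage_B hα0 hα1 hc1 hK1 κ.fst hB0 h1a q0 hq0 hqs hqF hCη
      hD4 (max m1 m2)
  obtain ⟨m, hm⟩ : ∃ m : ℕ, m = ⌊K0⌋₊ := ⟨_, rfl⟩
  rw [← hm] at hM0
  have hm1 : m1 ≤ m := le_trans (le_max_left _ _) hM0
  have hm2 : m2 ≤ m := le_trans (le_max_right _ _) hM0
  have a5 : ENNReal.ofReal (K0 ^ (-B')) ≤ D := by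
    refine le_trans a5' ?_
    calc D / 4 ≤ D / 1 := ENNReal.div_le_div_left (by norm_num) D
      _ = D := by rw [div_one]
  obtain ⟨g, hg⟩ := stage_g ρ κ.fst hρ0 (rho_unbdd μD L τ hτ2 hτ3 hL htail hD2 ρ hρ m) hη1p hNRx
  obtain ⟨Lc, hLc⟩ : ∃ Lc : ℕ, Lc = gb + j + g + gb := ⟨_, rfl⟩
  obtain ⟨R, hRdef⟩ : ∃ R : ℕ, R = (1 + m3 * sz m2 gb) + (1 + (gb + j * (1 + m1 * sz m g))) +
    (1 + Lc) + (1 + sz m g) := ⟨_, rfl⟩
  have hR1 : 1 + m3 * sz m2 gb ≤ R := by rw [hRdef]; omega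
  have hR2 : 1 + (gb + j * (1 + m1 * sz m g)) ≤ R := by rw [hRdef]; omega
  have hR3 : 1 + Lc ≤ R := by rw [hRdef]; omega
  have hR4 : 1 + sz m g ≤ R := by rw [hRdef]; omega
  -- the chance of a short edge
  obtain ⟨p, hp⟩ : ∃ p : ℝ, p = κ.real {w | w.1 ≤ 1} := ⟨_, rfl⟩
  have hfst : ∀ y : ℝ, κ.fst.real (Set.Iic y) = κ.real {w | w.1 ≤ y} := by
    intro y
    unfold Measure.real
    rw [Measure.fst_apply measurableSet_Iic]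
    rfl
  have hp0 : 0 < p := by
    have h1 := hq'F 0
    have h2 : q' 0 ≤ 1 := by
      have := hq's 1
      rwa [Finset.sum_range_one] at this
    rw [hfst] at h1
    have h3 : 0 < (K0 ^ (κ' ^ 0)) ^ (-δc) := by
      have : 0 < K0 := by linarith
      positivity
    rw [hp]
    refine lt_of_lt_of_le h3 (le_trans h1 (measureReal_mono ?_))
    intro w hw
    exact le_trans hw h2
  have hp1 : p ≤ 1 := by rw [hp]; exact measureReal_le_one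
  -- sampling error
  have hCe : ((m3 : ℝ≥0∞) * ((m2 : ℝ≥0∞) + 1) ^ gb * (1 - θ)⁻¹ *
        (1 + (m1 : ℝ≥0∞) ^ j + m1 * (m1 : ℝ≥0∞) ^ j +
          m1 * (((m1 * sz m g : ℕ) : ℝ≥0∞) * 2) * (m1 : ℝ≥0∞) ^ j) +
        (m3 : ℝ≥0∞) * ((m2 : ℝ≥0∞) + 1) ^ gb * (gb * (m1 : ℝ≥0∞) ^ j) +
        m3 * sz m Lc + 2 * sz m g + 2 * (m3 * sz m2 gb : ℕ)) ≠ ⊤ := by
    have hn : ∀ k : ℕ, (k : ℝ≥0∞) ≠ ⊤ := fun k => ENNReal.natCast_ne_top k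
    have hm' : ∀ {a b : ℝ≥0∞}, a ≠ ⊤ → b ≠ ⊤ → a * b ≠ ⊤ := fun h h' => ENNReal.mul_ne_top h h'
    have ha' : ∀ {a b : ℝ≥0∞}, a ≠ ⊤ → b ≠ ⊤ → a + b ≠ ⊤ :=
      fun h h' => ENNReal.add_ne_top.2 ⟨h, h'⟩
    have h2 : (2 : ℝ≥0∞) ≠ ⊤ := by norm_num
    have h1 : (1 : ℝ≥0∞) ≠ ⊤ := ENNReal.one_ne_top
    exact ha' (ha' (ha' (ha' (hm' (hm' (hm' (hn _) hm2t) h1θ') (ha' (ha' (ha' h1 hm1t)
      (hm' (hn _) hm1t)) (hm' (hm' (hn _) (hm' (hn _) h2)) hm1t))) (hm' (hm' (hn _) hm2t)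
      (hm' (hn _) hm1t))) (hm' (hn _) (hn _))) (hm' h2 (hn _))) (hm' h2 (hn _))
  obtain ⟨e0, he0, he1, a6⟩ := stage_C hCe hD4 (4 * m + 2 * R + 2) (by positivity)
  refine ⟨∑ k ∈ range (gb + j + 1), (max m1 m2) ^ k, ?_⟩
  intro J0
  have hNt : Tendsto (fun n : ℕ => (n : ℝ) + 1) atTop atTop :=
    tendsto_natCast_atTop_atTop.atTop_add tendsto_const_nhds
  have hint : Integrable (fun k : ℕ => (k : ℝ)) μD := mean_finite μD L τ hτ2 hτ3 hL htail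
  have ev0 := (cnt_whp μD hint hD2 ρ hρ m he0).eventually
    (ge_mem_nhds (show (0 : ℝ≥0∞) < ENNReal.ofReal δ from ENNReal.ofReal_pos.2 hδ))
  have ev1 := hNt.eventually (ev_climb (p := p) hα0 hα1 hr1 hr2 hκ' hK0 hK1 hc3 hp0 hδ R J0)
  have ev2 := hNt.eventually (eventually_ge_atTop ((2 * R + 1 : ℝ) / (e0 * 2)))
  have ev3 := (tendsto_natCast_atTop_atTop (R := ℝ)).eventually
    (eventually_ge_atTop (((∑ k ∈ range (Lc + 1), m ^ k : ℕ) : ℝ) / δ))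
  filter_upwards [ev0, ev1, ev2, ev3, eventually_ge_atTop 1] with n h0' h1 h2 h3 hn1
  obtain ⟨N, hN⟩ : ∃ N : ℝ, N = (n : ℝ) + 1 := ⟨_, rfl⟩
  rw [← hN] at h1 h2
  obtain ⟨J, hJ1, hJ2⟩ := exists_level (K0 := K0) (κ' := κ') (X := N ^ ρ0)
    (by linarith) hκ'
  obtain ⟨c1', c2, c3', c4, c5, c6, c7, c8, c9⟩ := h1 J hJ2 hJ1
  have hN0 : 0 < N := by linarith
  have hn0 : (0 : ℝ) < n := by exact_mod_cast hn1
  have hSn : ((∑ k ∈ range (Lc + 1), m ^ k : ℕ) : ℝ) / n ≤ δ := by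
    rw [div_le_iff₀ hn0]
    rw [div_le_iff₀ hδ] at h3
    linarith
  have hbig : (2 * R + 1 : ℝ) ≤ e0 * (2 * N) := by
    rw [div_le_iff₀ (by positivity)] at h2
    linarith
  -- levels
  have hb2 : (Measure.pi fun _ : Fin (n + 1) => μD) {d | ¬ ∀ i ≤ J, c3 * (((n : ℝ) + 1) *
      (zl K0 κ' (N ^ ρ0) i) ^ (-(1 + α))) ≤ (cnt ⌊zl K0 κ' (N ^ ρ0) i⌋₊ d : ℝ)} ≤
      ENNReal.ofReal δ := by
    have e1 := lvl_prob μD hα0 hc1 hc31 (by linarith) hκ'.le c2 hlow n J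
    rw [← ofReal_measureReal (μ := Measure.pi fun _ : Fin (n + 1) => μD)]
    apply ENNReal.ofReal_le_ofReal
    refine le_trans e1 (le_trans ?_ c8)
    apply mul_le_mul_of_nonneg_left _ (by positivity)
    apply Real.exp_le_exp.2
    rw [← hN]
    have e2 : 0 ≤ N * (N ^ ρ0) ^ (-(1 + α)) := by positivity
    have e3 := mul_le_mul_of_nonneg_right hc31 e2
    linarith
  have hfin := PP_le μD κ n (fun d => badEv (∑ k ∈ range (gb + j + 1), (max m1 m2) ^ k) J0 d)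
    {d | ¬ Cnt ρ m e0 ((∫ j, (j : ℝ) ∂μD) + 1) (fixParity d)}
    {d | ¬ ∀ i ≤ J, c3 * (((n : ℝ) + 1) *
      (zl K0 κ' (N ^ ρ0) i) ^ (-(1 + α))) ≤ (cnt ⌊zl K0 κ' (N ^ ρ0) i⌋₊ d : ℝ)}
    (u1 := δ) (u2 := δ) (u3 := 9 * δ) hδ.le hδ.le (by positivity) h0' hb2 (by
      intro d hd1 hd2
      have g1 : Cnt ρ m e0 K1 (fixParity d) := by
        rw [hK1def]
        exact not_not.1 hd1
      have g2 := not_not.1 hd2
      have hlvl : ∀ i ≤ J, c3 * (N * (zl K0 κ' (N ^ ρ0) i) ^ (-(1 + α))) ≤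
          nG (vtx (d := fixParity d)) ⌊zl K0 κ' (N ^ ρ0) i⌋₊ := by
        intro i hi
        rw [nG_vtx]
        have g3 := g2 i hi
        rw [← hN] at g3
        refine le_trans g3 ?_
        exact_mod_cast cnt_fix_mono d _
      refine le_trans (measure_mono (badEv_mono (le_refl _) c7 (fixParity d))) ?_
      refine le_trans (quenched_d hn1 κ ρ hκ1 hκ2 (fixParity d) (even_fixParity d) (m := m)
        (m1 := m1) (m2 := m2) (m3 := m3) (g := g) (gb := gb) (j := j) (J := J) (L := Lc) (R := R)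
        (x := x) (e0 := e0) (K1 := K1) (N := N) (X := N ^ ρ0) (α := α) (c3 := c3) (K0 := K0)
        (κ' := κ') (δc := δc) (B' := B') (p := p) (δ := δ) (q := q') (η1 := η1) (θ := θ) (D := D)
        g1 hN hlvl hm hm3pos hδ.le hD hx0 hm1' hm1 hm2 hm32 hgb hq'0 hq's
        (by rw [hLc]) hR1 hR2 hR3 hR4 hα0 hα1 hδc hK1 hc3 hc3' hκ' hακ hB' hK0 hlev
        (fun i => by rw [← hfst]; exact hq'F i) c2 hJ1 hJ2 c3' c4 c5 hp0.le hp1 hp.le c6 he0 he1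
        hbig rfl (by rw [pr_true]; exact hg) hη1D hη12 hθ hθ1 (by rw [pr_false]; exact a1) a2 a3
        a4 a5 a6) ?_
      apply ENNReal.ofReal_le_ofReal
      linarith)
  refine le_trans hfin (ENNReal.ofReal_le_ofReal ?_)
  rw [hδdef]
  linarith

end Pool.Agent.H949.DX
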