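import Pool.Agent.H949.DX.Defs

/-!
# Elementary properties of the recursions
-/

set_option linter.unusedSectionVars false

open MeasureTheory Filter Topology
open scoped ENNReal

namespace Pool.Agent.H949.DX

variable {ρ : Measure ℕ} [IsProbabilityMeasure ρ] {μ : Measure ℝ} [IsProbabilityMeasure μ]

theorem TR_le_one {m : ℕ} {v : ℝ≥0∞} (hv : v ≤ 1) (g : ℕ) (s : ℝ) : TR ρ μ m v g s ≤ 1 := by
  induction g generalizing s with
  | zero => exact hv
  | succ g ih =>
    simp only [TR]
    calc ∫⁻ x, (if s < x then 1 else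
          ∫⁻ k in {k : ℕ | k + 1 < m}, (TR ρ μ m v g (s - x)) ^ k ∂ρ) ∂μ
        ≤ ∫⁻ _x, 1 ∂μ := by
          apply lintegral_mono
          intro x
          show (if s < x then (1 : ℝ≥0∞) else _) ≤ 1
          split_ifs
          · exact le_refl _
          · calc ∫⁻ k in {k : ℕ | k + 1 < m}, (TR ρ μ m v g (s - x)) ^ k ∂ρ
                ≤ ∫⁻ _k in {k : ℕ | k + 1 < m}, 1 ∂ρ :=
                  lintegral_mono (fun k => pow_le_one₀ zero_le (ih _))
              _ ≤ 1 := by
                  rw [lintegral_const, one_mul, Measure.restrict_apply_univ]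
                  exact prob_le_one
      _ = 1 := by simp

theorem TR_anti {m : ℕ} {v : ℝ≥0∞} (hv : v ≤ 1) (g : ℕ) : Antitone (TR ρ μ m v g) := by
  induction g with
  | zero => intro s t _; exact le_refl _
  | succ g ih =>
    intro s t hst
    simp only [TR]
    apply lintegral_mono
    intro x
    show (if t < x then (1 : ℝ≥0∞) else _) ≤ (if s < x then (1 : ℝ≥0∞) else _)
    by_cases h1 : s < x
    · rw [if_pos h1]
      split_ifs
      · exact le_refl _
      · calc ∫⁻ k in {k : ℕ | k + 1 < m}, (TR ρ μ m v g (t - x)) ^ k ∂ρ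
              ≤ ∫⁻ _k in {k : ℕ | k + 1 < m}, 1 ∂ρ :=
                lintegral_mono (fun k => pow_le_one₀ zero_le (TR_le_one hv _ _))
            _ ≤ 1 := by
                rw [lintegral_const, one_mul, Measure.restrict_apply_univ]
                exact prob_le_one
    · rw [if_neg h1, if_neg (by linarith)]
      exact lintegral_mono (fun k => pow_le_pow_left' (ih (by linarith)) k)

theorem measurable_TR {m : ℕ} {v : ℝ≥0∞} (hv : v ≤ 1) (g : ℕ) : Measurable (TR ρ μ m v g) :=
  (TR_anti hv g).measurable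

theorem NR_le_one (g : ℕ) (s : ℝ) : NR ρ μ g s ≤ 1 := by
  induction g generalizing s with
  | zero => exact zero_le
  | succ g ih =>
    simp only [NR]
    calc ∫⁻ x, (if s < x then 1 else ∫⁻ k, (NR ρ μ g (s - x)) ^ k ∂ρ) ∂μ
        ≤ ∫⁻ _x, 1 ∂μ := by
          apply lintegral_mono
          intro x
          show (if s < x then (1 : ℝ≥0∞) else _) ≤ 1
          split_ifs
          · exact le_refl _
          · calc ∫⁻ k, (NR ρ μ g (s - x)) ^ k ∂ρ
                ≤ ∫⁻ _k, 1 ∂ρ := lintegral_mono (fun k => pow_le_one₀ zero_le (ih _))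
              _ = 1 := by simp
      _ = 1 := by simp

theorem NR_anti (g : ℕ) : Antitone (NR ρ μ g) := by
  induction g with
  | zero => intro s t _; exact le_refl _
  | succ g ih =>
    intro s t hst
    simp only [NR]
    apply lintegral_mono
    intro x
    show (if t < x then (1 : ℝ≥0∞) else _) ≤ (if s < x then (1 : ℝ≥0∞) else _)
    by_cases h1 : s < x
    · rw [if_pos h1]
      split_ifs
      · exact le_refl _
      · calc ∫⁻ k, (NR ρ μ g (t - x)) ^ k ∂ρ
              ≤ ∫⁻ _k, 1 ∂ρ := lintegral_mono (fun k => pow_le_one₀ zero_le (NR_le_one _ _))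
            _ = 1 := by simp
    · rw [if_neg h1, if_neg (by linarith)]
      exact lintegral_mono (fun k => pow_le_pow_left' (ih (by linarith)) k)

theorem measurable_NR (g : ℕ) : Measurable (NR ρ μ g) := (NR_anti g).measurable

theorem NR_mono_g (s : ℝ) : Monotone (fun g => NR ρ μ g s) := by
  apply monotone_nat_of_le_succ
  intro g
  induction g generalizing s with
  | zero => exact zero_le
  | succ g ih =>
    show NR ρ μ (g + 1) s ≤ NR ρ μ (g + 1 + 1) s
    simp only [NR]
    apply lintegral_mono
    intro x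
    show (if s < x then (1 : ℝ≥0∞) else _) ≤ (if s < x then (1 : ℝ≥0∞) else _)
    split_ifs
    · exact le_refl _
    · exact lintegral_mono (fun k => pow_le_pow_left' (ih _) k)

theorem NR_neg (hμ : μ (Set.Iio 0) = 0) (g : ℕ) {s : ℝ} (hs : s < 0) : NR ρ μ (g + 1) s = 1 := by
  simp only [NR]
  have h1 : ∀ᵐ x ∂μ, (if s < x then (1 : ℝ≥0∞) else ∫⁻ k, (NR ρ μ g (s - x)) ^ k ∂ρ) = 1 := by
    have h0 : ∀ᵐ x ∂μ, ¬ x < 0 := by
      rw [ae_iff]
      have e : {a : ℝ | ¬ ¬ a < 0} = Set.Iio 0 := by
        ext a; simp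
      rw [e]; exact hμ
    filter_upwards [h0] with x hx
    rw [if_pos (by linarith)]
  rw [lintegral_congr_ae h1]
  simp

/-- The truncated recursion started from `1` exceeds the full one by at most the chance that a line
of descent of `g` individuals with few children survives. -/
theorem TR_one_le (hρ : ρ {0} = 0) {m : ℕ} (g : ℕ) (s : ℝ) :
    TR ρ μ m 1 g s ≤ (ρ {k : ℕ | k + 1 < m}) ^ g + NR ρ μ g s := by
  set p : ℝ≥0∞ := ρ {k : ℕ | k + 1 < m} with hp
  have hp1 : p ≤ 1 := prob_le_one
  -- convexity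
  have conv : ∀ (c d n : ℝ≥0∞), c + d = 1 → n ≤ 1 → ∀ k : ℕ, k ≠ 0 →
      (c + d * n) ^ k ≤ c + d * n ^ k := by
    intro c d n hcd hn k hk
    obtain ⟨j, rfl⟩ := Nat.exists_eq_succ_of_ne_zero hk
    clear hk
    induction j with
    | zero => simp
    | succ j ih =>
      have hle : c + d * n ≤ 1 := by
        rw [← hcd]
        gcongr
        calc d * n ≤ d * 1 := by gcongr
          _ = d := mul_one d
      calc (c + d * n) ^ (j + 1 + 1) = (c + d * n) ^ (j + 1) * (c + d * n) := pow_succ _ _
        _ ≤ (c + d * n ^ (j + 1)) * (c + d * n) := by gcongr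
        _ = c * (c + d * n) + d * n ^ (j + 1) * c + d * (d * (n ^ (j + 1) * n)) := by ring
        _ ≤ c * (c + d * n) + d * n ^ (j + 1) * c + d * (d * (n ^ (j + 1) * n)) := le_refl _
        _ = c * c + d * (c * (n + n ^ (j + 1))) + d * (d * n ^ (j + 1 + 1)) := by ring
        _ ≤ c * c + d * (c * (1 + n ^ (j + 1 + 1))) + d * (d * n ^ (j + 1 + 1)) := by
            gcongr c * c + d * (c * ?_) + _
            -- n + n^(j+1) ≤ 1 + n^(j+2)
            obtain ⟨r, hr⟩ : ∃ r, n + r = 1 := ⟨1 - n, add_tsub_cancel_of_le hn⟩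
            calc n + n ^ (j + 1) = n + n ^ (j + 1) * (n + r) := by rw [hr, mul_one]
              _ = n + n ^ (j + 1 + 1) + n ^ (j + 1) * r := by ring
              _ ≤ n + n ^ (j + 1 + 1) + 1 * r := by
                  gcongr
                  exact pow_le_one₀ zero_le hn
              _ = (n + r) + n ^ (j + 1 + 1) := by ring
              _ = 1 + n ^ (j + 1 + 1) := by rw [hr]
        _ = c * (c + d) + d * ((c + d) * n ^ (j + 1 + 1)) := by ring
        _ = c + d * n ^ (j + 1 + 1) := by rw [hcd]; ring
  have key : ∀ (g : ℕ) (s : ℝ), ∃ d : ℝ≥0∞, p ^ g + d = 1 ∧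
      TR ρ μ m 1 g s ≤ p ^ g + d * NR ρ μ g s := by
    intro g
    induction g with
    | zero => intro s; exact ⟨0, by simp, by simp [TR]⟩
    | succ g ih =>
      intro s
      obtain ⟨d, hd, _⟩ := ih s
      have ih' : ∀ s, TR ρ μ m 1 g s ≤ p ^ g + d * NR ρ μ g s := by
        intro s
        obtain ⟨d', hd', h2⟩ := ih s
        have hne : p ^ g ≠ ⊤ := ne_top_of_le_ne_top ENNReal.one_ne_top
          (pow_le_one₀ zero_le hp1)
        have : d' = d := (ENNReal.add_right_inj hne).1 (hd'.trans hd.symm)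
        rw [this] at h2
        exact h2
      obtain ⟨r, hr⟩ : ∃ r, p + r = 1 := ⟨1 - p, add_tsub_cancel_of_le hp1⟩
      refine ⟨d + p ^ g * r, ?_, ?_⟩
      · calc p ^ (g + 1) + (d + p ^ g * r) = p ^ g * (p + r) + d := by ring
          _ = 1 := by rw [hr, mul_one, hd]
      · set c : ℝ≥0∞ := p ^ (g + 1) with hc
        set e : ℝ≥0∞ := d + p ^ g * r with he
        have hce : c + e = 1 := by
          calc p ^ (g + 1) + (d + p ^ g * r) = p ^ g * (p + r) + d := by ring
            _ = 1 := by rw [hr, mul_one, hd]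
        have hρ0 : ∀ᵐ k ∂ρ, k ≠ 0 := by
          rw [ae_iff]
          simpa using hρ
        have hstep : ∀ x, (if s < x then (1 : ℝ≥0∞) else
            ∫⁻ k in {k : ℕ | k + 1 < m}, (TR ρ μ m 1 g (s - x)) ^ k ∂ρ) ≤
            c + e * (if s < x then (1 : ℝ≥0∞) else ∫⁻ k, (NR ρ μ g (s - x)) ^ k ∂ρ) := by
          intro x
          split_ifs with h
          · rw [mul_one, hce]
          · calc ∫⁻ k in {k : ℕ | k + 1 < m}, (TR ρ μ m 1 g (s - x)) ^ k ∂ρ
                ≤ ∫⁻ k in {k : ℕ | k + 1 < m}, (p ^ g + d * (NR ρ μ g (s - x)) ^ k) ∂ρ := by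
                  apply lintegral_mono_ae
                  filter_upwards [ae_restrict_of_ae hρ0] with k hk
                  exact le_trans (pow_le_pow_left' (ih' _) k) (conv _ _ _ hd (NR_le_one _ _) k hk)
              _ = p ^ g * p + d * ∫⁻ k in {k : ℕ | k + 1 < m}, (NR ρ μ g (s - x)) ^ k ∂ρ := by
                  rw [lintegral_add_left measurable_const, lintegral_const,
                    Measure.restrict_apply_univ, lintegral_const_mul _ (measurable_of_countable _)]
              _ ≤ p ^ g * p + e * ∫⁻ k, (NR ρ μ g (s - x)) ^ k ∂ρ := by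
                  gcongr
                  · exact le_self_add
                  · exact Measure.restrict_le_self
              _ = _ := by rw [hc, pow_succ]
        have hm : Measurable (fun x : ℝ => if s < x then (1 : ℝ≥0∞) else
            ∫⁻ k, (NR ρ μ g (s - x)) ^ k ∂ρ) := by
          refine Measurable.ite (measurableSet_lt measurable_const measurable_id)
            measurable_const ?_
          have : Antitone (fun t : ℝ => ∫⁻ k, (NR ρ μ g t) ^ k ∂ρ) := fun t t' htt =>
            lintegral_mono (fun k => pow_le_pow_left' (NR_anti g htt) k)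
          exact this.measurable.comp (measurable_const.sub measurable_id)
        calc TR ρ μ m 1 (g + 1) s = ∫⁻ x, (if s < x then (1 : ℝ≥0∞) else
              ∫⁻ k in {k : ℕ | k + 1 < m}, (TR ρ μ m 1 g (s - x)) ^ k ∂ρ) ∂μ := rfl
          _ ≤ ∫⁻ x, (c + e * (if s < x then (1 : ℝ≥0∞) else
              ∫⁻ k, (NR ρ μ g (s - x)) ^ k ∂ρ)) ∂μ := lintegral_mono hstep
          _ = c + e * NR ρ μ (g + 1) s := by
              rw [lintegral_add_left measurable_const, lintegral_const, measure_univ, mul_one,
                lintegral_const_mul _ hm]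
              rfl
  obtain ⟨d, hd, h2⟩ := key g s
  refine le_trans h2 ?_
  gcongr
  calc d * NR ρ μ g s ≤ 1 * NR ρ μ g s := by
        gcongr
        rw [← hd]; exact le_add_self
    _ = NR ρ μ g s := one_mul _

end Pool.Agent.H949.DX
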