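import Pool.Agent.H949.CX.Model2
import Pool.Agent.H949.CX.PS
import Pool.Agent.H949.DX.Rec

/-!
# Events of the graph: definitions
-/

set_option linter.unusedSectionVars false

open MeasureTheory Finset
open scoped ENNReal

namespace Pool.Agent.H949.DX

open Pool.Agent.H949.CM Pool.Agent.H949.CX

variable {V H : Type} [Fintype V] [DecidableEq V] [Fintype H] [DecidableEq H]

/-- `t` and `col` are the colouring times and the final colours of the competition for some way of
breaking ties, and the colours come from the sources: with a suitable rank, every coloured vertex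
that is not a source got its colour from a vertex of the same colour and of smaller rank. -/
structure Causal (vert : H → V) (σ : Mt H) (T : Bool → Sym2 H → ℝ≥0∞) (a b : V)
    (t : V → ℝ≥0∞) (col : V → Option Bool) : Prop where
  out : IsOutcome vert σ T a b t col
  rank : ∃ r : V → ℕ, ∀ v, v ≠ a → v ≠ b → ∀ c, col v = some c →
    ∃ h, col (vert h) = some c ∧ vert (σ h) = v ∧ t (vert h) + T c s(h, σ h) = t v ∧
      r (vert h) < r v

/-- Climbing `r` levels from `x` (which is at level `j`), avoiding `U`, through edges whose lengths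
lie in `G j`; level `j` consists of the vertices of degree at least `kn j`, and only the first
`kn j` half-edges of a vertex of level `j` are used. -/
def ClG (vert : H → V) (idx : H → ℕ) (kn : ℕ → ℕ) (G : ℕ → Set (ℝ × ℝ)) (σ : Mt H) (ω : Wt H) :
    ℕ → ℕ → Finset V → V → Prop
  | 0, _, _, _ => True
  | (r + 1), j, U, x => ∃ h, vert h = x ∧ idx h < kn j ∧ vert (σ h) ∉ U ∧ idx (σ h) < kn (j + 1) ∧
      kn (j + 1) ≤ deg vert (vert (σ h)) ∧ ω s(h, σ h) ∈ G j ∧
      ClG vert idx kn G σ ω r (j + 1) (insert (vert (σ h)) U) (vert (σ h))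

/-- No line of at most `g` edges and of length at most `s` of colour `c` leads from `h` through
vertices of degree less than `m` to a vertex `v` of degree at least `m` with `P v`. -/
def Fl (vert : H → V) (c : Bool) (m : ℕ) (P : V → Mt H → Wt H → Prop) :
    ℕ → ℝ → H → Mt H → Wt H → Prop
  | 0, _, _, _, _ => True
  | (g + 1), s, h, σ, ω => s < wt c σ ω h ∨
      (deg vert (vert (σ h)) < m ∧
        ∀ f ∈ nxt vert (σ h), Fl vert c m P g (s - wt c σ ω h) f σ ω) ∨
      (m ≤ deg vert (vert (σ h)) ∧ ¬ P (vert (σ h)) σ ω)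

/-- All lines from `h` of length at most `s` of colour `c` have fewer than `g` edges, and run
through vertices of degree less than `m`. -/
def Gd (vert : H → V) (c : Bool) (m : ℕ) : ℕ → ℝ → H → Mt H → Wt H → Prop
  | 0, _, _, _, _ => False
  | (g + 1), s, h, σ, ω => s < wt c σ ω h ∨
      (deg vert (vert (σ h)) < m ∧
        ∀ f ∈ nxt vert (σ h), Gd vert c m g (s - wt c σ ω h) f σ ω)

open Classical in
/-- The number of lines of `r` edges from `h` such that all side half-edges satisfy `Q`; a vertex
of degree at least `m1` counts as a success. -/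
noncomputable def CC (vert : H → V) (m1 : ℕ) (Q : H → Mt H → Wt H → Prop) :
    ℕ → H → Mt H → Wt H → ℝ≥0∞
  | 0, _, _, _ => 1
  | (r + 1), h, σ, ω => if m1 ≤ deg vert (vert (σ h)) then 1 else
      ∑ f ∈ nxt vert (σ h), if ∀ f' ∈ (nxt vert (σ h)).erase f, Q f' σ ω then
        CC vert m1 Q r f σ ω else 0

open Classical in
/-- The sum of the numbers `CC j` over the half-edges that are reached from `h` in at most `a`
steps through vertices of degree less than `m2`. -/
noncomputable def WC (vert : H → V) (m1 m2 : ℕ) (Q : H → Mt H → Wt H → Prop) (j : ℕ) :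
    ℕ → H → Mt H → Wt H → ℝ≥0∞
  | 0, h, σ, ω => CC vert m1 Q j h σ ω
  | (a + 1), h, σ, ω => CC vert m1 Q j h σ ω +
      if deg vert (vert (σ h)) < m2 then
        ∑ f ∈ nxt vert (σ h), WC vert m1 m2 Q j a f σ ω else 0

/-- Some line of at most `r` edges from `h` through vertices of degree less than `m` runs into `U`
or into itself. -/
def Rv (vert : H → V) (m : ℕ) (σ : Mt H) : ℕ → Finset V → H → Prop
  | 0, _, _ => False
  | (r + 1), U, h => vert (σ h) ∈ U ∨ (deg vert (vert (σ h)) < m ∧
      ∃ f ∈ nxt vert (σ h), Rv vert m σ r (insert (vert (σ h)) U) f)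

/-- Walks of `k` edges from `x` to `y` through vertices of degree less than `m` (the last vertex
is arbitrary). -/
def LW (vert : H → V) (m : ℕ) (σ : Mt H) : ℕ → V → V → Prop
  | 0, x, y => x = y
  | (k + 1), x, y => deg vert x < m ∧ ∃ h, vert h = x ∧ LW vert m σ k (vert (σ h)) y

/-- The last vertex of a walk from `b`; a walk is the list of the half-edges by which it leaves its
vertices, the last one first. -/
def ed (vert : H → V) (σ : Mt H) (b : V) : List H → V
  | [] => b
  | h :: _ => vert (σ h)

/-- Walks from `b` without immediate returns through vertices of degree less than `m` (the first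
and the last vertex are arbitrary). -/
def NB (vert : H → V) (m : ℕ) (σ : Mt H) (b : V) : List H → Prop
  | [] => True
  | [h] => vert h = b
  | h :: g :: xs => h ∈ nxt vert (σ g) ∧ deg vert (vert (σ g)) < m ∧ NB vert m σ b (g :: xs)

/-- Chains of blue vertices from `b`, with the colouring times `t` and the ranks `r`. -/
def BCh (vert : H → V) (σ : Mt H) (T : Bool → Sym2 H → ℝ≥0∞) (b : V) (t : V → ℝ≥0∞)
    (col : V → Option Bool) (r : V → ℕ) : List H → Prop
  | [] => True
  | h :: xs => vert h = ed vert σ b xs ∧ col (vert (σ h)) = some false ∧ vert (σ h) ≠ b ∧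
      t (vert h) + T false s(h, σ h) = t (vert (σ h)) ∧ r (vert h) < r (vert (σ h)) ∧
      BCh vert σ T b t col r xs

/-- Walks of `k` edges and of red length at most `C` from `x` to `y` all of whose vertices
satisfy `A`. -/
def SW (vert : H → V) (σ : Mt H) (ω : Wt H) (A : V → Prop) : ℕ → ℝ → V → V → Prop
  | 0, C, x, y => x = y ∧ 0 ≤ C ∧ A x
  | (k + 1), C, x, y => A x ∧ ∃ h, vert h = x ∧
      SW vert σ ω A k (C - wt true σ ω h) (vert (σ h)) y

/-- The cost of exploring `g` generations. -/
def sz (m : ℕ) : ℕ → ℕ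
  | 0 => 1
  | (g + 1) => 1 + m * sz m g

/-- The vertices of the revealed pairs lie in `U`. -/
def St (vert : H → V) (l : List (H × H)) (U : Finset V) : Prop :=
  (∀ g ∈ dom l, vert g ∈ U) ∧ (dom l).card ≤ 2 * U.card

/-- Sampling a free half-edge is nearly sampling from `ρ`. -/
structure Env (vert : H → V) (ρ : Measure ℕ) (m R : ℕ) (e : ℝ≥0∞) : Prop where
  up : ∀ (l : List (H × H)) (U : Finset V) (h : H), St vert l U → U.card ≤ R → h ∉ dom l →
    ∀ (φ : ℕ → ℝ≥0∞) (B : ℝ≥0∞), (∀ k, φ k ≤ B) →
      (∑ y ∈ (fr l h).filter (fun y => vert y ∉ U ∧ deg vert (vert y) < m),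
        φ (deg vert (vert y) - 1)) / (fr l h).card ≤
        ∫⁻ k in {k : ℕ | k + 1 < m}, φ k ∂ρ + e * B
  lo : ∀ (l : List (H × H)) (U : Finset V) (h : H), St vert l U → U.card ≤ R → h ∉ dom l →
    ∀ (φ : ℕ → ℝ≥0∞) (B : ℝ≥0∞), (∀ k, φ k ≤ B) →
      ∫⁻ k in {k : ℕ | k + 1 < m}, φ k ∂ρ ≤
        (∑ y ∈ (fr l h).filter (fun y => vert y ∉ U ∧ deg vert (vert y) < m),
          φ (deg vert (vert y) - 1)) / (fr l h).card + e * B
  hit : ∀ (l : List (H × H)) (U : Finset V) (h : H), St vert l U → U.card ≤ R → h ∉ dom l →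
    (((fr l h).filter (fun y => vert y ∈ U)).card : ℝ≥0∞) / (fr l h).card ≤ e
  ne : ∀ (l : List (H × H)) (U : Finset V) (h : H), St vert l U → U.card ≤ R → h ∉ dom l →
    (fr l h).Nonempty

end Pool.Agent.H949.DX
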